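import Pool.Agent.H752R3.Selection

/-!
Characteristic functions of ranges of strictly increasing functions.
-/

namespace Pool.Agent.H752R3

open Set Filter Cardinal

/-- The characteristic function of the range of `psum f`. -/
noncomputable def chi (f : ℕ → ℕ) : ℕ → Bool := by
  classical exact fun m => decide (∃ n ∈ Finset.range (m + 1), psum f n = m)

theorem chi_eq_true {f : ℕ → ℕ} {m : ℕ} : chi f m = true ↔ ∃ n, psum f n = m := by
  simp only [chi, decide_eq_true_eq]
  constructor
  · rintro ⟨n, -, h⟩; exact ⟨n, h⟩
  · rintro ⟨n, h⟩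
    refine ⟨n, Finset.mem_range.2 ?_, h⟩
    have := (psum_strictMono f).le_apply (x := n)
    omega

theorem continuous_chi : Continuous chi := by
  classical
  apply continuous_pi
  intro m
  rw [continuous_bool_rng true]
  have : (fun f : ℕ → ℕ => chi f m) ⁻¹' {true} =
      ⋃ n ∈ Finset.range (m + 1), {f : ℕ → ℕ | psum f n = m} := by
    ext f
    simp [chi]
  rw [this]
  apply isClopen_biUnion_finset
  intro n _
  exact (isClopen_discrete ({m} : Set ℕ)).preimage
    ((continuous_apply n : Continuous fun x : ℕ → ℕ => x n).comp continuous_psum)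

/-- Number of elements below `k`. -/
def cnt (k : ℕ) (q : ℕ → Bool) : ℕ := ∑ i ∈ Finset.range k, (if q i = true then 1 else 0)

theorem continuous_cnt (k : ℕ) : Continuous (cnt k) := by
  unfold cnt
  apply continuous_finsetSum
  intro i _
  exact (continuous_of_discreteTopology (f := fun b : Bool => if b = true then 1 else 0)).comp
    (continuous_apply i : Continuous fun x : ℕ → Bool => x i)

theorem cnt_mono {k l : ℕ} (h : k ≤ l) (q : ℕ → Bool) : cnt k q ≤ cnt l q := by
  unfold cnt
  exact Finset.sum_le_sum_of_subset (Finset.range_mono h)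

theorem cnt_chi_le {f : ℕ → ℕ} {k n : ℕ} (h : k ≤ psum f n) : cnt k (chi f) ≤ n := by
  classical
  unfold cnt
  rw [← Finset.card_filter]
  have : (Finset.range k).filter (fun i => chi f i = true) ⊆ (Finset.range n).image (psum f) := by
    intro i hi
    obtain ⟨h1, h2⟩ := Finset.mem_filter.1 hi
    obtain ⟨m, rfl⟩ := chi_eq_true.1 h2
    refine Finset.mem_image.2 ⟨m, Finset.mem_range.2 ?_, rfl⟩
    have h3 := Finset.mem_range.1 h1
    exact (psum_strictMono f).lt_iff_lt.1 (lt_of_lt_of_le h3 h)
  calc _ ≤ _ := Finset.card_le_card this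
    _ ≤ _ := Finset.card_image_le
    _ = n := Finset.card_range n

theorem lt_cnt_chi (f : ℕ → ℕ) (n : ℕ) : n < cnt (psum f n + 1) (chi f) := by
  classical
  unfold cnt
  rw [← Finset.card_filter]
  have : (Finset.range (n + 1)).image (psum f) ⊆
      (Finset.range (psum f n + 1)).filter (fun i => chi f i = true) := by
    intro i hi
    obtain ⟨m, hm, rfl⟩ := Finset.mem_image.1 hi
    have h1 : m ≤ n := Nat.lt_succ_iff.1 (Finset.mem_range.1 hm)
    refine Finset.mem_filter.2 ⟨Finset.mem_range.2 ?_, chi_eq_true.2 ⟨m, rfl⟩⟩
    exact Nat.lt_succ_of_le ((psum_strictMono f).monotone h1)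
  have h2 := Finset.card_le_card this
  rw [Finset.card_image_of_injective _ (psum_strictMono f).injective, Finset.card_range] at h2
  omega

theorem not_finSupp_chi (f : ℕ → ℕ) : ¬ FinSupp (chi f) := by
  rintro ⟨k, hk⟩
  have h1 := hk (psum f k) (psum_strictMono f).le_apply
  rw [chi_eq_true.2 ⟨k, rfl⟩] at h1
  exact Bool.noConfusion h1

theorem finSupp_countable : {z : ℕ → Bool | FinSupp z}.Countable := by
  have : {z : ℕ → Bool | FinSupp z} = ⋃ k, range (extB k) := by
    ext z
    simp only [mem_ofPred_eq, mem_iUnion, mem_range]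
    constructor
    · rintro ⟨k, hk⟩
      refine ⟨k, fun i => z i, ?_⟩
      ext m
      by_cases h : m < k
      · simp [extB, h]
      · simp [extB, h, hk m (not_lt.1 h)]
    · rintro ⟨k, s, rfl⟩
      exact finSupp_extB k s
  rw [this]
  exact countable_iUnion fun k => Set.countable_range _


theorem chi_injective : Function.Injective chi := by
  intro f g h
  have h1 : range (psum f) = range (psum g) := by
    ext m
    have := congrFun h m
    constructor
    · intro hm
      have h2 : chi f m = true := chi_eq_true.2 hm
      rw [this] at h2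
      exact chi_eq_true.1 h2
    · intro hm
      have h2 : chi g m = true := chi_eq_true.2 hm
      rw [← this] at h2
      exact chi_eq_true.1 h2
  have h2 : psum f = psum g := ((psum_strictMono f).range_inj (psum_strictMono g)).1 h1
  ext n
  cases n with
  | zero =>
    have := congrFun h2 0
    simpa [psum] using this
  | succ n =>
    have h3 := congrFun h2 n
    have h4 := congrFun h2 (n + 1)
    unfold psum at h3 h4
    rw [Finset.sum_range_succ, Finset.sum_range_succ _ (n + 1), h3] at h4
    omega

theorem exists_lt_cnt_of_not_finSupp {q : ℕ → Bool} (h : ¬ FinSupp q) (n : ℕ) :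
    ∃ k, n < cnt k q := by
  induction n with
  | zero =>
    unfold FinSupp at h
    push Not at h
    obtain ⟨m, _, hm⟩ := h 0
    refine ⟨m + 1, ?_⟩
    unfold cnt
    rw [Finset.sum_range_succ]
    simp [hm]
  | succ n ih =>
    obtain ⟨k, hk⟩ := ih
    unfold FinSupp at h
    push Not at h
    obtain ⟨m, hkm, hm⟩ := h k
    refine ⟨m + 1, ?_⟩
    have h1 := cnt_mono hkm q
    have h2 : cnt (m + 1) q = cnt m q + 1 := by
      unfold cnt
      rw [Finset.sum_range_succ]
      simp [hm]
    omega

end Pool.Agent.H752R3
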