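import Pool.Agent.H752R3.Selection

/-!
A Hurewicz space which is concentrated on a countable set is productively Hurewicz.
-/

namespace Pool.Agent.H752R3

open Set Filter

/-- Simultaneous boxes around countably many points. -/
theorem boxes {X Y : Type*} [TopologicalSpace X] [TopologicalSpace Y] (hY : HurewiczSp Y)
    (U : ℕ → Set (Set (X × Y))) (hU : ∀ n, (∀ u ∈ U n, IsOpen u) ∧ ⋃₀ U n = Set.univ)
    (c : ℕ → X) :
    ∃ (W : ℕ → Set X) (G : ℕ → Set Y) (E : ℕ → ℕ → Set (Set (X × Y))),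
      (∀ n, IsOpen (W n)) ∧ (∀ n, ∀ i ≤ n, c i ∈ W n) ∧
      (∀ n, ∀ m ≤ n, E n m ⊆ U m ∧ (E n m).Finite ∧ ∀ x ∈ W n, ∀ y ∈ G n, (x, y) ∈ ⋃₀ E n m) ∧
      ∀ y, ∀ᶠ n in atTop, y ∈ G n := by
  classical
  let 𝒱 : ℕ → Set (Set Y) := fun n => {V | IsOpen V ∧ ∃ W : Set X, IsOpen W ∧
    (∀ i ≤ n, c i ∈ W) ∧ ∀ m ≤ n, ∃ E ⊆ U m, E.Finite ∧ ∀ x ∈ W, ∀ y ∈ V, (x, y) ∈ ⋃₀ E}
  have h𝒱 : ∀ n, (∀ V ∈ 𝒱 n, IsOpen V) ∧ ⋃₀ 𝒱 n = Set.univ := by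
    intro n
    refine ⟨fun V hV => hV.1, ?_⟩
    rw [eq_univ_iff_forall]
    intro y
    have h1 : ∀ t : Fin (n + 1) × Fin (n + 1), ∃ (A : Set X) (B : Set Y) (u : Set (X × Y)),
        IsOpen A ∧ IsOpen B ∧ c t.1 ∈ A ∧ y ∈ B ∧ u ∈ U t.2 ∧ A ×ˢ B ⊆ u := by
      intro t
      have : (c t.1, y) ∈ ⋃₀ U t.2 := by rw [(hU t.2).2]; trivial
      obtain ⟨u, hu, hcu⟩ := this
      obtain ⟨A, B, hA, hB, hcA, hyB, hsub⟩ := isOpen_prod_iff.1 ((hU t.2).1 u hu) _ _ hcu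
      exact ⟨A, B, u, hA, hB, hcA, hyB, hu, hsub⟩
    choose A B u hA hB hcA hyB hu hsub using h1
    refine ⟨⋂ t, B t, ⟨isOpen_iInter_of_finite hB, ⋃ i : Fin (n + 1), ⋂ m : Fin (n + 1), A (i, m),
      isOpen_iUnion fun i => isOpen_iInter_of_finite fun m => hA (i, m), fun i hi => ?_,
      fun m hm => ⟨range fun i : Fin (n + 1) => u (i, ⟨m, Nat.lt_succ_of_le hm⟩), ?_,
        Set.finite_range _, ?_⟩⟩, mem_iInter.2 hyB⟩
    · exact mem_iUnion.2 ⟨⟨i, Nat.lt_succ_of_le hi⟩, mem_iInter.2 fun m => hcA (_, m)⟩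
    · rintro _ ⟨i, rfl⟩
      exact hu (i, ⟨m, Nat.lt_succ_of_le hm⟩)
    · intro x hx y' hy'
      obtain ⟨i, hi⟩ := mem_iUnion.1 hx
      exact ⟨_, ⟨i, rfl⟩, hsub (i, ⟨m, Nat.lt_succ_of_le hm⟩)
        ⟨mem_iInter.1 hi _, mem_iInter.1 hy' _⟩⟩
  obtain ⟨F, hF1, hF2⟩ := hY 𝒱 h𝒱
  have h2 : ∀ n, ∃ W : Set X, IsOpen W ∧ (∀ i ≤ n, c i ∈ W) ∧
      ∀ m ≤ n, ∃ E ⊆ U m, E.Finite ∧ ∀ x ∈ W, ∀ y ∈ ⋃₀ F n, (x, y) ∈ ⋃₀ E := by
    intro n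
    have h3 : ∀ V : F n, ∃ W : Set X, IsOpen W ∧ (∀ i ≤ n, c i ∈ W) ∧
      ∀ m ≤ n, ∃ E ⊆ U m, E.Finite ∧ ∀ x ∈ W, ∀ y ∈ (V : Set Y), (x, y) ∈ ⋃₀ E :=
      fun V => ((hF1 n).1 V.2).2
    choose W hW1 hW2 E hE1 hE2 hE3 using h3
    have : Finite (F n) := (hF1 n).2.to_subtype
    refine ⟨⋂ V, W V, isOpen_iInter_of_finite hW1, fun i hi => mem_iInter.2 fun V => hW2 V i hi,
      fun m hm => ⟨⋃ V, E V m hm, iUnion_subset fun V => hE1 V m hm,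
        Set.finite_iUnion fun V => hE2 V m hm, fun x hx y hy => ?_⟩⟩
    obtain ⟨V, hV, hyV⟩ := hy
    obtain ⟨v, hv, hv'⟩ := hE3 ⟨V, hV⟩ m hm x (mem_iInter.1 hx _) y hyV
    exact ⟨v, mem_iUnion.2 ⟨⟨V, hV⟩, hv⟩, hv'⟩
  choose W hW1 hW2 E hE1 hE2 hE3 using h2
  refine ⟨W, fun n => ⋃₀ F n, fun n m => if h : m ≤ n then E n m h else ∅, hW1, hW2, ?_, hF2⟩
  intro n m hm
  simp only [dif_pos hm]
  exact ⟨hE1 n m hm, hE2 n m hm, hE3 n m hm⟩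

/-- **A Hurewicz space concentrated on a countable set is productively Hurewicz** (with respect
to all topological spaces). -/
theorem hurewicz_prod_of_concentrated {X Y : Type*} [TopologicalSpace X] [TopologicalSpace Y]
    (hX : HurewiczSp X) {Q : Set X} (hQ : Q.Countable)
    (hconc : ∀ U : Set X, IsOpen U → Q ⊆ U → Uᶜ.Countable) (hY : HurewiczSp Y) :
    HurewiczSp (X × Y) := by
  classical
  intro U hU
  rcases isEmpty_or_nonempty X with hemp | ⟨⟨x0⟩⟩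
  · exact ⟨fun _ => ∅, fun n => ⟨empty_subset _, Set.finite_empty⟩, fun z => hemp.elim z.1⟩
  -- first boxes, around `Q`
  obtain ⟨c, hc⟩ := (hQ.insert x0).exists_eq_range ⟨x0, mem_insert _ _⟩
  obtain ⟨W, G, E, hWo, hcW, hE, hG⟩ := boxes hY U hU c
  let C0 : Set X := ⋃ m, (⋃ n, ⋃ (_ : m ≤ n), W n)ᶜ
  have hC0 : C0.Countable := by
    apply countable_iUnion
    intro m
    apply hconc
    · exact isOpen_iUnion fun n => isOpen_iUnion fun _ => hWo n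
    · intro q hq
      have : q ∈ insert x0 Q := Or.inr hq
      rw [hc] at this
      obtain ⟨i, rfl⟩ := this
      exact mem_iUnion.2 ⟨max i m, mem_iUnion.2 ⟨le_max_right _ _, hcW _ i (le_max_left _ _)⟩⟩
  -- second boxes, around the exceptional set
  obtain ⟨c', hc'⟩ := (hC0.insert x0).exists_eq_range ⟨x0, mem_insert _ _⟩
  obtain ⟨W', G', E', hWo', hcW', hE', hG'⟩ := boxes hY U hU c'
  -- a sequence of open covers of `X`
  let T : ℕ → ℕ → Set X := fun m k => ⋃ n ∈ Finset.Icc m k, (W n ∪ W' n)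
  obtain ⟨F, hF1, hF2⟩ := hX (fun m => range (T m)) (by
    intro m
    refine ⟨?_, ?_⟩
    · rintro _ ⟨k, rfl⟩
      exact isOpen_biUnion fun n _ => (hWo n).union (hWo' n)
    · rw [eq_univ_iff_forall]
      intro x
      by_cases hx : x ∈ C0
      · have : x ∈ insert x0 C0 := Or.inr hx
        rw [hc'] at this
        obtain ⟨i, rfl⟩ := this
        exact ⟨_, ⟨max i m, rfl⟩, mem_iUnion₂.2 ⟨max i m,
          Finset.mem_Icc.2 ⟨le_max_right _ _, le_refl _⟩, Or.inr (hcW' _ i (le_max_left _ _))⟩⟩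
      · have h1 : x ∈ ⋃ n, ⋃ (_ : m ≤ n), W n := by
          by_contra hcon
          exact hx (mem_iUnion.2 ⟨m, hcon⟩)
        obtain ⟨n, hn⟩ := mem_iUnion.1 h1
        obtain ⟨hmn, hxn⟩ := mem_iUnion.1 hn
        exact ⟨_, ⟨n, rfl⟩, mem_iUnion₂.2 ⟨n, Finset.mem_Icc.2 ⟨hmn, le_refl _⟩, Or.inl hxn⟩⟩)
  have hK : ∀ m, ∃ K, ∀ x ∈ ⋃₀ F m, ∃ n ∈ Finset.Icc m K, x ∈ W n ∪ W' n := by
    intro m
    obtain ⟨B, -, hB2, hB3⟩ : ∃ B ⊆ (Set.univ : Set ℕ), B.Finite ∧ T m '' B = F m := by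
      have := Set.exists_subset_image_finite_and (f := T m) (s := Set.univ)
        (p := fun t => t = F m)
      obtain ⟨B', h1, h2, h3⟩ := this.1 ⟨F m, by rw [image_univ]; exact (hF1 m).1,
        (hF1 m).2, rfl⟩
      exact ⟨B', h1, h2, h3⟩
    obtain ⟨K, hK⟩ := hB2.bddAbove
    refine ⟨K, ?_⟩
    rintro x ⟨t, ht, hx⟩
    rw [← hB3] at ht
    obtain ⟨k, hk, rfl⟩ := ht
    obtain ⟨n, hn, hxn⟩ := mem_iUnion₂.1 hx
    have h1 := Finset.mem_Icc.1 hn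
    exact ⟨n, Finset.mem_Icc.2 ⟨h1.1, h1.2.trans (hK hk)⟩, hxn⟩
  choose K hK using hK
  refine ⟨fun m => ⋃ n ∈ Finset.Icc m (K m), (E n m ∪ E' n m), fun m => ⟨?_, ?_⟩, ?_⟩
  · apply iUnion₂_subset
    intro n hn
    have h1 := Finset.mem_Icc.1 hn
    exact union_subset (hE n m h1.1).1 (hE' n m h1.1).1
  · apply Set.Finite.biUnion (Finset.finite_toSet _)
    intro n hn
    have h1 := Finset.mem_Icc.1 (Finset.mem_coe.1 hn)
    exact (hE n m h1.1).2.1.union (hE' n m h1.1).2.1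
  · rintro ⟨x, y⟩
    obtain ⟨a, ha⟩ := eventually_atTop.1 (hG y)
    obtain ⟨a', ha'⟩ := eventually_atTop.1 (hG' y)
    filter_upwards [hF2 x, eventually_ge_atTop (max a a')] with m hm ham
    obtain ⟨n, hn, hxn⟩ := hK m x hm
    have h1 := Finset.mem_Icc.1 hn
    rcases hxn with hxn | hxn
    · obtain ⟨v, hv, hv'⟩ := (hE n m h1.1).2.2 x hxn y
        (ha n (((le_max_left _ _).trans ham).trans h1.1))
      exact ⟨v, mem_iUnion₂.2 ⟨n, hn, Or.inl hv⟩, hv'⟩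
    · obtain ⟨v, hv, hv'⟩ := (hE' n m h1.1).2.2 x hxn y
        (ha' n (((le_max_right _ _).trans ham).trans h1.1))
      exact ⟨v, mem_iUnion₂.2 ⟨n, hn, Or.inr hv⟩, hv'⟩

end Pool.Agent.H752R3
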