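import Mathlib

/-!
Deciding open sets of infinite subsets of `ℕ` along an ultrafilter.
-/

set_option autoImplicit false

namespace Pool.Agent.H752R3.Mono

open Set Filter

/-- the trace below `m` -/
def pre (x : ℕ → Bool) (m : ℕ) : Finset ℕ := (Finset.range m).filter (fun i => x i = true)

theorem mem_pre {x : ℕ → Bool} {m i : ℕ} : i ∈ pre x m ↔ i < m ∧ x i = true := by
  simp [pre]

theorem pre_succ_true {x : ℕ → Bool} {n : ℕ} (h : x n = true) :
    pre x (n + 1) = insert n (pre x n) := by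
  ext i
  rw [Finset.mem_insert, mem_pre, mem_pre]
  constructor
  · rintro ⟨h1, h2⟩
    rcases Nat.lt_succ_iff_lt_or_eq.1 h1 with h3 | h3
    · exact Or.inr ⟨h3, h2⟩
    · exact Or.inl h3
  · rintro (h1 | ⟨h1, h2⟩)
    · exact ⟨by omega, h1 ▸ h⟩
    · exact ⟨by omega, h2⟩

theorem pre_eq_of_gap {x : ℕ → Bool} {m n : ℕ} (hmn : m ≤ n)
    (h : ∀ i, m ≤ i → i < n → x i = false) : pre x n = pre x m := by
  ext i
  rw [mem_pre, mem_pre]
  constructor
  · rintro ⟨h1, h2⟩
    refine ⟨?_, h2⟩
    by_contra h3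
    rw [h i (not_lt.1 h3) h1] at h2
    cases h2
  · rintro ⟨h1, h2⟩
    exact ⟨by omega, h2⟩

theorem pre_succ_false {x : ℕ → Bool} {n : ℕ} (h : x n = false) :
    pre x (n + 1) = pre x n :=
  pre_eq_of_gap (Nat.le_succ n) (fun i h1 h2 => by
    have : i = n := by omega
    rw [this]
    exact h)

theorem agree_of_pre {x y : ℕ → Bool} {m : ℕ} (h : pre x m = pre y m) : ∀ i < m, x i = y i := by
  intro i hi
  have h1 : i ∈ pre x m ↔ i ∈ pre y m := by rw [h]
  rw [mem_pre, mem_pre] at h1
  cases hx : x i <;> cases hy : y i <;> simp_all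

/-- infinite support -/
def Infi (x : ℕ → Bool) : Prop := {i | x i = true}.Infinite

/-- `x` follows the strategy `T` from `m` on -/
def Fol (T : Finset ℕ → Set ℕ) (m : ℕ) (x : ℕ → Bool) : Prop :=
  ∀ b, m ≤ b → x b = true → b ∈ T (pre x b)

/-- some strategy forces the points extending `s` into `O` -/
def Str (V : Ultrafilter ℕ) (O : Set (ℕ → Bool)) (s : Finset ℕ) (m : ℕ) : Prop :=
  ∃ T : Finset ℕ → Set ℕ, (∀ t, T t ∈ V) ∧ ∀ x, Infi x → pre x m = s → Fol T m x → x ∈ O

theorem exists_next_mem {x : ℕ → Bool} (hx : Infi x) (m : ℕ) :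
    ∃ b, m ≤ b ∧ x b = true ∧ ∀ i, m ≤ i → i < b → x i = false := by
  classical
  have hex : ∃ b, m ≤ b ∧ x b = true := by
    obtain ⟨b, hb, hmb⟩ := hx.exists_gt m
    exact ⟨b, hmb.le, hb⟩
  refine ⟨Nat.find hex, (Nat.find_spec hex).1, (Nat.find_spec hex).2, ?_⟩
  intro i h1 h2
  have h3 := Nat.find_min hex h2
  cases hxi : x i
  · rfl
  · exact absurd ⟨h1, hxi⟩ h3

theorem str_step {V : Ultrafilter ℕ} (hV : ∀ n, Ici n ∈ V) {O : Set (ℕ → Bool)} {s : Finset ℕ}
    {m : ℕ} (h : ¬ Str V O s m) : {b | ¬ Str V O (insert b s) (b + 1)} ∈ V := by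
  classical
  by_contra hcon
  rw [← Ultrafilter.compl_mem_iff_notMem] at hcon
  apply h
  set S : Set ℕ := {b | ¬ Str V O (insert b s) (b + 1)}ᶜ ∩ Ici m with hS
  have hSV : S ∈ V := inter_mem hcon (hV m)
  have hch : ∀ b, ∃ T : Finset ℕ → Set ℕ, (∀ t, T t ∈ V) ∧ (b ∈ S → ∀ x, Infi x →
      pre x (b + 1) = insert b s → Fol T (b + 1) x → x ∈ O) := by
    intro b
    by_cases hb : b ∈ S
    · have h1 : Str V O (insert b s) (b + 1) := by
        by_contra h2
        exact hb.1 h2
      obtain ⟨T, hT1, hT2⟩ := h1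
      exact ⟨T, hT1, fun _ => hT2⟩
    · exact ⟨fun _ => univ, fun _ => univ_mem, fun h => absurd h hb⟩
  choose T' hT'1 hT'2 using hch
  refine ⟨fun t => if t = s then S else T' (sInf ((t : Set ℕ) \ s)) t, ?_, ?_⟩
  · intro t
    by_cases ht : t = s
    · simp only [ht, if_true]
      exact hSV
    · simp only [ht, if_false]
      exact hT'1 _ _
  · intro x hx hxs hfol
    obtain ⟨b, hmb, hxb, hgap⟩ := exists_next_mem hx m
    have hpb : pre x b = s := by rw [pre_eq_of_gap hmb hgap, hxs]
    have hbS : b ∈ S := by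
      have h1 := hfol b hmb hxb
      simp only [hpb, if_true] at h1
      exact h1
    refine hT'2 b hbS x hx (by rw [pre_succ_true hxb, hpb]) ?_
    intro b' hb' hxb'
    have h1 := hfol b' (by omega) hxb'
    have hbt : b ∈ pre x b' := mem_pre.2 ⟨by omega, hxb⟩
    have hbs : b ∉ s := by
      rw [← hxs, mem_pre]
      rintro ⟨h2, _⟩
      omega
    have hne : pre x b' ≠ s := fun h => hbs (h ▸ hbt)
    simp only [hne, if_false] at h1
    have hinf : sInf ((pre x b' : Set ℕ) \ s) = b := by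
      apply le_antisymm
      · exact Nat.sInf_le ⟨hbt, hbs⟩
      · refine le_csInf (s := (pre x b' : Set ℕ) \ (s : Set ℕ)) ⟨b, hbt, hbs⟩ ?_
        rintro i ⟨hi, his⟩
        have h3 := mem_pre.1 (Finset.mem_coe.1 hi)
        by_contra hcon2
        have hib : i < b := not_le.1 hcon2
        have him : m ≤ i := by
          by_contra h4
          apply his
          rw [← hxs]
          exact Finset.mem_coe.2 (mem_pre.2 ⟨not_le.1 h4, h3.2⟩)
        rw [hgap i him hib] at h3
        cases h3.2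
    rw [hinf] at h1
    exact h1

theorem str_succ {V : Ultrafilter ℕ} (hV : ∀ n, Ici n ∈ V) {O : Set (ℕ → Bool)} {t : Finset ℕ}
    {n : ℕ} (h : Str V O t (n + 1)) : Str V O t n := by
  obtain ⟨T, hT1, hT2⟩ := h
  refine ⟨fun u => T u ∩ Ici (n + 1), fun u => inter_mem (hT1 u) (hV _), ?_⟩
  intro x hx hxt hfol
  have hxn : x n = false := by
    cases h : x n
    · rfl
    · have h1 := (hfol n le_rfl h).2
      rw [mem_Ici] at h1
      omega
  refine hT2 x hx (by rw [pre_succ_false hxn, hxt]) ?_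
  intro b hb hxb
  exact (hfol b (by omega) hxb).1

theorem exists_agree {O : Set (ℕ → Bool)} (hO : IsOpen O) {x : ℕ → Bool} (hx : x ∈ O) (m : ℕ) :
    ∃ n, m ≤ n ∧ ∀ y, (∀ i < n, x i = y i) → y ∈ O := by
  obtain ⟨I, u, hu, hsub⟩ := isOpen_pi_iff.1 hO x hx
  refine ⟨max m (I.sup id + 1), le_max_left _ _, fun y hy => hsub ?_⟩
  intro i hi
  have h1 : i ≤ I.sup id := Finset.le_sup (f := id) (Finset.mem_coe.1 hi)
  have h2 : x i = y i := hy i (by
    have := le_max_right m (I.sup id + 1)
    omega)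
  rw [← h2]
  exact (hu i (Finset.mem_coe.1 hi)).2

/-- Open sets are decided by strategies. -/
theorem dec {V : Ultrafilter ℕ} (hV : ∀ n, Ici n ∈ V) {O : Set (ℕ → Bool)} (hO : IsOpen O)
    (s : Finset ℕ) (m : ℕ) :
    ∃ T : Finset ℕ → Set ℕ, (∀ t, T t ∈ V) ∧
      ((∀ x, Infi x → pre x m = s → Fol T m x → x ∈ O) ∨
        (∀ x, Infi x → pre x m = s → Fol T m x → x ∉ O)) := by
  classical
  by_cases h : Str V O s m
  · obtain ⟨T, h1, h2⟩ := h
    exact ⟨T, h1, Or.inl h2⟩
  · refine ⟨fun t => if {b | ¬ Str V O (insert b t) (b + 1)} ∈ V then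
      {b | ¬ Str V O (insert b t) (b + 1)} else univ, ?_, Or.inr ?_⟩
    · intro t
      by_cases ht : {b | ¬ Str V O (insert b t) (b + 1)} ∈ V
      · simp only [ht, if_true]
      · simp only [ht, if_false]
        exact univ_mem
    · intro x hx hxs hfol hxO
      have key : ∀ n, m ≤ n → ¬ Str V O (pre x n) n := by
        intro n hn
        induction n, hn using Nat.le_induction with
        | base => rw [hxs]; exact h
        | succ n hn ih =>
          cases hxn : x n
          · rw [pre_succ_false hxn]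
            exact fun h => ih (str_succ hV h)
          · rw [pre_succ_true hxn]
            have h1 := hfol n hn hxn
            have h2 := str_step hV ih
            simp only [h2, if_true] at h1
            exact h1
      obtain ⟨n, hmn, hn⟩ := exists_agree hO hxO m
      apply key n hmn
      refine ⟨fun _ => univ, fun _ => univ_mem, fun y _ hy _ => ?_⟩
      exact hn y (agree_of_pre hy.symm)

/-- Fusion: a set below which each `O n` is decided at its `n`-th element. -/
theorem exists_decided {B : Set ℕ} (hB : B.Infinite) {O : ℕ → Set (ℕ → Bool)}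
    (hO : ∀ n, IsOpen (O n)) :
    ∃ e : ℕ → ℕ, StrictMono e ∧ (∀ n, e n ∈ B) ∧ ∀ n, ∀ s : Finset ℕ,
      (∀ x, Infi x → pre x (e n + 1) = s → (∀ b, e n < b → x b = true → b ∈ range e) → x ∈ O n) ∨
      (∀ x, Infi x → pre x (e n + 1) = s → (∀ b, e n < b → x b = true → b ∈ range e) →
        x ∉ O n) := by
  classical
  have hne : (cofinite ⊓ 𝓟 B : Filter ℕ).NeBot := hB.cofinite_inf_principal_neBot
  set V : Ultrafilter ℕ := Ultrafilter.of (cofinite ⊓ 𝓟 B) with hVdef
  have hle : (V : Filter ℕ) ≤ cofinite ⊓ 𝓟 B := Ultrafilter.of_le _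
  have hBV : B ∈ V := hle (mem_inf_of_right (mem_principal_self B))
  have hV : ∀ n, Ici n ∈ V := by
    intro n
    apply hle
    apply mem_inf_of_left
    rw [mem_cofinite]
    apply (finite_lt_nat n).subset
    intro i hi
    rw [mem_compl_iff, mem_Ici, not_le] at hi
    exact hi
  choose T hT1 hT2 using fun (n : ℕ) (m : ℕ) (s : Finset ℕ) => dec hV (hO n) s m
  let R : ℕ → Set ℕ := fun M => (B ∩ Ici M) ∩ ⋂ n ∈ Finset.range (M + 1),
    ⋂ m ∈ Finset.range (M + 1), ⋂ s ∈ (Finset.range M).powerset,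
      ⋂ t ∈ (Finset.range M).powerset, T n m s t
  have hR : ∀ M, R M ∈ V := by
    intro M
    refine inter_mem (inter_mem hBV (hV M)) ?_
    rw [Filter.biInter_finset_mem]
    intro n _
    rw [Filter.biInter_finset_mem]
    intro m _
    rw [Filter.biInter_finset_mem]
    intro s _
    rw [Filter.biInter_finset_mem]
    intro t _
    exact hT1 n m s t
  have hRne : ∀ M, ∃ b, b ∈ R M := fun M => V.nonempty_of_mem (hR M)
  choose f hf using hRne
  let e : ℕ → ℕ := fun k => Nat.rec (motive := fun _ => ℕ) (f 0) (fun _ v => f (v + 1)) k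
  have he1 : ∀ k, e (k + 1) = f (e k + 1) := fun k => rfl
  have hmono : StrictMono e := by
    apply strictMono_nat_of_lt_succ
    intro k
    have h1 : e k + 1 ≤ f (e k + 1) := (hf (e k + 1)).1.2
    rw [he1]
    omega
  have heB : ∀ k, e k ∈ B := by
    intro k
    cases k with
    | zero => exact (hf 0).1.1
    | succ k => rw [he1]; exact (hf _).1.1
  refine ⟨e, hmono, heB, fun n s => ?_⟩
  have key : ∀ x, pre x (e n + 1) = s → (∀ b, e n < b → x b = true → b ∈ range e) →
      Fol (T n (e n + 1) s) (e n + 1) x := by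
    intro x hxs hx b hb hxb
    obtain ⟨j, hj⟩ := hx b (by omega) hxb
    have hnj : n < j := hmono.lt_iff_lt.1 (by omega)
    obtain ⟨j', rfl⟩ := Nat.exists_eq_succ_of_ne_zero (by omega : j ≠ 0)
    have hj' : e (j' + 1) = b := hj
    rw [he1] at hj'
    have h1 := (hf (e j' + 1)).2
    rw [hj'] at h1
    simp only [mem_iInter] at h1
    have hnj' : e n ≤ e j' := hmono.monotone (by omega)
    have hn0 : n ≤ e n := hmono.id_le n
    refine h1 n (Finset.mem_range.2 (by omega)) (e n + 1) (Finset.mem_range.2 (by omega)) s ?_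
      (pre x b) ?_
    · rw [Finset.mem_powerset, ← hxs]
      intro i hi
      have := (mem_pre.1 hi).1
      exact Finset.mem_range.2 (by omega)
    · rw [Finset.mem_powerset]
      intro i hi
      obtain ⟨h2, h3⟩ := mem_pre.1 hi
      rw [Finset.mem_range]
      rcases lt_or_ge (e n) i with h4 | h4
      · obtain ⟨l, hl⟩ := hx i h4 h3
        have h5 : l < j' + 1 := hmono.lt_iff_lt.1 (by rw [hl]; rw [he1, hj']; exact h2)
        have h6 : e l ≤ e j' := hmono.monotone (by omega)
        omega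
      · omega
  rcases hT2 n (e n + 1) s with h | h
  · exact Or.inl fun x hx hxs hxe => h x hx hxs (key x hxs hxe)
  · exact Or.inr fun x hx hxs hxe => h x hx hxs (key x hxs hxe)

end Pool.Agent.H752R3.Mono
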