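import Mathlib

/-!
Transfinite recursion along a well-order all of whose initial segments are countable, through a
countably closed preorder.
-/

namespace Pool.Agent.H752R3

open Set Filter Cardinal

/-- In a countably closed preorder, requirements indexed by a well-order with countable initial
segments can be met along a decreasing family. -/
theorem sigma_closed_recursion {ι : Type*} [LinearOrder ι] [WellFoundedLT ι]
    (hcount : ∀ a : ι, (Set.Iio a).Countable)
    {P : Type*} (le : P → P → Prop) (hrefl : ∀ p, le p p)
    (htrans : ∀ p q r, le p q → le q r → le p r) [Nonempty P]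
    (hclosed : ∀ p : ℕ → P, (∀ n, le (p (n + 1)) (p n)) → ∃ q, ∀ n, le q (p n))
    (R : ι → P → Prop) (hR : ∀ a p, ∃ q, le q p ∧ R a q) :
    ∃ F : ι → P, (∀ a b, a ≤ b → le (F b) (F a)) ∧ ∀ a, R a (F a) := by
  classical
  let step : ∀ a : ι, (∀ b : ι, b < a → P) → P := fun a f =>
    if h : ∃ q, (∀ b (hb : b < a), le q (f b hb)) ∧ R a q then h.choose
    else Classical.arbitrary P
  let F : ι → P := (wellFounded_lt (α := ι)).fix step
  have hF : ∀ a, F a = step a (fun b _ => F b) := fun a =>
    (wellFounded_lt (α := ι)).fix_eq step a
  have key : ∀ a, (∀ b, b < a → le (F a) (F b)) ∧ R a (F a) := by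
    intro a
    induction a using WellFoundedLT.induction with
    | ind a ih =>
      have hex : ∃ q, (∀ b, b < a → le q (F b)) ∧ R a q := by
        have hlow : ∃ q0, ∀ b, b < a → le q0 (F b) := by
          rcases (Set.Iio a).eq_empty_or_nonempty with he | hne
          · refine ⟨Classical.arbitrary P, fun b hb => ?_⟩
            have : b ∈ Set.Iio a := hb
            rw [he] at this
            exact absurd this (Set.notMem_empty b)
          · obtain ⟨e, he⟩ := (hcount a).exists_eq_range hne
            have hea : ∀ n, e n < a := fun n => by
              have : e n ∈ Set.Iio a := by rw [he]; exact ⟨n, rfl⟩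
              exact this
            let m : ℕ → ι := fun n => Nat.rec (e 0) (fun k x => max x (e (k + 1))) n
            have hm0 : m 0 = e 0 := rfl
            have hms : ∀ n, m (n + 1) = max (m n) (e (n + 1)) := fun n => rfl
            have hma : ∀ n, m n < a := by
              intro n
              induction n with
              | zero => exact hea 0
              | succ n ihn => rw [hms]; exact max_lt ihn (hea _)
            have hem : ∀ n, e n ≤ m n := by
              intro n
              cases n with
              | zero => exact le_refl _
              | succ n => rw [hms]; exact le_max_right _ _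
            have hle : ∀ b c, b ≤ c → c < a → le (F c) (F b) := by
              intro b c hbc hca
              rcases hbc.eq_or_lt with h | h
              · subst h; exact hrefl _
              · exact (ih c hca).1 b h
            obtain ⟨q, hq⟩ := hclosed (fun n => F (m n)) (fun n => by
              apply hle
              · rw [hms]; exact le_max_left _ _
              · exact hma (n + 1))
            refine ⟨q, fun b hb => ?_⟩
            have : b ∈ Set.Iio a := hb
            rw [he] at this
            obtain ⟨n, rfl⟩ := this
            exact htrans _ _ _ (hq n) (hle _ _ (hem n) (hma n))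
        obtain ⟨q0, hq0⟩ := hlow
        obtain ⟨q, hq, hqR⟩ := hR a q0
        exact ⟨q, fun b hb => htrans _ _ _ hq (hq0 b hb), hqR⟩
      have hstep : F a = hex.choose := by
        rw [hF]
        exact dif_pos hex
      rw [hstep]
      exact hex.choose_spec
  refine ⟨F, fun a b hab => ?_, fun a => (key a).2⟩
  rcases hab.eq_or_lt with h | h
  · subst h; exact hrefl _
  · exact (key b).1 a h

/-- A well-order of cardinality `ℵ₁` with countable initial segments. -/
theorem countable_Iio_omega1 (a : (ℵ₁ : Cardinal.{0}).ord.ToType) : (Set.Iio a).Countable := by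
  have h : #(Set.Iio a) < (ℵ₁ : Cardinal.{0}) := by simpa using Cardinal.mk_Iio_lt a
  rw [← Set.countable_coe_iff, ← Cardinal.mk_le_aleph0_iff]
  have h2 : (#(Set.Iio a)) < Order.succ ℵ₀ := by
    rw [Cardinal.succ_aleph0]; exact h
  exact Order.lt_succ_iff.1 h2

theorem countable_of_lt_aleph1 {α : Type} {X : Set α} (h : #X < (ℵ₁ : Cardinal.{0})) :
    X.Countable := by
  rw [← Cardinal.succ_aleph0, Order.lt_succ_iff] at h
  rw [← Set.countable_coe_iff, ← Cardinal.mk_le_aleph0_iff]
  exact h

/-- Under CH every nonempty type of cardinality at most the continuum is enumerated by `ω₁`. -/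
theorem exists_surjection_omega1 (CH : (ℵ₁ : Cardinal.{0}) = 𝔠) {α : Type} [Nonempty α]
    (h : #α ≤ 𝔠) : ∃ f : (ℵ₁ : Cardinal.{0}).ord.ToType → α, Function.Surjective f := by
  have hcard : #((ℵ₁ : Cardinal.{0}).ord.ToType) = ℵ₁ := Cardinal.mk_ord_toType _
  have : #α ≤ #((ℵ₁ : Cardinal.{0}).ord.ToType) := by rw [hcard, CH]; exact h
  obtain ⟨g⟩ := (Cardinal.le_def _ _).1 this
  exact ⟨Function.invFun g, Function.invFun_surjective g.injective⟩

end Pool.Agent.H752R3
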