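import Pool.Agent.H752R3.SmallG
import Pool.Agent.H752R3.Recursion

/-!
The sequential fan `S_ω` and embeddings into `C_p(X)`.
-/

set_option autoImplicit false

namespace Pool.Agent.H752R3.Fan

open Set Filter Topology
open scoped Cardinal

/-- The sequential fan `S_ω`: countably many convergent sequences with their limits identified. -/
abbrev Fan : Type :=
  Quot (fun p q : ℕ × OnePoint ℕ => p = q ∨ (p.2 = OnePoint.infty ∧ q.2 = OnePoint.infty))

/-- `C_p(X)`, with the topology of pointwise convergence. -/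
abbrev Cp (X : Type*) [TopologicalSpace X] : Type _ := {g : X → ℝ // Continuous g}

/-- The `m`-th point of the `n`-th sequence. -/
def pt (n m : ℕ) : Fan := Quot.mk _ (n, (m : OnePoint ℕ))

/-- The vertex of the fan. -/
def base : Fan := Quot.mk _ (0, OnePoint.infty)

theorem mk_infty (n : ℕ) : (Quot.mk _ (n, OnePoint.infty) : Fan) = base :=
  Quot.sound (Or.inr ⟨rfl, rfl⟩)

theorem fan_cases (z : Fan) : z = base ∨ ∃ n m, z = pt n m := by
  induction z using Quot.ind with
  | mk p =>
    obtain ⟨n, t⟩ := p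
    induction t using OnePoint.rec with
    | infty => left; exact mk_infty n
    | coe m => right; exact ⟨n, m, rfl⟩

theorem tendsto_pt (n : ℕ) : Tendsto (fun m => pt n m) atTop (𝓝 base) := by
  rw [← mk_infty n]
  have h1 : Tendsto (fun m : ℕ => (m : OnePoint ℕ)) atTop (𝓝 OnePoint.infty) := by
    have := OnePoint.tendsto_coe_infty (X := ℕ)
    rwa [coclosedCompact_eq_cocompact, cocompact_eq_cofinite, Nat.cofinite_eq_atTop] at this
  have h2 : Continuous (fun t : OnePoint ℕ => (Quot.mk _ (n, t) : Fan)) :=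
    continuous_quot_mk.comp (by fun_prop)
  exact (h2.tendsto _).comp h1

/-- The basic neighbourhoods of the vertex. -/
theorem isOpen_nbhd (g : ℕ → ℕ) : IsOpen {z : Fan | z = base ∨ ∃ n m, z = pt n m ∧ g n ≤ m} := by
  rw [← isQuotientMap_quot_mk.isOpen_preimage]
  have hsec : ∀ n : ℕ, IsOpen {t : OnePoint ℕ | (Quot.mk _ (n, t) : Fan) ∈
      {z : Fan | z = base ∨ ∃ n m, z = pt n m ∧ g n ≤ m}} := by
    intro n
    have hsub : (((↑) : ℕ → OnePoint ℕ) '' Iio (g n))ᶜ ⊆ {t : OnePoint ℕ |
        (Quot.mk _ (n, t) : Fan) ∈ {z : Fan | z = base ∨ ∃ n m, z = pt n m ∧ g n ≤ m}} := by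
      intro t ht
      induction t using OnePoint.rec with
      | infty => exact Or.inl (mk_infty n)
      | coe m =>
        refine Or.inr ⟨n, m, rfl, ?_⟩
        by_contra hcon
        exact ht ⟨m, not_le.1 hcon, rfl⟩
    have hopen : IsOpen (((↑) : ℕ → OnePoint ℕ) '' Iio (g n))ᶜ :=
      OnePoint.isOpen_compl_image_coe.2 ⟨isClosed_discrete _, (finite_Iio _).isCompact⟩
    rw [isOpen_iff_forall_mem_open]
    intro t ht
    induction t using OnePoint.rec with
    | infty =>
      refine ⟨_, hsub, hopen, ?_⟩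
      rintro ⟨m, _, hm⟩
      exact OnePoint.coe_ne_infty m hm
    | coe m =>
      refine ⟨((↑) : ℕ → OnePoint ℕ) '' {m}, ?_, OnePoint.isOpen_image_coe.2 (isOpen_discrete _),
        ⟨m, rfl, rfl⟩⟩
      rintro _ ⟨m', hm', rfl⟩
      rw [mem_singleton_iff.1 hm']
      exact ht
  have hun : (Quot.mk _ ⁻¹' {z : Fan | z = base ∨ ∃ n m, z = pt n m ∧ g n ≤ m} :
      Set (ℕ × OnePoint ℕ)) = ⋃ n : ℕ, {n} ×ˢ {t : OnePoint ℕ | (Quot.mk _ (n, t) : Fan) ∈
      {z : Fan | z = base ∨ ∃ n m, z = pt n m ∧ g n ≤ m}} := by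
    ext ⟨n, t⟩
    simp only [mem_preimage, mem_iUnion, mem_prod, mem_singleton_iff]
    constructor
    · intro h
      exact ⟨n, rfl, h⟩
    · rintro ⟨n', h1, h2⟩
      subst h1
      exact h2
  rw [hun]
  exact isOpen_iUnion fun n => (isOpen_discrete _).prod (hsec n)

/-- Finite powers of separable metrizable Menger spaces are Menger. -/
def PowersMenger : Prop :=
  ∀ (Y : Type) [TopologicalSpace Y] [TopologicalSpace.MetrizableSpace Y]
    [TopologicalSpace.SeparableSpace Y], MengerSp Y → ∀ k : ℕ, MengerSp (Fin k → Y)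

theorem MengerSp.range {X Y : Type*} [TopologicalSpace X] [TopologicalSpace Y] (hX : MengerSp X)
    {f : X → Y} (hf : Continuous f) : MengerSp (Set.range f) := by
  intro U hU
  let f' : X → Set.range f := Set.rangeFactorization f
  have hf' : Continuous f' := hf.subtype_mk _
  obtain ⟨F, hF1, hF2⟩ := hX (fun n => (fun u => f' ⁻¹' u) '' U n) (fun n => ⟨by
    rintro _ ⟨u, hu, rfl⟩
    exact ((hU n).1 u hu).preimage hf', by
    rw [eq_univ_iff_forall]
    intro x
    have h1 : f' x ∈ ⋃₀ U n := by rw [(hU n).2]; trivial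
    obtain ⟨u, hu, hxu⟩ := h1
    exact ⟨_, ⟨u, hu, rfl⟩, hxu⟩⟩)
  have h2 : ∀ n, ∃ G ⊆ U n, G.Finite ∧ (fun u => f' ⁻¹' u) '' G = F n := by
    intro n
    obtain ⟨G, h3, h4, h5⟩ := (Set.exists_subset_image_finite_and
      (f := fun u => f' ⁻¹' u) (s := U n) (p := fun t => t = F n)).1
      ⟨F n, (hF1 n).1, (hF1 n).2, rfl⟩
    exact ⟨G, h3, h4, h5⟩
  choose G hG1 hG2 hG3 using h2
  refine ⟨G, fun n => ⟨hG1 n, hG2 n⟩, ?_⟩
  rw [eq_univ_iff_forall]
  rintro ⟨_, x, rfl⟩
  have h6 : x ∈ ⋃ n, ⋃₀ F n := by rw [hF2]; trivial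
  obtain ⟨n, hn⟩ := mem_iUnion.1 h6
  rw [← hG3 n] at hn
  obtain ⟨_, ⟨u, hu, rfl⟩, hyu⟩ := hn
  exact mem_iUnion.2 ⟨n, u, hu, hyu⟩

/-- If finite powers of separable metrizable Menger spaces are Menger, then `S_ω` does not embed
into `C_p(X)` for Menger spaces `X`. -/
theorem no_embedding (hP : PowersMenger) {X : Type*} [TopologicalSpace X] (hX : MengerSp X) :
    ¬ ∃ f : Fan → Cp X, IsEmbedding f := by
  classical
  rintro ⟨f, hf⟩
  have hfc := hf.continuous
  let h : ℕ × ℕ → X → ℝ := fun p x => (f (pt p.1 p.2)).1 x - (f base).1 x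
  have hcont : ∀ p, Continuous (h p) := fun p => (f (pt p.1 p.2)).2.sub (f base).2
  have hlim : ∀ n x, Tendsto (fun m => h (n, m) x) atTop (𝓝 0) := by
    intro n x
    have h1 : Continuous (fun z : Fan => (f z).1 x) :=
      (continuous_apply x).comp (continuous_subtype_val.comp hfc)
    have h2 := (h1.tendsto base).comp (tendsto_pt n)
    have h3 := h2.sub_const ((f base).1 x)
    rw [sub_self] at h3
    exact h3
  -- the neighbourhoods of the vertex
  have hnb : ∀ g : ℕ → ℕ, ∃ (F : Finset X) (ε : ℝ), 0 < ε ∧ ∀ n m,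
      (∀ x ∈ F, |h (n, m) x| < ε) → g n ≤ m := by
    intro g
    obtain ⟨W, hW1, hW2⟩ := hf.isInducing.isOpen_iff.1 (isOpen_nbhd g)
    obtain ⟨W', hW'1, hW'2⟩ := isOpen_induced_iff.1 hW1
    have hb : (f base).1 ∈ W' := by
      have h1 : base ∈ f ⁻¹' W := by rw [hW2]; exact Or.inl rfl
      have h2 : f base ∈ W := h1
      rw [← hW'2] at h2
      exact h2
    obtain ⟨I, u, hu, hsub⟩ := isOpen_pi_iff.1 hW'1 _ hb
    have h3 : ∀ x : X, ∃ ε : ℝ, 0 < ε ∧ (x ∈ I → ∀ t : ℝ, |t - (f base).1 x| < ε → t ∈ u x) := by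
      intro x
      by_cases hx : x ∈ I
      · obtain ⟨ε, hε, hball⟩ := Metric.isOpen_iff.1 (hu x hx).1 _ (hu x hx).2
        exact ⟨ε, hε, fun _ t ht => hball (by rwa [Metric.mem_ball, Real.dist_eq])⟩
      · exact ⟨1, one_pos, fun h => absurd h hx⟩
    choose ε hε1 hε2 using h3
    obtain ⟨δ, hδ, hδI⟩ : ∃ δ : ℝ, 0 < δ ∧ ∀ x ∈ I, δ ≤ ε x := by
      rcases I.eq_empty_or_nonempty with he | hne
      · exact ⟨1, one_pos, fun x hx => by rw [he] at hx; simp at hx⟩
      · obtain ⟨x0, hx0, hmin⟩ := I.exists_min_image ε hne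
        exact ⟨ε x0, hε1 x0, hmin⟩
    refine ⟨I, δ, hδ, fun n m hnm => ?_⟩
    have h4 : (f (pt n m)).1 ∈ W' := by
      apply hsub
      intro x hx
      exact hε2 x hx _ (lt_of_lt_of_le (hnm x hx) (hδI x hx))
    have h5 : pt n m ∈ f ⁻¹' W := by
      change f (pt n m) ∈ W
      rw [← hW'2]
      exact h4
    rw [hW2] at h5
    rcases h5 with h5 | ⟨n', m', h5, h6⟩
    · exfalso
      -- `pt n m` is not the vertex
      have h7 : IsOpen {z : Fan | z = base ∨ ∃ n' m', z = pt n' m' ∧ m + 1 ≤ m'} :=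
        isOpen_nbhd (fun _ => m + 1)
      have h8 : base ≠ pt n m := by
        intro h9
        -- separate them by a continuous function on the fan
        have h10 := Quot.eqvGen_exact (r := fun p q : ℕ × OnePoint ℕ => p = q ∨
          (p.2 = OnePoint.infty ∧ q.2 = OnePoint.infty)) h9
        have h11 : ∀ p q : ℕ × OnePoint ℕ, Relation.EqvGen (fun p q : ℕ × OnePoint ℕ => p = q ∨
            (p.2 = OnePoint.infty ∧ q.2 = OnePoint.infty)) p q →
            (p = q ∨ (p.2 = OnePoint.infty ∧ q.2 = OnePoint.infty)) := by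
          intro p q hpq
          induction hpq with
          | rel _ _ h => exact h
          | refl _ => exact Or.inl rfl
          | symm _ _ _ ih =>
            rcases ih with h | h
            · exact Or.inl h.symm
            · exact Or.inr ⟨h.2, h.1⟩
          | trans _ _ _ _ _ ih1 ih2 =>
            rcases ih1 with h | h
            · rw [h]; exact ih2
            · rcases ih2 with h' | h'
              · rw [← h']; exact Or.inr h
              · exact Or.inr ⟨h.1, h'.2⟩
        rcases h11 _ _ h10 with h | h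
        · have := congrArg Prod.snd h
          exact OnePoint.infty_ne_coe m this
        · exact OnePoint.coe_ne_infty m h.2
      exact h8 h5.symm
    · have h10 := Quot.eqvGen_exact (r := fun p q : ℕ × OnePoint ℕ => p = q ∨
        (p.2 = OnePoint.infty ∧ q.2 = OnePoint.infty)) h5
      have h11 : ∀ p q : ℕ × OnePoint ℕ, Relation.EqvGen (fun p q : ℕ × OnePoint ℕ => p = q ∨
          (p.2 = OnePoint.infty ∧ q.2 = OnePoint.infty)) p q →
          (p = q ∨ (p.2 = OnePoint.infty ∧ q.2 = OnePoint.infty)) := by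
        intro p q hpq
        induction hpq with
        | rel _ _ h => exact h
        | refl _ => exact Or.inl rfl
        | symm _ _ _ ih =>
          rcases ih with h | h
          · exact Or.inl h.symm
          · exact Or.inr ⟨h.2, h.1⟩
        | trans _ _ _ _ _ ih1 ih2 =>
          rcases ih1 with h | h
          · rw [h]; exact ih2
          · rcases ih2 with h' | h'
            · rw [← h']; exact Or.inr h
            · exact Or.inr ⟨h.1, h'.2⟩
      rcases h11 _ _ h10 with h | h
      · have h12 := congrArg Prod.fst h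
        have h13 := congrArg Prod.snd h
        simp only at h12 h13
        have h14 : m = m' := by exact_mod_cast h13
        rw [h12, h14]
        exact h6
      · exact absurd h.1 (OnePoint.coe_ne_infty m)
  -- `X` is nonempty
  obtain ⟨F0, ε0, hε0, hF0⟩ := hnb (fun _ => 1)
  have hXne : Nonempty X := by
    by_contra hcon
    rw [not_nonempty_iff] at hcon
    have := hF0 0 0 (fun x _ => hcon.elim x)
    omega
  obtain ⟨x0⟩ := hXne
  let Φ : X → (ℕ × ℕ → ℝ) := fun x p => h p x
  have hΦ : Continuous Φ := continuous_pi fun p => hcont p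
  have hY : MengerSp (Set.range Φ) := MengerSp.range hX hΦ
  have hYlim : ∀ (y : Set.range Φ) n, Tendsto (fun m => y.1 (n, m)) atTop (𝓝 0) := by
    rintro ⟨_, x, rfl⟩ n
    exact hlim n x
  have hg : ∀ k : ℕ, ∃ g : ℕ → ℕ, ∀ (y : Fin k → Set.range Φ) (N : ℕ), ∃ n, N ≤ n ∧
      ∃ m < g n, ∀ i, |(y i).1 (n, m)| < 1 / ((k : ℝ) + 1) := by
    intro k
    have hpos : (0 : ℝ) < 1 / ((k : ℝ) + 1) := by positivity
    have hYk : MengerSp (Fin k → Set.range Φ) := hP _ hY k
    obtain ⟨g, -, hg⟩ := MengerSp.exists_fun hYk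
      (fun n M => ⋃ m ∈ Iio M, {y : Fin k → Set.range Φ | ∀ i, |(y i).1 (n, m)| <
        1 / ((k : ℝ) + 1)}) (fun n M => isOpen_biUnion (fun m _ => by
          have : {y : Fin k → Set.range Φ | ∀ i, |(y i).1 (n, m)| < 1 / ((k : ℝ) + 1)} =
              ⋂ i, {y : Fin k → Set.range Φ | |(y i).1 (n, m)| < 1 / ((k : ℝ) + 1)} := by
            ext y
            simp
          rw [this]
          refine isOpen_iInter_of_finite fun i => isOpen_lt ?_ continuous_const
          exact continuous_abs.comp ((continuous_apply (n, m)).comp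
            (continuous_subtype_val.comp (continuous_apply i)))))
      (fun n a b hab => biUnion_subset_biUnion_left (fun i hi => lt_of_lt_of_le hi hab))
      (fun n y => by
        have h1 : ∀ᶠ m in atTop, ∀ i, |(y i).1 (n, m)| < 1 / ((k : ℝ) + 1) := by
          rw [eventually_all]
          intro i
          have h2 := hYlim (y i) n
          have h3 := (Metric.tendsto_nhds.1 h2) _ hpos
          filter_upwards [h3] with m hm
          rwa [Real.dist_eq, sub_zero] at hm
        obtain ⟨m, hm⟩ := h1.exists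
        exact ⟨m + 1, mem_iUnion₂.2 ⟨m, Nat.lt_succ_self m, hm⟩⟩)
    refine ⟨g, fun y N => ?_⟩
    obtain ⟨n, hn, hy⟩ := hg y N
    obtain ⟨m, hm, hym⟩ := mem_iUnion₂.1 hy
    exact ⟨n, hn, m, hm, hym⟩
  choose g hg using hg
  obtain ⟨F, ε, hε, hF⟩ := hnb (fun n => (Finset.range (n + 1)).sup (fun k => g k n))
  obtain ⟨k1, hk1⟩ := exists_nat_one_div_lt hε
  let k : ℕ := max k1 F.card
  have hk : 1 / ((k : ℝ) + 1) < ε := by
    refine lt_of_le_of_lt ?_ hk1
    apply one_div_le_one_div_of_le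
    · positivity
    · have : (k1 : ℝ) ≤ k := by exact_mod_cast le_max_left _ _
      linarith
  let y : Fin k → Set.range Φ := fun i =>
    if hi : (i : ℕ) < F.card then ⟨Φ (F.equivFin.symm ⟨i, hi⟩ : F), mem_range_self _⟩
      else ⟨Φ x0, mem_range_self _⟩
  obtain ⟨n, hn, m, hm, hy⟩ := hg k y k
  have h1 : (Finset.range (n + 1)).sup (fun k => g k n) ≤ m := by
    apply hF n m
    intro x hx
    have hcard : (F.equivFin ⟨x, hx⟩ : ℕ) < k :=
      lt_of_lt_of_le (F.equivFin ⟨x, hx⟩).2 (le_max_right _ _)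
    have h2 := hy ⟨F.equivFin ⟨x, hx⟩, hcard⟩
    have h3 : y ⟨F.equivFin ⟨x, hx⟩, hcard⟩ = ⟨Φ x, mem_range_self _⟩ := by
      simp only [y]
      rw [dif_pos (F.equivFin ⟨x, hx⟩).2]
      simp
    rw [h3] at h2
    exact lt_trans h2 hk
  have h2 : g k n ≤ (Finset.range (n + 1)).sup (fun k => g k n) :=
    Finset.le_sup (f := fun k => g k n) (Finset.mem_range.2 (by omega))
  omega

end Pool.Agent.H752R3.Fan
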