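import Pool.Agent.H752R3.Generic

/-!
Passing from functions to increasing enumerations of infinite sets of naturals.
-/

namespace Pool.Agent.H752R3

open Set Filter Cardinal

/-- Partial sums: turns an arbitrary function into a strictly increasing one. -/
def psum (f : ℕ → ℕ) (n : ℕ) : ℕ := ∑ i ∈ Finset.range (n + 1), (f i + 1)

theorem psum_strictMono (f : ℕ → ℕ) : StrictMono (psum f) := by
  apply strictMono_nat_of_lt_succ
  intro n
  unfold psum
  rw [Finset.sum_range_succ _ (n + 1)]
  omega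

theorem le_psum (f : ℕ → ℕ) {m n : ℕ} (h : m ≤ n) : f m + (n - m) ≤ psum f n := by
  have h1 : f m ≤ psum f m := by
    unfold psum
    rw [Finset.sum_range_succ]
    omega
  have h2 := (psum_strictMono f).add_le_nat (n - m) m
  have h3 : n - m + m = n := by omega
  rw [h3] at h2
  omega

theorem continuous_psum : Continuous psum := by
  apply continuous_pi
  intro n
  unfold psum
  apply continuous_finsetSum
  intro i _
  exact ((continuous_apply i : Continuous fun x : ℕ → ℕ => x i)).add continuous_const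

/-- Given strictly increasing `b` with `b ≤ c` infinitely often, there is a strictly increasing
`d` with `b ≤ d` infinitely often and `d ≤* psum f` for every `f` with `c ≤* f`. -/
theorem exists_strictMono_between {b c : ℕ → ℕ} (hb : StrictMono b)
    (hbc : ∃ᶠ n in atTop, b n ≤ c n) :
    ∃ d : ℕ → ℕ, StrictMono d ∧ (∃ᶠ n in atTop, b n ≤ d n) ∧
      ∀ f : ℕ → ℕ, (∀ᶠ n in atTop, c n ≤ f n) → ∀ᶠ n in atTop, d n ≤ psum f n := by
  classical
  let S : ℕ → Finset ℕ := fun n => (Finset.range (n + 1)).filter (fun m => b m ≤ c m)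
  let d : ℕ → ℕ := fun n => max n ((S n).sup (fun m => b m + (n - m)))
  have hS : ∀ n m, m ∈ S n ↔ m ≤ n ∧ b m ≤ c m := by
    intro n m; simp [S]
  refine ⟨d, ?_, ?_, ?_⟩
  · apply strictMono_nat_of_lt_succ
    intro n
    show max n ((S n).sup (fun m => b m + (n - m))) < d (n + 1)
    rw [max_lt_iff]
    constructor
    · exact lt_of_lt_of_le (Nat.lt_succ_self n) (le_max_left _ _)
    · rcases (S n).eq_empty_or_nonempty with he | hne
      · rw [he, Finset.sup_empty]
        exact lt_of_lt_of_le (Nat.succ_pos n) (le_max_left _ _)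
      · rw [Finset.sup_lt_iff (lt_of_lt_of_le (Nat.succ_pos n) (le_max_left _ _))]
        intro m hm
        obtain ⟨h1, h2⟩ := (hS n m).1 hm
        have h3 : m ∈ S (n + 1) := (hS _ _).2 ⟨by omega, h2⟩
        have h4 : b m + (n + 1 - m) ≤ d (n + 1) :=
          (Finset.le_sup (f := fun m => b m + (n + 1 - m)) h3).trans (le_max_right _ _)
        have h5 : b m + (n - m) < d (n + 1) := by omega
        exact h5
  · refine hbc.mono fun n hn => ?_
    have h3 : n ∈ S n := (hS _ _).2 ⟨le_refl _, hn⟩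
    have h4 : b n + (n - n) ≤ d n :=
      (Finset.le_sup (f := fun m => b m + (n - m)) h3).trans (le_max_right _ _)
    omega
  · intro f hf
    obtain ⟨N, hN⟩ := eventually_atTop.1 hf
    obtain ⟨m', hm', hbm'⟩ := frequently_atTop.1 hbc N
    rw [eventually_atTop]
    refine ⟨m', fun n hn => ?_⟩
    apply max_le
    · exact (psum_strictMono f).le_apply
    · apply Finset.sup_le
      intro m hm
      obtain ⟨h1, h2⟩ := (hS n m).1 hm
      by_cases hmN : N ≤ m
      · have := hN m hmN
        have := le_psum f h1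
        omega
      · have h5 := hN m' hm'
        have h6 := le_psum f hn
        have h7 := hb.add_le_nat (m' - m) m
        have h8 : m' - m + m = m' := by omega
        rw [h8] at h7
        omega

/-- Countably many strictly increasing functions have a strictly increasing bound. -/
theorem exists_bound_of_countable {B : Set (ℕ → ℕ)} (hB : B.Countable)
    (hmono : ∀ f ∈ B, StrictMono f) :
    ∃ g : ℕ → ℕ, StrictMono g ∧ ∀ f ∈ B, ∀ᶠ n in atTop, f n ≤ g n := by
  rcases B.eq_empty_or_nonempty with he | hne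
  · exact ⟨id, strictMono_id, fun f hf => by rw [he] at hf; exact absurd hf (notMem_empty f)⟩
  · obtain ⟨t, ht⟩ := hB.exists_eq_range hne
    have htm : ∀ i, StrictMono (t i) := fun i => hmono _ (by rw [ht]; exact ⟨i, rfl⟩)
    refine ⟨fun n => ∑ i ∈ Finset.range (n + 1), t i n, ?_, ?_⟩
    · apply strictMono_nat_of_lt_succ
      intro n
      rw [Finset.sum_range_succ _ (n + 1)]
      have h1 : ∑ i ∈ Finset.range (n + 1), t i n < ∑ i ∈ Finset.range (n + 1), t i (n + 1) := by
        apply Finset.sum_lt_sum_of_nonempty ⟨0, by simp⟩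
        intro i _
        exact htm i (Nat.lt_succ_self n)
      omega
    · intro f hf
      rw [ht] at hf
      obtain ⟨i, rfl⟩ := hf
      rw [eventually_atTop]
      refine ⟨i, fun n hn => ?_⟩
      exact Finset.single_le_sum (f := fun i => t i n) (fun _ _ => Nat.zero_le _)
        (Finset.mem_range.2 (by omega))

/-- Reading off finite selections for a continuous image of a family in the Baire space. -/
theorem menger_of_family {ι : Type} [Nonempty ι] {Z : Type*} [TopologicalSpace Z]
    (f : ι → ℕ → ℕ) (Φ : (ℕ → ℕ) → Z) (hΦ : Continuous Φ)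
    (hf : ∀ v : ℕ → ℕ → List ℕ, (∀ a n, ∃ j, f a ∈ Cyl (v n j)) →
        ∃ g : ℕ → ℕ, ∀ a, ∃ᶠ n in atTop, ∃ j < g n, f a ∈ Cyl (v n j))
    (U : ℕ → Set (Set (range fun a => Φ (f a))))
    (hU : ∀ n, (∀ u ∈ U n, IsOpen u) ∧ ⋃₀ U n = Set.univ) :
    ∃ F : ℕ → Set (Set (range fun a => Φ (f a))), (∀ n, F n ⊆ U n ∧ (F n).Finite) ∧
      ∀ y, ∃ᶠ n in atTop, y ∈ ⋃₀ F n := by
  classical
  let pt : ι → (range fun a => Φ (f a)) := fun a => ⟨Φ (f a), a, rfl⟩
  let A : ℕ → Set (List ℕ) := fun n => {l | ∃ u ∈ U n, ∀ a, f a ∈ Cyl l → pt a ∈ u}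
  have hA : ∀ n a, ∃ l ∈ A n, f a ∈ Cyl l := by
    intro n a
    have : pt a ∈ ⋃₀ U n := by rw [(hU n).2]; trivial
    obtain ⟨u, hu, hau⟩ := this
    obtain ⟨V, hV, hVu⟩ := isOpen_induced_iff.1 ((hU n).1 u hu)
    have h1 : f a ∈ Φ ⁻¹' V := by
      have : pt a ∈ Subtype.val ⁻¹' V := by rw [hVu]; exact hau
      exact this
    obtain ⟨L, hL⟩ := exists_agree_of_isOpen (hV.preimage hΦ) h1
    refine ⟨List.ofFn (fun i : Fin L => f a i), ⟨u, hu, fun a' ha' => ?_⟩, ?_⟩
    · have h2 : f a' ∈ Φ ⁻¹' V := by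
        apply hL
        intro n hn
        have := ha' n (by simpa using hn)
        rw [this]
        simp [List.getD_eq_getElem?_getD, hn]
      rw [← hVu]
      exact h2
    · intro i hi
      have hi' : i < L := by simpa using hi
      simp [List.getD_eq_getElem?_getD, hi']
  have hAne : ∀ n, (A n).Nonempty := by
    intro n
    obtain ⟨l, hl, _⟩ := hA n (Classical.arbitrary ι)
    exact ⟨l, hl⟩
  have hv : ∀ n, ∃ w : ℕ → List ℕ, A n = range w := fun n =>
    (Set.to_countable (A n)).exists_eq_range (hAne n)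
  choose v hv using hv
  obtain ⟨g, hg⟩ := hf v (by
    intro a n
    obtain ⟨l, hl, hal⟩ := hA n a
    rw [hv n] at hl
    obtain ⟨j, rfl⟩ := hl
    exact ⟨j, hal⟩)
  have hvA : ∀ n j, v n j ∈ A n := fun n j => by rw [hv n]; exact ⟨j, rfl⟩
  choose W hW1 hW2 using hvA
  refine ⟨fun n => (fun j => W n j) '' (Set.Iio (g n)), fun n => ⟨?_, ?_⟩, ?_⟩
  · rintro _ ⟨j, _, rfl⟩
    exact hW1 n j
  · exact (Set.finite_Iio (g n)).image _
  · rintro ⟨_, a, rfl⟩
    refine (hg a).mono ?_
    rintro n ⟨j, hj, haj⟩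
    exact ⟨W n j, ⟨j, hj, rfl⟩, hW2 n j a haj⟩

end Pool.Agent.H752R3
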