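import Pool.Agent.H752R3.FanBasics
import Pool.Agent.H752R3.ScaleBasics

/-!
Under CH there is a Menger (even Rothberger) set `X` in the Cantor space such that the sequential
fan embeds into `C_p(X)`.
-/

set_option autoImplicit false

namespace Pool.Agent.H752R3.Fan

open Set Filter Topology
open scoped Cardinal

theorem quot_exact {p q : ℕ × OnePoint ℕ} (h9 : (Quot.mk _ p : Fan) = Quot.mk _ q) :
    p = q ∨ (p.2 = OnePoint.infty ∧ q.2 = OnePoint.infty) := by
  have h10 := Quot.eqvGen_exact (r := fun p q : ℕ × OnePoint ℕ => p = q ∨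
    (p.2 = OnePoint.infty ∧ q.2 = OnePoint.infty)) h9
  have h11 : ∀ p q : ℕ × OnePoint ℕ, Relation.EqvGen (fun p q : ℕ × OnePoint ℕ => p = q ∨
      (p.2 = OnePoint.infty ∧ q.2 = OnePoint.infty)) p q →
      (p = q ∨ (p.2 = OnePoint.infty ∧ q.2 = OnePoint.infty)) := by
    intro p q hpq
    induction hpq with
    | rel _ _ h => exact h
    | refl _ => exact Or.inl rfl
    | symm _ _ _ ih =>
      rcases ih with h | h
      · exact Or.inl h.symm
      · exact Or.inr ⟨h.2, h.1⟩
    | trans _ _ _ _ _ ih1 ih2 =>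
      rcases ih1 with h | h
      · rw [h]; exact ih2
      · rcases ih2 with h' | h'
        · rw [← h']; exact Or.inr h
        · exact Or.inr ⟨h.1, h'.2⟩
  exact h11 _ _ h10

theorem base_ne_pt (n m : ℕ) : base ≠ pt n m := by
  intro h
  rcases quot_exact h with h | h
  · exact OnePoint.infty_ne_coe m (congrArg Prod.snd h)
  · exact OnePoint.coe_ne_infty m h.2

theorem pt_inj {n m n' m' : ℕ} (h : pt n m = pt n' m') : n = n' ∧ m = m' := by
  rcases quot_exact h with h | h
  · refine ⟨congrArg Prod.fst h, ?_⟩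
    have h13 := congrArg Prod.snd h
    simp only at h13
    exact_mod_cast h13
  · exact absurd h.1 (OnePoint.coe_ne_infty m)

/-- The Cantor space, its points read as subsets of `ℕ × ℕ`. -/
abbrev K2 := ℕ × ℕ → Bool

/-- The characteristic function of a finite set. -/
def chi (s : Finset (ℕ × ℕ)) : K2 := fun p => decide (p ∈ s)

theorem exists_phi_open {U : Set K2} (hU : IsOpen U) (hD : ∀ s, chi s ∈ U) :
    ∃ φ : ℕ → ℕ, ∀ (K : ℕ) (C : K2), (∀ p : ℕ × ℕ, p.1 < φ K → p.2 < φ K → C p = true →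
      p.1 < K ∧ p.2 < K) → C ∈ U := by
  classical
  have h1 : ∀ s : Finset (ℕ × ℕ), ∃ L : ℕ, ∀ C : K2,
      (∀ p : ℕ × ℕ, p.1 < L → p.2 < L → C p = chi s p) → C ∈ U := by
    intro s
    obtain ⟨I, u, hu, hsub⟩ := isOpen_pi_iff.1 hU (chi s) (hD s)
    refine ⟨I.sup (fun p => max p.1 p.2) + 1, fun C hC => hsub ?_⟩
    intro p hp
    have h2 : max p.1 p.2 ≤ I.sup (fun p => max p.1 p.2) :=
      Finset.le_sup (f := fun p : ℕ × ℕ => max p.1 p.2) hp
    have h3 := le_max_left p.1 p.2
    have h4 := le_max_right p.1 p.2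
    rw [hC p (by omega) (by omega)]
    exact (hu p hp).2
  choose L hL using h1
  refine ⟨fun K => ((Finset.range K ×ˢ Finset.range K).powerset).sup L, fun K C hC => ?_⟩
  let s : Finset (ℕ × ℕ) := (Finset.range K ×ˢ Finset.range K).filter (fun p => C p = true)
  have hs : L s ≤ ((Finset.range K ×ˢ Finset.range K).powerset).sup L :=
    Finset.le_sup (Finset.mem_powerset.2 (Finset.filter_subset _ _))
  apply hL s
  intro p hp1 hp2
  by_cases hp : C p = true
  · have h2 := hC p (lt_of_lt_of_le hp1 hs) (lt_of_lt_of_le hp2 hs) hp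
    have h3 : p ∈ s := by
      rw [Finset.mem_filter, Finset.mem_product, Finset.mem_range, Finset.mem_range]
      exact ⟨h2, hp⟩
    rw [hp]
    simp [chi, h3]
  · have h3 : p ∉ s := fun h => hp (Finset.mem_filter.1 h).2
    simp only [Bool.not_eq_true] at hp
    rw [hp]
    simp [chi, h3]

/-- The block boundaries. -/
def kk (g : ℕ → ℕ) (j : ℕ) : ℕ := Nat.rec (motive := fun _ => ℕ) 0 (fun _ r => g (g r) + 1) j

theorem kk_succ (g : ℕ → ℕ) (j : ℕ) : kk g (j + 1) = g (g (kk g j)) + 1 := rfl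

theorem kk_strictMono {g : ℕ → ℕ} (hg : StrictMono g) : StrictMono (kk g) :=
  strictMono_nat_of_lt_succ fun j => by
    rw [kk_succ]
    have h1 := hg.id_le (kk g j)
    have h2 := hg.id_le (g (kk g j))
    simp only [id_eq] at h1 h2
    omega

open scoped Classical in
/-- The points of the example: the part of the region below `g` in the columns of the blocks with
index congruent to `b` modulo `2`. -/
noncomputable def Cg (g : ℕ → ℕ) (b : ℕ) : K2 := fun p =>
  decide (p.2 < g p.1 ∧ ∃ j, j % 2 = b ∧ kk g j ≤ p.1 ∧ p.1 < kk g (j + 1))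

theorem Cg_eq_true {g : ℕ → ℕ} {b : ℕ} {p : ℕ × ℕ} : Cg g b p = true ↔
    p.2 < g p.1 ∧ ∃ j, j % 2 = b ∧ kk g j ≤ p.1 ∧ p.1 < kk g (j + 1) := by
  simp only [Cg, decide_eq_true_eq]

theorem Cg_mem {g : ℕ → ℕ} (hg : StrictMono g) {U : Set K2} {φ : ℕ → ℕ}
    (hφ : ∀ (K : ℕ) (C : K2), (∀ p : ℕ × ℕ, p.1 < φ K → p.2 < φ K → C p = true →
      p.1 < K ∧ p.2 < K) → C ∈ U) (hle : ∀ᶠ n in atTop, φ n ≤ g n) (b : ℕ) : Cg g b ∈ U := by
  obtain ⟨N, hN⟩ := eventually_atTop.1 hle
  obtain ⟨j, hj, hjb⟩ : ∃ j, N ≤ j ∧ j % 2 ≠ b := by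
    by_cases hb : (2 * N) % 2 = b
    · exact ⟨2 * N + 1, by omega, by omega⟩
    · exact ⟨2 * N, by omega, hb⟩
  have hk := kk_strictMono hg
  have hjk := hk.id_le j
  have h1 := hg.id_le (kk g j)
  simp only [id_eq] at hjk h1
  have hφK : φ (g (kk g j)) ≤ g (g (kk g j)) := hN _ (by omega)
  apply hφ (g (kk g j))
  rintro ⟨n, m⟩ hn hm hC
  obtain ⟨hmg, i, hib, hi1, hi2⟩ := Cg_eq_true.1 hC
  simp only at hn hm hmg hi1 hi2 ⊢
  have h2 : n < kk g (j + 1) := by
    rw [kk_succ]
    omega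
  have hij : i ≤ j := by
    by_contra hcon
    have h3 : kk g (j + 1) ≤ kk g i := hk.monotone (by omega)
    omega
  have hij' : i < j := by
    rcases Nat.lt_or_eq_of_le hij with h | h
    · exact h
    · subst h
      exact absurd hib hjb
  have h3 : kk g (i + 1) ≤ kk g j := hk.monotone (by omega)
  have h4 : g n ≤ g (kk g j) := hg.monotone (by omega)
  omega

theorem Cg_union {g : ℕ → ℕ} (hg : StrictMono g) {n m : ℕ} (h0 : Cg g 0 (n, m) = false)
    (h1 : Cg g 1 (n, m) = false) : g n ≤ m := by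
  classical
  by_contra hcon
  push Not at hcon
  have hk := kk_strictMono hg
  have hex : ∃ j, n < kk g (j + 1) := ⟨n, by
    have := hk.id_le (n + 1)
    simp only [id_eq] at this
    omega⟩
  have hj1 : kk g (Nat.find hex) ≤ n := by
    by_contra hcon2
    push Not at hcon2
    rcases Nat.eq_zero_or_pos (Nat.find hex) with h6 | h6
    · rw [h6] at hcon2
      exact absurd hcon2 (Nat.not_lt_zero _)
    · have h7 : Nat.find hex ≤ Nat.find hex - 1 := Nat.find_min' hex (by
        rw [Nat.sub_add_cancel h6]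
        exact hcon2)
      omega
  have hj2 := Nat.find_spec hex
  rcases Nat.mod_two_eq_zero_or_one (Nat.find hex) with h | h
  · have : Cg g 0 (n, m) = true := Cg_eq_true.2 ⟨hcon, _, h, hj1, hj2⟩
    rw [this] at h0
    exact absurd h0 (by decide)
  · have : Cg g 1 (n, m) = true := Cg_eq_true.2 ⟨hcon, _, h, hj1, hj2⟩
    rw [this] at h1
    exact absurd h1 (by decide)

/-- Every column of `Cg g b` is finite. -/
theorem Cg_column (g : ℕ → ℕ) (b n m : ℕ) (h : g n ≤ m) : Cg g b (n, m) = false := by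
  by_contra hcon
  simp only [Bool.not_eq_false] at hcon
  have := (Cg_eq_true.1 hcon).1
  simp only at this
  omega

theorem exists_scale (CH : (ℵ₁ : Cardinal.{0}) = 𝔠) :
    ∃ G : (ℵ₁ : Cardinal.{0}).ord.ToType → ℕ → ℕ, (∀ a, StrictMono (G a)) ∧
      ∀ f : ℕ → ℕ, ∃ a, ∀ a', a ≤ a' → ∀ᶠ n in atTop, f n ≤ G a' n := by
  obtain ⟨e, he⟩ := exists_surjection_omega1 CH (α := ℕ → ℕ) (by simp)
  have h1 : ∀ a, ∃ g : ℕ → ℕ, StrictMono g ∧ ∀ b ≤ a, ∀ᶠ n in atTop, e b n ≤ g n := by
    intro a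
    have hc : ((fun b => psum (e b)) '' Iic a).Countable := by
      apply Set.Countable.image
      rw [← Set.Iio_insert]
      exact (countable_Iio_omega1 a).insert a
    obtain ⟨g, hg1, hg2⟩ := exists_bound_of_countable hc (by
      rintro _ ⟨b, _, rfl⟩
      exact psum_strictMono _)
    refine ⟨g, hg1, fun b hb => ?_⟩
    filter_upwards [hg2 _ ⟨b, hb, rfl⟩] with n hn
    have h2 := le_psum (e b) (le_refl n)
    omega
  choose G hG1 hG2 using h1
  refine ⟨G, hG1, fun f => ?_⟩
  obtain ⟨a, rfl⟩ := he f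
  exact ⟨a, fun a' ha' => hG2 a' a ha'⟩

/-- The example. -/
def XG {ι : Type} (G : ι → ℕ → ℕ) : Set K2 :=
  range chi ∪ {C | ∃ (a : ι) (b : ℕ), b < 2 ∧ C = Cg (G a) b}

/-- The Rothberger property. -/
def RothSp (Z : Type*) [TopologicalSpace Z] : Prop :=
  ∀ U : ℕ → Set (Set Z), (∀ n, (∀ u ∈ U n, IsOpen u) ∧ ⋃₀ U n = Set.univ) →
    ∃ u : ℕ → Set Z, (∀ n, u n ∈ U n) ∧ (⋃ n, u n) = Set.univ

theorem RothSp.menger {Z : Type*} [TopologicalSpace Z] (h : RothSp Z) : MengerSp Z := by
  intro U hU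
  obtain ⟨u, hu1, hu2⟩ := h U hU
  refine ⟨fun n => {u n}, fun n => ⟨by simpa using hu1 n, finite_singleton _⟩, ?_⟩
  simpa using hu2

theorem rothberger_XG {G : (ℵ₁ : Cardinal.{0}).ord.ToType → ℕ → ℕ} (hG1 : ∀ a, StrictMono (G a))
    (hG2 : ∀ f : ℕ → ℕ, ∃ a, ∀ a', a ≤ a' → ∀ᶠ n in atTop, f n ≤ G a' n) :
    RothSp (XG G) := by
  classical
  intro U hU
  obtain ⟨s, hs⟩ := exists_surjective_nat (Finset (ℕ × ℕ))
  have h1 : ∀ i, ∃ u ∈ U (2 * i), (⟨chi (s i), Or.inl ⟨s i, rfl⟩⟩ : XG G) ∈ u := by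
    intro i
    have : (⟨chi (s i), Or.inl ⟨s i, rfl⟩⟩ : XG G) ∈ ⋃₀ U (2 * i) := by
      rw [(hU _).2]; trivial
    exact this
  choose u hu1 hu2 using h1
  have h2 : ∀ i, ∃ W : Set K2, IsOpen W ∧ Subtype.val ⁻¹' W = u i := fun i =>
    isOpen_induced_iff.1 ((hU _).1 _ (hu1 i))
  choose W hW1 hW2 using h2
  obtain ⟨φ, hφ⟩ := exists_phi_open (isOpen_iUnion hW1) (fun t => by
    obtain ⟨i, rfl⟩ := hs t
    refine mem_iUnion.2 ⟨i, ?_⟩
    have h3 := hu2 i
    rw [← hW2 i] at h3
    exact h3)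
  obtain ⟨a0, ha0⟩ := hG2 φ
  have hmem : ∀ a, a0 ≤ a → ∀ b, Cg (G a) b ∈ ⋃ i, W i := fun a ha b =>
    Cg_mem (hG1 a) hφ (ha0 a ha) b
  have hcount : {x : XG G | x.1 ∉ ⋃ i, W i}.Countable := by
    have h3 : ((fun p : (ℵ₁ : Cardinal.{0}).ord.ToType × ℕ => Cg (G p.1) p.2) ''
        (Iio a0 ×ˢ univ)).Countable :=
      ((countable_Iio_omega1 a0).prod (to_countable _)).image _
    apply (h3.preimage (Subtype.val_injective (p := (· ∈ XG G)))).mono
    rintro ⟨x, hx⟩ hxW
    rcases hx with ⟨t, rfl⟩ | ⟨a, b, hb, rfl⟩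
    · exfalso
      apply hxW
      obtain ⟨i, rfl⟩ := hs t
      refine mem_iUnion.2 ⟨i, ?_⟩
      have h3 := hu2 i
      rw [← hW2 i] at h3
      exact h3
    · refine ⟨(a, b), ⟨?_, trivial⟩, rfl⟩
      by_contra hcon
      exact hxW (hmem a (not_lt.1 hcon) b)
  have hv : ∃ v : ℕ → Set (XG G), (∀ i, v i ∈ U (2 * i + 1)) ∧
      {x : XG G | x.1 ∉ ⋃ i, W i} ⊆ ⋃ i, v i := by
    have hne : ∃ t : ℕ → XG G, {x : XG G | x.1 ∉ ⋃ i, W i} ⊆ range t := by
      rcases {x : XG G | x.1 ∉ ⋃ i, W i}.eq_empty_or_nonempty with he | hne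
      · exact ⟨fun _ => ⟨chi (s 0), Or.inl ⟨s 0, rfl⟩⟩, by rw [he]; exact empty_subset _⟩
      · obtain ⟨t, ht⟩ := hcount.exists_eq_range hne
        exact ⟨t, ht.subset⟩
    obtain ⟨t, ht⟩ := hne
    have h3 : ∀ i, ∃ v ∈ U (2 * i + 1), t i ∈ v := by
      intro i
      have : t i ∈ ⋃₀ U (2 * i + 1) := by rw [(hU _).2]; trivial
      exact this
    choose v hv1 hv2 using h3
    refine ⟨v, hv1, fun x hx => ?_⟩
    obtain ⟨i, rfl⟩ := ht hx
    exact mem_iUnion.2 ⟨i, hv2 i⟩
  obtain ⟨v, hv1, hv2⟩ := hv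
  refine ⟨fun n => if n % 2 = 0 then u (n / 2) else v (n / 2), fun n => ?_, ?_⟩
  · by_cases hn : n % 2 = 0
    · have h3 : 2 * (n / 2) = n := by omega
      have h4 := hu1 (n / 2)
      rw [h3] at h4
      simp only [if_pos hn]
      exact h4
    · have h3 : 2 * (n / 2) + 1 = n := by omega
      have h4 := hv1 (n / 2)
      rw [h3] at h4
      simp only [if_neg hn]
      exact h4
  · rw [eq_univ_iff_forall]
    intro x
    by_cases hx : x.1 ∈ ⋃ i, W i
    · obtain ⟨i, hi⟩ := mem_iUnion.1 hx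
      refine mem_iUnion.2 ⟨2 * i, ?_⟩
      rw [if_pos (by omega)]
      have : 2 * i / 2 = i := by omega
      rw [this, ← hW2 i]
      exact hi
    · obtain ⟨i, hi⟩ := mem_iUnion.1 (hv2 (show x ∈ {x : XG G | x.1 ∉ ⋃ i, W i} from hx))
      refine mem_iUnion.2 ⟨2 * i + 1, ?_⟩
      rw [if_neg (by omega)]
      have : (2 * i + 1) / 2 = i := by omega
      rw [this]
      exact hi

/-- The map of the fan into `C_p(X)`. -/
noncomputable def emb (X : Set K2) : Fan → Cp X :=
  Quot.lift (fun p : ℕ × OnePoint ℕ => match p.2 with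
    | none => (⟨fun _ => 0, continuous_const⟩ : Cp X)
    | some m => ⟨fun x => if x.1 (p.1, m) = true then 1 else 0, by
        have h1 : Continuous (fun x : X => x.1 (p.1, m)) :=
          (continuous_apply _).comp continuous_subtype_val
        exact (continuous_of_discreteTopology (f := fun b : Bool => if b = true then (1 : ℝ) else 0)).comp
          h1⟩) (by
    rintro p q (h | h)
    · rw [h]
    · obtain ⟨n, t⟩ := p
      obtain ⟨n', t'⟩ := q
      obtain ⟨h1, h2⟩ := h
      simp only at h1 h2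
      subst h1
      subst h2
      rfl)

theorem emb_base (X : Set K2) (x : X) : (emb X base).1 x = 0 := rfl

theorem emb_pt (X : Set K2) (n m : ℕ) (x : X) :
    (emb X (pt n m)).1 x = if x.1 (n, m) = true then 1 else 0 := rfl

theorem continuous_emb {X : Set K2} (hX : ∀ x ∈ X, ∀ n, ∃ M, ∀ m, M ≤ m → x (n, m) = false) :
    Continuous (emb X) := by
  refine continuous_quot_lift _ ?_
  refine Continuous.subtype_mk (f := fun p : ℕ × OnePoint ℕ => (emb X (Quot.mk _ p)).1) ?_
    (fun p => (emb X (Quot.mk _ p)).2)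
  refine continuous_pi fun x => ?_
  rw [continuous_prod_of_discrete_left]
  intro n
  rw [OnePoint.continuous_iff_from_nat]
  obtain ⟨M, hM⟩ := hX x.1 x.2 n
  apply tendsto_const_nhds.congr'
  filter_upwards [eventually_ge_atTop M] with m hm
  change (emb X (Quot.mk _ (n, OnePoint.infty))).1 x = (emb X (pt n m)).1 x
  rw [mk_infty, emb_base, emb_pt, hM m hm]
  simp

theorem isEmbedding_emb {X : Set K2} (hX : ∀ x ∈ X, ∀ n, ∃ M, ∀ m, M ≤ m → x (n, m) = false)
    (hD : ∀ s, chi s ∈ X) (hdom : ∀ g : ℕ → ℕ, ∃ F : Finset X, ∀ n m,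
      (∀ x ∈ F, x.1 (n, m) = false) → g n ≤ m) : IsEmbedding (emb X) := by
  classical
  have hcont := continuous_emb hX
  let d : ℕ → ℕ → X := fun n m => ⟨chi {(n, m)}, hD _⟩
  have hd : ∀ n m n' m', (emb X (pt n' m')).1 (d n m) = if (n' = n ∧ m' = m) then 1 else 0 := by
    intro n m n' m'
    rw [emb_pt]
    simp [d, chi]
  refine ⟨⟨?_⟩, ?_⟩
  · apply le_antisymm
    · exact continuous_iff_le_induced.1 hcont
    · intro V hV
      have key : ∀ z ∈ V, ∃ W : Set (Cp X), IsOpen W ∧ emb X z ∈ W ∧ emb X ⁻¹' W ⊆ V := by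
        intro z hz
        rcases fan_cases z with rfl | ⟨n, m, rfl⟩
        · have h1 : ∀ n, ∃ M, ∀ m, M ≤ m → pt n m ∈ V := by
            intro n
            have := (tendsto_pt n).eventually (hV.mem_nhds hz)
            exact eventually_atTop.1 this
          choose g hg using h1
          obtain ⟨F, hF⟩ := hdom g
          refine ⟨⋂ x ∈ F, {h : Cp X | h.1 x < 1 / 2}, ?_, ?_, ?_⟩
          · refine isOpen_biInter_finset fun x _ => ?_
            exact isOpen_lt ((continuous_apply x).comp continuous_subtype_val) continuous_const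
          · refine mem_iInter₂.2 fun x _ => ?_
            change (emb X base).1 x < 1 / 2
            rw [emb_base]
            norm_num
          · intro z' hz'
            rcases fan_cases z' with rfl | ⟨n, m, rfl⟩
            · exact hz
            · apply hg n m
              apply hF
              intro x hx
              have h2 : (emb X (pt n m)).1 x < 1 / 2 := mem_iInter₂.1 hz' x hx
              rw [emb_pt] at h2
              by_contra hcon
              simp only [Bool.not_eq_false] at hcon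
              rw [if_pos hcon] at h2
              norm_num at h2
        · refine ⟨{h : Cp X | 1 / 2 < h.1 (d n m)}, ?_, ?_, ?_⟩
          · exact isOpen_lt continuous_const ((continuous_apply _).comp continuous_subtype_val)
          · change 1 / 2 < (emb X (pt n m)).1 (d n m)
            rw [hd]
            norm_num
          · intro z' hz'
            rcases fan_cases z' with rfl | ⟨n', m', rfl⟩
            · exfalso
              have h2 : 1 / 2 < (emb X base).1 (d n m) := hz'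
              rw [emb_base] at h2
              norm_num at h2
            · have h2 : 1 / 2 < (emb X (pt n' m')).1 (d n m) := hz'
              rw [hd] at h2
              by_cases h3 : n' = n ∧ m' = m
              · rw [h3.1, h3.2]
                exact hz
              · rw [if_neg h3] at h2
                norm_num at h2
      choose! W hW1 hW2 hW3 using key
      refine ⟨⋃ z ∈ V, W z, isOpen_biUnion fun z hz => hW1 z hz, ?_⟩
      ext z
      constructor
      · intro h1
        obtain ⟨z', hz', h2⟩ := mem_iUnion₂.1 h1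
        exact hW3 z' hz' h2
      · intro hz
        exact mem_iUnion₂.2 ⟨z, hz, hW2 z hz⟩
  · intro z z' hzz
    rcases fan_cases z with rfl | ⟨n, m, rfl⟩
    · rcases fan_cases z' with rfl | ⟨n', m', rfl⟩
      · rfl
      · exfalso
        have h1 := congrArg (fun h : Cp X => h.1 (d n' m')) hzz
        simp only [hd, emb_base] at h1
        norm_num at h1
    · rcases fan_cases z' with rfl | ⟨n', m', rfl⟩
      · exfalso
        have h1 := congrArg (fun h : Cp X => h.1 (d n m)) hzz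
        simp only [hd, emb_base] at h1
        norm_num at h1
      · have h1 := congrArg (fun h : Cp X => h.1 (d n m)) hzz
        simp only [hd] at h1
        by_cases h3 : n' = n ∧ m' = m
        · rw [h3.1, h3.2]
        · rw [if_neg h3] at h1
          norm_num at h1

/-- Under CH there is a Rothberger, hence Menger, subspace `X` of the Cantor space such that `S_ω` embeds into
`C_p(X)`. -/
theorem exists_fan (CH : (ℵ₁ : Cardinal.{0}) = 𝔠) :
    ∃ X : Set K2, RothSp X ∧ MengerSp X ∧ ∃ f : Fan → Cp X, IsEmbedding f := by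
  classical
  obtain ⟨G, hG1, hG2⟩ := exists_scale CH
  refine ⟨XG G, rothberger_XG hG1 hG2, (rothberger_XG hG1 hG2).menger, emb (XG G),
    isEmbedding_emb ?_ ?_ ?_⟩
  · rintro x (⟨s, rfl⟩ | ⟨a, b, _, rfl⟩) n
    · refine ⟨s.sup (fun p => p.2) + 1, fun m hm => ?_⟩
      by_contra hcon
      simp only [Bool.not_eq_false, chi, decide_eq_true_eq] at hcon
      have : m ≤ s.sup (fun p => p.2) := Finset.le_sup (f := fun p : ℕ × ℕ => p.2) hcon
      omega
    · exact ⟨G a n, fun m hm => Cg_column _ _ _ _ hm⟩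
  · intro s
    exact Or.inl ⟨s, rfl⟩
  · intro g
    obtain ⟨a, ha⟩ := hG2 g
    obtain ⟨N, hN⟩ := eventually_atTop.1 (ha a le_rfl)
    let F0 : Finset (ℕ × ℕ) := (Finset.range N).sigma (fun n => Finset.range (g n)) |>.map
      ⟨fun p => (p.1, p.2), fun p q h => by
        obtain ⟨p1, p2⟩ := p
        obtain ⟨q1, q2⟩ := q
        simp only [Prod.mk.injEq] at h
        obtain ⟨h1, h2⟩ := h
        subst h1
        subst h2
        rfl⟩
    have hF0 : ∀ n m, n < N → m < g n → (n, m) ∈ F0 := by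
      intro n m hn hm
      simp only [F0, Finset.mem_map, Finset.mem_sigma, Finset.mem_range]
      exact ⟨⟨n, m⟩, ⟨hn, hm⟩, rfl⟩
    refine ⟨{⟨Cg (G a) 0, Or.inr ⟨a, 0, by norm_num, rfl⟩⟩,
      ⟨Cg (G a) 1, Or.inr ⟨a, 1, by norm_num, rfl⟩⟩, ⟨chi F0, Or.inl ⟨F0, rfl⟩⟩}, fun n m h => ?_⟩
    have h0 := h ⟨Cg (G a) 0, Or.inr ⟨a, 0, by norm_num, rfl⟩⟩ (by simp)
    have h1 := h ⟨Cg (G a) 1, Or.inr ⟨a, 1, by norm_num, rfl⟩⟩ (by simp)
    have h2 := h ⟨chi F0, Or.inl ⟨F0, rfl⟩⟩ (by simp)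
    have h3 := Cg_union (hG1 a) h0 h1
    rcases lt_or_ge n N with hn | hn
    · by_contra hcon
      have h4 := hF0 n m hn (not_le.1 hcon)
      simp only [chi, h4, decide_true] at h2
      exact absurd h2 (by decide)
    · exact (hN n hn).trans h3

end Pool.Agent.H752R3.Fan
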