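import Mathlib

/-!
Fusion in the Baire space: open sets that stay reachable above a function.
-/

namespace Pool.Agent.H752R3

open Set Filter

/-- The set of all functions which agree with `u` below `k` and are at least `c` from `k` on. -/
def Cone (c u : ℕ → ℕ) (k : ℕ) : Set (ℕ → ℕ) :=
  {x | (∀ i < k, x i = u i) ∧ ∀ i, k ≤ i → c i ≤ x i}

/-- `D` meets every cone of `c`. -/
def Good (D : Set (ℕ → ℕ)) (c : ℕ → ℕ) : Prop := ∀ u k, (D ∩ Cone c u k).Nonempty

/-- Basic fusion: build a function by finite approximations. -/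
theorem fusion (P : ℕ → (ℕ → ℕ) → ℕ → ℕ → Prop)
    (w0 : ℕ → ℕ) (k0 : ℕ)
    (hP : ∀ (j : ℕ) (w : ℕ → ℕ) (k : ℕ), ∃ (w' : ℕ → ℕ) (k' : ℕ), k < k' ∧ (∀ n < k, w' n = w n) ∧
      ∀ c : ℕ → ℕ, (∀ n < k', c n = w' n) → P j c k k') :
    ∃ (c : ℕ → ℕ) (K : ℕ → ℕ), K 0 = k0 ∧ (∀ n < k0, c n = w0 n) ∧ StrictMono K ∧
      ∀ j, P j c (K j) (K (j + 1)) := by
  choose W K' h1 h2 h3 using hP
  let st : ℕ → (ℕ → ℕ) × ℕ := fun j => Nat.rec (w0, k0) (fun j s => (W j s.1 s.2, K' j s.1 s.2)) j
  have st0 : st 0 = (w0, k0) := rfl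
  have sts : ∀ j, st (j + 1) = (W j (st j).1 (st j).2, K' j (st j).1 (st j).2) := fun j => rfl
  have hmono : StrictMono (fun j => (st j).2) := by
    apply strictMono_nat_of_lt_succ
    intro j
    show (st j).2 < (st (j + 1)).2
    rw [sts]
    exact h1 _ _ _
  have hagree1 : ∀ j, ∀ n < (st j).2, (st (j + 1)).1 n = (st j).1 n := by
    intro j n hn
    rw [sts]
    exact h2 _ _ _ n hn
  have hagree : ∀ j m, j ≤ m → ∀ n < (st j).2, (st m).1 n = (st j).1 n := by
    intro j m hjm
    induction m, hjm using Nat.le_induction with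
    | base => intro n _; rfl
    | succ m hm ih =>
      intro n hn
      rw [hagree1 m n (lt_of_lt_of_le hn (hmono.monotone hm)), ih n hn]
  have hid : ∀ j, j ≤ (st j).2 := fun j => hmono.le_apply
  let c : ℕ → ℕ := fun n => (st (n + 1)).1 n
  have hc : ∀ j, ∀ n < (st j).2, c n = (st j).1 n := by
    intro j n hn
    show (st (n + 1)).1 n = (st j).1 n
    rcases le_total j (n + 1) with h | h
    · exact hagree j (n + 1) h n hn
    · exact (hagree (n + 1) j h n (lt_of_lt_of_le (Nat.lt_succ_self n) (hid (n + 1)))).symm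
  refine ⟨c, fun j => (st j).2, rfl, fun n hn => ?_, hmono, fun j => ?_⟩
  · exact hc 0 n hn
  · have := h3 j (st j).1 (st j).2 c
    apply this
    intro n hn
    have h4 := hc (j + 1) n (by rw [sts]; exact hn)
    rw [h4, sts]

/-- Openness in the Baire space, in terms of initial segments. -/
theorem exists_agree_of_isOpen {D : Set (ℕ → ℕ)} (hD : IsOpen D) {x : ℕ → ℕ} (hx : x ∈ D) :
    ∃ L, ∀ y : ℕ → ℕ, (∀ n < L, y n = x n) → y ∈ D := by
  rw [isOpen_pi_iff] at hD
  obtain ⟨I, u, hu, hsub⟩ := hD x hx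
  refine ⟨I.sup id + 1, fun y hy => hsub ?_⟩
  intro i hi
  have : i < I.sup id + 1 := Nat.lt_succ_of_le (Finset.le_sup (f := id) hi)
  rw [hy i this]
  exact (hu i hi).2

/-- Baire category inside a cone. -/
theorem exists_mem_of_good {c : ℕ → ℕ} {D : ℕ → Set (ℕ → ℕ)} (hopen : ∀ j, IsOpen (D j))
    (hgood : ∀ j, Good (D j) c) (u : ℕ → ℕ) (k : ℕ) :
    ∃ x ∈ Cone c u k, ∀ j, x ∈ D j := by
  obtain ⟨x, K, hK0, hxu, hmono, hP⟩ := fusion
    (fun j x k k' => (∀ i, k ≤ i → i < k' → c i ≤ x i) ∧ x ∈ D j) u k (by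
      intro j w k
      obtain ⟨x, hxD, hxw, hxc⟩ := hgood j w k
      obtain ⟨L, hL⟩ := exists_agree_of_isOpen (hopen j) hxD
      refine ⟨x, max L (k + 1), by omega, hxw, fun y hy => ⟨fun i hi hi' => ?_, hL y ?_⟩⟩
      · rw [hy i hi']; exact hxc i hi
      · intro n hn
        exact hy n (lt_of_lt_of_le hn (le_max_left _ _)))
  refine ⟨x, ⟨hxu, fun i hi => ?_⟩, fun j => (hP j).2⟩
  -- find the block containing `i`
  have hex : ∃ j, i < K j := ⟨i + 1, lt_of_lt_of_le (Nat.lt_succ_self i) (hmono.le_apply)⟩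
  classical
  obtain ⟨j, hj, hjmin⟩ : ∃ j, i < K j ∧ ∀ m < j, ¬ i < K m :=
    ⟨Nat.find hex, Nat.find_spec hex, fun m hm => Nat.find_min hex hm⟩
  cases j with
  | zero => omega
  | succ j =>
    have h1 := hjmin j (Nat.lt_succ_self j)
    exact (hP j).1 i (by omega) hj

/-- Fusion along an increasing sequence of functions: reachability of countably many open sets is
preserved in the limit, and the limit can be made large infinitely often. -/
theorem exists_bound_good {c : ℕ → ℕ → ℕ} (hc : ∀ i, ∀ᶠ n in atTop, c i n ≤ c (i + 1) n)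
    {D : ℕ → Set (ℕ → ℕ)} (hopen : ∀ j, IsOpen (D j))
    (hgood : ∀ j, ∃ i0, ∀ i ≥ i0, Good (D j) (c i)) (b : ℕ → ℕ) :
    ∃ d : ℕ → ℕ, (∀ i, ∀ᶠ n in atTop, c i n ≤ d n) ∧ (∃ᶠ n in atTop, b n ≤ d n) ∧
      ∀ j, Good (D j) d := by
  -- tasks
  obtain ⟨T, hT⟩ : ∃ T : ℕ → ℕ × List ℕ, Function.Surjective T := exists_surjective_nat _
  let U : ℕ → ℕ → ℕ := fun j n => (T j).2.getD n 0
  have hcle : ∀ i m, i ≤ m → ∀ᶠ n in atTop, c i n ≤ c m n := by
    intro i m him
    induction m, him using Nat.le_induction with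
    | base => exact Eventually.of_forall fun n => le_refl _
    | succ m hm ih =>
      filter_upwards [ih, hc m] with n h1 h2
      exact h1.trans h2
  let P : ℕ → (ℕ → ℕ) → ℕ → ℕ → Prop := fun j d k k' =>
    (∀ n, k ≤ n → n < k' → ∀ i ≤ j, c i n ≤ d n) ∧ (∃ n, k ≤ n ∧ n < k' ∧ b n ≤ d n) ∧
      (D (T j).1 ∩ Cone d (U j) (T j).2.length).Nonempty
  obtain ⟨d, K, -, -, hmono, hP⟩ := fusion P (fun _ => 0) 0 (by
    intro j w k
    obtain ⟨i0, hi0⟩ := hgood (T j).1
    set m := max j i0 with hm
    -- `K` past which `c m` dominates the earlier ones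
    have hev : ∀ᶠ n in atTop, ∀ i ∈ Finset.range (j + 1), c i n ≤ c m n := by
      rw [Filter.eventually_all_finset]
      intro i hi
      have : i ≤ j := Nat.lt_succ_iff.1 (Finset.mem_range.1 hi)
      exact hcle i m (by omega)
    obtain ⟨N, hN⟩ := eventually_atTop.1 hev
    set K1 := max N (max k (T j).2.length) with hK1
    let M : ℕ → ℕ := fun n => (Finset.range (j + 1)).sup (fun i => c i n)
    have hM : ∀ n, ∀ i ≤ j, c i n ≤ M n := fun n i hi =>
      Finset.le_sup (f := fun i => c i n) (Finset.mem_range.2 (Nat.lt_succ_of_le hi))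
    let w1 : ℕ → ℕ := fun n => if n < k then w n else if n < K1 then M n else c m n
    let s1 : ℕ → ℕ := fun n => if n < (T j).2.length then U j n else w1 n
    obtain ⟨x, hxD, hxs, hxc⟩ := hi0 m (le_max_right _ _) s1 K1
    obtain ⟨L0, hL0⟩ := exists_agree_of_isOpen (hopen _) hxD
    set L := max L0 K1 with hL
    let w2 : ℕ → ℕ := fun n => if n < L then w1 n else max (b n) (M n)
    refine ⟨w2, L + 1, by omega, ?_, ?_⟩
    · intro n hn
      have h1 : n < L := by omega
      simp only [w2, w1, if_pos h1, if_pos hn]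
    · intro d hd
      refine ⟨?_, ⟨L, by omega, by omega, ?_⟩, ?_⟩
      · intro n hkn hnL i hij
        rw [hd n hnL]
        by_cases h1 : n < L
        · simp only [w2, if_pos h1, w1, if_neg (not_lt.2 hkn)]
          by_cases h2 : n < K1
          · rw [if_pos h2]; exact hM n i hij
          · rw [if_neg h2]
            exact hN n (by omega) i (Finset.mem_range.2 (by omega))
        · simp only [w2, if_neg h1]
          exact (hM n i hij).trans (le_max_right _ _)
      · rw [hd L (by omega)]
        simp only [w2, if_neg (lt_irrefl L)]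
        exact le_max_left _ _
      · let y : ℕ → ℕ := fun n => if n < L then x n else d n
        refine ⟨y, hL0 y ?_, ?_, ?_⟩
        · intro n hn
          have h1 : n < L := by omega
          simp only [y, if_pos h1]
        · intro i hi
          have h1 : i < L := by omega
          have h2 : i < K1 := by omega
          simp only [y, if_pos h1]
          rw [hxs i h2]
          simp only [s1, if_pos hi]
        · intro i hi
          by_cases h1 : i < L
          · simp only [y, if_pos h1]
            rw [hd i (by omega)]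
            simp only [w2, if_pos h1]
            by_cases h2 : i < K1
            · rw [hxs i h2]
              simp only [s1, if_neg (not_lt.2 hi)]
              exact le_refl _
            · have h3 := hxc i (by omega)
              have h4 : ¬ i < k := by omega
              simp only [w1, if_neg h4, if_neg h2]
              exact h3
          · simp only [y, if_neg h1]
            exact le_refl _)
  refine ⟨d, ?_, ?_, ?_⟩
  · intro i
    rw [eventually_atTop]
    refine ⟨K i, fun n hn => ?_⟩
    have hex : ∃ j, n < K j := ⟨n + 1, lt_of_lt_of_le (Nat.lt_succ_self n) (hmono.le_apply)⟩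
    classical
    obtain ⟨j, hj, hjmin⟩ : ∃ j, n < K j ∧ ∀ m < j, ¬ n < K m :=
      ⟨Nat.find hex, Nat.find_spec hex, fun m hm => Nat.find_min hex hm⟩
    have hij : i < j := by
      by_contra hcon
      have := hmono.monotone (not_lt.1 hcon)
      omega
    cases j with
    | zero => omega
    | succ j =>
      have h1 := hjmin j (Nat.lt_succ_self j)
      exact (hP j).1 n (by omega) hj i (by omega)
  · rw [frequently_atTop]
    intro a
    obtain ⟨n, hn, _, hb⟩ := (hP a).2.1
    exact ⟨n, (hmono.le_apply (x := a)).trans hn, hb⟩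
  · intro j u k
    obtain ⟨t, ht⟩ := hT (j, List.ofFn (fun i : Fin k => u i))
    obtain ⟨y, hyD, hyu, hyc⟩ := (hP t).2.2
    have hlen : (T t).2.length = k := by rw [ht]; simp
    rw [ht] at hyD
    refine ⟨y, hyD, ?_, ?_⟩
    · intro i hi
      rw [hyu i (by rw [hlen]; exact hi)]
      simp only [U]
      rw [ht]
      simp [List.getD_eq_getElem?_getD, hi]
    · intro i hi
      exact hyc i (by rw [hlen]; exact hi)

end Pool.Agent.H752R3
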