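import Pool.Agent.H752R3.Recursion
import Pool.Agent.H752R3.Fusion

/-!
Under CH: a family of generic functions lying above an unbounded chain, which is Menger.
-/

namespace Pool.Agent.H752R3

open Set Filter Cardinal

/-- The basic clopen set of all functions extending the finite sequence `l`. -/
def Cyl (l : List ℕ) : Set (ℕ → ℕ) := {x | ∀ i < l.length, x i = l.getD i 0}

theorem isOpen_Cyl (l : List ℕ) : IsOpen (Cyl l) := by
  have : Cyl l = ⋂ i ∈ Finset.range l.length, {x : ℕ → ℕ | x i = l.getD i 0} := by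
    ext x; simp [Cyl]
  rw [this]
  apply isOpen_biInter_finset
  intro i _
  exact (isOpen_discrete ({l.getD i 0} : Set ℕ)).preimage
    (continuous_apply i : Continuous fun x : ℕ → ℕ => x i)

/-- The conditions of the construction. -/
structure Cond where
  /-- the lower bound -/
  c : ℕ → ℕ
  /-- the promises -/
  D : Set (Set (ℕ → ℕ))
  cnt : D.Countable
  opn : ∀ d ∈ D, IsOpen d
  good : ∀ d ∈ D, Good d c

/-- The order on conditions. -/
def Cond.le (q p : Cond) : Prop := (∀ᶠ n in atTop, p.c n ≤ q.c n) ∧ p.D ⊆ q.D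

theorem good_univ (c : ℕ → ℕ) : Good Set.univ c := by
  intro u k
  refine ⟨fun n => if n < k then u n else c n, trivial, ?_, ?_⟩
  · intro i hi; simp [hi]
  · intro i hi; simp [not_lt.2 hi]

theorem Cond.exists_lower (p : ℕ → Cond) (hp : ∀ n, Cond.le (p (n + 1)) (p n)) (b : ℕ → ℕ) :
    ∃ q : Cond, (∀ n, Cond.le q (p n)) ∧ ∃ᶠ n in atTop, b n ≤ q.c n := by
  have hsub : ∀ i m, i ≤ m → (p i).D ⊆ (p m).D := by
    intro i m him
    induction m, him using Nat.le_induction with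
    | base => exact Subset.rfl
    | succ m _ ih => exact ih.trans (hp m).2
  let E : Set (Set (ℕ → ℕ)) := insert Set.univ (⋃ n, (p n).D)
  have hE : E.Countable := (countable_iUnion fun n => (p n).cnt).insert _
  obtain ⟨D, hD⟩ := hE.exists_eq_range ⟨Set.univ, Set.mem_insert _ _⟩
  have hDE : ∀ j, D j ∈ E := fun j => by rw [hD]; exact ⟨j, rfl⟩
  have hopen : ∀ j, IsOpen (D j) := by
    intro j
    rcases hDE j with h | h
    · rw [h]; exact isOpen_univ
    · obtain ⟨n, hn⟩ := mem_iUnion.1 h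
      exact (p n).opn _ hn
  have hgood : ∀ j, ∃ i0, ∀ i ≥ i0, Good (D j) (p i).c := by
    intro j
    rcases hDE j with h | h
    · exact ⟨0, fun i _ => by rw [h]; exact good_univ _⟩
    · obtain ⟨n, hn⟩ := mem_iUnion.1 h
      exact ⟨n, fun i hi => (p i).good _ (hsub n i hi hn)⟩
  obtain ⟨d, hd1, hd2, hd3⟩ := exists_bound_good (c := fun i => (p i).c) (fun i => (hp i).1)
    hopen hgood b
  refine ⟨⟨d, E, hE, ?_, ?_⟩, fun n => ⟨hd1 n, ?_⟩, hd2⟩
  · intro e he
    rw [hD] at he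
    obtain ⟨j, rfl⟩ := he
    exact hopen j
  · intro e he
    rw [hD] at he
    obtain ⟨j, rfl⟩ := he
    exact hd3 j
  · exact (subset_iUnion (fun n => (p n).D) n).trans (subset_insert _ _)

/-- The requirement coming from a function `b` and a sequence `v` of candidate covers. -/
def Req (b : ℕ → ℕ) (v : ℕ → ℕ → List ℕ) (q : Cond) : Prop :=
  (∃ᶠ n in atTop, b n ≤ q.c n) ∧
    ((∃ x : ℕ → ℕ, (∀ᶠ n in atTop, q.c n ≤ x n) ∧ (∀ d ∈ q.D, x ∈ d) ∧
        ∃ n, ∀ j, x ∉ Cyl (v n j)) ∨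
      ∃ g : ℕ → ℕ, ∀ m, {x : ℕ → ℕ | ∃ n ≥ m, ∃ j < g n, x ∈ Cyl (v n j)} ∈ q.D)

theorem Cond.exists_generic (q : Cond) (u : ℕ → ℕ) (k : ℕ) :
    ∃ x ∈ Cone q.c u k, ∀ d ∈ q.D, x ∈ d := by
  rcases q.D.eq_empty_or_nonempty with he | hne
  · obtain ⟨x, -, hx⟩ := good_univ q.c u k
    exact ⟨x, hx, fun d hd => by rw [he] at hd; exact absurd hd (notMem_empty d)⟩
  · obtain ⟨D, hD⟩ := q.cnt.exists_eq_range hne
    have hDm : ∀ j, D j ∈ q.D := fun j => by rw [hD]; exact ⟨j, rfl⟩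
    obtain ⟨x, hx, hxD⟩ := exists_mem_of_good (fun j => q.opn _ (hDm j))
      (fun j => q.good _ (hDm j)) u k
    refine ⟨x, hx, fun d hd => ?_⟩
    rw [hD] at hd
    obtain ⟨j, rfl⟩ := hd
    exact hxD j

theorem Cond.exists_req (p : Cond) (b : ℕ → ℕ) (v : ℕ → ℕ → List ℕ) :
    ∃ q, Cond.le q p ∧ Req b v q := by
  obtain ⟨q, hq, hqb⟩ := Cond.exists_lower (fun _ => p)
    (fun _ => ⟨Eventually.of_forall fun n => le_refl _, Subset.rfl⟩) b
  by_cases hcase : ∃ n u k, (⋃ j, Cyl (v n j)) ∩ Cone q.c u k = ∅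
  · obtain ⟨n, u, k, hnuk⟩ := hcase
    obtain ⟨x, hx, hxD⟩ := q.exists_generic u k
    refine ⟨q, hq 0, hqb, Or.inl ⟨x, ?_, hxD, n, fun j hj => ?_⟩⟩
    · exact eventually_atTop.2 ⟨k, fun i hi => hx.2 i hi⟩
    · have : x ∈ (⋃ j, Cyl (v n j)) ∩ Cone q.c u k := ⟨mem_iUnion.2 ⟨j, hj⟩, hx⟩
      rw [hnuk] at this
      exact this
  · push Not at hcase
    -- enumerate finite sequences
    obtain ⟨s, hs⟩ : ∃ s : ℕ → List ℕ, Function.Surjective s := exists_surjective_nat _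
    have h1 : ∀ n i, ∃ g, ((⋃ j, ⋃ (_ : j < g), Cyl (v n j)) ∩
        Cone q.c (fun m => (s i).getD m 0) (s i).length).Nonempty := by
      intro n i
      obtain ⟨x, hx1, hx2⟩ := hcase n (fun m => (s i).getD m 0) (s i).length
      obtain ⟨j, hj⟩ := mem_iUnion.1 hx1
      exact ⟨j + 1, x, mem_iUnion₂.2 ⟨j, Nat.lt_succ_self j, hj⟩, hx2⟩
    choose G hG using h1
    let g : ℕ → ℕ := fun n => (Finset.range (n + 1)).sup (G n)
    have hg : ∀ n, ∀ i ≤ n, G n i ≤ g n := fun n i hi =>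
      Finset.le_sup (f := G n) (Finset.mem_range.2 (Nat.lt_succ_of_le hi))
    let Dm : ℕ → Set (ℕ → ℕ) := fun m => {x | ∃ n ≥ m, ∃ j < g n, x ∈ Cyl (v n j)}
    have hDmopen : ∀ m, IsOpen (Dm m) := by
      intro m
      have : Dm m = ⋃ n, ⋃ (_ : n ≥ m), ⋃ j, ⋃ (_ : j < g n), Cyl (v n j) := by
        ext x; simp [Dm]
      rw [this]
      exact isOpen_iUnion fun n => isOpen_iUnion fun _ => isOpen_iUnion fun j =>
        isOpen_iUnion fun _ => isOpen_Cyl _
    have hDmgood : ∀ m, Good (Dm m) q.c := by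
      intro m u k
      obtain ⟨i, hi⟩ := hs (List.ofFn (fun i : Fin k => u i))
      set n := max m i with hn
      obtain ⟨x, hx1, hx2⟩ := hG n i
      obtain ⟨j, hj, hxj⟩ := mem_iUnion₂.1 hx1
      refine ⟨x, ⟨n, le_max_left _ _, j, lt_of_lt_of_le hj (hg n i (le_max_right _ _)), hxj⟩,
        ?_, ?_⟩
      · intro l hl
        have hlen : (s i).length = k := by rw [hi]; simp
        rw [hx2.1 l (by rw [hlen]; exact hl), hi]
        simp [List.getD_eq_getElem?_getD, hl]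
      · intro l hl
        have hlen : (s i).length = k := by rw [hi]; simp
        exact hx2.2 l (by rw [hlen]; exact hl)
    refine ⟨⟨q.c, q.D ∪ range Dm, q.cnt.union (countable_range _), ?_, ?_⟩, ⟨(hq 0).1, ?_⟩,
      hqb, Or.inr ⟨g, fun m => Or.inr ⟨m, rfl⟩⟩⟩
    · rintro d (hd | ⟨m, rfl⟩)
      · exact q.opn d hd
      · exact hDmopen m
    · rintro d (hd | ⟨m, rfl⟩)
      · exact q.good d hd
      · exact hDmgood m
    · exact (hq 0).2.trans subset_union_left

/-- **The construction.**  Under CH there are functions `c α`, `f α` (`α < ω₁`) such that the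
`c α` are unbounded, every `c α` is eventually below all `f β` with `α ≤ β`, and the set of all
`f α` is Menger. -/
theorem exists_generic_family (CH : (ℵ₁ : Cardinal.{0}) = 𝔠) :
    ∃ f c : (ℵ₁ : Cardinal.{0}).ord.ToType → ℕ → ℕ,
      (∀ b : ℕ → ℕ, ∃ a, ∃ᶠ n in atTop, b n ≤ c a n) ∧
      (∀ a a', a ≤ a' → ∀ᶠ n in atTop, c a n ≤ f a' n) ∧
      ∀ v : ℕ → ℕ → List ℕ, (∀ a n, ∃ j, f a ∈ Cyl (v n j)) →
        ∃ g : ℕ → ℕ, ∀ a, ∃ᶠ n in atTop, ∃ j < g n, f a ∈ Cyl (v n j) := by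
  classical
  have : Nonempty (ℵ₁ : Cardinal.{0}).ord.ToType := by
    rw [← Cardinal.mk_ne_zero_iff, Cardinal.mk_ord_toType]
    exact (Cardinal.aleph_pos 1).ne'
  obtain ⟨e, he⟩ := exists_surjection_omega1 CH (α := (ℕ → ℕ) × (ℕ → ℕ → List ℕ)) (by
    simp)
  have : Nonempty Cond := ⟨⟨fun _ => 0, ∅, countable_empty, fun d hd => absurd hd (notMem_empty d),
    fun d hd => absurd hd (notMem_empty d)⟩⟩
  obtain ⟨F, hF, hR⟩ := sigma_closed_recursion (ι := (ℵ₁ : Cardinal.{0}).ord.ToType)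
    countable_Iio_omega1 (P := Cond) Cond.le
    (fun p => ⟨Eventually.of_forall fun n => le_refl _, Subset.rfl⟩)
    (fun p q r hpq hqr => ⟨by
      filter_upwards [hpq.1, hqr.1] with n h1 h2
      exact h2.trans h1, hqr.2.trans hpq.2⟩)
    (fun p hp => by
      obtain ⟨q, hq, -⟩ := Cond.exists_lower p hp (fun _ => 0)
      exact ⟨q, hq⟩)
    (fun a q => Req (e a).1 (e a).2 q) (fun a p => p.exists_req _ _)
  -- choose the generic points
  have hx : ∀ a, ∃ x : ℕ → ℕ, (∀ᶠ n in atTop, (F a).c n ≤ x n) ∧ (∀ d ∈ (F a).D, x ∈ d) ∧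
      ((∃ n, ∀ j, x ∉ Cyl ((e a).2 n j)) ∨
      ∃ g : ℕ → ℕ, ∀ m, {x : ℕ → ℕ | ∃ n ≥ m, ∃ j < g n, x ∈ Cyl ((e a).2 n j)} ∈ (F a).D) := by
    intro a
    rcases (hR a).2 with ⟨x, h1, h2, h3⟩ | h
    · exact ⟨x, h1, h2, Or.inl h3⟩
    · obtain ⟨x, hx1, hx2⟩ := (F a).exists_generic (fun _ => 0) 0
      exact ⟨x, eventually_atTop.2 ⟨0, fun i hi => hx1.2 i hi⟩, hx2, Or.inr h⟩
  choose f hf1 hf2 hf3 using hx
  refine ⟨f, fun a => (F a).c, ?_, ?_, ?_⟩
  · intro b
    obtain ⟨a, ha⟩ := he (b, fun _ _ => [])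
    refine ⟨a, ?_⟩
    have := (hR a).1
    rw [ha] at this
    exact this
  · intro a a' haa'
    filter_upwards [(hF a a' haa').1, hf1 a'] with n h1 h2
    exact h1.trans h2
  · intro v hv
    obtain ⟨a, ha⟩ := he (fun _ => 0, v)
    have h3 := hf3 a
    rw [ha] at h3
    rcases h3 with ⟨n, hn⟩ | ⟨g, hg⟩
    · obtain ⟨j, hj⟩ := hv a n
      exact absurd hj (hn j)
    · -- handle the countably many points below `a` separately
      have hcount : (Set.Iio a).Countable := countable_Iio_omega1 a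
      obtain ⟨h, hh⟩ : ∃ h : ℕ → ℕ, ∀ b < a, ∀ᶠ n in atTop, ∃ j < h n, f b ∈ Cyl (v n j) := by
        rcases (Set.Iio a).eq_empty_or_nonempty with hemp | hne
        · refine ⟨fun _ => 0, fun b hb => ?_⟩
          have : b ∈ Set.Iio a := hb
          rw [hemp] at this
          exact absurd this (notMem_empty b)
        · obtain ⟨t, ht⟩ := hcount.exists_eq_range hne
          choose J hJ using hv
          refine ⟨fun n => (Finset.range (n + 1)).sup (fun i => J (t i) n + 1), fun b hb => ?_⟩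
          have : b ∈ Set.Iio a := hb
          rw [ht] at this
          obtain ⟨i, rfl⟩ := this
          refine eventually_atTop.2 ⟨i, fun n hn => ⟨J (t i) n, ?_, hJ _ _⟩⟩
          exact lt_of_lt_of_le (Nat.lt_succ_self _) (Finset.le_sup (f := fun i => J (t i) n + 1)
            (Finset.mem_range.2 (Nat.lt_succ_of_le hn)))
      refine ⟨fun n => max (g n) (h n), fun b => ?_⟩
      rcases lt_or_ge b a with hb | hb
      · have := (hh b hb).frequently
        refine this.mono ?_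
        rintro n ⟨j, hj, hfj⟩
        exact ⟨j, lt_of_lt_of_le hj (le_max_right _ _), hfj⟩
      · rw [frequently_atTop]
        intro m
        have hm := hf2 b _ ((hF a b hb).2 (hg m))
        obtain ⟨n, hn, j, hj, hfj⟩ := hm
        exact ⟨n, hn, j, lt_of_lt_of_le hj (le_max_left _ _), hfj⟩

end Pool.Agent.H752R3
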