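import Pool.Agent.H752R3.Bits

/-!
Luzin sets in the Cantor group: the basic step, a general transfinite recursion, and a criterion
for all finite powers to be Rothberger.
-/

namespace Pool.Agent.H752R3

open Set Filter Topology

/-- Pointwise exclusive or, the group operation of the Cantor space. -/
def xorB (x y : ℕ → Bool) : ℕ → Bool := fun n => xor (x n) (y n)

theorem xorB_self_cancel (x y : ℕ → Bool) : xorB x (xorB x y) = y := by
  ext n; simp [xorB]

theorem xorB_comm (x y : ℕ → Bool) : xorB x y = xorB y x := by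
  ext n; simp [xorB, Bool.xor_comm]

theorem xorB_assoc (x y z : ℕ → Bool) : xorB (xorB x y) z = xorB x (xorB y z) := by
  ext n; simp [xorB]

theorem continuous_xorB : Continuous fun p : (ℕ → Bool) × (ℕ → Bool) => xorB p.1 p.2 := by
  apply continuous_pi
  intro n
  have h : Continuous fun q : Bool × Bool => xor q.1 q.2 := continuous_of_discreteTopology
  exact h.comp (((continuous_apply n : Continuous fun x : ℕ → Bool => x n).comp continuous_fst).prodMk
    ((continuous_apply n : Continuous fun x : ℕ → Bool => x n).comp continuous_snd))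

/-- Translation as a homeomorphism. -/
def xorHomeo (a : ℕ → Bool) : (ℕ → Bool) ≃ₜ (ℕ → Bool) where
  toFun := xorB a
  invFun := xorB a
  left_inv := xorB_self_cancel a
  right_inv := xorB_self_cancel a
  continuous_toFun := continuous_xorB.comp (Continuous.prodMk_right a)
  continuous_invFun := continuous_xorB.comp (Continuous.prodMk_right a)

theorem isMeagre_xor_preimage (a : ℕ → Bool) {M : Set (ℕ → Bool)} (hM : IsMeagre M) :
    IsMeagre (xorB a ⁻¹' M) :=
  hM.preimage_of_isOpenMap (xorHomeo a).continuous (xorHomeo a).isOpenMap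

/-- Luzin sets of the Cantor space: uncountable, with countable intersection with every meagre
set. -/
def LuzinSet (X : Set (ℕ → Bool)) : Prop :=
  ¬ X.Countable ∧ ∀ M : Set (ℕ → Bool), IsMeagre M → (X ∩ M).Countable

theorem not_countable_cantor : ¬ (Set.univ : Set (ℕ → Bool)).Countable := by
  rw [Set.countable_univ_iff, ← Cardinal.mk_le_aleph0_iff, not_le]
  have : Cardinal.mk (ℕ → Bool) = Cardinal.continuum := by simp
  rw [this]
  exact Cardinal.aleph0_lt_continuum

theorem isNowhereDense_singleton_cantor (w : ℕ → Bool) : IsNowhereDense ({w} : Set (ℕ → Bool)) := by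
  rw [isClosed_singleton.isNowhereDense_iff, eq_empty_iff_forall_notMem]
  intro x hx
  have h1 := isOpen_interior (s := ({w} : Set (ℕ → Bool)))
  rw [isOpen_pi_iff] at h1
  obtain ⟨I, u, hu, hsub⟩ := h1 x hx
  have hxw : x = w := mem_singleton_iff.1 (interior_subset hx)
  subst hxw
  have h2 : Function.update x (I.sup id + 1) (!x (I.sup id + 1)) ∈ interior ({x} : Set (ℕ → Bool)) := by
    apply hsub
    intro i hi
    have hne : i ≠ I.sup id + 1 := by
      have := Finset.le_sup (f := id) hi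
      simp only [id] at this
      omega
    rw [Function.update_of_ne hne]
    exact (hu i hi).2
  have h3 : Function.update x (I.sup id + 1) (!x (I.sup id + 1)) = x :=
    mem_singleton_iff.1 (interior_subset h2)
  have h4 := congrFun h3 (I.sup id + 1)
  rw [Function.update_self] at h4
  revert h4
  cases x (I.sup id + 1) <;> simp

/-- An injective parametrisation of a meagre set always leaves the sum of a Luzin set with a
countable set. -/
theorem luzin_avoid {X : Set (ℕ → Bool)} (hX : ∀ M : Set (ℕ → Bool), IsMeagre M → (X ∩ M).Countable)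
    {Q : Set (ℕ → Bool)}
    (hQ : Q.Countable) {θ : (ℕ → Bool) → (ℕ → Bool)} (hθi : Function.Injective θ)
    (hθm : IsMeagre (range θ)) (x : ℕ → Bool) :
    {w | ∃ q ∈ Q, ∃ x' ∈ X, xorB x' (xorB x (θ w)) = q}.Countable := by
  have h1 : {w | ∃ q ∈ Q, ∃ x' ∈ X, xorB x' (xorB x (θ w)) = q} ⊆
      ⋃ q ∈ Q, θ ⁻¹' (xorB (xorB x q) '' (X ∩ (xorB (xorB x q) ⁻¹' range θ))) := by
    rintro w ⟨q, hq, x', hx', h⟩
    refine mem_iUnion₂.2 ⟨q, hq, x', ⟨hx', w, ?_⟩, ?_⟩
    · rw [← h]
      ext n
      simp only [xorB]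
      cases x n <;> cases x' n <;> cases θ w n <;> rfl
    · rw [← h]
      ext n
      simp only [xorB]
      cases x n <;> cases x' n <;> cases θ w n <;> rfl
  refine (hQ.biUnion fun q _ => ?_).mono h1
  exact ((hX _ (isMeagre_xor_preimage _ hθm)).image _).preimage hθi

/-- The basic step of the product construction for Luzin sets. -/
theorem luzin_step {X : Set (ℕ → Bool)} (hX : LuzinSet X) {Q : Set (ℕ → Bool)} (hQ : Q.Countable)
    {θ : (ℕ → Bool) → (ℕ → Bool)} (hθ : Continuous θ) (hθi : Function.Injective θ)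
    (hθm : IsMeagre (range θ)) {O : ℕ → Set (ℕ → Bool)} (hO : ∀ n, IsOpen (O n))
    (hOd : ∀ n, Dense (O n)) :
    ∃ w, ∃ x ∈ X, (∀ n, xorB x (θ w) ∈ O n) ∧ ∀ x' ∈ X, xorB x' (xorB x (θ w)) ∉ Q := by
  -- a countable basis of the parameter space
  let ℬ := TopologicalSpace.countableBasis (ℕ → Bool)
  have hℬc : ℬ.Countable := TopologicalSpace.countable_countableBasis _
  have hℬb := TopologicalSpace.isBasis_countableBasis (ℕ → Bool)
  let T : ℕ → Set (ℕ → Bool) → Set (ℕ → Bool) := fun n B => {x | ∃ w ∈ B, xorB x (θ w) ∈ O n}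
  have hTo : ∀ n B, IsOpen (T n B) := by
    intro n B
    have : T n B = ⋃ w ∈ B, (fun x => xorB x (θ w)) ⁻¹' O n := by
      ext x; simp [T]
    rw [this]
    exact isOpen_biUnion fun w _ =>
      (hO n).preimage (continuous_xorB.comp (Continuous.prodMk_left (θ w)))
  have hTd : ∀ n, ∀ B ∈ ℬ, Dense (T n B) := by
    intro n B hB
    obtain ⟨w, hw⟩ := TopologicalSpace.nonempty_of_mem_countableBasis hB
    have h1 : xorB (θ w) ⁻¹' O n ⊆ T n B := by
      intro x hx
      refine ⟨w, hw, ?_⟩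
      rw [xorB_comm]
      exact hx
    refine Dense.mono h1 ?_
    exact (hOd n).preimage (xorHomeo (θ w)).isOpenMap
  have hmeag : IsMeagre (⋃ n : ℕ, ⋃ B ∈ ℬ, (T n B)ᶜ) := by
    apply isMeagre_iUnion
    intro n
    apply isMeagre_biUnion hℬc
    intro B hB
    apply IsNowhereDense.isMeagre
    rw [(hTo n B).isClosed_compl.isNowhereDense_iff, interior_compl, (hTd n B hB).closure_eq,
      compl_univ]
  obtain ⟨x, hxX, hx⟩ : ∃ x ∈ X, x ∉ ⋃ n : ℕ, ⋃ B ∈ ℬ, (T n B)ᶜ := by
    by_contra hcon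
    push Not at hcon
    refine hX.1 ((hX.2 _ hmeag).mono ?_)
    intro x hx
    exact ⟨hx, hcon x hx⟩
  have hxT : ∀ n, ∀ B ∈ ℬ, x ∈ T n B := by
    intro n B hB
    by_contra hcon
    exact hx (mem_iUnion.2 ⟨n, mem_iUnion₂.2 ⟨B, hB, hcon⟩⟩)
  -- the sections are open dense
  have hbad := luzin_avoid hX.2 hQ hθi hθm x
  have hSd : ∀ n, Dense {w | xorB x (θ w) ∈ O n} := by
    intro n
    rw [hℬb.dense_iff]
    intro B hB _
    obtain ⟨w, hw, hw'⟩ := hxT n B hB
    exact ⟨w, hw, hw'⟩
  have hSo : ∀ n, IsOpen {w | xorB x (θ w) ∈ O n} := fun n =>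
    (hO n).preimage ((continuous_xorB.comp (Continuous.prodMk_right x)).comp hθ)
  have hbm : IsMeagre ((⋃ n, {w | xorB x (θ w) ∈ O n}ᶜ) ∪
      {w | ∃ q ∈ Q, ∃ x' ∈ X, xorB x' (xorB x (θ w)) = q}) := by
    apply IsMeagre.union
    · apply isMeagre_iUnion
      intro n
      apply IsNowhereDense.isMeagre
      rw [(hSo n).isClosed_compl.isNowhereDense_iff, interior_compl, (hSd n).closure_eq,
        compl_univ]
    · rw [← biUnion_of_singleton {w | ∃ q ∈ Q, ∃ x' ∈ X, xorB x' (xorB x (θ w)) = q}]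
      apply isMeagre_biUnion hbad
      intro w _
      exact (isNowhereDense_singleton_cantor w).isMeagre
  obtain ⟨w, hw⟩ : ∃ w, w ∉ ((⋃ n, {w | xorB x (θ w) ∈ O n}ᶜ) ∪
      {w | ∃ q ∈ Q, ∃ x' ∈ X, xorB x' (xorB x (θ w)) = q}) := by
    by_contra hcon
    push Not at hcon
    have h1 := eq_univ_of_forall hcon
    rw [h1] at hbm
    exact not_isMeagre_of_isOpen isOpen_univ univ_nonempty hbm
  refine ⟨w, x, hxX, fun n => ?_, fun x' hx' hq => ?_⟩
  · by_contra hcon
    exact hw (Or.inl (mem_iUnion.2 ⟨n, hcon⟩))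
  · exact hw (Or.inr ⟨_, hq, x', hx', rfl⟩)

/-- General transfinite recursion producing a family with prescribed relations to its past. -/
theorem exists_transfinite {ι : Type*} [LinearOrder ι] [WellFoundedLT ι] {E : Type*} [Nonempty E]
    (P : ι → (ι → E) → E → Prop) (hex : ∀ β prev, ∃ y, P β prev y)
    (hcongr : ∀ β prev prev' y, (∀ b < β, prev b = prev' b) → P β prev y → P β prev' y) :
    ∃ Y : ι → E, ∀ β, P β Y (Y β) := by
  classical
  let step : ∀ a : ι, (∀ b : ι, b < a → E) → E := fun a f =>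
    (hex a (fun b => if h : b < a then f b h else Classical.arbitrary E)).choose
  let Y : ι → E := (wellFounded_lt (α := ι)).fix step
  have hY : ∀ a, Y a = step a (fun b _ => Y b) := fun a =>
    (wellFounded_lt (α := ι)).fix_eq step a
  refine ⟨Y, fun β => ?_⟩
  have h1 := (hex β (fun b => if h : b < β then Y b else Classical.arbitrary E)).choose_spec
  rw [hY β]
  refine hcongr β _ _ _ ?_ h1
  intro b hb
  simp [hb]

/-- Cylinders of the Cantor space. -/
def CylB (l : List Bool) : Set (ℕ → Bool) := {x | ∀ i < l.length, x i = l.getD i false}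

/-- The clopen set coded by a finite set of finite sequences. -/
def Clop (C : Finset (List Bool)) : Set (ℕ → Bool) := {x | ∃ l ∈ C, x ∈ CylB l}

theorem isOpen_CylB (l : List Bool) : IsOpen (CylB l) := by
  have : CylB l = ⋂ i ∈ Finset.range l.length, {x : ℕ → Bool | x i = l.getD i false} := by
    ext x; simp [CylB]
  rw [this]
  apply isOpen_biInter_finset
  intro i _
  exact (isOpen_discrete ({l.getD i false} : Set Bool)).preimage
    (continuous_apply i : Continuous fun x : ℕ → Bool => x i)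

theorem isOpen_Clop (C : Finset (List Bool)) : IsOpen (Clop C) := by
  have : Clop C = ⋃ l ∈ C, CylB l := by ext x; simp [Clop]
  rw [this]
  exact isOpen_biUnion fun l _ => isOpen_CylB l

/-- The Rothberger property. -/
def RothbergerSp (Z : Type*) [TopologicalSpace Z] : Prop :=
  ∀ U : ℕ → Set (Set Z), (∀ n, (∀ u ∈ U n, IsOpen u) ∧ ⋃₀ U n = Set.univ) →
    ∃ u : ℕ → Set Z, (∀ n, u n ∈ U n) ∧ (⋃ n, u n) = Set.univ

/-- The selection principle `S₁(Ω, Ω)` for families of clopen sets of the Cantor space. -/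
def OmegaSel (Y : Set (ℕ → Bool)) : Prop :=
  ∀ v : ℕ → ℕ → Finset (List Bool),
    (∀ F : Set (ℕ → Bool), F.Finite → F ⊆ Y → ∀ m, ∃ j, F ⊆ Clop (v m j)) →
    ∃ f : ℕ → ℕ, ∀ F : Set (ℕ → Bool), F.Finite → F ⊆ Y → ∃ m, F ⊆ Clop (v m (f m))

/-- The selection principle implies that all finite powers are Rothberger. -/
theorem OmegaSel.rothberger_pow {Y : Set (ℕ → Bool)} (hY : OmegaSel Y) (hne : Y.Nonempty)
    (k : ℕ) : RothbergerSp (Fin k → Y) := by
  classical
  intro U hU
  -- admissible clopen sets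
  let A : ℕ → Set (Finset (List Bool)) := fun m => {C | ∃ (j : ℕ) (u : ℕ → Set (Fin k → Y)),
    (∀ i, u i ∈ U (Nat.pair m i)) ∧ ∀ z : Fin k → Y, (∀ t, (z t : ℕ → Bool) ∈ Clop C) →
      ∃ i < j, z ∈ u i}
  have hUne : ∀ n, ∃ u, u ∈ U n := by
    intro n
    obtain ⟨y, hy⟩ := hne
    have : (fun _ => ⟨y, hy⟩ : Fin k → Y) ∈ ⋃₀ U n := by rw [(hU n).2]; trivial
    obtain ⟨u, hu, -⟩ := this
    exact ⟨u, hu⟩
  choose u0 hu0 using hUne
  have hA : ∀ F : Set (ℕ → Bool), F.Finite → F ⊆ Y → ∀ m, ∃ C ∈ A m, F ⊆ Clop C := by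
    intro F hF hFY m
    -- the finite set of points of the power with coordinates in `F`
    have hZ : {z : Fin k → Y | ∀ t, (z t : ℕ → Bool) ∈ F}.Finite := by
      have h1 : (Subtype.val ⁻¹' F : Set Y).Finite := hF.preimage Subtype.val_injective.injOn
      have := Set.Finite.pi' (ι := Fin k) (t := fun _ => (Subtype.val ⁻¹' F : Set Y)) fun _ => h1
      exact this
    obtain ⟨j, e, he⟩ : ∃ (j : ℕ) (e : ℕ → (Fin k → Y)),
        ∀ z : Fin k → Y, (∀ t, (z t : ℕ → Bool) ∈ F) → ∃ i < j, e i = z := by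
      obtain ⟨y, hy⟩ := hne
      let L := hZ.toFinset.toList
      refine ⟨L.length, fun i => L.getD i (fun _ => ⟨y, hy⟩), fun z hz => ?_⟩
      have hzL : z ∈ L := by
        rw [Finset.mem_toList, Set.Finite.mem_toFinset]
        exact hz
      obtain ⟨i, hi, hiz⟩ := List.mem_iff_getElem.1 hzL
      refine ⟨i, hi, ?_⟩
      simp [List.getD_eq_getElem?_getD, hi, hiz]
    have h2 : ∀ i, ∃ u ∈ U (Nat.pair m i), ∃ L : ℕ, ∀ z : Fin k → Y,
        (∀ t, ∀ n < L, (z t : ℕ → Bool) n = (e i t : ℕ → Bool) n) → z ∈ u := by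
      intro i
      have : e i ∈ ⋃₀ U (Nat.pair m i) := by rw [(hU _).2]; trivial
      obtain ⟨u, hu, heu⟩ := this
      refine ⟨u, hu, ?_⟩
      have huo := (hU _).1 u hu
      rw [isOpen_pi_iff] at huo
      obtain ⟨I, w, hw, hsub⟩ := huo _ heu
      have h3 : ∀ t : Fin k, ∃ L : ℕ, t ∈ I → ∀ y : Y,
          (∀ n < L, (y : ℕ → Bool) n = (e i t : ℕ → Bool) n) → y ∈ w t := by
        intro t
        by_cases ht : t ∈ I
        · obtain ⟨hwo, hwm⟩ := hw t ht
          obtain ⟨w', hw', hw'e⟩ := isOpen_induced_iff.1 hwo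
          have hm : (e i t : ℕ → Bool) ∈ w' := by
            have : e i t ∈ Subtype.val ⁻¹' w' := by rw [hw'e]; exact hwm
            exact this
          rw [isOpen_pi_iff] at hw'
          obtain ⟨J, s, hs, hsub'⟩ := hw' _ hm
          refine ⟨J.sup id + 1, fun _ y hy => ?_⟩
          rw [← hw'e]
          apply hsub'
          intro n hn
          have : n < J.sup id + 1 := Nat.lt_succ_of_le (Finset.le_sup (f := id) hn)
          rw [hy n this]
          exact (hs n hn).2
        · exact ⟨0, fun h => absurd h ht⟩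
      choose L hL using h3
      refine ⟨Finset.univ.sup L, fun z hz => hsub ?_⟩
      intro t ht
      exact hL t ht (z t) fun n hn => hz t n (lt_of_lt_of_le hn (Finset.le_sup (Finset.mem_univ t)))
    choose u hu L hL using h2
    set L0 := (Finset.range j).sup L with hL0
    have hFfin := hF.toFinset
    refine ⟨hF.toFinset.image (fun y => List.ofFn (fun i : Fin L0 => y i)),
      ⟨j, u, hu, fun z hz => ?_⟩, fun y hy => ?_⟩
    · have h4 : ∀ t, ∃ y ∈ F, ∀ n < L0, (z t : ℕ → Bool) n = y n := by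
        intro t
        obtain ⟨l, hl, hzl⟩ := hz t
        obtain ⟨y, hy, rfl⟩ := Finset.mem_image.1 hl
        refine ⟨y, hF.mem_toFinset.1 hy, fun n hn => ?_⟩
        rw [hzl n (by simpa using hn)]
        simp [List.getD_eq_getElem?_getD, hn]
      choose y hyF hyz using h4
      obtain ⟨i, hi, hei⟩ := he (fun t => ⟨y t, hFY (hyF t)⟩) (fun t => hyF t)
      refine ⟨i, hi, hL i z fun t n hn => ?_⟩
      rw [hei]
      exact hyz t n (lt_of_lt_of_le hn (Finset.le_sup (Finset.mem_range.2 hi)))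
    · refine ⟨_, Finset.mem_image.2 ⟨y, hF.mem_toFinset.2 hy, rfl⟩, ?_⟩
      intro i hi
      have hi' : i < L0 := by simpa using hi
      simp [List.getD_eq_getElem?_getD, hi']
  have hAne : ∀ m, (A m).Nonempty := by
    intro m
    obtain ⟨C, hC, -⟩ := hA ∅ Set.finite_empty (empty_subset _) m
    exact ⟨C, hC⟩
  have hv : ∀ m, ∃ w : ℕ → Finset (List Bool), A m = range w := fun m =>
    (Set.to_countable (A m)).exists_eq_range (hAne m)
  choose v hv using hv
  obtain ⟨f, hf⟩ := hY v (by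
    intro F hF hFY m
    obtain ⟨C, hC, hFC⟩ := hA F hF hFY m
    rw [hv m] at hC
    obtain ⟨j, rfl⟩ := hC
    exact ⟨j, hFC⟩)
  have hvA : ∀ m, v m (f m) ∈ A m := fun m => by rw [hv m]; exact ⟨_, rfl⟩
  choose j u hu huz using hvA
  refine ⟨fun n => u (Nat.unpair n).1 (Nat.unpair n).2, fun n => ?_, ?_⟩
  · have := hu (Nat.unpair n).1 (Nat.unpair n).2
    rwa [Nat.pair_unpair] at this
  · rw [eq_univ_iff_forall]
    intro z
    obtain ⟨m, hm⟩ := hf (range fun t => (z t : ℕ → Bool)) (Set.finite_range _) (by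
      rintro _ ⟨t, rfl⟩
      exact (z t).2)
    obtain ⟨i, -, hi⟩ := huz m z fun t => hm ⟨t, rfl⟩
    refine mem_iUnion.2 ⟨Nat.pair m i, ?_⟩
    simpa using hi

end Pool.Agent.H752R3
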