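import Pool.Agent.H752R3.LuzinBasics

/-!
Under CH: for every Luzin set `X` there is a set `Y` with all finite powers Rothberger and
`X × Y` not Menger.
-/

namespace Pool.Agent.H752R3

open Set Filter Topology Cardinal

theorem exists_finSupp_mem {U : Set (ℕ → Bool)} (hU : IsOpen U) (hne : U.Nonempty) :
    ∃ z ∈ U, FinSupp z := by
  obtain ⟨x, hx⟩ := hne
  rw [isOpen_pi_iff] at hU
  obtain ⟨I, u, hu, hsub⟩ := hU x hx
  refine ⟨fun n => if n ≤ I.sup id then x n else false, hsub ?_, I.sup id + 1, fun m hm => ?_⟩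
  · intro i hi
    have : i ≤ I.sup id := Finset.le_sup (f := id) hi
    simp only [this, if_true]
    exact (hu i hi).2
  · have : ¬ m ≤ I.sup id := by omega
    simp [this]

theorem isMeagre_range_of_not_finSupp {θ : (ℕ → Bool) → (ℕ → Bool)} (hθ : Continuous θ)
    (h : ∀ w, ¬ FinSupp (θ w)) : IsMeagre (range θ) := by
  apply IsNowhereDense.isMeagre
  have hc : IsClosed (range θ) := (isCompact_range hθ).isClosed
  rw [hc.isNowhereDense_iff]
  by_contra hcon
  obtain ⟨z, hz, hzf⟩ := exists_finSupp_mem isOpen_interior (nonempty_iff_ne_empty.2 hcon)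
  obtain ⟨w, rfl⟩ := interior_subset hz
  exact h w hzf

theorem countable_finSupp : {z : ℕ → Bool | FinSupp z}.Countable := by
  have : {z : ℕ → Bool | FinSupp z} = ⋃ k, range (extB k) := by
    ext z
    simp only [mem_ofPred_eq, mem_iUnion, mem_range]
    constructor
    · rintro ⟨k, hk⟩
      refine ⟨k, fun i => z i, ?_⟩
      ext m
      by_cases h : m < k
      · simp [extB, h]
      · simp [extB, h, hk m (not_lt.1 h)]
    · rintro ⟨k, s, rfl⟩
      exact finSupp_extB k s
  rw [this]
  exact countable_iUnion fun k => Set.countable_range _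

/-- A countable dense set which stays away from the finite modifications of a Luzin set. -/
theorem exists_dense_avoid {X : Set (ℕ → Bool)}
    (hX : ∀ M : Set (ℕ → Bool), IsMeagre M → (X ∩ M).Countable) :
    ∃ D : Set (ℕ → Bool), D.Countable ∧ Dense D ∧ ∀ d ∈ D, ∀ x ∈ X, ¬ FinSupp (xorB x d) := by
  have h1 : ∀ l : List Bool, ∃ d ∈ CylB l, ∀ x ∈ X, ¬ FinSupp (xorB x d) := by
    intro l
    let θ : (ℕ → Bool) → (ℕ → Bool) := fun w i =>
      if i < l.length then l.getD i false else
        if (i - l.length) % 2 = 0 then w ((i - l.length) / 2) else true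
    have hθ : Continuous θ := by
      apply continuous_pi
      intro i
      by_cases h1 : i < l.length
      · simp only [θ, h1, if_true]; exact continuous_const
      · by_cases h2 : (i - l.length) % 2 = 0
        · simp only [θ, h1, h2, if_true, if_false]
          exact continuous_apply _
        · simp only [θ, h1, h2, if_false]
          exact continuous_const
    have hθi : Function.Injective θ := by
      intro w w' h
      ext n
      have := congrFun h (l.length + 2 * n)
      have h1 : ¬ (l.length + 2 * n < l.length) := by omega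
      have h2 : (l.length + 2 * n - l.length) % 2 = 0 := by omega
      have h3 : (l.length + 2 * n - l.length) / 2 = n := by omega
      simpa only [θ, h1, h2, h3, if_true, if_false] using this
    have hθf : ∀ w, ¬ FinSupp (θ w) := by
      rintro w ⟨k, hk⟩
      have := hk (l.length + 2 * k + 1) (by omega)
      have h1 : ¬ (l.length + 2 * k + 1 < l.length) := by omega
      have h2 : ¬ ((l.length + 2 * k + 1 - l.length) % 2 = 0) := by omega
      simp only [θ, h1, h2, if_false] at this
      exact Bool.noConfusion this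
    have hc := luzin_avoid hX countable_finSupp hθi (isMeagre_range_of_not_finSupp hθ hθf)
      (fun _ => false)
    obtain ⟨w, hw⟩ : ∃ w, w ∉ {w | ∃ q ∈ {z : ℕ → Bool | FinSupp z}, ∃ x' ∈ X,
        xorB x' (xorB (fun _ => false) (θ w)) = q} := by
      by_contra hcon
      push Not at hcon
      rw [eq_univ_of_forall hcon] at hc
      exact not_countable_cantor hc
    have h0 : xorB (fun _ => false) (θ w) = θ w := by ext n; simp [xorB]
    refine ⟨θ w, ?_, fun x hx hf => hw ⟨_, hf, x, hx, by rw [h0]⟩⟩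
    intro i hi
    simp only [θ, hi, if_true]
  choose d hd1 hd2 using h1
  refine ⟨range d, Set.countable_range d, ?_, ?_⟩
  · rw [dense_iff_inter_open]
    rintro U hU ⟨x, hx⟩
    rw [isOpen_pi_iff] at hU
    obtain ⟨I, u, hu, hsub⟩ := hU x hx
    obtain ⟨L, hL⟩ : ∃ L, ∀ i ∈ I, i < L :=
      ⟨I.sup id + 1, fun i hi => Nat.lt_succ_of_le (Finset.le_sup (f := id) hi)⟩
    refine ⟨d (List.ofFn fun i : Fin L => x i), hsub ?_, ⟨_, rfl⟩⟩
    intro i hi
    have hiL : i < L := hL i hi
    have h1 := hd1 (List.ofFn fun i : Fin L => x i) i (by rw [List.length_ofFn]; exact hiL)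
    have h2 : (List.ofFn fun i : Fin L => x i).getD i false = x i := by
      simp [List.getD_eq_getElem?_getD, hiL]
    rw [h1, h2]
    exact (hu i hi).2
  · rintro _ ⟨l, rfl⟩ x hx
    exact hd2 l x hx

/-- **Main construction for Luzin sets.** -/
theorem luzin_product (CH : (ℵ₁ : Cardinal.{0}) = 𝔠) {X : Set (ℕ → Bool)} (hX : LuzinSet X) :
    ∃ Y : Set (ℕ → Bool), Y.Nonempty ∧ OmegaSel Y ∧ ¬ MengerSp (X × Y) := by
  classical
  obtain ⟨D, hDc, hDd, hDX⟩ := exists_dense_avoid hX.2
  obtain ⟨e, he⟩ := exists_surjection_omega1 CH (α := ℕ → ℕ) (by simp)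
  obtain ⟨v, hv⟩ := exists_surjection_omega1 CH (α := ℕ → ℕ → Finset (List Bool)) (by
    have h2 : #(ℕ → ℕ → Finset (List Bool)) = (ℵ₀ ^ ℵ₀) ^ ℵ₀ := by simp
    rw [h2]
    simp)
  let Pt : ((ℵ₁ : Cardinal.{0}).ord.ToType → ℕ → Bool) → (ℵ₁ : Cardinal.{0}).ord.ToType →
      Set (ℕ → Bool) := fun prev a => D ∪ prev '' Set.Iio a
  let sel : Set (ℕ → Bool) → (ℕ → ℕ → Finset (List Bool)) → ℕ → ℕ := fun A v =>
    if h : ∃ f : ℕ → ℕ, ∀ F : Set (ℕ → Bool), F.Finite → F ⊆ A → ∃ m, F ⊆ Clop (v m (f m)) then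
      h.choose else fun _ => 0
  have hsel : ∀ (A : Set (ℕ → Bool)) (v : ℕ → ℕ → Finset (List Bool)), A.Countable →
      (∀ F : Set (ℕ → Bool), F.Finite → F ⊆ A → ∀ m, ∃ j, F ⊆ Clop (v m j)) →
      ∀ F : Set (ℕ → Bool), F.Finite → F ⊆ A → ∃ m, F ⊆ Clop (v m (sel A v m)) := by
    intro A v hA hAv
    have h1 : ∃ f : ℕ → ℕ, ∀ F : Set (ℕ → Bool), F.Finite → F ⊆ A →
        ∃ m, F ⊆ Clop (v m (f m)) := by
      have h2 : {F : Set (ℕ → Bool) | F.Finite ∧ F ⊆ A}.Countable :=
        Set.countable_ofPred_finite_subset hA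
      obtain ⟨G, hG⟩ := h2.exists_eq_range ⟨∅, Set.finite_empty, empty_subset _⟩
      have h3 : ∀ m, ∃ j, G m ⊆ Clop (v m j) := by
        intro m
        have : G m ∈ {F : Set (ℕ → Bool) | F.Finite ∧ F ⊆ A} := by rw [hG]; exact ⟨m, rfl⟩
        exact hAv _ this.1 this.2 m
      choose f hf using h3
      refine ⟨f, fun F hF hFA => ?_⟩
      have : F ∈ {F : Set (ℕ → Bool) | F.Finite ∧ F ⊆ A} := ⟨hF, hFA⟩
      rw [hG] at this
      obtain ⟨m, rfl⟩ := this
      exact ⟨m, hf m⟩
    have h4 : sel A v = h1.choose := dif_pos h1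
    rw [h4]
    exact h1.choose_spec
  let Act : ((ℵ₁ : Cardinal.{0}).ord.ToType → ℕ → Bool) → (ℵ₁ : Cardinal.{0}).ord.ToType →
      (ℵ₁ : Cardinal.{0}).ord.ToType → Prop := fun prev a β =>
    ∀ F : Set (ℕ → Bool), F.Finite → F ⊆ Pt prev β →
      ∃ m, F ⊆ Clop (v a m (sel (Pt prev a) (v a) m))
  let P : (ℵ₁ : Cardinal.{0}).ord.ToType → ((ℵ₁ : Cardinal.{0}).ord.ToType → ℕ → Bool) →
      (ℕ → Bool) → Prop := fun β prev y =>
    (∀ x ∈ X, ¬ FinSupp (xorB x y)) ∧
    (∃ x ∈ X, ∃ f : ℕ → ℕ, (∀ n, e β n ≤ f n) ∧ xorB x y = chi f) ∧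
    ∀ a ≤ β, Act prev a β → ∀ F : Set (ℕ → Bool), F.Finite → F ⊆ Pt prev β →
      ∃ m, insert y F ⊆ Clop (v a m (sel (Pt prev a) (v a) m))
  have hPtc : ∀ prev a, (Pt prev a).Countable := fun prev a =>
    hDc.union ((countable_Iio_omega1 a).image _)
  obtain ⟨Y, hY⟩ := exists_transfinite P (by
    intro β prev
    -- the dense open sets
    let Od : (ℵ₁ : Cardinal.{0}).ord.ToType × Set (ℕ → Bool) → Set (ℕ → Bool) := fun p =>
      ⋃ m, ⋃ (_ : p.2 ⊆ Clop (v p.1 m (sel (Pt prev p.1) (v p.1) m))),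
        Clop (v p.1 m (sel (Pt prev p.1) (v p.1) m))
    let Idx : Set ((ℵ₁ : Cardinal.{0}).ord.ToType × Set (ℕ → Bool)) :=
      {p | (p.1 ≤ β ∧ Act prev p.1 β) ∧ p.2.Finite ∧ p.2 ⊆ Pt prev β}
    have hIdx : Idx.Countable := by
      have h1 : (Set.Iic β).Countable := by
        rw [← Set.Iio_insert]
        exact (countable_Iio_omega1 β).insert β
      refine (h1.prod (Set.countable_ofPred_finite_subset (hPtc prev β))).mono ?_
      rintro ⟨a, F⟩ ⟨⟨h1, -⟩, h2⟩
      exact ⟨h1, h2⟩
    have hOc : (insert Set.univ (Od '' Idx)).Countable := (hIdx.image _).insert _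
    obtain ⟨O, hO⟩ := hOc.exists_eq_range ⟨Set.univ, Set.mem_insert _ _⟩
    have hOm : ∀ n, O n ∈ insert Set.univ (Od '' Idx) := fun n => by rw [hO]; exact ⟨n, rfl⟩
    have hOo : ∀ n, IsOpen (O n) := by
      intro n
      rcases hOm n with h | ⟨p, -, h⟩
      · rw [h]; exact isOpen_univ
      · rw [← h]
        exact isOpen_iUnion fun m => isOpen_iUnion fun _ => isOpen_Clop _
    have hOd : ∀ n, Dense (O n) := by
      intro n
      rcases hOm n with h | ⟨p, ⟨⟨hp1, hp2⟩, hp3, hp4⟩, h⟩
      · rw [h]; exact dense_univ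
      · rw [← h]
        refine Dense.mono ?_ hDd
        intro d hd
        obtain ⟨m, hm⟩ := hp2 (insert d p.2) (hp3.insert d)
          (insert_subset (Or.inl hd) hp4)
        exact mem_iUnion.2 ⟨m, mem_iUnion.2 ⟨(subset_insert _ _).trans hm,
          hm (mem_insert _ _)⟩⟩
    let fw : (ℕ → Bool) → ℕ → ℕ := fun w n => e β n + (w n).toNat
    have hfw : Continuous fw := by
      apply continuous_pi
      intro n
      exact continuous_const.add ((continuous_of_discreteTopology (f := Bool.toNat)).comp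
        (continuous_apply n : Continuous fun x : ℕ → Bool => x n))
    have hfwi : Function.Injective fw := by
      intro w w' h
      ext n
      have h1 : (w n).toNat = (w' n).toNat := by
        have := congrFun h n
        simp only [fw] at this
        omega
      revert h1
      cases w n <;> cases w' n <;> simp
    obtain ⟨w, x, hxX, hxO, hxQ⟩ := luzin_step hX countable_finSupp
      (θ := fun w => chi (fw w)) (continuous_chi.comp hfw) (chi_injective.comp hfwi)
      (isMeagre_range_of_not_finSupp (continuous_chi.comp hfw) fun w => not_finSupp_chi _)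
      hOo hOd
    refine ⟨xorB x (chi (fw w)), hxQ, ⟨x, hxX, fw w, fun n => Nat.le_add_right _ _,
      xorB_self_cancel _ _⟩, ?_⟩
    intro a ha hact F hF hFs
    have h1 : Od (a, F) ∈ range O := by
      rw [← hO]
      exact Or.inr ⟨(a, F), ⟨⟨ha, hact⟩, hF, hFs⟩, rfl⟩
    obtain ⟨n, hn⟩ := h1
    have h2 := hxO n
    rw [hn] at h2
    obtain ⟨m, hm⟩ := mem_iUnion.1 h2
    obtain ⟨hm1, hm2⟩ := mem_iUnion.1 hm
    exact ⟨m, insert_subset hm2 hm1⟩) (by
    intro β prev prev' y hpp hP
    have hPt : ∀ a ≤ β, Pt prev a = Pt prev' a := by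
      intro a ha
      have : prev '' Set.Iio a = prev' '' Set.Iio a :=
        image_congr fun b hb => hpp b (lt_of_lt_of_le hb ha)
      simp only [Pt, this]
    refine ⟨hP.1, hP.2.1, ?_⟩
    intro a ha hact F hF hFs
    have h1 : Act prev a β := by
      intro F' hF' hFs'
      have := hact F' hF' (by rw [← hPt β le_rfl]; exact hFs')
      rw [← hPt a ha] at this
      exact this
    have h2 := hP.2.2 a ha h1 F hF (by rw [hPt β le_rfl]; exact hFs)
    rw [hPt a ha] at h2
    exact h2)
  have hne : Nonempty (ℵ₁ : Cardinal.{0}).ord.ToType := by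
    rw [← Cardinal.mk_ne_zero_iff, Cardinal.mk_ord_toType]
    exact (Cardinal.aleph_pos 1).ne'
  refine ⟨D ∪ range Y, ⟨Y (Classical.arbitrary _), Or.inr ⟨_, rfl⟩⟩, ?_, ?_⟩
  · -- the selection property
    intro v' hv'
    obtain ⟨a, ha⟩ := hv v'
    have hsub : Pt Y a ⊆ D ∪ range Y := union_subset_union_right _ (image_subset_range _ _)
    have hbase := hsel (Pt Y a) v' (hPtc Y a) fun F hF hFA m => hv' F hF (hFA.trans hsub) m
    -- splitting a finite set
    have hsplit : ∀ (s : Set (ℵ₁ : Cardinal.{0}).ord.ToType) (F : Set (ℕ → Bool)), F.Finite →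
        F ⊆ D ∪ Y '' s → F ⊆ D ∨ ∃ b ∈ s, F ⊆ D ∪ Y '' Set.Iic b := by
      intro s F hF hFs
      by_cases hFD : F ⊆ D
      · exact Or.inl hFD
      · right
        have h1 : ∀ y : ℕ → Bool, ∃ b, y ∈ F \ D → b ∈ s ∧ Y b = y := by
          intro y
          by_cases hy : y ∈ F \ D
          · rcases hFs hy.1 with h | ⟨b, hb, hby⟩
            · exact absurd h hy.2
            · exact ⟨b, fun _ => ⟨hb, hby⟩⟩
          · exact ⟨Classical.arbitrary _, fun h => absurd h hy⟩
        choose b hb using h1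
        have hfin : (F \ D).Finite := hF.subset sdiff_subset
        obtain ⟨y0, hy0, hmax⟩ := Set.exists_max_image (F \ D) b hfin (by
          obtain ⟨y, hy1, hy2⟩ := not_subset.1 hFD
          exact ⟨y, hy1, hy2⟩)
        refine ⟨b y0, (hb y0 hy0).1, fun y hy => ?_⟩
        by_cases hyD : y ∈ D
        · exact Or.inl hyD
        · exact Or.inr ⟨b y, hmax y ⟨hy, hyD⟩, (hb y ⟨hy, hyD⟩).2⟩
    refine ⟨sel (Pt Y a) v', ?_⟩
    have hT : ∀ b, ∀ F : Set (ℕ → Bool), F.Finite → F ⊆ D ∪ Y '' Set.Iic b →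
        ∃ m, F ⊆ Clop (v' m (sel (Pt Y a) v' m)) := by
      intro b
      induction b using WellFoundedLT.induction with
      | ind b ih =>
        intro F hF hFb
        rcases lt_or_ge b a with hba | hab
        · apply hbase F hF
          refine hFb.trans (union_subset_union_right _ (image_mono ?_))
          intro c hc
          exact lt_of_le_of_lt hc hba
        · have hact : Act Y a b := by
            intro F' hF' hFs'
            rw [ha]
            rcases hsplit _ F' hF' hFs' with h | ⟨c, hc, hFc⟩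
            · exact hbase F' hF' (h.trans subset_union_left)
            · exact ih c hc F' hF' hFc
          obtain ⟨m, hm⟩ := (hY b).2.2 a hab hact (F \ {Y b}) (hF.subset sdiff_subset) (by
            rintro y ⟨hy1, hy2⟩
            rcases hFb hy1 with h | ⟨c, hc, hcy⟩
            · exact Or.inl h
            · refine Or.inr ⟨c, ?_, hcy⟩
              rcases (show c ≤ b from hc).lt_or_eq with h | h
              · exact h
              · subst h
                exact absurd hcy.symm hy2)
          rw [ha] at hm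
          refine ⟨m, fun y hy => hm ?_⟩
          by_cases hyb : y = Y b
          · exact Or.inl hyb
          · exact Or.inr ⟨hy, hyb⟩
    intro F hF hFY
    rw [← image_univ] at hFY
    rcases hsplit _ F hF hFY with h | ⟨b, -, hFb⟩
    · exact hbase F hF (h.trans subset_union_left)
    · exact hT b F hF hFb
  · -- the product is not Menger
    intro hmenger
    have hnf : ∀ x ∈ X, ∀ y ∈ D ∪ range Y, ¬ FinSupp (xorB x y) := by
      rintro x hx y (hy | ⟨b, rfl⟩)
      · exact hDX y hy x hx
      · exact (hY b).1 x hx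
    let V : ℕ → ℕ → Set (X × (D ∪ range Y : Set (ℕ → Bool))) := fun n k =>
      {z | n < cnt k (xorB z.1 z.2)}
    have hVo : ∀ n k, IsOpen (V n k) := by
      intro n k
      have hc : Continuous fun z : X × (D ∪ range Y : Set (ℕ → Bool)) =>
          cnt k (xorB z.1 z.2) := (continuous_cnt k).comp (continuous_xorB.comp
            ((continuous_subtype_val.comp continuous_fst).prodMk
              (continuous_subtype_val.comp continuous_snd)))
      exact (isOpen_discrete (Set.Ioi n)).preimage hc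
    obtain ⟨F, hF1, hF2⟩ := hmenger.frequently (fun n => range (V n)) (by
      intro n
      refine ⟨?_, ?_⟩
      · rintro _ ⟨k, rfl⟩
        exact hVo n k
      · rw [eq_univ_iff_forall]
        rintro ⟨⟨x, hx⟩, ⟨y, hy⟩⟩
        obtain ⟨k, hk⟩ := exists_lt_cnt_of_not_finSupp (hnf x hx y hy) n
        exact ⟨_, ⟨k, rfl⟩, hk⟩)
    have hg : ∀ n, ∃ g, ∀ z ∈ ⋃₀ F n, n < cnt g (xorB z.1 z.2) := by
      intro n
      obtain ⟨E, -, hE2, hE3⟩ : ∃ E ⊆ (Set.univ : Set ℕ), E.Finite ∧ V n '' E = F n := by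
        have := Set.exists_subset_image_finite_and (f := V n) (s := Set.univ)
          (p := fun t => t = F n)
        obtain ⟨E', h1, h2, h3⟩ := this.1 ⟨F n, by rw [image_univ]; exact (hF1 n).1,
          (hF1 n).2, rfl⟩
        exact ⟨E', h1, h2, h3⟩
      obtain ⟨g, hg⟩ := hE2.bddAbove
      refine ⟨g, ?_⟩
      rintro z ⟨u, hu, hz⟩
      rw [← hE3] at hu
      obtain ⟨k, hk, rfl⟩ := hu
      have h1 : n < cnt k (xorB z.1 z.2) := hz
      exact lt_of_lt_of_le h1 (cnt_mono (hg hk) _)
    choose g hg using hg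
    obtain ⟨a, ha⟩ := he g
    obtain ⟨x, hx, f, hf1, hf2⟩ := (hY a).2.1
    rw [ha] at hf1
    obtain ⟨n, hn⟩ := (hF2 (⟨x, hx⟩, ⟨Y a, Or.inr ⟨a, rfl⟩⟩)).exists
    have h1 := hg n _ hn
    have h2 : xorB x (Y a) = chi f := hf2
    rw [h2] at h1
    have h3 := le_psum f (le_refl n)
    have h4 := hf1 n
    have h5 : cnt (g n) (chi f) ≤ n := cnt_chi_le (by omega)
    omega

end Pool.Agent.H752R3
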