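import Mathlib

/-!
Consequences of `𝔲 < 𝔤`.
-/

set_option autoImplicit false

namespace Pool.Agent.H752R3.Mono

open Set Filter Topology Cardinal

/-- Groupwise dense families of infinite subsets of `ℕ`. -/
def GroupwiseDense (𝒢 : Set (Set ℕ)) : Prop :=
  (∀ Z ∈ 𝒢, Z.Infinite) ∧
  (∀ Z ∈ 𝒢, ∀ Z' : Set ℕ, Z'.Infinite → (Z' \ Z).Finite → Z' ∈ 𝒢) ∧
  ∀ h : ℕ → ℕ, StrictMono h → ∃ A : Set ℕ, A.Infinite ∧ (⋃ n ∈ A, Ico (h n) (h (n + 1))) ∈ 𝒢

/-- The groupwise density number `𝔤`: the least cardinality of a set of groupwise dense families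
with empty intersection. -/
noncomputable def gNumber : Cardinal.{0} :=
  sInf {κ | ∃ 𝔊 : Set (Set (Set ℕ)), (∀ 𝒢 ∈ 𝔊, GroupwiseDense 𝒢) ∧ (⋂₀ 𝔊 = ∅) ∧ #𝔊 = κ}

/-- `ℬ` is a base of the nonprincipal ultrafilter `U` on `ℕ`. -/
def IsUltraBase (U : Ultrafilter ℕ) (ℬ : Set (Set ℕ)) : Prop :=
  (U : Filter ℕ) ≤ cofinite ∧ ∀ A, A ∈ U ↔ ∃ B ∈ ℬ, B ⊆ A

/-- The ultrafilter number `𝔲`: the least cardinality of a base of a nonprincipal ultrafilter on
`ℕ`. -/
noncomputable def uNumber : Cardinal.{0} :=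
  sInf {κ | ∃ (U : Ultrafilter ℕ) (ℬ : Set (Set ℕ)), IsUltraBase U ℬ ∧ #ℬ = κ}

theorem exists_base_of_lt (h : uNumber < gNumber) :
    ∃ (U : Ultrafilter ℕ) (ℬ : Set (Set ℕ)), IsUltraBase U ℬ ∧ #ℬ < gNumber := by
  have hne : {κ | ∃ (U : Ultrafilter ℕ) (ℬ : Set (Set ℕ)), IsUltraBase U ℬ ∧
      #ℬ = κ}.Nonempty := by
    refine ⟨_, hyperfilter ℕ, {A | A ∈ hyperfilter ℕ}, ⟨hyperfilter_le_cofinite, ?_⟩, rfl⟩
    intro A
    constructor
    · intro hA
      exact ⟨A, hA, subset_rfl⟩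
    · rintro ⟨B, hB, hBA⟩
      exact mem_of_superset hB hBA
  obtain ⟨U, ℬ, h1, h2⟩ := csInf_mem hne
  exact ⟨U, ℬ, h1, by rw [h2]; exact h⟩

theorem exists_common {ι : Type} (h : #ι < gNumber) (F : ι → Set (Set ℕ))
    (hF : ∀ i, GroupwiseDense (F i)) : ∃ Z, ∀ i, Z ∈ F i := by
  by_contra hcon
  push Not at hcon
  have h1 : gNumber ≤ #(range F) := by
    apply csInf_le'
    refine ⟨range F, ?_, ?_, rfl⟩
    · rintro _ ⟨i, rfl⟩
      exact hF i
    · rw [eq_empty_iff_forall_notMem]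
      intro Z hZ
      obtain ⟨i, hi⟩ := hcon Z
      exact hi (hZ (F i) (mem_range_self i))
  exact absurd (h1.trans mk_range_le) (not_le.2 h)

/-- Fewer than `𝔤` functions are not dominating. -/
theorem exists_undominated {ι : Type} [Nonempty ι] (h : #ι < gNumber) (K : ι → ℕ → ℕ) :
    ∃ g : ℕ → ℕ, ∀ i, ∃ n, K i n ≤ g n := by
  classical
  obtain ⟨Z, hZ⟩ := exists_common h
    (fun i => {Z : Set ℕ | Z.Infinite ∧ ∀ N, ∃ n, N ≤ n ∧ ∀ z ∈ Z, z < n ∨ K i n < z}) (by
    intro i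
    refine ⟨fun Z hZ => hZ.1, ?_, ?_⟩
    · rintro Z ⟨hZ, hZ2⟩ Z' hZ' hfin
      refine ⟨hZ', fun N => ?_⟩
      obtain ⟨M, hM⟩ := hfin.bddAbove
      obtain ⟨n, hn, hn2⟩ := hZ2 (max N (M + 1))
      refine ⟨n, (le_max_left _ _).trans hn, fun z hz => ?_⟩
      by_cases hzZ : z ∈ Z
      · exact hn2 z hzZ
      · left
        have h1 : z ≤ M := hM ⟨hz, hzZ⟩
        have h2 := le_max_right N (M + 1)
        omega
    · intro h hh
      let a : ℕ → ℕ := fun n => Nat.rec (motive := fun _ => ℕ) 0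
        (fun _ r => max r (K i (h (r + 1))) + 1) n
      have ha : ∀ n, a (n + 1) = max (a n) (K i (h (a n + 1))) + 1 := fun n => rfl
      have ham : StrictMono a := strictMono_nat_of_lt_succ (fun n => by
        rw [ha]
        have := le_max_left (a n) (K i (h (a n + 1)))
        omega)
      refine ⟨range a, infinite_range_of_injective ham.injective, ?_, ?_⟩
      · apply infinite_of_forall_exists_gt
        intro N
        refine ⟨h (a (N + 1)), mem_iUnion₂.2 ⟨a (N + 1), ⟨N + 1, rfl⟩, le_rfl,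
          hh (Nat.lt_succ_self _)⟩, ?_⟩
        have h1 := ham.id_le (N + 1)
        have h2 := hh.id_le (a (N + 1))
        simp only [id_eq] at h1 h2
        omega
      · intro N
        refine ⟨h (a N + 1), ?_, ?_⟩
        · have h1 := ham.id_le N
          have h2 := hh.id_le (a N + 1)
          simp only [id_eq] at h1 h2
          omega
        · intro z hz
          obtain ⟨_, ⟨j, rfl⟩, hz1, hz2⟩ := mem_iUnion₂.1 hz
          rcases lt_or_ge N j with hj | hj
          · right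
            have h1 : a (N + 1) ≤ a j := ham.monotone hj
            have h2 := hh.id_le (a j)
            have h3 := le_max_right (a N) (K i (h (a N + 1)))
            rw [ha] at h1
            simp only [id_eq] at h2
            omega
          · left
            have h1 : a j ≤ a N := ham.monotone hj
            have h2 : h (a j + 1) ≤ h (a N + 1) := hh.monotone (by omega)
            omega)
  have hZi : Z.Infinite := (hZ (Classical.arbitrary ι)).1
  have hg : ∀ n, ∃ z ∈ Z, n < z := fun n => by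
    obtain ⟨z, hz, hz2⟩ := hZi.exists_gt n
    exact ⟨z, hz, hz2⟩
  choose g hg1 hg2 using hg
  refine ⟨g, fun i => ?_⟩
  obtain ⟨n, _, hn⟩ := (hZ i).2 0
  refine ⟨n, ?_⟩
  rcases hn (g n) (hg1 n) with h1 | h1
  · have := hg2 n
    omega
  · omega

/-- The key lemma: a family of infinite sets which is not (dually) meager is controlled, along some
interval partition, by any ultrafilter base with fewer than `𝔤` elements. -/
theorem exists_partition {U : Ultrafilter ℕ} {ℬ : Set (Set ℕ)} (hU : IsUltraBase U ℬ)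
    (hℬ : #ℬ < gNumber) {Y : Set (Set ℕ)}
    (hY : ∀ h : ℕ → ℕ, StrictMono h → ∃ A : Set ℕ, A.Infinite ∧
      ∀ y ∈ Y, (y \ ⋃ n ∈ A, Ico (h n) (h (n + 1))).Infinite) :
    ∃ z : ℕ → ℕ, StrictMono z ∧ ∀ y ∈ Y, ∃ B ∈ ℬ, ∀ b ∈ B, ∃ n, (z n ≤ b ∧ b < z (n + 1)) ∧
      ∃ k ∈ y, z n ≤ k ∧ k < z (n + 1) := by
  classical
  have hBinf : ∀ B ∈ ℬ, B.Infinite := by
    intro B hB hfin
    have h1 : B ∈ U := (hU.2 B).2 ⟨B, hB, subset_rfl⟩
    have h2 : Bᶜ ∈ U := hU.1 (mem_cofinite.2 (by rwa [compl_compl]))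
    exact Ultrafilter.compl_notMem_iff.2 h1 h2
  obtain ⟨B0, hB0, -⟩ := (hU.2 univ).1 univ_mem
  obtain ⟨Z, hZ⟩ := exists_common hℬ
    (fun B : ℬ => {Z : Set ℕ | Z.Infinite ∧ ∃ W : Set ℕ, (∀ y ∈ Y, (W ∩ y).Infinite) ∧
      (∀ k ∈ W, k ∉ Z) ∧ ∀ a ∈ Z, ∀ b ∈ Z, a < b → (∃ k ∈ W, a < k ∧ k < b) →
        ∃ k ∈ (B : Set ℕ), a < k ∧ k < b}) (by
    rintro ⟨B, hB⟩
    refine ⟨fun Z hZ => hZ.1, ?_, ?_⟩
    · rintro Z ⟨hZ, W, hW1, hW2, hW3⟩ Z' hZ' hfin
      obtain ⟨M, hM⟩ := hfin.bddAbove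
      obtain ⟨M', hM', hMM'⟩ := hZ'.exists_gt M
      have hmem : ∀ z ∈ Z', M < z → z ∈ Z := by
        intro z hz hMz
        by_contra hcon
        have : z ≤ M := hM ⟨hz, hcon⟩
        omega
      refine ⟨hZ', {k | k ∈ W ∧ M' < k}, ?_, ?_, ?_⟩
      · intro y hy
        apply ((hW1 y hy).sdiff (finite_Iic M')).mono
        rintro k ⟨⟨hk1, hk2⟩, hk3⟩
        exact ⟨⟨hk1, not_le.1 hk3⟩, hk2⟩
      · rintro k ⟨hk1, hk2⟩ hk3
        exact hW2 k hk1 (hmem k hk3 (by omega))
      · rintro a ha b hb hab ⟨k, ⟨hkW, hkM⟩, hak, hkb⟩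
        rcases lt_or_ge M a with h1 | h1
        · exact hW3 a (hmem a ha h1) b (hmem b hb (by omega)) hab ⟨k, hkW, hak, hkb⟩
        · obtain ⟨k', hk', h2, h3⟩ := hW3 M' (hmem M' hM' hMM') b (hmem b hb (by omega))
            (by omega) ⟨k, hkW, hkM, hkb⟩
          exact ⟨k', hk', by omega, h3⟩
    · intro h hh
      have hnext : ∀ m, ∃ m', m < m' ∧ ∃ b ∈ B, h m ≤ b ∧ b < h m' := by
        intro m
        obtain ⟨b, hb, hmb⟩ := (hBinf B hB).exists_gt (h m)
        have h1 := hh.id_le (b + 1)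
        simp only [id_eq] at h1
        refine ⟨max (m + 1) (b + 1), by have := le_max_left (m + 1) (b + 1); omega, b, hb,
          hmb.le, ?_⟩
        have h2 : h (b + 1) ≤ h (max (m + 1) (b + 1)) := hh.monotone (le_max_right _ _)
        omega
      choose nx hnx1 hnx2 using hnext
      let e : ℕ → ℕ := fun n => Nat.rec (motive := fun _ => ℕ) 0 (fun _ r => nx r) n
      have he : ∀ n, e (n + 1) = nx (e n) := fun n => rfl
      have hem : StrictMono e := strictMono_nat_of_lt_succ (fun n => by rw [he]; exact hnx1 _)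
      have hhe : StrictMono (fun n => h (e n)) := hh.comp hem
      obtain ⟨A', hA', hA'2⟩ := hY (fun n => h (e n)) hhe
      obtain ⟨A, hAA', hA, hA2⟩ : ∃ A ⊆ A', A.Infinite ∧ ∀ n ∈ A, ∀ m ∈ A, n < m → n + 1 < m := by
        have h1 : A' = {n | n ∈ A' ∧ n % 2 = 0} ∪ {n | n ∈ A' ∧ n % 2 = 1} := by
          ext n
          constructor
          · intro hn
            rcases Nat.mod_two_eq_zero_or_one n with h2 | h2
            · exact Or.inl ⟨hn, h2⟩
            · exact Or.inr ⟨hn, h2⟩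
          · rintro (h2 | h2)
            · exact h2.1
            · exact h2.1
        rw [h1] at hA'
        rcases infinite_union.1 hA' with h2 | h2
        · exact ⟨_, fun n hn => hn.1, h2, fun n hn m hm hnm => by
            have := hn.2
            have := hm.2
            omega⟩
        · exact ⟨_, fun n hn => hn.1, h2, fun n hn m hm hnm => by
            have := hn.2
            have := hm.2
            omega⟩
      let V : Set ℕ := ⋃ n ∈ A, Ico (h (e n)) (h (e (n + 1)))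
      have hV : V = ⋃ m ∈ (⋃ n ∈ A, Ico (e n) (e (n + 1))), Ico (h m) (h (m + 1)) := by
        ext k
        simp only [V, mem_iUnion, mem_Ico]
        constructor
        · rintro ⟨n, hn, hk1, hk2⟩
          -- the block of `k`
          have h3 : ∃ m, e n ≤ m ∧ m < e (n + 1) ∧ h m ≤ k ∧ k < h (m + 1) := by
            have h4 : ∃ m, k < h (m + 1) := ⟨k, by
              have := hh.id_le (k + 1)
              simp only [id_eq] at this
              omega⟩
            have h5 := Nat.find_spec h4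
            refine ⟨Nat.find h4, ?_, ?_, ?_, h5⟩
            · by_contra hcon
              have h6 : h (Nat.find h4 + 1) ≤ h (e n) := hh.monotone (by omega)
              omega
            · obtain ⟨m, hm⟩ : ∃ m, e (n + 1) = m + 1 := ⟨e (n + 1) - 1, by
                have := hem (Nat.lt_succ_self n)
                have h7 : e n < e (n + 1) := this
                omega⟩
              have h6 : Nat.find h4 ≤ m := Nat.find_min' h4 (by rw [← hm]; exact hk2)
              omega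
            · by_contra hcon
              push Not at hcon
              rcases Nat.eq_zero_or_pos (Nat.find h4) with h6 | h6
              · rw [h6] at hcon
                have h7 : h 0 ≤ h (e n) := hh.monotone (Nat.zero_le _)
                omega
              · have h7 : Nat.find h4 ≤ Nat.find h4 - 1 := Nat.find_min' h4 (by
                  rw [Nat.sub_add_cancel h6]
                  exact hcon)
                omega
          obtain ⟨m, h5, h6, h7, h8⟩ := h3
          exact ⟨m, ⟨n, hn, h5, h6⟩, h7, h8⟩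
        · rintro ⟨m, ⟨n, hn, h5, h6⟩, h7, h8⟩
          refine ⟨n, hn, (hh.monotone h5).trans h7, lt_of_lt_of_le h8 (hh.monotone (by omega))⟩
      refine ⟨⋃ n ∈ A, Ico (e n) (e (n + 1)), ?_, ?_⟩
      · apply infinite_of_forall_exists_gt
        intro N
        obtain ⟨n, hn, hNn⟩ := hA.exists_gt N
        refine ⟨e n, mem_iUnion₂.2 ⟨n, hn, le_rfl, hem (Nat.lt_succ_self n)⟩, ?_⟩
        have := hem.id_le n
        simp only [id_eq] at this
        omega
      rw [← hV]
      refine ⟨?_, Vᶜ, ?_, ?_, ?_⟩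
      · apply infinite_of_forall_exists_gt
        intro N
        obtain ⟨n, hn, hNn⟩ := hA.exists_gt N
        refine ⟨h (e n), mem_iUnion₂.2 ⟨n, hn, le_rfl, hhe (Nat.lt_succ_self n)⟩, ?_⟩
        have := hhe.id_le n
        simp only [id_eq] at this
        omega
      · intro y hy
        apply (hA'2 y hy).mono
        rintro k ⟨hk1, hk2⟩
        refine ⟨fun hk3 => hk2 ?_, hk1⟩
        obtain ⟨n, hn, hk4⟩ := mem_iUnion₂.1 hk3
        exact mem_iUnion₂.2 ⟨n, hAA' hn, hk4⟩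
      · intro k hk
        exact hk
      · rintro a ha b hb hab ⟨k, hk, hak, hkb⟩
        obtain ⟨n, hn, hn1, hn2⟩ := mem_iUnion₂.1 ha
        obtain ⟨m, hm, hm1, hm2⟩ := mem_iUnion₂.1 hb
        rcases lt_trichotomy n m with h1 | h1 | h1
        · have h2 := hA2 n hn m hm h1
          obtain ⟨c, hc, hc1, hc2⟩ := hnx2 (e (n + 1))
          have hc3 : c < h (e (n + 1 + 1)) := hc2
          have h3 : h (e (n + 1 + 1)) ≤ h (e m) := hhe.monotone (show n + 1 + 1 ≤ m by omega)
          exact ⟨c, hc, by omega, by omega⟩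
        · exfalso
          subst h1
          exact hk (mem_iUnion₂.2 ⟨n, hn, by omega, by omega⟩)
        · exfalso
          have h3 : h (e (m + 1)) ≤ h (e n) := hhe.monotone (show m + 1 ≤ n by omega)
          omega)
  have hZi : Z.Infinite := (hZ ⟨B0, hB0⟩).1
  have hZi' : (Set.ofPred (· ∈ Z)).Infinite := hZi
  let z : ℕ → ℕ := Nat.nth (· ∈ Z)
  have hz : StrictMono z := Nat.nth_strictMono hZi'
  have hzZ : ∀ n, z n ∈ Z := fun n => Nat.nth_mem_of_infinite hZi' n
  refine ⟨z, hz, fun y hy => ?_⟩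
  let sat : Set ℕ := ⋃ n ∈ {n | ∃ k ∈ y, z n ≤ k ∧ k < z (n + 1)}, Ico (z n) (z (n + 1))
  have hsat : sat ∈ U := by
    by_contra hcon
    have h1 : satᶜ ∈ U := Ultrafilter.compl_mem_iff_notMem.2 hcon
    obtain ⟨B, hB, hBs⟩ := (hU.2 _).1 h1
    obtain ⟨-, W, hW1, hW2, hW3⟩ := hZ ⟨B, hB⟩
    obtain ⟨k, ⟨hkW, hky⟩, hk⟩ := (hW1 y hy).exists_gt (z 0)
    -- the block of `k`
    have h3 : ∃ m, z m ≤ k ∧ k < z (m + 1) := by
      have h4 : ∃ m, k < z (m + 1) := ⟨k, by
        have := hz.id_le (k + 1)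
        simp only [id_eq] at this
        omega⟩
      refine ⟨Nat.find h4, ?_, Nat.find_spec h4⟩
      by_contra hcon2
      push Not at hcon2
      rcases Nat.eq_zero_or_pos (Nat.find h4) with h6 | h6
      · rw [h6] at hcon2
        omega
      · have h7 : Nat.find h4 ≤ Nat.find h4 - 1 := Nat.find_min' h4 (by
          rw [Nat.sub_add_cancel h6]
          exact hcon2)
        omega
    obtain ⟨m, hm1, hm2⟩ := h3
    have hne : z m ≠ k := fun h => hW2 k hkW (h ▸ hzZ m)
    obtain ⟨c, hc, hc1, hc2⟩ := hW3 (z m) (hzZ m) (z (m + 1)) (hzZ _) (hz (Nat.lt_succ_self m))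
      ⟨k, hkW, by omega, hm2⟩
    exact hBs hc (mem_iUnion₂.2 ⟨m, ⟨k, hky, hm1, hm2⟩, hc1.le, hc2⟩)
  obtain ⟨B, hB, hBs⟩ := (hU.2 _).1 hsat
  refine ⟨B, hB, fun b hb => ?_⟩
  obtain ⟨n, ⟨k, hk1, hk2, hk3⟩, hn⟩ := mem_iUnion₂.1 (hBs hb)
  exact ⟨n, ⟨hn.1, hn.2⟩, k, hk1, hk2, hk3⟩

/-- Counting along the base. -/
theorem exists_bound {z : ℕ → ℕ} (hz : StrictMono z) {B : Set ℕ} (hB : B.Infinite) :
    ∃ K : ℕ → ℕ, ∀ c, ∀ y : Set ℕ, (∀ b ∈ B, ∃ n, (z n ≤ b ∧ b < z (n + 1)) ∧
      ∃ k ∈ y, z n ≤ k ∧ k < z (n + 1)) →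
      ∃ s : Finset ℕ, s.card = c ∧ ∀ k ∈ s, k ∈ y ∧ k < K c := by
  classical
  have key : ∀ c, ∃ K, ∀ y : Set ℕ, (∀ b ∈ B, ∃ n, (z n ≤ b ∧ b < z (n + 1)) ∧
      ∃ k ∈ y, z n ≤ k ∧ k < z (n + 1)) →
      ∃ s : Finset ℕ, s.card = c ∧ ∀ k ∈ s, k ∈ y ∧ k < K := by
    intro c
    induction c with
    | zero => exact ⟨0, fun y _ => ⟨∅, rfl, by simp⟩⟩
    | succ c ih =>
      obtain ⟨K, hK⟩ := ih
      obtain ⟨b, hb, hbK⟩ := hB.exists_gt (z K)
      refine ⟨z (b + 1), fun y hy => ?_⟩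
      obtain ⟨s, hs1, hs2⟩ := hK y hy
      obtain ⟨n, ⟨hn1, hn2⟩, k, hky, hk1, hk2⟩ := hy b hb
      have h1 : K < n + 1 := by
        by_contra hcon
        have : z (n + 1) ≤ z K := hz.monotone (by omega)
        omega
      have h2 := hz.id_le n
      have h3 := hz.id_le (b + 1)
      simp only [id_eq] at h2 h3
      have h4 : z (n + 1) ≤ z (b + 1) := hz.monotone (by omega)
      have h5 := hz.id_le K
      simp only [id_eq] at h5
      have hkK : K ≤ k := by omega
      refine ⟨insert k s, ?_, ?_⟩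
      · rw [Finset.card_insert_of_notMem, hs1]
        intro hks
        have := (hs2 k hks).2
        omega
      · intro j hj
        rcases Finset.mem_insert.1 hj with rfl | hj
        · exact ⟨hky, by omega⟩
        · have := hs2 j hj
          exact ⟨this.1, by omega⟩
  choose K hK using key
  exact ⟨K, hK⟩

end Pool.Agent.H752R3.Mono
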