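import Pool.Agent.H752R3.Selection
import Pool.Agent.H752R3.MonoUG

/-!
The product of a Menger set of reals and a set of fewer than `𝔤` reals is Menger.
-/

set_option autoImplicit false

namespace Pool.Agent.H752R3

open Set Filter Topology Mono
open scoped Cardinal

theorem blocks_coarsen {h : ℕ → ℕ} (hh : StrictMono h) {e : ℕ → ℕ} (he : StrictMono e)
    (A : Set ℕ) : (⋃ n ∈ A, Ico (h (e n)) (h (e (n + 1)))) =
      ⋃ m ∈ (⋃ n ∈ A, Ico (e n) (e (n + 1))), Ico (h m) (h (m + 1)) := by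
  classical
  ext k
  simp only [mem_iUnion, mem_Ico]
  constructor
  · rintro ⟨n, hn, hk1, hk2⟩
    have h4 : ∃ m, k < h (m + 1) := ⟨k, by
      have := hh.id_le (k + 1)
      simp only [id_eq] at this
      omega⟩
    have h5 := Nat.find_spec h4
    refine ⟨Nat.find h4, ⟨n, hn, ?_, ?_⟩, ?_, h5⟩
    · by_contra hcon
      have h6 : h (Nat.find h4 + 1) ≤ h (e n) := hh.monotone (by omega)
      omega
    · obtain ⟨m, hm⟩ : ∃ m, e (n + 1) = m + 1 := ⟨e (n + 1) - 1, by
        have h7 : e n < e (n + 1) := he (Nat.lt_succ_self n)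
        omega⟩
      have h6 : Nat.find h4 ≤ m := Nat.find_min' h4 (by rw [← hm]; exact hk2)
      omega
    · by_contra hcon
      push Not at hcon
      rcases Nat.eq_zero_or_pos (Nat.find h4) with h6 | h6
      · rw [h6] at hcon
        have h7 : h 0 ≤ h (e n) := hh.monotone (Nat.zero_le _)
        omega
      · have h7 : Nat.find h4 ≤ Nat.find h4 - 1 := Nat.find_min' h4 (by
          rw [Nat.sub_add_cancel h6]
          exact hcon)
        omega
  · rintro ⟨m, ⟨n, hn, h5, h6⟩, h7, h8⟩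
    exact ⟨n, hn, (hh.monotone h5).trans h7, lt_of_lt_of_le h8 (hh.monotone (by omega))⟩

/-- Menger's property for increasing covers. -/
theorem MengerSp.exists_fun {Y : Type*} [TopologicalSpace Y] (hY : MengerSp Y)
    (V : ℕ → ℕ → Set Y) (hV : ∀ n m, IsOpen (V n m)) (hVm : ∀ n a b, a ≤ b → V n a ⊆ V n b)
    (hVc : ∀ n y, ∃ m, y ∈ V n m) :
    ∃ g : ℕ → ℕ, Monotone g ∧ ∀ y N, ∃ n, N ≤ n ∧ y ∈ V n (g n) := by
  classical
  obtain ⟨F, hF1, hF2⟩ := hY.frequently (fun n => range (V n)) (fun n => ⟨by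
    rintro _ ⟨m, rfl⟩
    exact hV n m, by
    rw [eq_univ_iff_forall]
    intro y
    obtain ⟨m, hm⟩ := hVc n y
    exact ⟨_, ⟨m, rfl⟩, hm⟩⟩)
  have h1 : ∀ n, ∃ M, ⋃₀ F n ⊆ V n M := by
    intro n
    have h2 : ∀ u ∈ F n, ∃ m, V n m = u := fun u hu => (hF1 n).1 hu
    choose! m hm using h2
    obtain ⟨M, hM⟩ := ((hF1 n).2.image m).bddAbove
    refine ⟨M, ?_⟩
    rintro y ⟨u, hu, hyu⟩
    rw [← hm u hu] at hyu
    exact hVm n _ _ (hM ⟨u, hu, rfl⟩) hyu
  choose M hM using h1
  refine ⟨fun n => (Finset.range (n + 1)).sup M, ?_, ?_⟩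
  · intro a b hab
    apply Finset.sup_mono
    intro i hi
    rw [Finset.mem_range] at hi ⊢
    omega
  · intro y N
    obtain ⟨n, hn, hyn⟩ := (frequently_atTop.1 (hF2 y)) N
    refine ⟨n, hn, hVm n (M n) _ ?_ (hM n hyn)⟩
    exact Finset.le_sup (f := M) (Finset.mem_range.2 (Nat.lt_succ_self n))

/-- The groupwise dense family of a Menger space. -/
theorem groupwiseDense_of_menger {Y : Type*} [TopologicalSpace Y] (hY : MengerSp Y)
    (V : ℕ → ℕ → Set Y) (hV : ∀ n m, IsOpen (V n m)) (hVm : ∀ n a b, a ≤ b → V n a ⊆ V n b)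
    (hVc : ∀ n y, ∃ m, y ∈ V n m) :
    GroupwiseDense {Z : Set ℕ | Z.Infinite ∧
      ∀ y N, ∃ n, N ≤ n ∧ ∃ m, (∀ z ∈ Z, n ≤ z → m ≤ z) ∧ y ∈ V n m} := by
  classical
  refine ⟨fun Z hZ => hZ.1, ?_, ?_⟩
  · rintro Z ⟨hZ, hZ2⟩ Z' hZ' hfin
    refine ⟨hZ', fun y N => ?_⟩
    obtain ⟨M, hM⟩ := hfin.bddAbove
    obtain ⟨n, hn, m, hm, hy⟩ := hZ2 y (max N (M + 1))
    refine ⟨n, (le_max_left _ _).trans hn, m, fun z hz hnz => ?_, hy⟩
    by_cases hzZ : z ∈ Z
    · exact hm z hzZ hnz
    · have h1 : z ≤ M := hM ⟨hz, hzZ⟩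
      have h2 := le_max_right N (M + 1)
      omega
  · intro h hh
    obtain ⟨g, hg1, hg2⟩ := hY.exists_fun V hV hVm hVc
    let e : ℕ → ℕ := fun n => Nat.rec (motive := fun _ => ℕ) 0
      (fun _ r => max r (g (h r)) + 1) n
    have he : ∀ n, e (n + 1) = max (e n) (g (h (e n))) + 1 := fun n => rfl
    have hem : StrictMono e := strictMono_nat_of_lt_succ (fun n => by
      rw [he]
      have := le_max_left (e n) (g (h (e n)))
      omega)
    have hhe : StrictMono (fun n => h (e n)) := hh.comp hem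
    have hge : ∀ k, g (h (e k)) ≤ h (e (k + 1)) := by
      intro k
      have h1 := hh.id_le (e (k + 1))
      simp only [id_eq] at h1
      have h2 := le_max_right (e k) (g (h (e k)))
      have h3 := he k
      omega
    let C : ℕ → Set Y := fun k => ⋃ n ∈ Ico (h (e k)) (h (e (k + 1))), V n (g n)
    have hC : ∀ k, IsOpen (C k) := fun k => isOpen_biUnion (fun n _ => hV n _)
    have hCinf : ∀ y, {k | y ∈ C k}.Infinite := by
      intro y
      apply infinite_of_forall_exists_gt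
      intro N
      obtain ⟨n, hn, hyn⟩ := hg2 y (h (e (N + 1)))
      have h4 : ∃ m, n < h (e (m + 1)) := ⟨n, by
        have := hhe.id_le (n + 1)
        simp only [id_eq] at this
        omega⟩
      have h5 := Nat.find_spec h4
      have h6 : N + 1 ≤ Nat.find h4 := by
        by_contra hcon
        have h7 : h (e (Nat.find h4 + 1)) ≤ h (e (N + 1)) :=
          hhe.monotone (show Nat.find h4 + 1 ≤ N + 1 by omega)
        omega
      refine ⟨Nat.find h4, mem_iUnion₂.2 ⟨n, ⟨?_, h5⟩, hyn⟩, h6⟩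
      by_contra hcon
      have h7 : Nat.find h4 ≤ Nat.find h4 - 1 := Nat.find_min' h4 (by
        rw [Nat.sub_add_cancel (by omega)]
        exact not_le.1 hcon)
      omega
    let E : ℕ → ℕ → Set Y := fun p q =>
      ⋃ s ∈ {s : Finset ℕ | s.card = 3 ∧ ∀ k ∈ s, p ≤ k ∧ k < q}, ⋂ k ∈ s, C k
    obtain ⟨G, hG1, hG2⟩ := hY.exists_fun E (fun p q => isOpen_biUnion (fun s _ =>
        isOpen_biInter_finset (fun k _ => hC k))) (fun p a b hab => by
          rintro y hy
          obtain ⟨s, hs, hys⟩ := mem_iUnion₂.1 hy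
          exact mem_iUnion₂.2 ⟨s, ⟨hs.1, fun k hk => ⟨(hs.2 k hk).1,
            lt_of_lt_of_le (hs.2 k hk).2 hab⟩⟩, hys⟩) (fun p y => by
          obtain ⟨s, hs, hsc⟩ := ((hCinf y).sdiff (finite_Iio p)).exists_subset_card_eq 3
          refine ⟨s.sup id + 1, mem_iUnion₂.2 ⟨s, ⟨hsc, fun k hk => ⟨?_, ?_⟩⟩, ?_⟩⟩
          · exact not_lt.1 (hs hk).2
          · exact Nat.lt_succ_of_le (Finset.le_sup (f := id) hk)
          · exact mem_iInter₂.2 (fun k hk => (hs hk).1))
    let a : ℕ → ℕ := fun n => Nat.rec (motive := fun _ => ℕ) 0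
      (fun _ r => max r (G r) + 2) n
    have ha : ∀ n, a (n + 1) = max (a n) (G (a n)) + 2 := fun n => rfl
    have ham : StrictMono a := strictMono_nat_of_lt_succ (fun n => by
      rw [ha]
      have := le_max_left (a n) (G (a n))
      omega)
    have hagap : ∀ i j, i < j → G (a i) + 1 < a j := by
      intro i j hij
      have h1 : a (i + 1) ≤ a j := ham.monotone hij
      have h2 := ha i
      have h3 := le_max_right (a i) (G (a i))
      omega
    have hAI : (range a).Infinite := infinite_range_of_injective ham.injective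
    refine ⟨⋃ n ∈ range a, Ico (e n) (e (n + 1)), ?_, ?_⟩
    · apply infinite_of_forall_exists_gt
      intro N
      obtain ⟨n, hn, hNn⟩ := hAI.exists_gt N
      refine ⟨e n, mem_iUnion₂.2 ⟨n, hn, le_rfl, hem (Nat.lt_succ_self n)⟩, ?_⟩
      have := hem.id_le n
      simp only [id_eq] at this
      omega
    rw [← blocks_coarsen hh hem]
    refine ⟨?_, ?_⟩
    · apply infinite_of_forall_exists_gt
      intro N
      obtain ⟨n, hn, hNn⟩ := hAI.exists_gt N
      refine ⟨h (e n), mem_iUnion₂.2 ⟨n, hn, le_rfl, hhe (Nat.lt_succ_self n)⟩, ?_⟩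
      have := hhe.id_le n
      simp only [id_eq] at this
      omega
    · intro y N
      obtain ⟨p, hp, hyp⟩ := hG2 y N
      obtain ⟨s, ⟨hs1, hs2⟩, hys⟩ := mem_iUnion₂.1 hyp
      -- some element of `s` is far from `range a`
      obtain ⟨k, hk, hka, hka'⟩ : ∃ k ∈ s, k ∉ range a ∧ k + 1 ∉ range a := by
        by_contra hcon
        push Not at hcon
        -- all elements of `s` are `a i` or `a i - 1` for one and the same `i`
        have h1 : ∀ k ∈ s, ∃ i, k = a i ∨ k + 1 = a i := by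
          intro k hk
          by_cases hka : k ∈ range a
          · obtain ⟨i, hi⟩ := hka
            exact ⟨i, Or.inl hi.symm⟩
          · obtain ⟨i, hi⟩ := hcon k hk hka
            exact ⟨i, Or.inr hi.symm⟩
        have h2 : ∀ k ∈ s, ∀ k' ∈ s, ∀ i i', (k = a i ∨ k + 1 = a i) →
            (k' = a i' ∨ k' + 1 = a i') → ¬ i < i' := by
          intro k hk k' hk' i i' hi hi' hlt
          have h3 := hagap i i' hlt
          have h4 := hs2 k hk
          have h5 := hs2 k' hk'
          have h6 : p ≤ a i := by omega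
          have h7 : G p ≤ G (a i) := hG1 h6
          omega
        have hne : s.Nonempty := by
          rw [← Finset.card_pos]
          omega
        obtain ⟨k0, hk0⟩ := hne
        obtain ⟨i0, hi0⟩ := h1 k0 hk0
        have h3 : s ⊆ {a i0, a i0 - 1} := by
          intro k hk
          obtain ⟨i, hi⟩ := h1 k hk
          have h4 := h2 k hk k0 hk0 i i0 hi hi0
          have h5 := h2 k0 hk0 k hk i0 i hi0 hi
          have h6 : i = i0 := by omega
          subst h6
          rw [Finset.mem_insert, Finset.mem_singleton]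
          omega
        have h4 := Finset.card_le_card h3
        have h5 : ({a i0, a i0 - 1} : Finset ℕ).card ≤ 2 := Finset.card_le_two
        omega
      have hyk : y ∈ C k := mem_iInter₂.1 hys k hk
      obtain ⟨n, ⟨hn1, hn2⟩, hyn⟩ := mem_iUnion₂.1 hyk
      refine ⟨n, ?_, g n, ?_, hyn⟩
      · have h1 := hhe.id_le k
        simp only [id_eq] at h1
        have h2 := (hs2 k hk).1
        omega
      · rintro z hz hnz
        obtain ⟨b, hb, hzb1, hzb2⟩ := mem_iUnion₂.1 hz
        have h1 : k ≤ b := by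
          by_contra hcon
          have h2 : h (e (b + 1)) ≤ h (e k) := hhe.monotone (show b + 1 ≤ k by omega)
          omega
        have h2 : b ≠ k := fun h => hka (h ▸ hb)
        have h3 : b ≠ k + 1 := fun h => hka' (h ▸ hb)
        have h4 : h (e (k + 1 + 1)) ≤ h (e b) := hhe.monotone (show k + 1 + 1 ≤ b by omega)
        have h5 := hge (k + 1)
        have h6 : g n ≤ g (h (e (k + 1))) := hg1 hn2.le
        omega

/-- If `X` and `Y` are sets of reals, `X` has fewer than `𝔤` elements and `Y` is Menger, then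
`X × Y` is Menger. -/
theorem menger_prod_of_small {X Y : Set (ℕ → Bool)} (hX : #X < gNumber) (hY : MengerSp Y) :
    MengerSp (X × Y) := by
  classical
  intro U hU
  rcases isEmpty_or_nonempty X with hXe | hXne
  · refine ⟨fun _ => ∅, fun n => ⟨empty_subset _, finite_empty⟩, ?_⟩
    rw [eq_univ_iff_forall]
    rintro ⟨x, _⟩
    exact hXe.elim x
  -- countable subcovers
  have h1 : ∀ n, ∃ c : ℕ → Set (X × Y), (∀ i, c i ∈ insert ∅ (U n)) ∧ ∀ p, ∃ i, p ∈ c i := by
    intro n
    obtain ⟨T, hT1, hT2, hT3⟩ := TopologicalSpace.isOpen_sUnion_countable (U n) (hU n).1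
    rw [(hU n).2] at hT3
    rcases T.eq_empty_or_nonempty with he | hne
    · refine ⟨fun _ => ∅, fun _ => mem_insert _ _, fun p => ?_⟩
      have : p ∈ ⋃₀ T := by rw [hT3]; trivial
      rw [he] at this
      simp at this
    · obtain ⟨c, hc⟩ := hT1.exists_eq_range hne
      refine ⟨c, fun i => mem_insert_of_mem _ (hT2 (by rw [hc]; exact ⟨i, rfl⟩)), fun p => ?_⟩
      have : p ∈ ⋃₀ T := by rw [hT3]; trivial
      rw [hc] at this
      obtain ⟨_, ⟨i, rfl⟩, hp⟩ := this
      exact ⟨i, hp⟩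
  choose c hc1 hc2 using h1
  have hco : ∀ n i, IsOpen (c n i) := by
    intro n i
    rcases hc1 n i with h | h
    · rw [h]; exact isOpen_empty
    · exact (hU n).1 _ h
  let W : ℕ → ℕ → Set (X × Y) := fun n m => ⋃ i ∈ Iic m, c n i
  have hWo : ∀ n m, IsOpen (W n m) := fun n m => isOpen_biUnion (fun i _ => hco n i)
  have hWm : ∀ n a b, a ≤ b → W n a ⊆ W n b := fun n a b hab =>
    biUnion_subset_biUnion_left (fun i hi => le_trans hi hab)
  have hWc : ∀ n p, ∃ m, p ∈ W n m := by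
    intro n p
    obtain ⟨i, hi⟩ := hc2 n p
    exact ⟨i, mem_iUnion₂.2 ⟨i, mem_Iic.2 le_rfl, hi⟩⟩
  obtain ⟨Z, hZ⟩ := exists_common hX
    (fun x : X => {Z : Set ℕ | Z.Infinite ∧ ∀ (y : Y) N, ∃ n, N ≤ n ∧
      ∃ m, (∀ z ∈ Z, n ≤ z → m ≤ z) ∧ y ∈ (fun y : Y => ((x, y) : X × Y)) ⁻¹' W n m}) (fun x =>
      groupwiseDense_of_menger hY (fun n m => (fun y : Y => ((x, y) : X × Y)) ⁻¹' W n m)
        (fun n m => (hWo n m).preimage (by fun_prop))
        (fun n a b hab => preimage_mono (hWm n a b hab))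
        (fun n y => hWc n (x, y)))
  obtain ⟨x0⟩ := hXne
  have hZi : Z.Infinite := (hZ x0).1
  have hg : ∀ n, ∃ z ∈ Z, n ≤ z := fun n => by
    obtain ⟨z, hz, hz2⟩ := hZi.exists_gt n
    exact ⟨z, hz, hz2.le⟩
  choose g hg1 hg2 using hg
  refine ⟨fun n => (c n '' Iic (g n)) ∩ U n, fun n => ⟨inter_subset_right,
    ((finite_Iic _).image _).subset inter_subset_left⟩, ?_⟩
  rw [eq_univ_iff_forall]
  rintro ⟨x, y⟩
  obtain ⟨n, -, m, hm, hy⟩ := (hZ x).2 y 0
  have h2 : ((x, y) : X × Y) ∈ W n (g n) := hWm n m (g n) (hm _ (hg1 n) (hg2 n)) hy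
  obtain ⟨i, hi, hyi⟩ := mem_iUnion₂.1 h2
  refine mem_iUnion.2 ⟨n, c n i, ⟨⟨i, hi, rfl⟩, ?_⟩, hyi⟩
  rcases hc1 n i with h | h
  · rw [h] at hyi
    exact absurd hyi (notMem_empty _)
  · exact h

end Pool.Agent.H752R3
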