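import Pool.Agent.H752R3.LuzinProduct
import Pool.Agent.H752R3.SmallG

/-!
Under CH, for every `cov(M)`-Luzin set `X` there is a set of reals `Y` all of whose finite powers
are Rothberger such that `X × Y` is not Menger.  In ZFC, `X × Y` is Menger for every Menger set of
reals `Y` if `X` has fewer than `𝔤` elements, which is consistent for a `cov(M)`-Luzin set `X`.
-/

namespace Pool.Agent.Results.MP_10f401_gt.LuzinProductsBoth

open Set Filter Topology Cardinal Pool.Agent.H752R3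

/-- The least cardinality of a family of meagre sets covering the Cantor space. -/
noncomputable def covM : Cardinal.{0} :=
  sInf {κ | ∃ A : Set (Set (ℕ → Bool)), (∀ M ∈ A, IsMeagre M) ∧ ⋃₀ A = Set.univ ∧ #A = κ}

/-- `X` is a `κ`-Luzin set. -/
def IsKLuzin (κ : Cardinal.{0}) (X : Set (ℕ → Bool)) : Prop :=
  κ ≤ #X ∧ ∀ M : Set (ℕ → Bool), IsMeagre M → #(X ∩ M : Set (ℕ → Bool)) < κ

theorem covM_eq (CH : (ℵ₁ : Cardinal.{0}) = 𝔠) : covM = ℵ₁ := by
  have h1 : #(range fun x : ℕ → Bool => ({x} : Set (ℕ → Bool))) ∈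
      {κ | ∃ A : Set (Set (ℕ → Bool)), (∀ M ∈ A, IsMeagre M) ∧ ⋃₀ A = Set.univ ∧ #A = κ} := by
    refine ⟨_, ?_, ?_, rfl⟩
    · rintro _ ⟨x, rfl⟩
      exact (isNowhereDense_singleton_cantor x).isMeagre
    · rw [eq_univ_iff_forall]
      intro x
      exact ⟨{x}, ⟨x, rfl⟩, rfl⟩
  apply le_antisymm
  · refine (csInf_le' h1).trans ?_
    refine Cardinal.mk_range_le.trans ?_
    rw [CH]
    simp
  · apply le_csInf ⟨_, h1⟩
    rintro κ ⟨A, hA1, hA2, rfl⟩
    by_contra hlt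
    have hc : A.Countable := countable_of_lt_aleph1 (not_le.1 hlt)
    have h2 : IsMeagre (⋃₀ A) := by
      rw [sUnion_eq_biUnion]
      exact isMeagre_biUnion hc hA1
    rw [hA2] at h2
    exact not_isMeagre_of_isOpen isOpen_univ univ_nonempty h2

/-- Under CH, parts (a) and (b) have positive answers for every `cov(M)`-Luzin set. -/
theorem ch_half (CH : (ℵ₁ : Cardinal.{0}) = 𝔠) (X : Set (ℕ → Bool)) (hX : IsKLuzin covM X) :
    ∃ Y : Set (ℕ → Bool),
      (∀ k : ℕ, 1 ≤ k → RothbergerSp (Fin k → Y) ∧ MengerSp (Fin k → Y)) ∧ ¬ MengerSp (X × Y) := by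
  rw [covM_eq CH] at hX
  have hL : LuzinSet X := by
    refine ⟨fun hc => ?_, fun M hM => countable_of_lt_aleph1 (hX.2 M hM)⟩
    have h1 := hX.1
    have h2 : #X ≤ ℵ₀ := by
      rw [Cardinal.mk_le_aleph0_iff, Set.countable_coe_iff]; exact hc
    exact absurd (h1.trans h2) (not_le.2 Cardinal.aleph0_lt_aleph_one)
  obtain ⟨Y, hne, hY, hXY⟩ := luzin_product CH hL
  refine ⟨Y, fun k _ => ?_, hXY⟩
  have hR := hY.rothberger_pow hne k
  refine ⟨hR, ?_⟩
  intro U hU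
  obtain ⟨u, hu1, hu2⟩ := hR U hU
  refine ⟨fun n => {u n}, fun n => ⟨by simpa using hu1 n, Set.finite_singleton _⟩, ?_⟩
  simpa using hu2

/-- (1) Under CH, parts (a) and (b) have positive answers for every `cov(M)`-Luzin set.  (2) In ZFC,
if `X` is a set of reals with fewer than `𝔤` elements then `X × Y` is Menger for every Menger set of
reals `Y`.  (3) Hence, if some `cov(M)`-Luzin set has fewer than `𝔤` elements (as in the Miller
model), then parts (a) and (b) both fail for it. -/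
theorem result :
    ((ℵ₁ : Cardinal.{0}) = 𝔠 → ∀ X : Set (ℕ → Bool), IsKLuzin covM X →
      ∃ Y : Set (ℕ → Bool),
        (∀ k : ℕ, 1 ≤ k → RothbergerSp (Fin k → Y) ∧ MengerSp (Fin k → Y)) ∧
          ¬ MengerSp (X × Y)) ∧
    (∀ X Y : Set (ℕ → Bool), #X < Mono.gNumber → MengerSp Y → MengerSp (X × Y)) ∧
    ((∃ X : Set (ℕ → Bool), IsKLuzin covM X ∧ #X < Mono.gNumber) →
      ∃ X : Set (ℕ → Bool), IsKLuzin covM X ∧
        ∀ Y : Set (ℕ → Bool), MengerSp (Fin 1 → Y) → MengerSp (X × Y)) := by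
  refine ⟨fun CH X hX => ch_half CH X hX, fun X Y hX hY => menger_prod_of_small hX hY, ?_⟩
  rintro ⟨X, hX, hg⟩
  refine ⟨X, hX, fun Y hY => menger_prod_of_small hg ?_⟩
  intro U hU
  obtain ⟨F, hF1, hF2⟩ := hY (fun n => (fun u => (fun f : Fin 1 → Y => f 0) ⁻¹' u) '' U n)
    (fun n => ⟨by
      rintro _ ⟨u, hu, rfl⟩
      exact ((hU n).1 u hu).preimage (continuous_apply 0), by
      rw [eq_univ_iff_forall]
      intro f
      have h1 : f 0 ∈ ⋃₀ U n := by rw [(hU n).2]; trivial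
      obtain ⟨u, hu, hfu⟩ := h1
      exact ⟨_, ⟨u, hu, rfl⟩, hfu⟩⟩)
  have h2 : ∀ n, ∃ G ⊆ U n, G.Finite ∧ (fun u => (fun f : Fin 1 → Y => f 0) ⁻¹' u) '' G = F n := by
    intro n
    obtain ⟨G, h3, h4, h5⟩ := (Set.exists_subset_image_finite_and
      (f := fun u => (fun f : Fin 1 → Y => f 0) ⁻¹' u) (s := U n) (p := fun t => t = F n)).1
      ⟨F n, (hF1 n).1, (hF1 n).2, rfl⟩
    exact ⟨G, h3, h4, h5⟩
  choose G hG1 hG2 hG3 using h2
  refine ⟨G, fun n => ⟨hG1 n, hG2 n⟩, ?_⟩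
  rw [eq_univ_iff_forall]
  intro y
  have h6 : (fun _ : Fin 1 => y) ∈ ⋃ n, ⋃₀ F n := by rw [hF2]; trivial
  obtain ⟨n, hn⟩ := mem_iUnion.1 h6
  rw [← hG3 n] at hn
  obtain ⟨_, ⟨u, hu, rfl⟩, hyu⟩ := hn
  exact mem_iUnion.2 ⟨n, u, hu, hyu⟩

end Pool.Agent.Results.MP_10f401_gt.LuzinProductsBoth
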