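import Pool.Agent.Helper555.Tau.P_finite_unions

/-!
The Milliken-Taylor theorem for pairs of finite sets.
-/

set_option autoImplicit false

namespace Pool.Agent.H752R3.MT

open Set

/-- block sequences of finite sets -/
def Blk (W : ℕ → Finset ℕ) : Prop :=
  (∀ i, (W i).Nonempty) ∧ ∀ i, ∀ x ∈ W i, ∀ y ∈ W (i + 1), x < y

theorem Blk.lt {W : ℕ → Finset ℕ} (h : Blk W) {i j : ℕ} (hij : i < j) :
    ∀ x ∈ W i, ∀ y ∈ W j, x < y := by
  induction j, hij using Nat.le_induction with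
  | base => exact h.2 i
  | succ m hm ih =>
    intro x hx y hy
    obtain ⟨z, hz⟩ := h.1 m
    exact (ih x hx z hz).trans (h.2 m z hz y hy)

theorem Blk.comp {F W : ℕ → Finset ℕ} (hF : Blk F) (hW : Blk W) :
    Blk (fun i => (F i).biUnion W) := by
  refine ⟨fun i => ?_, fun i x hx y hy => ?_⟩
  · obtain ⟨a, ha⟩ := hF.1 i
    obtain ⟨x, hx⟩ := hW.1 a
    exact ⟨x, Finset.mem_biUnion.2 ⟨a, ha, hx⟩⟩
  · obtain ⟨a, ha, hxa⟩ := Finset.mem_biUnion.1 hx
    obtain ⟨b, hb, hyb⟩ := Finset.mem_biUnion.1 hy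
    exact hW.lt (hF.2 i a ha b hb) x hxa y hyb

/-- finite unions of blocks -/
def FU (W : ℕ → Finset ℕ) : Set (Finset ℕ) := {v | ∃ I : Finset ℕ, I.Nonempty ∧ v = I.biUnion W}

theorem FU_comp {F W : ℕ → Finset ℕ} (hF : Blk F) :
    FU (fun i => (F i).biUnion W) ⊆ FU W := by
  rintro v ⟨I, hI, rfl⟩
  refine ⟨I.biUnion F, ?_, ?_⟩
  · obtain ⟨i, hi⟩ := hI
    obtain ⟨a, ha⟩ := hF.1 i
    exact ⟨a, Finset.mem_biUnion.2 ⟨i, hi, ha⟩⟩
  · rw [Finset.biUnion_biUnion]

theorem Blk.shift {W : ℕ → Finset ℕ} (h : Blk W) : Blk (fun i => W (i + 1)) :=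
  ⟨fun _ => h.1 _, fun _ => h.2 _⟩

theorem FU_shift {W : ℕ → Finset ℕ} {v : Finset ℕ} (h : v ∈ FU (fun i => W (i + 1))) :
    ∃ I : Finset ℕ, I.Nonempty ∧ (∀ i ∈ I, 0 < i) ∧ v = I.biUnion W := by
  obtain ⟨I, hI, rfl⟩ := h
  refine ⟨I.image (· + 1), hI.image _, ?_, ?_⟩
  · intro i hi
    obtain ⟨j, _, rfl⟩ := Finset.mem_image.1 hi
    exact Nat.succ_pos j
  · rw [Finset.image_biUnion]

theorem step {κ : Type} [Finite κ] (c : Finset ℕ → Finset ℕ → κ) {W : ℕ → Finset ℕ} (hW : Blk W) :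
    ∃ W' : ℕ → Finset ℕ, Blk W' ∧ FU W' ⊆ FU (fun i => W (i + 1)) ∧
      ∀ u ⊆ Finset.range ((W 0).sup id + 1), ∃ c0, ∀ v ∈ FU W', c u v = c0 := by
  classical
  let T := {u : Finset ℕ // u ∈ (Finset.range ((W 0).sup id + 1)).powerset}
  have hT : Finite T :=
    (inferInstance : Finite {u : Finset ℕ // u ∈ (Finset.range ((W 0).sup id + 1)).powerset})
  have hTκ : Finite (T → κ) := Pi.finite
  obtain ⟨F, h1, h2, k, hk⟩ := Tau555.finite_unions (κ := T → κ)
    (fun I => fun u : T => c u.1 (I.biUnion fun i => W (i + 1)))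
  have hF : Blk F := ⟨h1, h2⟩
  refine ⟨fun i => (F i).biUnion fun i => W (i + 1), hF.comp hW.shift, FU_comp hF, ?_⟩
  intro u hu
  refine ⟨k ⟨u, Finset.mem_powerset.2 hu⟩, ?_⟩
  rintro v ⟨I, hI, rfl⟩
  have h3 := congrFun (hk I hI) ⟨u, Finset.mem_powerset.2 hu⟩
  rw [← h3]
  change c u _ = c u _
  rw [Finset.biUnion_biUnion]

theorem milliken_taylor {κ : Type} [Finite κ] (c : Finset ℕ → Finset ℕ → κ) :
    ∃ H : ℕ → Finset ℕ, Blk H ∧ ∃ k, ∀ I J : Finset ℕ, I.Nonempty → J.Nonempty →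
      (∀ i ∈ I, ∀ j ∈ J, i < j) → c (I.biUnion H) (J.biUnion H) = k := by
  classical
  have hs : ∀ W : {W : ℕ → Finset ℕ // Blk W}, ∃ W' : {W : ℕ → Finset ℕ // Blk W},
      FU W'.1 ⊆ FU (fun i => W.1 (i + 1)) ∧
      ∀ u ⊆ Finset.range ((W.1 0).sup id + 1), ∃ c0, ∀ v ∈ FU W'.1, c u v = c0 := by
    rintro ⟨W, hW⟩
    obtain ⟨W', h1, h2, h3⟩ := step c hW
    exact ⟨⟨W', h1⟩, h2, h3⟩
  choose nx hnx1 hnx2 using hs
  have h0 : Blk (fun i => ({i} : Finset ℕ)) :=
    ⟨fun i => Finset.singleton_nonempty i, fun i x hx y hy => by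
      rw [Finset.mem_singleton] at hx hy; omega⟩
  let W : ℕ → {W : ℕ → Finset ℕ // Blk W} := fun n => nx^[n] ⟨_, h0⟩
  have hW1 : ∀ n, W (n + 1) = nx (W n) := fun n => Function.iterate_succ_apply' nx n _
  let a : ℕ → Finset ℕ := fun n => (W n).1 0
  have hsh : ∀ n, FU (W (n + 1)).1 ⊆ FU (fun i => (W n).1 (i + 1)) := by
    intro n
    rw [hW1]
    exact hnx1 _
  have hFU : ∀ d n : ℕ, ∀ J : Finset ℕ, J.Nonempty → (∀ j ∈ J, n ≤ j ∧ j < n + d) →
      J.biUnion a ∈ FU (W n).1 := by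
    intro d
    induction d with
    | zero =>
      intro n J hJ h
      obtain ⟨j, hj⟩ := hJ
      have := h j hj
      omega
    | succ d ih =>
      intro n J hJ h
      by_cases hn : n ∈ J
      · by_cases he : (J.erase n).Nonempty
        · have h1 := ih (n + 1) (J.erase n) he (by
            intro j hj
            have h2 := Finset.ne_of_mem_erase hj
            have h3 := h j (Finset.mem_of_mem_erase hj)
            omega)
          obtain ⟨I, hI, hI0, hIe⟩ := FU_shift (hsh n h1)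
          refine ⟨insert 0 I, Finset.insert_nonempty _ _, ?_⟩
          rw [Finset.biUnion_insert, ← hIe]
          conv_lhs => rw [← Finset.insert_erase hn]
          rw [Finset.biUnion_insert]
        · rw [Finset.not_nonempty_iff_eq_empty] at he
          have h2 : J = {n} := by
            rw [← Finset.insert_erase hn, he]
            rfl
          refine ⟨{0}, Finset.singleton_nonempty _, ?_⟩
          rw [h2, Finset.singleton_biUnion, Finset.singleton_biUnion]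
      · have h1 := ih (n + 1) J hJ (by
          intro j hj
          have h3 := h j hj
          have h4 : j ≠ n := fun h => hn (h ▸ hj)
          omega)
        obtain ⟨I, hI, _, hIe⟩ := FU_shift (hsh n h1)
        exact ⟨I, hI, hIe⟩
  have hFU' : ∀ n : ℕ, ∀ J : Finset ℕ, J.Nonempty → (∀ j ∈ J, n ≤ j) →
      J.biUnion a ∈ FU (W n).1 := by
    intro n J hJ h
    refine hFU (J.sup id + 1) n J hJ (fun j hj => ⟨h j hj, ?_⟩)
    have : j ≤ J.sup id := Finset.le_sup (f := id) hj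
    omega
  have halt : ∀ i n, i < n → ∀ x ∈ a i, ∀ y ∈ a n, x < y := by
    intro i n hin x hx y hy
    have h1 := hsh i (hFU' (i + 1) {n} (Finset.singleton_nonempty _) (by
      intro j hj
      rw [Finset.mem_singleton] at hj
      omega))
    rw [Finset.singleton_biUnion] at h1
    obtain ⟨I, _, hI0, hIe⟩ := FU_shift h1
    rw [hIe] at hy
    obtain ⟨j, hj, hyj⟩ := Finset.mem_biUnion.1 hy
    exact (W i).2.lt (hI0 j hj) x hx y hyj
  have ha : Blk a := ⟨fun i => (W i).2.1 0, fun i => halt i (i + 1) (Nat.lt_succ_self i)⟩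
  obtain ⟨F, hF1, hF2, k, hk⟩ := Tau555.finite_unions (κ := κ)
    (fun I => c (I.biUnion a) (a (I.sup id + 1)))
  have hF : Blk F := ⟨hF1, hF2⟩
  refine ⟨fun i => (F i).biUnion a, hF.comp ha, k, ?_⟩
  intro I J hI hJ hIJ
  rw [← hk I hI, ← Finset.biUnion_biUnion, ← Finset.biUnion_biUnion]
  set I' := I.biUnion F with hI'
  set J' := J.biUnion F with hJ'
  set n := I'.sup id with hn
  have hI'ne : I'.Nonempty := by
    obtain ⟨i, hi⟩ := hI
    obtain ⟨x, hx⟩ := hF1 i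
    exact ⟨x, Finset.mem_biUnion.2 ⟨i, hi, hx⟩⟩
  have hJ'ne : J'.Nonempty := by
    obtain ⟨i, hi⟩ := hJ
    obtain ⟨x, hx⟩ := hF1 i
    exact ⟨x, Finset.mem_biUnion.2 ⟨i, hi, hx⟩⟩
  have hnI : n ∈ I' := by
    obtain ⟨m, hm, hmn⟩ := Finset.exists_mem_eq_sup I' hI'ne id
    rw [hn, hmn]
    exact hm
  have hJn : ∀ j ∈ J', n + 1 ≤ j := by
    intro j hj
    obtain ⟨b, hb, hjb⟩ := Finset.mem_biUnion.1 hj
    obtain ⟨d, hd, hnd⟩ := Finset.mem_biUnion.1 hnI
    exact hF.lt (hIJ d hd b hb) n hnd j hjb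
  have hu : I'.biUnion a ⊆ Finset.range (((W n).1 0).sup id + 1) := by
    intro x hx
    obtain ⟨i, hi, hxi⟩ := Finset.mem_biUnion.1 hx
    rw [Finset.mem_range]
    have hin : i ≤ n := Finset.le_sup (f := id) hi
    rcases hin.eq_or_lt with h | h
    · have : x ≤ (a n).sup id := by
        rw [h] at hxi
        exact Finset.le_sup (f := id) hxi
      exact Nat.lt_succ_of_le this
    · obtain ⟨y, hy⟩ := ha.1 n
      have h1 := halt i n h x hxi y hy
      have h2 : y ≤ (a n).sup id := Finset.le_sup (f := id) hy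
      change x < (a n).sup id + 1
      omega
  obtain ⟨c0, hc0⟩ := hnx2 (W n) _ hu
  rw [← hW1] at hc0
  rw [hc0 _ (hFU' (n + 1) J' hJ'ne hJn)]
  have h4 := hFU' (n + 1) {n + 1} (Finset.singleton_nonempty _) (by
    intro j hj
    rw [Finset.mem_singleton] at hj
    omega)
  rw [Finset.singleton_biUnion] at h4
  rw [hc0 _ h4]

end Pool.Agent.H752R3.MT
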