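import Pool.Agent.H752R3.Selection

/-!
Monochromatic sumgraphs of large covers: definitions.
-/

set_option autoImplicit false

namespace Pool.Agent.H752R3.Mono

open Set

/-- `𝒰` is an open large cover of `X`: its members are nonempty proper open subsets of `X` and each
point lies in infinitely many of them. -/
def IsLarge {X : Type*} [TopologicalSpace X] (𝒰 : Set (Set X)) : Prop :=
  (∀ u ∈ 𝒰, IsOpen u ∧ u.Nonempty ∧ u ≠ univ) ∧ ∀ x, {u | u ∈ 𝒰 ∧ x ∈ u}.Infinite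

/-- No finite subfamily of `𝒰` covers `X`. -/
def NoFinSub {X : Type*} (𝒰 : Set (Set X)) : Prop :=
  ∀ F : Set (Set X), F.Finite → F ⊆ 𝒰 → ⋃₀ F ≠ univ

/-- `V_H` for the sequence `V_n = ⋃ ℱ_n`. -/
def VH {X : Type*} (ℱ : ℕ → Set (Set X)) (H : Finset ℕ) : Set X := ⋃ n ∈ H, ⋃₀ ℱ n

/-- `H₁ < H₂`, for nonempty finite sets -/
def Bef (H₁ H₂ : Finset ℕ) : Prop := H₁.Nonempty ∧ H₂.Nonempty ∧ ∀ i ∈ H₁, ∀ j ∈ H₂, i < j

/-- The sequence of pairwise disjoint finite nonempty subfamilies `ℱ_n` of `𝒰` has a large union,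
its sequence of unions is proper, and its sumgraph is monochromatic for `χ`. -/
def GoodSeq {X : Type*} (𝒰 : Set (Set X)) {k : ℕ} (χ : Sym2 (Set X) → Fin k)
    (ℱ : ℕ → Set (Set X)) : Prop :=
  (∀ n, (ℱ n).Finite ∧ (ℱ n).Nonempty ∧ ℱ n ⊆ 𝒰) ∧ (∀ i j, i ≠ j → Disjoint (ℱ i) (ℱ j)) ∧
  (∀ x, {u | (∃ n, u ∈ ℱ n) ∧ x ∈ u}.Infinite) ∧
  (∀ H₁ H₂, Bef H₁ H₂ → VH ℱ H₁ ≠ VH ℱ H₂) ∧
  ∃ c, ∀ H₁ H₂, Bef H₁ H₂ → χ s(VH ℱ H₁, VH ℱ H₂) = c

/-- The literal property `(∗)`. -/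
def StarLit (X : Type*) [TopologicalSpace X] : Prop :=
  ∀ 𝒰 : Set (Set X), IsLarge 𝒰 → ∀ (k : ℕ) (χ : Sym2 (Set X) → Fin k), ∃ ℱ, GoodSeq 𝒰 χ ℱ

/-- The property `(∗)`, for large covers without finite subcovers. -/
def Star (X : Type*) [TopologicalSpace X] : Prop :=
  ∀ 𝒰 : Set (Set X), IsLarge 𝒰 → NoFinSub 𝒰 → ∀ (k : ℕ) (χ : Sym2 (Set X) → Fin k),
    ∃ ℱ, GoodSeq 𝒰 χ ℱ

/-- The literal property fails for all infinite `T₁` spaces. -/
theorem not_starLit (X : Type*) [TopologicalSpace X] [T1Space X] [Infinite X] : ¬ StarLit X := by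
  classical
  intro h
  obtain ⟨ℱ, h1, h2, h3, h4, -⟩ := h (range fun x : X => ({x}ᶜ : Set X)) (by
    refine ⟨?_, ?_⟩
    · rintro _ ⟨x, rfl⟩
      refine ⟨isOpen_compl_singleton, ?_, ?_⟩
      · obtain ⟨y, hy⟩ := exists_ne x
        exact ⟨y, hy⟩
      · intro hx
        have hx' : ({x}ᶜ : Set X) = univ := hx
        have : x ∈ ({x}ᶜ : Set X) := by rw [hx']; trivial
        exact this rfl
    · intro x
      have hinj : Function.Injective (fun y : X => ({y}ᶜ : Set X)) := fun a b hab =>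
        singleton_injective (compl_injective hab)
      have h1 : ({x}ᶜ : Set X).Infinite := (Set.finite_singleton x).infinite_compl
      apply (h1.image hinj.injOn).mono
      rintro _ ⟨y, hy, rfl⟩
      exact ⟨⟨y, rfl⟩, fun h => hy h.symm⟩) 1 (fun _ => 0)
  have key : ∀ i j, i ≠ j → ∀ H : Finset ℕ, i ∈ H → j ∈ H → VH ℱ H = univ := by
    intro i j hij H hi hj
    obtain ⟨u, hu⟩ := (h1 i).2.1
    obtain ⟨v, hv⟩ := (h1 j).2.1
    obtain ⟨x, hx⟩ := (h1 i).2.2 hu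
    obtain ⟨y, hy⟩ := (h1 j).2.2 hv
    have hxy : x ≠ y := by
      rintro rfl
      exact disjoint_left.1 (h2 i j hij) hu (by rw [← hx]; rw [← hy] at hv; exact hv)
    rw [eq_univ_iff_forall]
    intro z
    by_cases hz : z = x
    · refine mem_iUnion₂.2 ⟨j, hj, v, hv, ?_⟩
      rw [← hy]
      intro h5
      exact hxy (hz ▸ h5)
    · refine mem_iUnion₂.2 ⟨i, hi, u, hu, ?_⟩
      rw [← hx]
      exact hz
  apply h4 {0, 1} {2, 3}
  · refine ⟨⟨0, by simp⟩, ⟨2, by simp⟩, ?_⟩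
    intro i hi j hj
    simp only [Finset.mem_insert, Finset.mem_singleton] at hi hj
    omega
  · rw [key 0 1 (by omega) {0, 1} (by simp) (by simp),
      key 2 3 (by omega) {2, 3} (by simp) (by simp)]

end Pool.Agent.H752R3.Mono
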