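import Pool.Agent.Helper185.BlkFinal

/-!
`Split(Ω, T)` implies `Split(Λ, Λ)`.
-/

set_option autoImplicit false

namespace Pool.Agent.H752R3.SplitLambda

open Set Pool.Agent.Helper185.Sel

/-- The large covers of `X` in the class `G`: covers such that each point lies in infinitely
many members. -/
def LambdaOf {X : Type*} (G : Set (Set (Set X))) : Set (Set (Set X)) :=
  {U | U ∈ G ∧ IsCov U ∧ ∀ x, {u | u ∈ U ∧ x ∈ u}.Infinite}

section

variable {X : Type*}

/-- open large covers of second countable spaces have countable large subcovers -/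
theorem exists_countable_large [TopologicalSpace X] [SecondCountableTopology X]
    {U : Set (Set X)} (hopen : ∀ u ∈ U, IsOpen u) (hl : ∀ x, {u | u ∈ U ∧ x ∈ u}.Infinite) :
    ∃ V ⊆ U, V.Countable ∧ ∀ x, {u | u ∈ V ∧ x ∈ u}.Infinite := by
  classical
  let T : ℕ → Type _ := fun k => {t : Finset (Set X) // (t : Set (Set X)) ⊆ U ∧ t.card = k}
  have h1 : ∀ k : ℕ, ∃ C : Set (T k), C.Countable ∧
      ⋃ t ∈ C, {x : X | ∀ u ∈ t.1, x ∈ u} = ⋃ t : T k, {x : X | ∀ u ∈ t.1, x ∈ u} := by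
    intro k
    apply TopologicalSpace.isOpen_iUnion_countable
    rintro ⟨t, ht, -⟩
    have : {x : X | ∀ u ∈ t, x ∈ u} = ⋂ u ∈ t, u := by
      ext x; simp
    rw [this]
    exact isOpen_biInter_finset (fun u hu => hopen u (ht hu))
  choose C hC hCU using h1
  refine ⟨⋃ k, ⋃ t ∈ C k, (t.1 : Set (Set X)), ?_, ?_, ?_⟩
  · intro u hu
    simp only [mem_iUnion] at hu
    obtain ⟨k, t, _, hu⟩ := hu
    exact t.2.1 hu
  · exact countable_iUnion (fun k => (hC k).biUnion (fun t _ => t.1.countable_toSet))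
  · intro x hfin
    obtain ⟨t, htsub, htc⟩ := (hl x).exists_subset_card_eq (hfin.toFinset.card + 1)
    have hx : x ∈ ⋃ t : T (hfin.toFinset.card + 1), {x : X | ∀ u ∈ t.1, x ∈ u} := by
      rw [mem_iUnion]
      exact ⟨⟨t, fun u hu => (htsub hu).1, htc⟩, fun u hu => (htsub hu).2⟩
    rw [← hCU] at hx
    simp only [mem_iUnion] at hx
    obtain ⟨t', ht'C, hxt'⟩ := hx
    have hsub : t'.1 ⊆ hfin.toFinset := by
      intro u hu
      rw [Set.Finite.mem_toFinset]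
      refine ⟨?_, hxt' u hu⟩
      simp only [mem_iUnion]
      exact ⟨_, t', ht'C, hu⟩
    have h2 := Finset.card_le_card hsub
    rw [t'.2.2] at h2
    omega

/-- the points in some `U j`, `n ≤ j < m` -/
def VV (U : ℕ → Set X) (n m : ℕ) : Set X := {x | ∃ j, n ≤ j ∧ j < m ∧ x ∈ U j}

theorem VV_mono (U : ℕ → Set X) {n m n' m' : ℕ} (h : n' ≤ n) (h' : m ≤ m') :
    VV U n m ⊆ VV U n' m' := by
  rintro x ⟨j, h1, h2, h3⟩
  exact ⟨j, h.trans h1, h2.trans_le h', h3⟩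

theorem blocks {U : ℕ → Set X} {k : ℕ → ℕ} (hk : StrictMono k) {B B' : Set ℕ} {c : ℕ}
    (hd : ∀ i ∈ B, i ∉ B') (hp : ∀ i ∈ B, i % 2 = c) (hp' : ∀ i ∈ B', i % 2 = c)
    (hB : ∀ x, {i | i ∈ B ∧ x ∈ VV U (k i) (k (i + 2))}.Infinite)
    (hB' : ∀ x, {i | i ∈ B' ∧ x ∈ VV U (k i) (k (i + 2))}.Infinite) :
    ∃ A : Set ℕ, ∀ x, {n | n ∈ A ∧ x ∈ U n}.Infinite ∧ {n | n ∉ A ∧ x ∈ U n}.Infinite := by
  refine ⟨{j | ∃ i ∈ B, k i ≤ j ∧ j < k (i + 2)}, fun x => ⟨?_, ?_⟩⟩
  · refine infinite_of_forall_exists_gt fun N => ?_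
    obtain ⟨i, ⟨hi, j, h1, h2, h3⟩, hN⟩ := (hB x).exists_gt N
    exact ⟨j, ⟨⟨i, hi, h1, h2⟩, h3⟩, hN.trans_le ((hk.id_le i).trans h1)⟩
  · refine infinite_of_forall_exists_gt fun N => ?_
    obtain ⟨i, ⟨hi, j, h1, h2, h3⟩, hN⟩ := (hB' x).exists_gt N
    refine ⟨j, ⟨?_, h3⟩, hN.trans_le ((hk.id_le i).trans h1)⟩
    rintro ⟨i', hi', h4, h5⟩
    have hne : i' ≠ i := fun h => hd i' hi' (h ▸ hi)
    have hpi := hp i' hi'
    have hpi' := hp' i hi
    rcases lt_or_gt_of_ne hne with h | h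
    · have h6 : i' + 2 ≤ i := by omega
      have := hk.monotone h6
      omega
    · have h6 : i + 2 ≤ i' := by omega
      have := hk.monotone h6
      omega

theorem case1 [Nonempty X] {U : ℕ → Set X} (h : ∀ n, ∃ m, VV U n m = univ) :
    ∃ A : Set ℕ, ∀ x, {n | n ∈ A ∧ x ∈ U n}.Infinite ∧ {n | n ∉ A ∧ x ∈ U n}.Infinite := by
  choose f hf using h
  have hlt : ∀ n, n < f n := by
    intro n
    obtain ⟨x⟩ := (inferInstance : Nonempty X)
    have hx : x ∈ VV U n (f n) := by rw [hf]; trivial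
    obtain ⟨j, h1, h2, -⟩ := hx
    omega
  let k : ℕ → ℕ := fun i => f^[i] 0
  have hk1 : ∀ i, k (i + 1) = f (k i) := fun i => Function.iterate_succ_apply' f i 0
  have hk : StrictMono k := strictMono_nat_of_lt_succ (fun i => by rw [hk1]; exact hlt _)
  have hall : ∀ i x, x ∈ VV U (k i) (k (i + 2)) := by
    intro i x
    have h1 : x ∈ VV U (k i) (k (i + 1)) := by rw [hk1, hf]; trivial
    exact VV_mono U le_rfl (hk.monotone (by omega)) h1
  refine blocks hk (B := {i | i % 4 = 0}) (B' := {i | i % 4 = 2}) (c := 0) ?_ ?_ ?_ ?_ ?_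
  · intro i hi hi'
    change i % 4 = 0 at hi
    change i % 4 = 2 at hi'
    omega
  · intro i hi
    change i % 4 = 0 at hi
    omega
  · intro i hi
    change i % 4 = 2 at hi
    omega
  · intro x
    refine infinite_of_forall_exists_gt fun N => ⟨4 * (N + 1), ⟨?_, hall _ x⟩, by omega⟩
    change 4 * (N + 1) % 4 = 0
    omega
  · intro x
    refine infinite_of_forall_exists_gt fun N => ⟨4 * (N + 1) + 2, ⟨?_, hall _ x⟩, by omega⟩
    change (4 * (N + 1) + 2) % 4 = 2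
    omega

theorem exists_index {k : ℕ → ℕ} (hk : StrictMono k) (h0 : k 0 = 0) (n : ℕ) :
    ∃ i, k i ≤ n ∧ n < k (i + 1) := by
  classical
  have hex : ∃ i, n < k (i + 1) := ⟨n, (Nat.lt_succ_self n).trans_le (hk.id_le (n + 1))⟩
  refine ⟨Nat.find hex, ?_, Nat.find_spec hex⟩
  rcases Nat.eq_zero_or_pos (Nat.find hex) with h | h
  · rw [h, h0]; exact Nat.zero_le _
  · have h1 := Nat.find_min hex (m := Nat.find hex - 1) (by omega)
    have h2 : Nat.find hex - 1 + 1 = Nat.find hex := by omega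
    rw [h2] at h1
    omega

theorem exists_cover {U : ℕ → Set X} (hl : ∀ x, {n | x ∈ U n}.Infinite) {F : Set X}
    (hF : F.Finite) (n : ℕ) : ∃ m, F ⊆ VV U n m := by
  induction F, hF using Set.Finite.induction_on with
  | empty => exact ⟨0, empty_subset _⟩
  | @insert a s _ _ ih =>
    obtain ⟨m, hm⟩ := ih
    obtain ⟨j, hj, hnj⟩ := (hl a).exists_gt n
    refine ⟨max m (j + 1), insert_subset ⟨j, hnj.le, ?_, hj⟩ ?_⟩
    · exact lt_of_lt_of_le (Nat.lt_succ_self j) (le_max_right _ _)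
    · exact hm.trans (VV_mono U le_rfl (le_max_left _ _))

theorem VV_open [TopologicalSpace X] {U : ℕ → Set X} (hU : ∀ n, IsOpen (U n)) (n m : ℕ) :
    IsOpen (VV U n m) := by
  have : VV U n m = ⋃ j, ⋃ (_ : n ≤ j ∧ j < m), U j := by
    ext x
    simp only [mem_iUnion]
    constructor
    · rintro ⟨j, h1, h2, h3⟩
      exact ⟨j, ⟨h1, h2⟩, h3⟩
    · rintro ⟨j, ⟨h1, h2⟩, h3⟩
      exact ⟨j, h1, h2, h3⟩
  rw [this]
  exact isOpen_iUnion fun j => isOpen_iUnion fun _ => hU j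

/-- the main case: no finite union of the `U j` is everything -/
theorem case2 [TopologicalSpace X] [T1Space X] [Nonempty X]
    (h : SplitP (OmegaOf (OpenFam X)) (TauOf (OpenFam X)))
    {U : ℕ → Set X} (hU : ∀ n, IsOpen (U n)) (hl : ∀ x, {n | x ∈ U n}.Infinite)
    (hne0 : ∀ m, VV U 0 m ≠ univ) :
    ∃ A : Set ℕ, ∀ x, {n | n ∈ A ∧ x ∈ U n}.Infinite ∧ {n | n ∉ A ∧ x ∈ U n}.Infinite := by
  classical
  have hne : ∀ n m, VV U n m ≠ univ := by
    intro n m hnm
    apply hne0 m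
    rw [eq_univ_iff_forall] at hnm ⊢
    intro x
    exact VV_mono U (Nat.zero_le n) le_rfl (hnm x)
  -- the space is infinite
  have hinf : Infinite X := by
    by_contra hfin
    rw [not_infinite_iff_finite] at hfin
    obtain ⟨m, hm⟩ := exists_cover hl (finite_univ (α := X)) 0
    exact hne0 m (univ_subset_iff.1 hm)
  let a : ℕ → X := Infinite.natEmbedding X
  have ha : Function.Injective a := (Infinite.natEmbedding X).injective
  let W : ℕ × ℕ → Set X := fun p => VV U p.1 p.2 \ {a p.1}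
  have hWω : range W ∈ OmegaOf (OpenFam X) := by
    have key : ∀ F : Set X, F.Finite → ∃ u ∈ range W, F ⊆ u := by
      intro F hF
      have h1 : {n | a n ∈ F}.Finite := hF.preimage ha.injOn
      obtain ⟨n, hn⟩ := h1.exists_notMem
      obtain ⟨m, hm⟩ := exists_cover hl hF n
      refine ⟨W (n, m), mem_range_self _, fun x hx => ⟨hm hx, ?_⟩⟩
      intro hxa
      apply hn
      rw [mem_singleton_iff] at hxa
      change a n ∈ F
      rw [← hxa]
      exact hx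
    refine ⟨?_, ⟨?_, ?_⟩, key⟩
    · rintro _ ⟨p, rfl⟩
      exact (VV_open hU _ _).sdiff isClosed_singleton
    · rw [eq_univ_iff_forall]
      intro x
      obtain ⟨u, hu, hxu⟩ := key {x} (finite_singleton x)
      exact ⟨u, hu, hxu rfl⟩
    · rintro ⟨p, hp⟩
      have : a p.1 ∈ W p := by rw [hp]; trivial
      exact this.2 rfl
  obtain ⟨V1, V2, hV12, -, ⟨V, hVV1, hVt⟩, -⟩ := h _ hWω
  have hVW : V ⊆ range W := hVV1.trans (hV12 ▸ subset_union_left)
  obtain ⟨hVo, hVc, hVl, hVτ⟩ := hVt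
  have hex : ∀ v : Set X, ∃ q : ℕ × ℕ, v ∈ V → W q = v := by
    intro v
    by_cases hv : v ∈ V
    · obtain ⟨q, hq⟩ := hVW hv
      exact ⟨q, fun _ => hq⟩
    · exact ⟨(0, 0), fun h => absurd h hv⟩
  choose p hp using hex
  let row : ℕ → Set (Set X) := fun n => {v | v ∈ V ∧ (p v).1 = n}
  have hnot : ∀ n, ∀ v ∈ row n, a n ∉ v := by
    rintro n v ⟨hv, hn⟩ hav
    rw [← hp v hv] at hav
    apply hav.2
    rw [hn]
    rfl
  have hrow : ∀ n, (row n).Infinite → ∀ x, x ≠ a n → {v | v ∈ V ∧ x ∈ v ∧ a n ∉ v}.Infinite := by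
    intro n hn x hx
    obtain ⟨m0, hm0⟩ := exists_cover hl (finite_singleton x) n
    have hfin : {v | v ∈ row n ∧ x ∉ v}.Finite := by
      apply ((finite_lt_nat m0).image (fun m => W (n, m))).subset
      rintro v ⟨⟨hv, hvn⟩, hxv⟩
      have h2 : W (p v) = v := hp v hv
      refine ⟨(p v).2, ?_, ?_⟩
      · change (p v).2 < m0
        by_contra hcon
        apply hxv
        rw [← h2]
        refine ⟨?_, ?_⟩
        · rw [hvn]
          exact VV_mono U le_rfl (not_lt.1 hcon) (hm0 rfl)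
        · rw [hvn]
          exact hx
      · change W (n, (p v).2) = v
        rw [← hvn]
        exact h2
    apply (hn.sdiff hfin).mono
    rintro v ⟨hv, hv'⟩
    refine ⟨hv.1, ?_, hnot n v hv⟩
    by_contra hcon
    exact hv' ⟨hv, hcon⟩
  have hone : ∀ n n', (row n).Infinite → (row n').Infinite → n = n' := by
    intro n n' h1 h2
    by_contra hcon
    rcases hVτ (a n) (a n') with h3 | h3
    · exact hrow n' h2 (a n) (fun h => hcon (ha h)) h3
    · exact hrow n h1 (a n') (fun h => hcon (ha h).symm) h3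
  let V' : Set (Set X) := {v | v ∈ V ∧ (row (p v).1).Finite}
  have hV'row : ∀ n, {v | v ∈ V' ∧ (p v).1 = n}.Finite := by
    intro n
    by_cases hn : (row n).Finite
    · exact hn.subset (fun v hv => ⟨hv.1.1, hv.2⟩)
    · have : {v | v ∈ V' ∧ (p v).1 = n} = ∅ := by
        rw [eq_empty_iff_forall_notMem]
        rintro v ⟨⟨_, hv⟩, hn'⟩
        rw [hn'] at hv
        exact hn hv
      rw [this]
      exact finite_empty
  have hV'l : ∀ x, {v | v ∈ V' ∧ x ∈ v}.Infinite := by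
    intro x
    by_cases hall : ∀ n, (row n).Finite
    · apply (hVl x).mono
      rintro v ⟨hv, hxv⟩
      exact ⟨⟨hv, hall _⟩, hxv⟩
    · push Not at hall
      obtain ⟨n1, hn1⟩ := hall
      have hfin : {v | v ∈ V ∧ a n1 ∈ v ∧ x ∉ v}.Finite := by
        by_cases hx : x = a n1
        · have : {v | v ∈ V ∧ a n1 ∈ v ∧ x ∉ v} = ∅ := by
            rw [eq_empty_iff_forall_notMem]
            rintro v ⟨_, h1, h2⟩
            rw [hx] at h2
            exact h2 h1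
          rw [this]
          exact finite_empty
        · rcases hVτ x (a n1) with h3 | h3
          · exact absurd h3 (hrow n1 hn1 x hx)
          · exact h3
      apply ((hVl (a n1)).sdiff hfin).mono
      rintro v ⟨⟨hv, hav⟩, hv'⟩
      refine ⟨⟨hv, ?_⟩, ?_⟩
      · by_contra hcon
        have h4 := hone _ _ hcon hn1
        exact hnot n1 v ⟨hv, h4⟩ hav
      · by_contra hcon
        exact hv' ⟨hv, hav, hcon⟩
  -- the growth function
  have hg : ∀ n, ∃ g, n < g ∧ ∀ v ∈ V', (p v).1 < n → (p v).2 ≤ g := by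
    intro n
    have hfin : {v | v ∈ V' ∧ (p v).1 < n}.Finite := by
      have h1 : {v | v ∈ V' ∧ (p v).1 < n} ⊆ ⋃ i ∈ {i | i < n}, {v | v ∈ V' ∧ (p v).1 = i} := by
        rintro v ⟨hv, hvn⟩
        exact mem_biUnion (x := (p v).1) hvn ⟨hv, rfl⟩
      exact ((finite_lt_nat n).biUnion (fun i _ => hV'row i)).subset h1
    obtain ⟨M, hM⟩ := (hfin.image (fun v => (p v).2)).bddAbove
    refine ⟨max (n + 1) M, lt_of_lt_of_le (Nat.lt_succ_self n) (le_max_left _ _), ?_⟩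
    intro v hv hvn
    exact (hM ⟨v, ⟨hv, hvn⟩, rfl⟩).trans (le_max_right _ _)
  choose g hg1 hg2 using hg
  let k : ℕ → ℕ := fun i => g^[i] 0
  have hk1 : ∀ i, k (i + 1) = g (k i) := fun i => Function.iterate_succ_apply' g i 0
  have hk : StrictMono k := strictMono_nat_of_lt_succ (fun i => by rw [hk1]; exact hg1 _)
  have hk0 : k 0 = 0 := rfl
  choose ι hι1 hι2 using exists_index hk hk0
  let Z : ℕ → Set X := fun i => {x | ∃ v ∈ V', ι (p v).1 = i ∧ x ∈ v}
  have hZV : ∀ i, Z i ⊆ VV U (k i) (k (i + 2)) := by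
    rintro i x ⟨v, hv, rfl, hxv⟩
    rw [← hp v hv.1] at hxv
    refine VV_mono U (hι1 _) ?_ hxv.1
    rw [hk1 (ι (p v).1 + 1)]
    exact hg2 _ v hv (hι2 _)
  have hZo : ∀ i, IsOpen (Z i) := by
    intro i
    have : Z i = ⋃ v, ⋃ (_ : v ∈ V' ∧ ι (p v).1 = i), v := by
      ext x
      simp only [mem_iUnion]
      constructor
      · rintro ⟨v, h1, h2, h3⟩
        exact ⟨v, ⟨h1, h2⟩, h3⟩
      · rintro ⟨v, ⟨h1, h2⟩, h3⟩
        exact ⟨v, h1, h2, h3⟩
    rw [this]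
    exact isOpen_iUnion fun v => isOpen_iUnion fun hv => hVo v hv.1.1
  have hZne : ∀ i, Z i ≠ univ := by
    intro i hi
    apply hne (k i) (k (i + 2))
    rw [← univ_subset_iff, ← hi]
    exact hZV i
  let θ : X → Set ℕ := fun x => {i | x ∈ Z i}
  have hblockfin : ∀ i, {v | v ∈ V' ∧ ι (p v).1 = i}.Finite := by
    intro i
    have h1 : {v | v ∈ V' ∧ ι (p v).1 = i} ⊆
        ⋃ n ∈ {n | n < k (i + 1)}, {v | v ∈ V' ∧ (p v).1 = n} := by
      rintro v ⟨hv, rfl⟩
      exact mem_biUnion (x := (p v).1) (hι2 _) ⟨hv, rfl⟩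
    exact ((finite_lt_nat _).biUnion (fun n _ => hV'row n)).subset h1
  have hθinf : ∀ x, (θ x).Infinite := by
    intro x hfin
    apply hV'l x
    apply (hfin.biUnion (fun i _ => hblockfin i)).subset
    rintro v ⟨hv, hxv⟩
    exact mem_biUnion (x := ι (p v).1) (show x ∈ Z _ from ⟨v, hv, rfl, hxv⟩) ⟨hv, rfl⟩
  have hθlin' : ∀ x y, {v | v ∈ V ∧ x ∈ v ∧ y ∉ v}.Finite → (θ x \ θ y).Finite := by
    intro x y hfin
    apply (hfin.image (fun v => ι (p v).1)).subset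
    rintro i ⟨⟨v, hv, hvi, hxv⟩, hy⟩
    exact ⟨v, ⟨hv.1, hxv, fun hyv => hy ⟨v, hv, hvi, hyv⟩⟩, hvi⟩
  have hθlin : ∀ x y, (θ x \ θ y).Finite ∨ (θ y \ θ x).Finite := by
    intro x y
    rcases hVτ x y with h1 | h1
    · exact Or.inl (hθlin' x y h1)
    · exact Or.inr (hθlin' y x h1)
  -- parity
  have hpar : ∃ c, ∀ x, {i | i ∈ θ x ∧ i % 2 = c}.Infinite := by
    by_contra hcon
    push Not at hcon
    obtain ⟨x0, hx0⟩ := hcon 0
    obtain ⟨x1, hx1⟩ := hcon 1
    rcases hθlin x0 x1 with h1 | h1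
    · apply hθinf x0
      apply ((hx0.union hx1).union h1).subset
      intro i hi
      by_cases h2 : i ∈ θ x1
      · rcases Nat.mod_two_eq_zero_or_one i with h3 | h3
        · exact Or.inl (Or.inl ⟨hi, h3⟩)
        · exact Or.inl (Or.inr ⟨h2, h3⟩)
      · exact Or.inr ⟨hi, h2⟩
    · apply hθinf x1
      apply ((hx0.union hx1).union h1).subset
      intro i hi
      by_cases h2 : i ∈ θ x0
      · rcases Nat.mod_two_eq_zero_or_one i with h3 | h3
        · exact Or.inl (Or.inl ⟨h2, h3⟩)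
        · exact Or.inl (Or.inr ⟨hi, h3⟩)
      · exact Or.inr ⟨hi, h2⟩
  obtain ⟨c, hc⟩ := hpar
  have hmin : ∀ F : Set X, F.Finite → ∃ x0, ∀ y ∈ F, (θ x0 \ θ y).Finite := by
    intro F hF
    induction F, hF using Set.Finite.induction_on with
    | empty =>
      obtain ⟨x⟩ := (inferInstance : Nonempty X)
      exact ⟨x, fun y hy => hy.elim⟩
    | @insert b s _ _ ih =>
      obtain ⟨x0, hx0⟩ := ih
      rcases hθlin x0 b with h1 | h1
      · refine ⟨x0, ?_⟩
        rintro y (rfl | hy)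
        · exact h1
        · exact hx0 y hy
      · refine ⟨b, ?_⟩
        rintro y (rfl | hy)
        · simp
        · apply (h1.union (hx0 y hy)).subset
          rintro i ⟨h2, h3⟩
          by_cases h4 : i ∈ θ x0
          · exact Or.inr ⟨h4, h3⟩
          · exact Or.inl ⟨h2, h4⟩
  have hZω : Z '' {i | i % 2 = c} ∈ OmegaOf (OpenFam X) := by
    have key : ∀ F : Set X, F.Finite → ∃ u ∈ Z '' {i | i % 2 = c}, F ⊆ u := by
      intro F hF
      obtain ⟨x0, hx0⟩ := hmin F hF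
      obtain ⟨i, hi, hi'⟩ := ((hc x0).sdiff (hF.biUnion hx0)).nonempty
      refine ⟨Z i, ⟨i, hi.2, rfl⟩, fun y hy => ?_⟩
      by_contra hcon
      exact hi' (mem_biUnion hy ⟨hi.1, hcon⟩)
    refine ⟨?_, ⟨?_, ?_⟩, key⟩
    · rintro _ ⟨i, _, rfl⟩
      exact hZo i
    · rw [eq_univ_iff_forall]
      intro x
      obtain ⟨u, hu, hxu⟩ := key {x} (finite_singleton x)
      exact ⟨u, hu, hxu rfl⟩
    · rintro ⟨i, _, hi⟩
      exact hZne i hi
  obtain ⟨P, Q, hPQ, hPQd, ⟨P', hP', hPt⟩, Q', hQ', hQt⟩ := h _ hZω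
  have hinfi : ∀ (R R' : Set (Set X)), R' ⊆ R → R ⊆ Z '' {i | i % 2 = c} →
      R' ∈ TauOf (OpenFam X) → ∀ x,
      {i | i ∈ {i | i % 2 = c ∧ Z i ∈ R} ∧ x ∈ VV U (k i) (k (i + 2))}.Infinite := by
    intro R R' hR' hR hRt x hfin
    apply hRt.2.2.1 x
    apply (hfin.image Z).subset
    rintro u ⟨hu, hxu⟩
    obtain ⟨i, hi, rfl⟩ := hR (hR' hu)
    exact ⟨i, ⟨⟨hi, hR' hu⟩, hZV i hxu⟩, rfl⟩
  refine blocks hk (B := {i | i % 2 = c ∧ Z i ∈ P}) (B' := {i | i % 2 = c ∧ Z i ∈ Q}) (c := c)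
    ?_ (fun i hi => hi.1) (fun i hi => hi.1)
    (hinfi P P' hP' (hPQ ▸ subset_union_left) hPt) (hinfi Q Q' hQ' (hPQ ▸ subset_union_right) hQt)
  rintro i ⟨_, h1⟩ ⟨_, h2⟩
  exact disjoint_left.1 hPQd h1 h2

theorem core [TopologicalSpace X] [T1Space X] [Nonempty X]
    (h : SplitP (OmegaOf (OpenFam X)) (TauOf (OpenFam X)))
    {U : ℕ → Set X} (hU : ∀ n, IsOpen (U n)) (hl : ∀ x, {n | x ∈ U n}.Infinite) :
    ∃ A : Set ℕ, ∀ x, {n | n ∈ A ∧ x ∈ U n}.Infinite ∧ {n | n ∉ A ∧ x ∈ U n}.Infinite := by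
  by_cases hc : ∀ n, ∃ m, VV U n m = univ
  · exact case1 hc
  · push Not at hc
    obtain ⟨n0, hn0⟩ := hc
    obtain ⟨A, hA⟩ := case2 h (U := fun j => U (n0 + j)) (fun n => hU _) (by
      intro x
      refine infinite_of_forall_exists_gt fun N => ?_
      obtain ⟨j, hj, hjN⟩ := (hl x).exists_gt (n0 + N)
      refine ⟨j - n0, ?_, by omega⟩
      change x ∈ U (n0 + (j - n0))
      have : n0 + (j - n0) = j := by omega
      rw [this]
      exact hj) (by
      intro m hm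
      apply hn0 (n0 + m)
      rw [eq_univ_iff_forall] at hm ⊢
      intro x
      obtain ⟨j, h1, h2, h3⟩ := hm x
      exact ⟨n0 + j, by omega, by omega, h3⟩)
    refine ⟨{j | n0 ≤ j ∧ j - n0 ∈ A}, fun x => ⟨?_, ?_⟩⟩
    · refine infinite_of_forall_exists_gt fun N => ?_
      obtain ⟨j, hj, hjN⟩ := (hA x).1.exists_gt N
      refine ⟨n0 + j, ⟨⟨by omega, ?_⟩, hj.2⟩, by omega⟩
      have : n0 + j - n0 = j := by omega
      rw [this]
      exact hj.1
    · refine infinite_of_forall_exists_gt fun N => ?_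
      obtain ⟨j, hj, hjN⟩ := (hA x).2.exists_gt N
      refine ⟨n0 + j, ⟨?_, hj.2⟩, by omega⟩
      rintro ⟨_, h2⟩
      have : n0 + j - n0 = j := by omega
      rw [this] at h2
      exact hj.1 h2

/-- `Split(Ω, T)` implies `Split(Λ, Λ)`, for all second countable T₁ spaces. -/
theorem split_lambda [TopologicalSpace X] [T1Space X] [SecondCountableTopology X]
    (h : SplitP (OmegaOf (OpenFam X)) (TauOf (OpenFam X))) :
    SplitP (LambdaOf (OpenFam X)) (LambdaOf (OpenFam X)) := by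
  classical
  intro U hU
  rcases isEmpty_or_nonempty X with hX | hX
  · have hUe : U = ∅ := by
      rw [eq_empty_iff_forall_notMem]
      intro u hu
      have : u = univ := by
        ext x; exact (hX.false x).elim
      exact hU.2.1.2 (this ▸ hu)
    refine ⟨∅, ∅, by simp [hUe], disjoint_bot_left, ⟨∅, subset_rfl, ?_⟩, ⟨∅, subset_rfl, ?_⟩⟩
    · rw [← hUe]; exact hU
    · rw [← hUe]; exact hU
  obtain ⟨V, hVU, hVc, hVl⟩ := exists_countable_large hU.1 hU.2.2
  obtain ⟨x0⟩ := hX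
  have hX : Nonempty X := ⟨x0⟩
  have hVi : V.Infinite := (hVl x0).mono (fun u hu => hu.1)
  obtain ⟨v, hv, hvV⟩ := Pool.Agent.Helper185.Blk.exists_enum_inj hVc hVi
  have hvmem : ∀ n, v n ∈ V := fun n => by rw [← hvV]; exact mem_range_self n
  have hl : ∀ x, {n | x ∈ v n}.Infinite := by
    intro x hfin
    apply hVl x
    apply (hfin.image v).subset
    rintro u ⟨hu, hxu⟩
    rw [← hvV] at hu
    obtain ⟨n, rfl⟩ := hu
    exact ⟨n, hxu, rfl⟩
  obtain ⟨A, hA⟩ := core h (U := v) (fun n => hU.1 _ (hVU (hvmem n))) hl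
  have hlam : ∀ T : Set ℕ, (∀ x, {n | n ∈ T ∧ x ∈ v n}.Infinite) →
      v '' T ∈ LambdaOf (OpenFam X) := by
    intro T hT
    have hinf : ∀ x, {u | u ∈ v '' T ∧ x ∈ u}.Infinite := by
      intro x
      apply ((hT x).image hv.injOn).mono
      rintro _ ⟨n, ⟨h1, h2⟩, rfl⟩
      exact ⟨⟨n, h1, rfl⟩, h2⟩
    refine ⟨?_, ⟨?_, ?_⟩, hinf⟩
    · rintro _ ⟨n, _, rfl⟩
      exact hU.1 _ (hVU (hvmem n))
    · rw [eq_univ_iff_forall]
      intro x
      obtain ⟨u, hu, hxu⟩ := (hinf x).nonempty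
      exact ⟨u, hu, hxu⟩
    · rintro ⟨n, _, hn⟩
      exact hU.2.1.2 (hn ▸ hVU (hvmem n))
  refine ⟨v '' A, U \ v '' A, ?_, disjoint_sdiff_right, ⟨v '' A, subset_rfl,
    hlam A (fun x => (hA x).1)⟩, ⟨v '' Aᶜ, ?_, hlam _ (fun x => (hA x).2)⟩⟩
  · apply union_sdiff_cancel
    rintro _ ⟨n, _, rfl⟩
    exact hVU (hvmem n)
  · rintro _ ⟨n, hn, rfl⟩
    refine ⟨hVU (hvmem n), ?_⟩
    rintro ⟨m, hm, hmn⟩
    exact hn (hv hmn ▸ hm)

end

end Pool.Agent.H752R3.SplitLambda
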