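import Pool.Agent.H752R3.MonoTower
import Pool.Agent.H752R3.MonoDefs
import Pool.Agent.H752R3.SplitLambda

/-!
Under CH there is a non-Menger set of reals with the property `(∗)`.
-/

set_option autoImplicit false

namespace Pool.Agent.H752R3.Mono

open Set Filter Cardinal Topology

theorem star_of_set {X : Set (ℕ → Bool)} (hX : ∀ t : Task,
      (∃ x ∈ X, {n | x ∈ opn (t.2.1 n)}.Finite) ∨
        (∃ E : Finset ℕ, ∀ x ∈ X, ∃ n ∈ E, x ∈ opn (t.2.1 n)) ∨ ∃ G, Sol t X G)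
    (hne : X.Nonempty) {α : Type*} [TopologicalSpace α] {f : α → ℕ → Bool} (hf : IsInducing f)
    (hr : range f = X) : Star α := by
  classical
  intro 𝒰 hU hfin k χ
  have hsc : SecondCountableTopology α := hf.secondCountableTopology
  obtain ⟨a0⟩ : Nonempty α := by
    obtain ⟨x, hx⟩ := hne
    rw [← hr] at hx
    obtain ⟨a, _⟩ := hx
    exact ⟨a⟩
  obtain ⟨V, hVU, hVc, hVl⟩ := SplitLambda.exists_countable_large (fun u hu => (hU.1 u hu).1) hU.2
  have hVi : V.Infinite := (hVl a0).mono (fun u hu => hu.1)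
  obtain ⟨v, hv, hvV⟩ := Pool.Agent.Helper185.Blk.exists_enum_inj hVc hVi
  have hvmem : ∀ n, v n ∈ 𝒰 := fun n => hVU (by rw [← hvV]; exact mem_range_self n)
  have hw : ∀ n, ∃ w : Set (ℕ → Bool), IsOpen w ∧ f ⁻¹' w = v n := fun n =>
    hf.isOpen_iff.1 (hU.1 _ (hvmem n)).1
  choose w hwo hwv using hw
  have hmem : ∀ n a, a ∈ v n ↔ f a ∈ w n := fun n a => by rw [← hwv n]; rfl
  let UN : Finset ℕ → Set α := fun G => ⋃ n ∈ G, v n
  let t : Task := (fun _ => 0, fun n => {l | CylB l ⊆ w n},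
    fun I J => (χ s(UN I, UN J)).val, k)
  have hopn : ∀ n, opn (t.2.1 n) = w n := fun n => opn_of_isOpen (hwo n)
  have hfX : ∀ a, f a ∈ X := fun a => hr ▸ mem_range_self a
  rcases hX t with h | h | h
  · exfalso
    obtain ⟨x, hx, hxf⟩ := h
    rw [← hr] at hx
    obtain ⟨a, rfl⟩ := hx
    apply hVl a
    apply (hxf.image v).subset
    rintro u ⟨hu, hau⟩
    rw [← hvV] at hu
    obtain ⟨n, rfl⟩ := hu
    refine ⟨n, ?_, rfl⟩
    change f a ∈ opn (t.2.1 n)
    rw [hopn]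
    exact (hmem n a).1 hau
  · exfalso
    obtain ⟨E, hE⟩ := h
    apply hfin (v '' (E : Set ℕ)) (E.finite_toSet.image v)
    · rintro _ ⟨n, _, rfl⟩
      exact hvmem n
    · rw [eq_univ_iff_forall]
      intro a
      obtain ⟨n, hn, han⟩ := hE (f a) (hfX a)
      rw [hopn] at han
      exact ⟨v n, ⟨n, hn, rfl⟩, (hmem n a).2 han⟩
  · obtain ⟨G, h1, h2, ⟨col, h3⟩, h4, h5⟩ := h
    have hVH : ∀ H : Finset ℕ, VH (fun j => v '' (G j : Set ℕ)) H = UN (H.biUnion G) := by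
      intro H
      ext a
      simp only [VH, UN, mem_iUnion, mem_sUnion, mem_image, Finset.mem_biUnion, Finset.mem_coe]
      constructor
      · rintro ⟨j, hj, _, ⟨n, hn, rfl⟩, ha⟩
        exact ⟨n, ⟨j, hj, hn⟩, ha⟩
      · rintro ⟨n, ⟨j, hj, hn⟩, ha⟩
        exact ⟨j, hj, v n, ⟨n, hn, rfl⟩, ha⟩
    have hdis : ∀ i j, i ≠ j → ∀ n, n ∈ G i → n ∉ G j := by
      intro i j hij n hi hj
      rcases lt_or_gt_of_ne hij with h | h
      · exact lt_irrefl _ (h2 i j h n hi n hj)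
      · exact lt_irrefl _ (h2 j i h n hj n hi)
    refine ⟨fun j => v '' (G j : Set ℕ), ?_, ?_, ?_, ?_, ?_⟩
    · intro j
      refine ⟨(G j).finite_toSet.image v, ?_, ?_⟩
      · obtain ⟨n, hn⟩ := h1 j
        exact ⟨v n, n, hn, rfl⟩
      · rintro _ ⟨n, _, rfl⟩
        exact hvmem n
    · intro i j hij
      rw [disjoint_left]
      rintro _ ⟨n, hn, rfl⟩ ⟨m, hm, hmn⟩
      have := hv hmn
      subst this
      exact hdis i j hij _ hn hm
    · intro a
      have h6 := h4 (f a) (hfX a)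
      -- choose one member for each `j`
      have hch : ∀ j, ∃ n, (∃ m ∈ G j, f a ∈ opn (t.2.1 m)) → n ∈ G j ∧ a ∈ v n := by
        intro j
        by_cases hj : ∃ m ∈ G j, f a ∈ opn (t.2.1 m)
        · obtain ⟨m, hm, hm2⟩ := hj
          rw [hopn] at hm2
          exact ⟨m, fun _ => ⟨hm, (hmem m a).2 hm2⟩⟩
        · exact ⟨0, fun h => absurd h hj⟩
      choose n hn using hch
      have hinj : InjOn (fun j => v (n j)) {j | ∃ m ∈ G j, f a ∈ opn (t.2.1 m)} := by
        intro i hi j hj hij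
        have h7 := hv hij
        by_contra hne
        exact hdis i j hne _ (hn i hi).1 (h7 ▸ (hn j hj).1)
      apply (h6.image hinj).mono
      rintro _ ⟨j, hj, rfl⟩
      exact ⟨⟨j, n j, (hn j hj).1, rfl⟩, (hn j hj).2⟩
    · rintro H₁ H₂ ⟨hb1, hb2, hb3⟩ heq
      rw [hVH, hVH] at heq
      obtain ⟨x, hx, hx1, m, hm, hx2⟩ := h5 H₁ H₂ hb1 hb2 hb3
      rw [← hr] at hx
      obtain ⟨a, rfl⟩ := hx
      rw [hopn] at hx2
      have h6 : a ∈ UN (H₂.biUnion G) := mem_iUnion₂.2 ⟨m, hm, (hmem m a).2 hx2⟩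
      rw [← heq] at h6
      obtain ⟨n, hn, han⟩ := mem_iUnion₂.1 h6
      apply hx1 n hn
      rw [hopn]
      exact (hmem n a).1 han
    · have h7 : ∀ H₁ H₂, Bef H₁ H₂ → (χ s(VH (fun j => v '' (G j : Set ℕ)) H₁,
          VH (fun j => v '' (G j : Set ℕ)) H₂)).val = col := by
        rintro H₁ H₂ ⟨hb1, hb2, hb3⟩
        rw [hVH, hVH]
        have h8 := h3 H₁ H₂ hb1 hb2 hb3
        change (χ s(UN (H₁.biUnion G), UN (H₂.biUnion G))).val % (k + 1) = col at h8
        rw [Nat.mod_eq_of_lt (Nat.lt_succ_of_lt (Fin.isLt _))] at h8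
        exact h8
      refine ⟨χ s(VH (fun j => v '' (G j : Set ℕ)) {0}, VH (fun j => v '' (G j : Set ℕ)) {1}), ?_⟩
      intro H₁ H₂ hb
      apply Fin.ext
      rw [h7 H₁ H₂ hb, h7 {0} {1} ⟨Finset.singleton_nonempty _, Finset.singleton_nonempty _, by simp⟩]

theorem not_menger_of_set {X : Set (ℕ → Bool)} (hXi : ∀ x ∈ X, Infi x)
    (hX : ∀ g : ℕ → ℕ, ∃ x ∈ X, ∀ n, cnt (g n) x ≤ n)
    {α : Type*} [TopologicalSpace α] {f : α → ℕ → Bool} (hf : Continuous f)
    (hr : range f = X) : ¬ MengerSp α := by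
  classical
  intro h
  obtain ⟨F, hF1, hF2⟩ := h (fun n => range (fun m => {a | n < cnt m (f a)})) (by
    intro n
    refine ⟨?_, ?_⟩
    · rintro _ ⟨m, rfl⟩
      exact (isOpen_discrete (Ioi n)).preimage ((continuous_cnt m).comp hf)
    · rw [eq_univ_iff_forall]
      intro a
      have hinf := hXi (f a) (hr ▸ mem_range_self a)
      obtain ⟨s, hs, hsc⟩ := hinf.exists_subset_card_eq (n + 1)
      refine ⟨_, ⟨s.sup id + 1, rfl⟩, ?_⟩
      change n < cnt _ (f a)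
      unfold cnt
      rw [← Finset.card_filter]
      have h1 : s ⊆ (Finset.range (s.sup id + 1)).filter (fun i => f a i = true) := by
        intro i hi
        rw [Finset.mem_filter, Finset.mem_range]
        have h2 : i ≤ s.sup id := Finset.le_sup (f := id) hi
        exact ⟨by omega, hs hi⟩
      have h3 := Finset.card_le_card h1
      omega)
  have hg : ∀ n, ∃ g, ∀ a, a ∈ ⋃₀ F n → n < cnt g (f a) := by
    intro n
    have h1 : ∀ u ∈ F n, ∃ m, u = {a | n < cnt m (f a)} := by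
      intro u hu
      obtain ⟨m, hm⟩ := (hF1 n).1 hu
      exact ⟨m, hm.symm⟩
    choose! m hm using h1
    obtain ⟨M, hM⟩ := ((hF1 n).2.image m).bddAbove
    refine ⟨M, ?_⟩
    rintro a ⟨u, hu, hau⟩
    rw [hm u hu] at hau
    exact lt_of_lt_of_le hau (cnt_mono (hM ⟨u, hu, rfl⟩) _)
  choose g hg using hg
  obtain ⟨x, hx, hxg⟩ := hX g
  rw [← hr] at hx
  obtain ⟨a, rfl⟩ := hx
  have ha : a ∈ ⋃ n, ⋃₀ F n := by rw [hF2]; trivial
  obtain ⟨n, hn⟩ := mem_iUnion.1 ha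
  have h1 := hg n a hn
  have h2 := hxg n
  omega

/-- Under CH there is a set of reals with the property `(∗)` that is not Menger. -/
theorem exists_real (CH : (ℵ₁ : Cardinal.{0}) = 𝔠) : ∃ X : Set ℝ, Star X ∧ ¬ MengerSp X := by
  obtain ⟨X, h1, h2, h3⟩ := exists_set CH
  have hne : X.Nonempty := by
    obtain ⟨x, hx, _⟩ := h2 (fun _ => 0)
    exact ⟨x, hx⟩
  obtain ⟨g, hg⟩ := Pool.Agent.Helper185.Silver.exists_embedding_Z
  obtain ⟨e⟩ := Pool.Agent.Helper185.Silver.homeo_image hg X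
  have hind : IsInducing (fun y : (g '' X : Set ℝ) => ((e.symm y : X) : ℕ → Bool)) :=
    IsInducing.subtypeVal.comp e.symm.isInducing
  have hr : range (fun y : (g '' X : Set ℝ) => ((e.symm y : X) : ℕ → Bool)) = X := by
    ext x
    constructor
    · rintro ⟨y, rfl⟩
      exact (e.symm y).2
    · intro hx
      exact ⟨e ⟨x, hx⟩, by simp⟩
  exact ⟨g '' X, star_of_set h3 hne hind hr, not_menger_of_set h1 h2 hind.continuous hr⟩

end Pool.Agent.H752R3.Mono
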