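import Pool.Agent.H752R3.MonoDefs

/-!
The property `(∗)` for large covers: combinatorial consequences.
-/

set_option autoImplicit false

namespace Pool.Agent.H752R3.Mono

open Set Filter Topology

/-- Lindelöf, in elementary form -/
def Lind (X : Type*) [TopologicalSpace X] : Prop :=
  ∀ 𝒞 : Set (Set X), (∀ c ∈ 𝒞, IsOpen c) → ⋃₀ 𝒞 = univ →
    ∃ 𝒟 ⊆ 𝒞, 𝒟.Countable ∧ ⋃₀ 𝒟 = univ

/-- `(∗)` implies the Lindelöf property. -/
theorem lind_of_star {X : Type*} [TopologicalSpace X] [Nonempty X] (h : Star X) : Lind X := by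
  classical
  intro 𝒞 hC hCu
  by_contra hcon
  push Not at hcon
  let 𝒰 : Set (Set X) := {u | u.Nonempty ∧ ∃ F : Set (Set X), F.Finite ∧ F ⊆ 𝒞 ∧ u = ⋃₀ F}
  have hfinne : ∀ F : Set (Set X), F.Finite → F ⊆ 𝒞 → ⋃₀ F ≠ univ := fun F hF hFC =>
    hcon F hFC hF.countable
  have hlarge : IsLarge 𝒰 := by
    refine ⟨?_, ?_⟩
    · rintro u ⟨hu, F, hF, hFC, rfl⟩
      exact ⟨isOpen_sUnion (fun c hc => hC c (hFC hc)), hu, hfinne F hF hFC⟩
    · intro x hfin
      -- the union of all members containing `x`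
      have h1 : ∀ u ∈ {u | u ∈ 𝒰 ∧ x ∈ u}, ∃ F : Set (Set X), F.Finite ∧ F ⊆ 𝒞 ∧ u = ⋃₀ F :=
        fun u hu => hu.1.2
      choose! G hG1 hG2 hG3 using h1
      have h2 : (⋃ u ∈ {u | u ∈ 𝒰 ∧ x ∈ u}, G u).Finite := hfin.biUnion (fun u hu => hG1 u hu)
      have h3 : (⋃ u ∈ {u | u ∈ 𝒰 ∧ x ∈ u}, G u) ⊆ 𝒞 := iUnion₂_subset (fun u hu => hG2 u hu)
      obtain ⟨y, hy⟩ := (ne_univ_iff_exists_notMem _).1 (hfinne _ h2 h3)
      obtain ⟨c0, hc0, hxc0⟩ : x ∈ ⋃₀ 𝒞 := by rw [hCu]; trivial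
      obtain ⟨c1, hc1, hyc1⟩ : y ∈ ⋃₀ 𝒞 := by rw [hCu]; trivial
      have h4 : ⋃₀ {c0, c1} ∈ {u | u ∈ 𝒰 ∧ x ∈ u} := by
        refine ⟨⟨⟨x, c0, by simp, hxc0⟩, {c0, c1}, by simp, ?_, rfl⟩, c0, by simp, hxc0⟩
        rintro c (rfl | rfl)
        · exact hc0
        · exact hc1
      apply hy
      have h5 : y ∈ ⋃₀ ({c0, c1} : Set (Set X)) := ⟨c1, by simp, hyc1⟩
      rw [hG3 _ h4] at h5
      obtain ⟨c, hc, hyc⟩ := h5
      exact ⟨c, mem_biUnion h4 hc, hyc⟩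
  have hnf : NoFinSub 𝒰 := by
    intro F hF hFU hFu
    have h1 : ∀ u ∈ F, ∃ G : Set (Set X), G.Finite ∧ G ⊆ 𝒞 ∧ u = ⋃₀ G := fun u hu => (hFU hu).2
    choose! G hG1 hG2 hG3 using h1
    apply hfinne (⋃ u ∈ F, G u) (hF.biUnion hG1) (iUnion₂_subset hG2)
    rw [← hFu]
    ext x
    constructor
    · rintro ⟨c, hc, hxc⟩
      obtain ⟨u, hu, hcu⟩ := mem_iUnion₂.1 hc
      refine ⟨u, hu, ?_⟩
      rw [hG3 u hu]
      exact ⟨c, hcu, hxc⟩
    · rintro ⟨u, hu, hxu⟩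
      rw [hG3 u hu] at hxu
      obtain ⟨c, hc, hxc⟩ := hxu
      exact ⟨c, mem_biUnion hu hc, hxc⟩
  obtain ⟨ℱ, h1, -, h3, -, -⟩ := h 𝒰 hlarge hnf 1 (fun _ => 0)
  have h5 : ∀ u ∈ ⋃ n, ℱ n, ∃ F : Set (Set X), F.Finite ∧ F ⊆ 𝒞 ∧ u = ⋃₀ F := by
    intro u hu
    obtain ⟨n, hn⟩ := mem_iUnion.1 hu
    exact ((h1 n).2.2 hn).2
  choose! G hG1 hG2 hG3 using h5
  apply hcon (⋃ u ∈ ⋃ n, ℱ n, G u) (iUnion₂_subset hG2)
    ((countable_iUnion (fun n => (h1 n).1.countable)).biUnion (fun u hu => (hG1 u hu).countable))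
  rw [eq_univ_iff_forall]
  intro x
  obtain ⟨u, ⟨n, hn⟩, hxu⟩ := (h3 x).nonempty
  have hu : u ∈ ⋃ n, ℱ n := mem_iUnion.2 ⟨n, hn⟩
  rw [hG3 u hu] at hxu
  obtain ⟨c, hc, hxc⟩ := hxu
  exact ⟨c, mem_biUnion hu hc, hxc⟩

/-- Colourings force gaps. -/
theorem exists_gaps {X : Type*} [TopologicalSpace X] (h : Star X) {O : ℕ → Set X}
    (hO : ∀ k, IsOpen (O k)) (hinf : ∀ x, {k | x ∈ O k}.Infinite)
    (hdet : ∀ k l, k < l → ∃ q, ∀ j < l, q ∈ O j ↔ j = k)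
    (bl : ℕ → ℕ) (hbl : ∀ n, {k | bl k ≤ n}.Finite) :
    ∃ D : Set ℕ, {n | n ∉ bl '' D}.Infinite ∧ ∀ x, {k | k ∈ D ∧ x ∈ O k}.Infinite := by
  classical
  let VN : Finset ℕ → Set X := fun F => ⋃ k ∈ F, O k
  have hmemVN : ∀ (F : Finset ℕ) (x : X), x ∈ VN F ↔ ∃ k ∈ F, x ∈ O k := by
    intro F x
    simp [VN]
  have hVNsub : ∀ F G : Finset ℕ, VN F = VN G → F ⊆ G := by
    intro F G hFG k hk
    obtain ⟨q, hq⟩ := hdet k (max k (G.sup id) + 1) (by have := le_max_left k (G.sup id); omega)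
    have h1 : q ∈ VN F := (hmemVN F q).2 ⟨k, hk, (hq k (by
      have := le_max_left k (G.sup id)
      omega)).2 rfl⟩
    rw [hFG] at h1
    obtain ⟨j, hj, hqj⟩ := (hmemVN G q).1 h1
    have h2 : j ≤ G.sup id := Finset.le_sup (f := id) hj
    have h3 := (hq j (by have := le_max_right k (G.sup id); omega)).1 hqj
    rw [← h3]
    exact hj
  have hVN : Function.Injective VN := fun F G hFG =>
    Finset.Subset.antisymm (hVNsub F G hFG) (hVNsub G F hFG.symm)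
  have hOinj : Function.Injective O := by
    intro a b hab
    have h1 : VN {a} = VN {b} := by
      simp only [VN, Finset.mem_singleton, iUnion_iUnion_eq_left]
      exact hab
    exact Finset.singleton_injective (hVN h1)
  let dec : Set X → Finset ℕ := Function.invFun VN
  have hdec : ∀ F, dec (VN F) = F := Function.leftInverse_invFun hVN
  let sep : Finset ℕ → Finset ℕ → Prop := fun F G => ∀ a ∈ F, ∀ b ∈ G, bl a + 1 < bl b
  let χ : Sym2 (Set X) → Fin 2 := Sym2.lift ⟨fun u v =>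
    if sep (dec u) (dec v) ∨ sep (dec v) (dec u) then 1 else 0, fun u v => by
      by_cases h : sep (dec u) (dec v) ∨ sep (dec v) (dec u)
      · simp only [if_pos h, if_pos h.symm]
      · simp only [if_neg h, if_neg (fun h' : _ ∨ _ => h h'.symm)]⟩
  have hχ : ∀ u v, χ s(u, v) = if sep (dec u) (dec v) ∨ sep (dec v) (dec u) then 1 else 0 :=
    fun u v => rfl
  have hlarge : IsLarge (range O) := by
    refine ⟨?_, ?_⟩
    · rintro _ ⟨k, rfl⟩
      refine ⟨hO k, ?_, ?_⟩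
      · obtain ⟨q, hq⟩ := hdet k (k + 1) (Nat.lt_succ_self k)
        exact ⟨q, (hq k (Nat.lt_succ_self k)).2 rfl⟩
      · intro hu
        obtain ⟨q, hq⟩ := hdet (k + 1) (k + 2) (Nat.lt_succ_self _)
        have h1 : q ∈ O k := by rw [hu]; trivial
        have h2 := (hq k (by omega)).1 h1
        omega
    · intro x
      apply ((hinf x).image hOinj.injOn).mono
      rintro _ ⟨k, hk, rfl⟩
      exact ⟨mem_range_self k, hk⟩
  have hnf : NoFinSub (range O) := by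
    intro F hF hFr hFu
    have h1 : (O ⁻¹' F).Finite := hF.preimage hOinj.injOn
    obtain ⟨M, hM⟩ := h1.bddAbove
    obtain ⟨q, hq⟩ := hdet (M + 1) (M + 2) (Nat.lt_succ_self _)
    have h2 : q ∈ ⋃₀ F := by rw [hFu]; trivial
    obtain ⟨u, hu, hqu⟩ := h2
    obtain ⟨k, rfl⟩ := hFr hu
    have h3 : k ≤ M := hM hu
    have h4 := (hq k (by omega)).1 hqu
    omega
  obtain ⟨ℱ, h1, h2, h3, -, c0, h5⟩ := h (range O) hlarge hnf 2 χ
  have hpre : ∀ n, (O ⁻¹' (ℱ n)).Finite := fun n => (h1 n).1.preimage hOinj.injOn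
  let F : ℕ → Finset ℕ := fun n => (hpre n).toFinset
  have hFm : ∀ n k, k ∈ F n ↔ O k ∈ ℱ n := fun n k => by simp [F]
  have hFne : ∀ n, (F n).Nonempty := by
    intro n
    obtain ⟨u, hu⟩ := (h1 n).2.1
    obtain ⟨k, rfl⟩ := (h1 n).2.2 hu
    exact ⟨k, (hFm n k).2 hu⟩
  have hFd : ∀ i j k, k ∈ F i → k ∈ F j → i = j := by
    intro i j k hi hj
    by_contra hne
    exact disjoint_left.1 (h2 i j hne) ((hFm i k).1 hi) ((hFm j k).1 hj)
  have hVH : ∀ H : Finset ℕ, VH ℱ H = VN (H.biUnion F) := by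
    intro H
    ext x
    simp only [VH, mem_iUnion, mem_sUnion, hmemVN, Finset.mem_biUnion]
    constructor
    · rintro ⟨n, hn, u, hu, hxu⟩
      obtain ⟨k, rfl⟩ := (h1 n).2.2 hu
      exact ⟨k, ⟨n, hn, (hFm n k).2 hu⟩, hxu⟩
    · rintro ⟨k, ⟨n, hn, hk⟩, hxk⟩
      exact ⟨n, hn, O k, (hFm n k).1 hk, hxk⟩
  have hfar : ∀ M N, ∃ j, N < j ∧ ∀ k ∈ F j, M < bl k := by
    intro M N
    have hfin : {j | ∃ k ∈ F j, bl k ≤ M}.Finite := by
      have hch : ∀ k, ∃ j, ∀ j', k ∈ F j' → j' = j := by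
        intro k
        by_cases hk : ∃ j, k ∈ F j
        · obtain ⟨j, hj⟩ := hk
          exact ⟨j, fun j' hj' => hFd _ _ _ hj' hj⟩
        · exact ⟨0, fun j' hj' => absurd ⟨j', hj'⟩ hk⟩
      choose J hJ using hch
      apply ((hbl M).image J).subset
      rintro j ⟨k, hk, hkM⟩
      exact ⟨k, hkM, (hJ k j hk).symm⟩
    obtain ⟨j, hj, hNj⟩ := (hfin.infinite_compl).exists_gt N
    refine ⟨j, hNj, fun k hk => ?_⟩
    by_contra hcon
    exact hj ⟨k, hk, not_lt.1 hcon⟩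
  have hcol : ∀ H₁ H₂, Bef H₁ H₂ → (sep (H₁.biUnion F) (H₂.biUnion F) ∨
      sep (H₂.biUnion F) (H₁.biUnion F)) := by
    have key : ∀ H₁ H₂, Bef H₁ H₂ → (if sep (H₁.biUnion F) (H₂.biUnion F) ∨
        sep (H₂.biUnion F) (H₁.biUnion F) then (1 : Fin 2) else 0) = c0 := by
      intro H₁ H₂ hb
      have h6 := h5 H₁ H₂ hb
      rw [hχ, hVH, hVH, hdec, hdec] at h6
      exact h6
    have hc0 : c0 = 1 := by
      obtain ⟨j, hj0, hj⟩ := hfar ((F 0).sup bl + 1) 0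
      have hb : Bef {0} {j} := ⟨Finset.singleton_nonempty _, Finset.singleton_nonempty _, by
        intro a ha b hb
        rw [Finset.mem_singleton] at ha hb
        omega⟩
      rw [← key {0} {j} hb, if_pos]
      left
      intro a ha b hb
      rw [Finset.singleton_biUnion] at ha hb
      have h7 : bl a ≤ (F 0).sup bl := Finset.le_sup ha
      have h8 := hj b hb
      omega
    intro H₁ H₂ hb
    have h6 := key H₁ H₂ hb
    rw [hc0] at h6
    by_contra hcon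
    rw [if_neg hcon] at h6
    exact absurd h6 (by decide)
  have hord : ∀ i j, i < j → sep (F i) (F j) := by
    intro i j hij
    obtain ⟨l, hjl, hl⟩ := hfar ((F i).sup bl + 1) j
    have hb : Bef {i} {j, l} := ⟨Finset.singleton_nonempty _, ⟨j, by simp⟩, by
      intro a ha b hb
      rw [Finset.mem_singleton] at ha
      rw [Finset.mem_insert, Finset.mem_singleton] at hb
      omega⟩
    rcases hcol {i} {j, l} hb with h6 | h6
    · intro a ha b hb
      apply h6 a (by simpa using ha) b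
      exact Finset.mem_biUnion.2 ⟨j, by simp, hb⟩
    · exfalso
      obtain ⟨a, ha⟩ := hFne i
      obtain ⟨b, hb⟩ := hFne l
      have h7 := h6 b (Finset.mem_biUnion.2 ⟨l, by simp, hb⟩) a (by simpa using ha)
      have h8 := hl b hb
      have h9 : bl a ≤ (F i).sup bl := Finset.le_sup ha
      omega
  refine ⟨{k | ∃ j, k ∈ F j}, ?_, ?_⟩
  · refine infinite_of_forall_exists_gt fun N => ?_
    obtain ⟨i, _, hi⟩ := hfar N 0
    refine ⟨(F i).sup bl + 1, ?_, ?_⟩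
    · rintro ⟨k, ⟨j, hj⟩, hk⟩
      rcases lt_trichotomy j i with h6 | h6 | h6
      · obtain ⟨a, ha⟩ := hFne i
        have h7 := hord j i h6 k hj a ha
        have h8 : bl a ≤ (F i).sup bl := Finset.le_sup ha
        omega
      · subst h6
        have h8 : bl k ≤ (F j).sup bl := Finset.le_sup hj
        omega
      · obtain ⟨a, ha, has⟩ := Finset.exists_mem_eq_sup (F i) (hFne i) bl
        have h7 := hord i j h6 a ha k hj
        omega
    · obtain ⟨a, ha⟩ := hFne i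
      have h7 := hi a ha
      have h8 : bl a ≤ (F i).sup bl := Finset.le_sup ha
      omega
  · intro x hfin
    apply h3 x
    apply (hfin.image O).subset
    rintro u ⟨⟨n, hn⟩, hxu⟩
    obtain ⟨k, rfl⟩ := (h1 n).2.2 hn
    exact ⟨k, ⟨⟨n, (hFm n k).2 hn⟩, hxu⟩, rfl⟩

end Pool.Agent.H752R3.Mono
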