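import Pool.Agent.H752R3.Dec
import Pool.Agent.H752R3.MT

/-!
Selecting pairwise disjoint finite subfamilies of a large cover with a monochromatic sumgraph.
-/

set_option autoImplicit false

namespace Pool.Agent.H752R3.Mono

open Set Filter

/-- almost contained -/
def Alm (x : ℕ → Bool) (B : Set ℕ) : Prop := ∃ N, ∀ b, N ≤ b → x b = true → b ∈ B

theorem exists_selection {B : Set ℕ} (hB : B.Infinite) {O : ℕ → Set (ℕ → Bool)}
    (hO : ∀ n, IsOpen (O n)) (hl : ∀ x, Infi x → Alm x B → {n | x ∈ O n}.Infinite)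
    (P : ℕ → ℕ → Finset ℕ → Finset ℕ) (hP : ∀ k l E, ∀ n ∈ P k l E, l ≤ n) :
    ∃ (b : ℕ → ℕ) (G : ℕ → Finset ℕ) (l : ℕ → ℕ), StrictMono b ∧ (∀ k, b k ∈ B) ∧
      (∀ k, P k (l k) ((Finset.range k).biUnion G) ⊆ G k) ∧
      (∀ i j, i < j → ∀ m ∈ G i, ∀ n ∈ G j, m < n) ∧
      ∀ x, Infi x → Alm x (range b) → ∀ K, ∃ k, K ≤ k ∧ x (b k) = true ∧ ∃ n ∈ G k, x ∈ O n := by
  classical
  obtain ⟨e, he, heB, hdec⟩ := exists_decided hB hO
  let Acc : ℕ → Finset ℕ → Prop := fun n s => ∀ x, Infi x → pre x (e n + 1) = s →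
    (∀ b, e n < b → x b = true → b ∈ range e) → x ∈ O n
  let NN : ℕ → Finset ℕ → Set ℕ := fun m s => {n | m ≤ n ∧ Acc n s}
  have hq : ∀ m s, ∃ q : Finset ℕ, (∀ n ∈ q, m ≤ n ∧ Acc n s) ∧ ((NN m s).Finite → ∀ n ∈ NN m s, n ∈ q) ∧
      ((NN m s).Infinite → q.Nonempty) := by
    intro m s
    by_cases hf : (NN m s).Finite
    · exact ⟨hf.toFinset, fun n hn => hf.mem_toFinset.1 hn, fun _ n hn => hf.mem_toFinset.2 hn,
        fun h => absurd hf h⟩
    · obtain ⟨n, hn⟩ := (show (NN m s).Infinite from hf).nonempty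
      exact ⟨{n}, fun n' hn' => by rw [Finset.mem_singleton.1 hn']; exact hn,
        fun h => absurd h hf, fun _ => Finset.singleton_nonempty n⟩
  choose q hq1 hq2 hq3 using hq
  let Q : ℕ → Finset ℕ := fun m => (Finset.range (e m + 1)).powerset.biUnion (q m)
  have hQge : ∀ m, ∀ n ∈ Q m, m ≤ n := by
    intro m n hn
    obtain ⟨s, _, hs⟩ := Finset.mem_biUnion.1 hn
    exact (hq1 m s n hs).1
  let st : ℕ → ℕ × Finset ℕ := fun k => Nat.rec (motive := fun _ => ℕ × Finset ℕ) (0, ∅)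
    (fun j v => (max v.1 ((Q v.1 ∪ P j v.1 v.2).sup id) + 1, v.2 ∪ (Q v.1 ∪ P j v.1 v.2))) k
  let m : ℕ → ℕ := fun k => (st k).1
  let G : ℕ → Finset ℕ := fun k => Q (m k) ∪ P k (m k) (st k).2
  have hst : ∀ k, st (k + 1) = (max (m k) ((G k).sup id) + 1, (st k).2 ∪ G k) := fun k => rfl
  have hE : ∀ k, (st k).2 = (Finset.range k).biUnion G := by
    intro k
    induction k with
    | zero => rfl
    | succ k ih =>
      rw [hst, Finset.range_add_one, Finset.biUnion_insert, ← ih, Finset.union_comm]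
  have hm1 : ∀ k, m (k + 1) = max (m k) ((G k).sup id) + 1 := fun k => rfl
  have hm : StrictMono m := by
    apply strictMono_nat_of_lt_succ
    intro k
    rw [hm1]
    have := le_max_left (m k) ((G k).sup id)
    omega
  have hGlt : ∀ k, ∀ n ∈ G k, n < m (k + 1) := by
    intro k n hn
    have h1 : n ≤ (G k).sup id := Finset.le_sup (f := id) hn
    rw [hm1]
    have := le_max_right (m k) ((G k).sup id)
    omega
  have hGge : ∀ k, ∀ n ∈ G k, m k ≤ n := by
    intro k n hn
    rcases Finset.mem_union.1 hn with h | h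
    · exact hQge _ n h
    · exact hP _ _ _ n h
  let b : ℕ → ℕ := fun k => e (m k)
  have hb : StrictMono b := he.comp hm
  refine ⟨b, G, m, hb, fun k => heB _, ?_, ?_, ?_⟩
  · intro k
    rw [← hE]
    exact Finset.subset_union_right
  · intro i j hij x hx y hy
    have h1 := hGlt i x hx
    have h2 : m (i + 1) ≤ m j := hm.monotone hij
    have h3 := hGge j y hy
    omega
  · intro x hx hxb K
    obtain ⟨N, hN⟩ := hxb
    have hxe : ∀ c, N ≤ c → x c = true → c ∈ range e := by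
      intro c hc hxc
      obtain ⟨k, hk⟩ := hN c hc hxc
      exact ⟨m k, hk⟩
    -- a value of `k` beyond `K` and `N`
    have hex : ∀ K', ∃ k, K' ≤ k ∧ N ≤ b k ∧ x (b k) = true := by
      intro K'
      obtain ⟨c, hc, hcN⟩ := (show {i | x i = true}.Infinite from hx).exists_gt (max N (b K'))
      obtain ⟨k, hk⟩ := hN c ((le_max_left _ _).trans hcN.le) hc
      refine ⟨k, ?_, ?_, by rw [hk]; exact hc⟩
      · apply (hb.lt_iff_lt.1 _).le
        rw [hk]
        exact lt_of_le_of_lt (le_max_right _ _) hcN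
      · rw [hk]
        exact (le_max_left _ _).trans hcN.le
    by_cases hA : ∃ k, K ≤ k ∧ N ≤ b k ∧ x (b k) = true ∧ (NN (m k) (pre x (b k + 1))).Infinite
    · obtain ⟨k, hKk, hNk, hxk, hinf⟩ := hA
      obtain ⟨n, hn⟩ := hq3 _ _ hinf
      have hns := hq1 _ _ n hn
      have hnQ : n ∈ G k := by
        apply Finset.mem_union_left
        apply Finset.mem_biUnion.2
        refine ⟨_, ?_, hn⟩
        rw [Finset.mem_powerset]
        intro i hi
        exact Finset.mem_range.2 (mem_pre.1 hi).1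
      refine ⟨k, hKk, hxk, n, hnQ, ?_⟩
      have hnm : n < m (k + 1) := hGlt k n hnQ
      have hen : e n < b (k + 1) := he hnm
      have hbe : b k ≤ e n := he.monotone hns.1
      apply hns.2 x hx
      · apply pre_eq_of_gap (by omega)
        intro i h1 h2
        cases hxi : x i
        · rfl
        · obtain ⟨j, hj⟩ := hN i (by omega) hxi
          have h3 : k < j := hb.lt_iff_lt.1 (by omega)
          have h4 : b (k + 1) ≤ b j := hb.monotone h3
          omega
      · intro c hc hxc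
        exact hxe c (by omega) hxc
    · push Not at hA
      obtain ⟨k1, hKk1, hNk1, hxk1⟩ := hex K
      have hxB : Alm x B := ⟨N, fun c hc hxc => by
        obtain ⟨k, hk⟩ := hN c hc hxc
        rw [← hk]
        exact heB _⟩
      obtain ⟨n, hn, hnm⟩ := (hl x hx hxB).exists_gt (m k1)
      have h1 : b k1 ≤ e n := he.monotone hnm.le
      set i0 := Nat.findGreatest (fun i => x i = true) (e n) with hi0
      have h2 : x i0 = true := Nat.findGreatest_spec (P := fun i => x i = true) h1 hxk1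
      have h3 : b k1 ≤ i0 := Nat.le_findGreatest h1 hxk1
      have h4 : i0 ≤ e n := Nat.findGreatest_le (e n)
      have h5 : ∀ i, i0 < i → i ≤ e n → x i = false := by
        intro i h6 h7
        cases hxi : x i
        · rfl
        · exact absurd hxi (Nat.findGreatest_is_greatest (P := fun i => x i = true) h6 h7)
      obtain ⟨k, hk⟩ := hN i0 (by omega) h2
      have hkk1 : k1 ≤ k := by
        by_contra hcon
        have := hb (not_le.1 hcon)
        omega
      have hmk : m k ≤ n := by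
        by_contra hcon
        have h8 : e n < e (m k) := he (not_le.1 hcon)
        have h9 : e (m k) = i0 := hk
        omega
      have hpre : pre x (e n + 1) = pre x (b k + 1) := by
        apply pre_eq_of_gap (by omega)
        intro i h6 h7
        exact h5 i (by omega) (by omega)
      have hacc : Acc n (pre x (b k + 1)) := by
        rcases hdec n (pre x (b k + 1)) with h | h
        · exact h
        · exfalso
          exact h x hx hpre (fun c hc hxc => hxe c (by omega) hxc) hn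
      have hkx : x (b k) = true := by rw [hk]; exact h2
      have hfin : (NN (m k) (pre x (b k + 1))).Finite :=
        (hA k (by omega) (by omega) hkx)
      refine ⟨k, by omega, hkx, n, ?_, hn⟩
      apply Finset.mem_union_left
      apply Finset.mem_biUnion.2
      refine ⟨_, ?_, hq2 _ _ hfin n ⟨hmk, hacc⟩⟩
      rw [Finset.mem_powerset]
      intro i hi
      exact Finset.mem_range.2 (mem_pre.1 hi).1

/-- The selection lemma. -/
theorem exists_mono {κ : Type} [Finite κ] {B : Set ℕ} (hB : B.Infinite) {O : ℕ → Set (ℕ → Bool)}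
    (hO : ∀ n, IsOpen (O n)) (hl : ∀ x, Infi x → Alm x B → {n | x ∈ O n}.Infinite)
    (a : ℕ → ℕ → Bool) (ha : ∀ i, {n | a i ∈ O n}.Infinite)
    (hz : ∀ E : Finset ℕ, ∃ i, ∀ n ∈ E, a i ∉ O n) (c : Finset ℕ → Finset ℕ → κ) :
    ∃ (B' : Set ℕ) (G : ℕ → Finset ℕ), B' ⊆ B ∧ B'.Infinite ∧ (∀ k, (G k).Nonempty) ∧
      (∀ i j, i < j → ∀ m ∈ G i, ∀ n ∈ G j, m < n) ∧
      (∃ col, ∀ I J : Finset ℕ, I.Nonempty → J.Nonempty → (∀ i ∈ I, ∀ j ∈ J, i < j) →
        c (I.biUnion G) (J.biUnion G) = col) ∧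
      (∀ i, {k | ∃ n ∈ G k, a i ∈ O n}.Infinite) ∧
      (∀ x, Infi x → Alm x B' → {k | ∃ n ∈ G k, x ∈ O n}.Infinite) ∧
      ∀ I J : Finset ℕ, I.Nonempty → J.Nonempty → (∀ i ∈ I, ∀ j ∈ J, i < j) →
        ∃ i, (∀ n ∈ I.biUnion G, a i ∉ O n) ∧ ∃ n ∈ J.biUnion G, a i ∈ O n := by
  classical
  choose iz hiz using hz
  have hsel : ∀ i l, ∃ n, l ≤ n ∧ a i ∈ O n := by
    intro i l
    obtain ⟨n, hn, hln⟩ := (ha i).exists_gt l
    exact ⟨n, hln.le, hn⟩
  choose sel hsel1 hsel2 using hsel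
  let r : ℕ → Finset ℕ → ℕ := fun k E => max k (E.powerset.sup iz)
  let P : ℕ → ℕ → Finset ℕ → Finset ℕ := fun k l E =>
    (Finset.range (r k E + 1)).image (fun i => sel i l)
  obtain ⟨b, G, l, hb, hbB, hPG, hGG, hx⟩ := exists_selection hB hO hl P (by
    intro k l E n hn
    obtain ⟨i, _, rfl⟩ := Finset.mem_image.1 hn
    exact hsel1 i l)
  have hPmem : ∀ k i, i ≤ r k ((Finset.range k).biUnion G) → ∃ n ∈ G k, a i ∈ O n := by
    intro k i hi
    refine ⟨sel i (l k), hPG k (Finset.mem_image.2 ⟨i, Finset.mem_range.2 (by omega), rfl⟩),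
      hsel2 _ _⟩
  obtain ⟨H, hH, col, hcol⟩ := MT.milliken_taylor (fun I J => c (I.biUnion G) (J.biUnion G))
  have hHge : ∀ j, ∀ k ∈ H j, j ≤ k := by
    intro j
    induction j with
    | zero => intro k _; exact Nat.zero_le k
    | succ j ih =>
      intro k hk
      obtain ⟨z, hz⟩ := hH.1 j
      have h1 := ih z hz
      have h2 := hH.2 j z hz k hk
      omega
  refine ⟨b '' {i | ∃ j, i ∈ H j}, fun j => (H j).biUnion G, ?_, ?_, ?_, ?_, ?_, ?_, ?_, ?_⟩
  · rintro _ ⟨i, _, rfl⟩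
    exact hbB i
  · apply Set.Infinite.image hb.injective.injOn
    refine infinite_of_forall_exists_gt fun N => ?_
    obtain ⟨k, hk⟩ := hH.1 (N + 1)
    exact ⟨k, ⟨_, hk⟩, by have := hHge _ k hk; omega⟩
  · intro j
    obtain ⟨k, hk⟩ := hH.1 j
    obtain ⟨n, hn, _⟩ := hPmem k 0 (Nat.zero_le _)
    exact ⟨n, Finset.mem_biUnion.2 ⟨k, hk, hn⟩⟩
  · intro i j hij x hxm y hym
    obtain ⟨k, hk, hxk⟩ := Finset.mem_biUnion.1 hxm
    obtain ⟨k', hk', hyk⟩ := Finset.mem_biUnion.1 hym
    exact hGG k k' (hH.lt hij k hk k' hk') x hxk y hyk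
  · refine ⟨col, fun I J hI hJ hIJ => ?_⟩
    rw [← Finset.biUnion_biUnion, ← Finset.biUnion_biUnion]
    exact hcol I J hI hJ hIJ
  · intro i
    refine infinite_of_forall_exists_gt fun N => ?_
    obtain ⟨k, hk⟩ := hH.1 (max N i + 1)
    have h1 := hHge _ k hk
    obtain ⟨n, hn, hn2⟩ := hPmem k i (by
      have h2 : k ≤ r k ((Finset.range k).biUnion G) := le_max_left _ _
      omega)
    refine ⟨max N i + 1, ⟨n, Finset.mem_biUnion.2 ⟨k, hk, hn⟩, hn2⟩, ?_⟩
    omega
  · intro x hxi hxB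
    obtain ⟨N, hN⟩ := hxB
    have hxb : Alm x (range b) := ⟨N, fun c hc hxc => by
      obtain ⟨i, _, hi⟩ := hN c hc hxc
      exact ⟨i, hi⟩⟩
    refine infinite_of_forall_exists_gt fun J => ?_
    -- bound beyond all elements of `H i`, `i ≤ J`
    let K0 := ((Finset.range (J + 1)).biUnion H).sup id + 1
    obtain ⟨k, hk, hxk, n, hn, hxn⟩ := hx x hxi hxb (max K0 N)
    have hKk : K0 ≤ k := (le_max_left _ _).trans hk
    have hNk : N ≤ k := (le_max_right _ _).trans hk
    have hbk : k ≤ b k := hb.id_le k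
    obtain ⟨i, ⟨j, hj⟩, hi⟩ := hN (b k) (by omega) hxk
    have hik : i = k := hb.injective hi
    subst hik
    refine ⟨j, ⟨n, Finset.mem_biUnion.2 ⟨i, hj, hn⟩, hxn⟩, ?_⟩
    by_contra hcon
    have h1 : i ≤ ((Finset.range (J + 1)).biUnion H).sup id :=
      Finset.le_sup (f := id) (Finset.mem_biUnion.2 ⟨j, Finset.mem_range.2 (by omega), hj⟩)
    have h2 : ((Finset.range (J + 1)).biUnion H).sup id + 1 ≤ i := hKk
    omega
  · intro I J hI hJ hIJ
    rw [← Finset.biUnion_biUnion, ← Finset.biUnion_biUnion]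
    set E := (I.biUnion H).biUnion G with hE
    refine ⟨iz E, hiz E, ?_⟩
    obtain ⟨j, hj⟩ := hJ
    obtain ⟨k, hk⟩ := hH.1 j
    have hEk : E ⊆ (Finset.range k).biUnion G := by
      intro x hx
      obtain ⟨i, hi, hxi⟩ := Finset.mem_biUnion.1 hx
      obtain ⟨i', hi', hii⟩ := Finset.mem_biUnion.1 hi
      exact Finset.mem_biUnion.2 ⟨i, Finset.mem_range.2 (hH.lt (hIJ i' hi' j hj) i hii k hk), hxi⟩
    obtain ⟨n, hn, hn2⟩ := hPmem k (iz E) (by
      have h1 : iz E ≤ ((Finset.range k).biUnion G).powerset.sup iz :=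
        Finset.le_sup (f := iz) (Finset.mem_powerset.2 hEk)
      exact h1.trans (le_max_right _ _))
    exact ⟨n, Finset.mem_biUnion.2 ⟨k, Finset.mem_biUnion.2 ⟨j, hj, hk⟩, hn⟩, hn2⟩

end Pool.Agent.H752R3.Mono
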