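import Pool.Agent.H752R3.MonoST1
import Pool.Agent.H752R3.MonoUG

/-!
Under `𝔲 < 𝔤`, property `(∗)` implies the Menger property.
-/

set_option autoImplicit false

namespace Pool.Agent.H752R3.Mono

open Set Filter Topology Cardinal

theorem exists_phi {X : Type*} [TopologicalSpace X] [CompletelyRegularSpace X] [Nonempty X]
    (hL : Lind X) (W : ℕ → Set X) (hW : ∀ m, IsOpen (W m)) (hmono : Monotone W)
    (hcov : ∀ x, ∃ m, x ∈ W m) :
    ∃ φ : X → ℝ, Continuous φ ∧ (∀ x, 0 ≤ φ x) ∧ ∀ M : ℕ, ∃ m, ∀ x, φ x ≤ M → x ∈ W m := by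
  classical
  have h1 : ∀ x, ∃ (m : ℕ) (f : X → unitInterval), Continuous f ∧ f x = 0 ∧
      EqOn f 1 (W m)ᶜ := by
    intro x
    obtain ⟨m, hm⟩ := hcov x
    obtain ⟨f, hf1, hf2, hf3⟩ := CompletelyRegularSpace.completely_regular x (W m)ᶜ
      (hW m).isClosed_compl (fun h => h hm)
    exact ⟨m, f, hf1, hf2, hf3⟩
  choose m f hf1 hf2 hf3 using h1
  obtain ⟨𝒟, hD1, hD2, hD3⟩ := hL (range fun x => {y | (f x y : ℝ) < 1}) (by
      rintro _ ⟨x, rfl⟩
      exact isOpen_lt (continuous_subtype_val.comp (hf1 x)) continuous_const) (by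
      rw [eq_univ_iff_forall]
      intro x
      refine ⟨_, ⟨x, rfl⟩, ?_⟩
      change (f x x : ℝ) < 1
      rw [hf2 x]
      norm_num)
  have hDne : 𝒟.Nonempty := by
    obtain ⟨d, hd, _⟩ : Classical.arbitrary X ∈ ⋃₀ 𝒟 := by rw [hD3]; trivial
    exact ⟨d, hd⟩
  obtain ⟨c, hc⟩ := hD2.exists_eq_range hDne
  have h2 : ∀ i, ∃ x, {y | (f x y : ℝ) < 1} = c i := fun i => hD1 (by rw [hc]; exact ⟨i, rfl⟩)
  choose x hx using h2
  let g : ℕ → X → ℝ := fun i y => 1 - f (x i) y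
  have hg0 : ∀ i y, 0 ≤ g i y := fun i y => sub_nonneg.2 (f (x i) y).2.2
  have hg1 : ∀ i y, g i y ≤ 1 := fun i y => by
    have := (f (x i) y).2.1
    simp only [g]
    linarith
  have hgc : ∀ i, Continuous (g i) := fun i =>
    continuous_const.sub (continuous_subtype_val.comp (hf1 (x i)))
  have hpow : ∀ i : ℕ, (0 : ℝ) < (1 / 2) ^ i := fun i => by positivity
  have hterm0 : ∀ i y, 0 ≤ (1 / 2 : ℝ) ^ i * g i y := fun i y => mul_nonneg (hpow i).le (hg0 i y)
  have hterm1 : ∀ i y, (1 / 2 : ℝ) ^ i * g i y ≤ (1 / 2) ^ i := fun i y => by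
    calc (1 / 2 : ℝ) ^ i * g i y ≤ (1 / 2) ^ i * 1 :=
          mul_le_mul_of_nonneg_left (hg1 i y) (hpow i).le
      _ = _ := mul_one _
  have hbound : ∀ i y, ‖(1 / 2 : ℝ) ^ i * g i y‖ ≤ (1 / 2) ^ i := fun i y => by
    rw [Real.norm_of_nonneg (hterm0 i y)]
    exact hterm1 i y
  have hsum : ∀ y, Summable (fun i => (1 / 2 : ℝ) ^ i * g i y) := fun y =>
    Summable.of_norm_bounded summable_geometric_two (fun i => hbound i y)
  let θ : X → ℝ := fun y => ∑' i, (1 / 2 : ℝ) ^ i * g i y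
  have hθc : Continuous θ := continuous_tsum (fun i => continuous_const.mul (hgc i))
    summable_geometric_two hbound
  have hθ : ∀ y, 0 < θ y := by
    intro y
    have hy : y ∈ ⋃₀ 𝒟 := by rw [hD3]; trivial
    rw [hc] at hy
    obtain ⟨_, ⟨i, rfl⟩, hy⟩ := hy
    rw [← hx i] at hy
    have hy' : (f (x i) y : ℝ) < 1 := hy
    refine (hsum y).tsum_pos (fun i => hterm0 i y) i ?_
    exact mul_pos (hpow i) (by simp only [g]; linarith)
  refine ⟨fun y => (θ y)⁻¹, hθc.inv₀ (fun y => (hθ y).ne'), fun y => (inv_pos.2 (hθ y)).le, ?_⟩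
  intro M
  refine ⟨(Finset.range (M + 1)).sup (fun i => m (x i)), fun y hy => ?_⟩
  by_contra hcon
  have hzero : ∀ i ∈ Finset.range (M + 1), (1 / 2 : ℝ) ^ i * g i y = 0 := by
    intro i hi
    have h3 : m (x i) ≤ (Finset.range (M + 1)).sup (fun i => m (x i)) :=
      Finset.le_sup (f := fun i => m (x i)) hi
    have h4 : y ∈ (W (m (x i)))ᶜ := fun h => hcon (hmono h3 h)
    have h5 := hf3 (x i) h4
    have h6 : (f (x i) y : ℝ) = 1 := by
      rw [h5]
      rfl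
    simp only [g, h6, sub_self, mul_zero]
  have h7 : θ y = ∑' i, (1 / 2 : ℝ) ^ (i + (M + 1)) * g (i + (M + 1)) y := by
    have h8 := (hsum y).sum_add_tsum_nat_add (M + 1)
    rw [Finset.sum_eq_zero hzero, zero_add] at h8
    exact h8.symm
  have h9 : θ y ≤ 2 * (1 / 2) ^ (M + 1) := by
    have h9a : ∑' i : ℕ, (1 / 2 : ℝ) ^ i * (1 / 2) ^ (M + 1) = 2 * (1 / 2) ^ (M + 1) := by
      rw [tsum_mul_right, tsum_geometric_two]
    rw [h7, ← h9a]
    refine Summable.tsum_le_tsum (fun i => ?_) ?_ ?_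
    · rw [← pow_add]
      exact hterm1 _ y
    · exact (summable_nat_add_iff (f := fun i => (1 / 2 : ℝ) ^ i * g i y) (M + 1)).2 (hsum y)
    · exact summable_geometric_two.mul_right _
  have h10 : (1 : ℝ) ≤ M * θ y := by
    have := mul_le_mul_of_nonneg_right hy (hθ y).le
    rwa [inv_mul_cancel₀ (hθ y).ne'] at this
  have h11 : (M : ℝ) * θ y ≤ M * (2 * (1 / 2) ^ (M + 1)) :=
    mul_le_mul_of_nonneg_left h9 (Nat.cast_nonneg M)
  have h12 : (M : ℝ) < 2 ^ M := by exact_mod_cast Nat.lt_two_pow_self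
  have h13 : (M : ℝ) * (2 * (1 / 2) ^ (M + 1)) = M / 2 ^ M := by
    rw [pow_succ, one_div, inv_pow]
    field_simp
  rw [h13] at h11
  have h14 : (M : ℝ) / 2 ^ M < 1 := (div_lt_one (by positivity)).2 h12
  linarith

theorem exists_Phi {X : Type*} [TopologicalSpace X] [CompletelyRegularSpace X] [Nonempty X]
    (hL : Lind X) (hM : ¬ MengerSp X) :
    ∃ Φ : ℕ → X → ℝ, (∀ n, Continuous (Φ n)) ∧ (∀ n x, 0 ≤ Φ n x) ∧
      (∀ x n m, n ≤ m → Φ n x ≤ Φ m x) ∧ ∀ g : ℕ → ℕ, ∃ x, ∀ n, (g n : ℝ) < Φ n x := by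
  classical
  unfold MengerSp at hM
  push Not at hM
  obtain ⟨U, hU1, hU2⟩ := hM
  have h1 : ∀ n, ∃ c : ℕ → Set X, (∀ i, c i ∈ U n) ∧ ∀ x, ∃ i, x ∈ c i := by
    intro n
    obtain ⟨𝒟, hD1, hD2, hD3⟩ := hL (U n) (hU1 n).1 (hU1 n).2
    have hDne : 𝒟.Nonempty := by
      obtain ⟨d, hd, _⟩ : Classical.arbitrary X ∈ ⋃₀ 𝒟 := by rw [hD3]; trivial
      exact ⟨d, hd⟩
    obtain ⟨c, hc⟩ := hD2.exists_eq_range hDne
    refine ⟨c, fun i => hD1 (by rw [hc]; exact ⟨i, rfl⟩), fun x => ?_⟩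
    have hx : x ∈ ⋃₀ 𝒟 := by rw [hD3]; trivial
    rw [hc] at hx
    obtain ⟨_, ⟨i, rfl⟩, hx⟩ := hx
    exact ⟨i, hx⟩
  choose c hc1 hc2 using h1
  let W : ℕ → ℕ → Set X := fun n m => {x | ∃ i ≤ m, x ∈ c n i}
  have h2 : ∀ n, ∃ φ : X → ℝ, Continuous φ ∧ (∀ x, 0 ≤ φ x) ∧
      ∀ M : ℕ, ∃ m, ∀ x, φ x ≤ M → x ∈ W n m := by
    intro n
    refine exists_phi hL (W n) ?_ ?_ ?_
    · intro m
      have : W n m = ⋃ i ∈ Iic m, c n i := by
        ext x
        simp [W]
      rw [this]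
      exact isOpen_biUnion (fun i _ => (hU1 n).1 _ (hc1 n i))
    · rintro a b hab x ⟨i, hi, hx⟩
      exact ⟨i, hi.trans hab, hx⟩
    · intro x
      obtain ⟨i, hi⟩ := hc2 n x
      exact ⟨i, i, le_rfl, hi⟩
  choose φ hφ1 hφ2 hφ3 using h2
  refine ⟨fun n x => ∑ i ∈ Finset.range (n + 1), φ i x, ?_, ?_, ?_, ?_⟩
  · intro n
    exact continuous_finsetSum _ (fun i _ => hφ1 i)
  · intro n x
    exact Finset.sum_nonneg (fun i _ => hφ2 i x)
  · intro x n m hnm
    apply Finset.sum_le_sum_of_subset_of_nonneg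
    · intro i hi
      rw [Finset.mem_range] at hi ⊢
      omega
    · intro i _ _
      exact hφ2 i x
  · intro g
    choose M hM using fun n => hφ3 n (g n)
    have h3 := hU2 (fun n => c n '' Iic (M n)) (fun n => ⟨by
      rintro _ ⟨i, _, rfl⟩
      exact hc1 n i, (finite_Iic _).image _⟩)
    obtain ⟨x, hx⟩ := (ne_univ_iff_exists_notMem _).1 h3
    refine ⟨x, fun n => ?_⟩
    have h4 : x ∉ W n (M n) := by
      rintro ⟨i, hi, hxi⟩
      exact hx (mem_iUnion.2 ⟨n, c n i, ⟨i, hi, rfl⟩, hxi⟩)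
    have h5 : (g n : ℝ) < φ n x := by
      by_contra hcon
      exact h4 (hM n x (not_lt.1 hcon))
    refine lt_of_lt_of_le h5 ?_
    exact Finset.single_le_sum (f := fun i => φ i x) (fun i _ => hφ2 i x)
      (Finset.mem_range.2 (Nat.lt_succ_self n))

theorem exists_detect {X : Type*} [TopologicalSpace X] [T1Space X] {Φ : X → ℝ}
    (hΦ : Continuous Φ) (hub : ∀ C : ℕ, ∃ x, (C : ℝ) < Φ x) (O : ℕ → Set X)
    (hO : ∀ k, IsOpen (O k)) :
    ∃ O' : ℕ → Set X, (∀ k, IsOpen (O' k)) ∧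
      (∀ k l, k < l → ∃ q, ∀ j < l, q ∈ O' j ↔ j = k) ∧
      ∀ x, {k | ¬ (x ∈ O k ↔ x ∈ O' k)}.Finite := by
  classical
  have h1 : ∀ x, ∃ y, Φ x + 2 < Φ y := by
    intro x
    obtain ⟨y, hy⟩ := hub ⌈Φ x + 2⌉₊
    exact ⟨y, lt_of_le_of_lt (Nat.le_ceil _) hy⟩
  choose nx hnx using h1
  obtain ⟨x0, _⟩ := hub 0
  let q : ℕ → X := fun n => Nat.rec (motive := fun _ => X) x0 (fun _ r => nx r) n
  have hq1 : ∀ n, Φ (q n) + 2 < Φ (q (n + 1)) := fun n => hnx (q n)
  have hq2 : ∀ i j, i < j → Φ (q i) + 2 < Φ (q j) := by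
    intro i j hij
    induction j with
    | zero => omega
    | succ j ih =>
      rcases Nat.lt_succ_iff_lt_or_eq.1 hij with h | h
      · have := ih h
        have := hq1 j
        linarith
      · subst h
        exact hq1 i
  have hq3 : ∀ i j y, |Φ (q i) - Φ y| < 1 → |Φ (q j) - Φ y| < 1 → i = j := by
    intro i j y hi hj
    rw [abs_lt] at hi hj
    rcases lt_trichotomy i j with h | h | h
    · have := hq2 i j h
      linarith [hi.1, hi.2, hj.1, hj.2]
    · exact h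
    · have := hq2 j i h
      linarith [hi.1, hi.2, hj.1, hj.2]
  have hq4 : ∀ i j, q i = q j → i = j := by
    intro i j hij
    apply hq3 i j (q i)
    · simp
    · rw [← hij]
      simp
  let N : ℕ → Set X := fun i => {y | |Φ (q i) - Φ y| < 1}
  have hN : ∀ i, IsOpen (N i) := fun i =>
    isOpen_lt (continuous_abs.comp (continuous_const.sub hΦ)) continuous_const
  have hNq : ∀ i, q i ∈ N i := fun i => by simp [N]
  have hNu : ∀ i j y, y ∈ N i → y ∈ N j → i = j := fun i j y hi hj => hq3 i j y hi hj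
  have hcl : ∀ I : Set ℕ, IsClosed (q '' I) := by
    intro I
    rw [← isOpen_compl_iff, isOpen_iff_forall_mem_open]
    intro x hx
    have hVo : IsOpen {y | |Φ x - Φ y| < 1} :=
      isOpen_lt (continuous_abs.comp (continuous_const.sub hΦ)) continuous_const
    by_cases h : ∃ i ∈ I, q i ∈ {y | |Φ x - Φ y| < 1}
    · obtain ⟨i, hi, hqi⟩ := h
      refine ⟨{y | |Φ x - Φ y| < 1} \ {q i}, ?_, hVo.sdiff isClosed_singleton, ?_, ?_⟩
      · rintro y ⟨hy1, hy2⟩ ⟨j, hj, rfl⟩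
        apply hy2
        have : j = i := by
          apply hq3 j i x
          · rw [abs_sub_comm]; exact hy1
          · rw [abs_sub_comm]; exact hqi
        rw [this]
        rfl
      · simp
      · intro hxi
        exact hx ⟨i, hi, hxi.symm⟩
    · refine ⟨{y | |Φ x - Φ y| < 1}, ?_, hVo, by simp⟩
      rintro y hy ⟨j, hj, rfl⟩
      exact h ⟨j, hj, hy⟩
  refine ⟨fun k => (O k \ q '' {i | k < (Nat.unpair i).2}) ∪
    ⋃ i ∈ {i | (Nat.unpair i).1 = k ∧ k < (Nat.unpair i).2}, N i, ?_, ?_, ?_⟩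
  · intro k
    exact ((hO k).sdiff (hcl _)).union (isOpen_biUnion (fun i _ => hN i))
  · intro k l hkl
    refine ⟨q (Nat.pair k l), fun j hj => ⟨?_, ?_⟩⟩
    · rintro (h | h)
      · exfalso
        apply h.2
        refine ⟨Nat.pair k l, ?_, rfl⟩
        change j < (Nat.unpair (Nat.pair k l)).2
        rw [Nat.unpair_pair]
        exact hj
      · obtain ⟨i, hi, hqi⟩ := mem_iUnion₂.1 h
        have h2 := hNu _ _ _ hqi (hNq _)
        rw [h2] at hi
        have h3 : (Nat.unpair (Nat.pair k l)).1 = j := hi.1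
        rw [Nat.unpair_pair] at h3
        exact h3.symm
    · rintro rfl
      right
      refine mem_iUnion₂.2 ⟨Nat.pair j l, ?_, hNq _⟩
      change (Nat.unpair (Nat.pair j l)).1 = j ∧ j < (Nat.unpair (Nat.pair j l)).2
      rw [Nat.unpair_pair]
      exact ⟨rfl, hj⟩
  · intro x
    have hfin1 : {k | ∃ i, x = q i ∧ k < (Nat.unpair i).2}.Finite := by
      by_cases h : ∃ i, x = q i
      · obtain ⟨i, hi⟩ := h
        apply (finite_Iio (Nat.unpair i).2).subset
        rintro k ⟨j, hj, hk⟩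
        have : j = i := hq4 _ _ (hj.symm.trans hi)
        rw [← this]
        exact hk
      · apply finite_empty.subset
        rintro k ⟨j, hj, _⟩
        exact h ⟨j, hj⟩
    have hfin2 : {k | ∃ i, x ∈ N i ∧ (Nat.unpair i).1 = k}.Finite := by
      by_cases h : ∃ i, x ∈ N i
      · obtain ⟨i, hi⟩ := h
        apply (finite_singleton (Nat.unpair i).1).subset
        rintro k ⟨j, hj, hk⟩
        have : j = i := hNu _ _ _ hj hi
        rw [← this]
        exact hk.symm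
      · apply finite_empty.subset
        rintro k ⟨j, hj, _⟩
        exact h ⟨j, hj⟩
    apply (hfin1.union hfin2).subset
    intro k hk
    by_contra hcon
    simp only [mem_union, not_or] at hcon
    apply hk
    constructor
    · intro hx
      left
      refine ⟨hx, ?_⟩
      rintro ⟨i, hi, rfl⟩
      exact hcon.1 ⟨i, rfl, hi⟩
    · rintro (h | h)
      · exact h.1
      · exfalso
        obtain ⟨i, hi, hxi⟩ := mem_iUnion₂.1 h
        exact hcon.2 ⟨i, hxi, hi.1⟩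

/-- Under `𝔲 < 𝔤`, every Tychonoff space with the property `(∗)` is Menger. -/
theorem menger_of_star {X : Type*} [TopologicalSpace X] [T1Space X] [CompletelyRegularSpace X]
    (hug : uNumber < gNumber) (hs : Star X) : MengerSp X := by
  classical
  by_contra hM
  have hne : Nonempty X := by
    by_contra hcon
    rw [not_nonempty_iff] at hcon
    apply hM
    intro U _
    refine ⟨fun _ => ∅, fun n => ⟨empty_subset _, finite_empty⟩, ?_⟩
    rw [eq_univ_iff_forall]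
    intro x
    exact hcon.elim x
  obtain ⟨Φ, hΦ1, hΦ2, hΦ3, hΦ4⟩ := exists_Phi (lind_of_star hs) hM
  let O : ℕ → Set X := fun k => {x | |Φ (Nat.unpair k).1 x - (Nat.unpair k).2| < 1}
  have hO : ∀ k, IsOpen (O k) := fun k =>
    isOpen_lt (continuous_abs.comp ((hΦ1 _).sub continuous_const)) continuous_const
  have hpair : ∀ n m x, x ∈ O (Nat.pair n m) ↔ |Φ n x - m| < 1 := by
    intro n m x
    simp only [O, Nat.unpair_pair, mem_ofPred_eq]
  obtain ⟨O', hO'1, hO'2, hO'3⟩ := exists_detect (hΦ1 0) (fun C => by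
    obtain ⟨x, hx⟩ := hΦ4 (fun _ => C)
    exact ⟨x, hx 0⟩) O hO
  have hOinf : ∀ x, {k | x ∈ O k}.Infinite := by
    intro x
    apply infinite_of_injective_forall_mem (f := fun n => Nat.pair n ⌊Φ n x⌋₊)
    · intro a b hab
      exact (Nat.pair_eq_pair.1 hab).1
    · intro n
      change x ∈ O (Nat.pair n ⌊Φ n x⌋₊)
      rw [hpair]
      have h1 := Nat.floor_le (hΦ2 n x)
      have h2 := Nat.lt_floor_add_one (Φ n x)
      rw [abs_lt]
      constructor <;> linarith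
  have htr : ∀ (D : Set ℕ) (x : X), {k | k ∈ D ∧ x ∈ O' k}.Infinite →
      {k | k ∈ D ∧ x ∈ O k}.Infinite := by
    intro D x h
    apply (h.sdiff (hO'3 x)).mono
    rintro k ⟨⟨h1, h2⟩, h3⟩
    refine ⟨h1, ?_⟩
    by_contra hcon
    exact h3 (fun h4 => hcon (h4.2 h2))
  have htr' : ∀ x, {k | x ∈ O' k}.Infinite := by
    intro x
    apply ((hOinf x).sdiff (hO'3 x)).mono
    rintro k ⟨h1, h3⟩
    by_contra hcon
    exact h3 (fun h4 => hcon (h4.1 h1))
  obtain ⟨U, ℬ, hU, hℬ⟩ := exists_base_of_lt hug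
  obtain ⟨z, hz, hzY⟩ := exists_partition hU hℬ (Y := range fun x => {k | x ∈ O k}) (by
    intro h hh
    let bl : ℕ → ℕ := fun k => Nat.findGreatest (fun n => h n ≤ k) k
    have hblfin : ∀ n, {k | bl k ≤ n}.Finite := by
      intro n
      apply (finite_Iio (h (n + 1))).subset
      intro k hk
      by_contra hcon
      have hcon' : h (n + 1) ≤ k := not_lt.1 hcon
      have h1 := hh.id_le (n + 1)
      simp only [id_eq] at h1
      have h2 : n + 1 ≤ bl k := Nat.le_findGreatest (h1.trans hcon') hcon'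
      have h3 : bl k ≤ n := hk
      omega
    have hbl : ∀ n k, h n ≤ k → k < h (n + 1) → bl k = n := by
      intro n k h1 h2
      apply le_antisymm
      · by_contra hcon
        push Not at hcon
        have h3 : h (bl k) ≤ k := by
          have := Nat.findGreatest_of_ne_zero (P := fun n => h n ≤ k) (n := k) (m := bl k) rfl
            (by omega)
          exact this
        have h4 : h (n + 1) ≤ h (bl k) := hh.monotone (by omega)
        omega
      · have h3 := hh.id_le n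
        simp only [id_eq] at h3
        exact Nat.le_findGreatest (h3.trans h1) h1
    obtain ⟨D, hD1, hD2⟩ := exists_gaps hs hO'1 htr' hO'2 bl hblfin
    refine ⟨{n | n ∉ bl '' D}, hD1, ?_⟩
    rintro _ ⟨x, rfl⟩
    apply (htr D x (hD2 x)).mono
    rintro k ⟨hk1, hk2⟩
    refine ⟨hk2, fun hk3 => ?_⟩
    obtain ⟨n, hn, hk4, hk5⟩ := mem_iUnion₂.1 hk3
    exact hn ⟨k, hk1, hbl n k hk4 hk5⟩)
  have hBinf : ∀ B ∈ ℬ, B.Infinite := by
    intro B hB hfin
    have h1 : B ∈ U := (hU.2 B).2 ⟨B, hB, subset_rfl⟩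
    have h2 : Bᶜ ∈ U := hU.1 (mem_cofinite.2 (by rwa [compl_compl]))
    exact Ultrafilter.compl_notMem_iff.2 h1 h2
  have hℬne : Nonempty ℬ := by
    obtain ⟨B0, hB0, -⟩ := (hU.2 univ).1 univ_mem
    exact ⟨⟨B0, hB0⟩⟩
  have h1 : ∀ B : ℬ, ∃ K : ℕ → ℕ, ∀ c, ∀ y : Set ℕ, (∀ b ∈ (B : Set ℕ), ∃ n,
      (z n ≤ b ∧ b < z (n + 1)) ∧ ∃ k ∈ y, z n ≤ k ∧ k < z (n + 1)) →
      ∃ s : Finset ℕ, s.card = c ∧ ∀ k ∈ s, k ∈ y ∧ k < K c := fun B =>
    exists_bound hz (hBinf B B.2)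
  choose K hK using h1
  obtain ⟨g, hg⟩ := exists_undominated hℬ (fun (B : ℬ) n => K B (2 * n + 1))
  obtain ⟨x, hx⟩ := hΦ4 g
  obtain ⟨B, hB, hBx⟩ := hzY _ ⟨x, rfl⟩
  obtain ⟨n, hn⟩ := hg ⟨B, hB⟩
  obtain ⟨s, hs1, hs2⟩ := hK ⟨B, hB⟩ (2 * n + 1) _ hBx
  -- some member of `s` is on a level at least `n`
  have h2 : ∃ k ∈ s, n ≤ (Nat.unpair k).1 := by
    by_contra hcon
    push Not at hcon
    have h3 : s ⊆ (Finset.range n ×ˢ Finset.range 2).image
        (fun p => Nat.pair p.1 (⌊Φ p.1 x⌋₊ + p.2)) := by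
      intro k hk
      have h4 := (hs2 k hk).1
      have h4' : |Φ (Nat.unpair k).1 x - (Nat.unpair k).2| < 1 := h4
      rw [abs_lt] at h4'
      have h5 : (Nat.unpair k).2 ≤ ⌊Φ (Nat.unpair k).1 x⌋₊ + 1 := by
        have h6 : ((Nat.unpair k).2 : ℝ) < ⌊Φ (Nat.unpair k).1 x⌋₊ + 2 := by
          have := Nat.lt_floor_add_one (Φ (Nat.unpair k).1 x)
          linarith [h4'.1]
        have h7 : (Nat.unpair k).2 < ⌊Φ (Nat.unpair k).1 x⌋₊ + 2 := by exact_mod_cast h6
        omega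
      have h6 : ⌊Φ (Nat.unpair k).1 x⌋₊ ≤ (Nat.unpair k).2 := by
        have h7 : (⌊Φ (Nat.unpair k).1 x⌋₊ : ℝ) < (Nat.unpair k).2 + 1 := by
          have := Nat.floor_le (hΦ2 (Nat.unpair k).1 x)
          linarith [h4'.2]
        have h8 : ⌊Φ (Nat.unpair k).1 x⌋₊ < (Nat.unpair k).2 + 1 := by exact_mod_cast h7
        omega
      rw [Finset.mem_image]
      refine ⟨((Nat.unpair k).1, (Nat.unpair k).2 - ⌊Φ (Nat.unpair k).1 x⌋₊), ?_, ?_⟩
      · rw [Finset.mem_product, Finset.mem_range, Finset.mem_range]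
        refine ⟨hcon k hk, ?_⟩
        change (Nat.unpair k).2 - ⌊Φ (Nat.unpair k).1 x⌋₊ < 2
        omega
      · change Nat.pair (Nat.unpair k).1 (⌊Φ (Nat.unpair k).1 x⌋₊ +
          ((Nat.unpair k).2 - ⌊Φ (Nat.unpair k).1 x⌋₊)) = k
        rw [Nat.add_sub_cancel' h6, Nat.pair_unpair]
    have h4 := (Finset.card_le_card h3).trans Finset.card_image_le
    rw [Finset.card_product, Finset.card_range, Finset.card_range, hs1] at h4
    omega
  obtain ⟨k, hk, hnk⟩ := h2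
  have h3 := hs2 k hk
  have h4 : |Φ (Nat.unpair k).1 x - (Nat.unpair k).2| < 1 := h3.1
  rw [abs_lt] at h4
  have h5 : (Nat.unpair k).2 ≤ k := Nat.unpair_right_le k
  have h6 := hΦ3 x n _ hnk
  have h7 := hx n
  have h8 : (g n : ℝ) < (k : ℝ) + 1 := by
    have h9 : ((Nat.unpair k).2 : ℝ) ≤ k := by exact_mod_cast h5
    linarith [h4.2]
  have h9 : g n < k + 1 := by exact_mod_cast h8
  have h10 : k < K ⟨B, hB⟩ (2 * n + 1) := h3.2
  have h11 : K ⟨B, hB⟩ (2 * n + 1) ≤ g n := hn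
  omega

end Pool.Agent.H752R3.Mono
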