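import Pool.Agent.H752R3.MonoSel
import Pool.Agent.H752R3.Recursion
import Pool.Agent.H752R3.Bits
import Pool.Agent.H752R3.LuzinBasics

/-!
Under CH: a dominating tower all of whose large covers have monochromatic sumgraphs.
-/

set_option autoImplicit false

namespace Pool.Agent.H752R3.Mono

open Set Filter Cardinal

/-- conditions: an infinite set and a countable set of points -/
structure Cond where
  B : Set ℕ
  A : Set (ℕ → Bool)
  hB : B.Infinite
  hA : A.Countable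
  hAi : ∀ x ∈ A, Infi x

/-- extension of conditions -/
def Cond.le (q p : Cond) : Prop :=
  (q.B \ p.B).Finite ∧ p.A ⊆ q.A ∧ ∀ x ∈ q.A, x ∉ p.A → Alm x p.B

theorem Alm.mono {x : ℕ → Bool} {B B' : Set ℕ} (h : Alm x B) (hf : (B \ B').Finite) :
    Alm x B' := by
  obtain ⟨N, hN⟩ := h
  obtain ⟨M, hM⟩ := hf.bddAbove
  refine ⟨max N (M + 1), fun b hb hx => ?_⟩
  have h1 := le_max_left N (M + 1)
  have h2 := le_max_right N (M + 1)
  by_contra hcon
  have h3 : b ≤ M := hM ⟨hN b (by omega) hx, hcon⟩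
  omega

theorem Cond.le_refl (p : Cond) : p.le p :=
  ⟨by simp, subset_rfl, fun _ h h' => absurd h h'⟩

theorem diff_finite_trans {A B C : Set ℕ} (h : (A \ B).Finite) (h' : (B \ C).Finite) :
    (A \ C).Finite := by
  apply (h.union h').subset
  rintro x ⟨h1, h2⟩
  by_cases h3 : x ∈ B
  · exact Or.inr ⟨h3, h2⟩
  · exact Or.inl ⟨h1, h3⟩

theorem Cond.le_trans (p q r : Cond) (h : p.le q) (h' : q.le r) : p.le r := by
  refine ⟨diff_finite_trans h.1 h'.1, h'.2.1.trans h.2.1, fun x hx hxr => ?_⟩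
  by_cases h1 : x ∈ q.A
  · exact h'.2.2 x h1 hxr
  · exact (h.2.2 x hx h1).mono h'.1

/-- pseudo-intersections -/
theorem exists_pseudo {B : ℕ → Set ℕ} (hB : ∀ n, (B n).Infinite)
    (hd : ∀ n, (B (n + 1) \ B n).Finite) : ∃ C : Set ℕ, C.Infinite ∧ ∀ n, (C \ B n).Finite := by
  classical
  have hd' : ∀ m n, m ≤ n → (B n \ B m).Finite := by
    intro m n hmn
    induction n, hmn using Nat.le_induction with
    | base => simp
    | succ n _ ih => exact diff_finite_trans (hd n) ih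
  have hne : ∀ n M, ∃ b, M < b ∧ ∀ i ≤ n, b ∈ B i := by
    intro n M
    have h1 : (⋃ i ∈ Finset.range (n + 1), (B n \ B i)).Finite :=
      Set.Finite.biUnion (Finset.finite_toSet _) (fun i hi => hd' i n (by
        have := Finset.mem_range.1 (Finset.mem_coe.1 hi)
        omega))
    obtain ⟨b, hb, hMb⟩ := ((hB n).sdiff h1).exists_gt M
    refine ⟨b, hMb, fun i hi => ?_⟩
    by_contra hcon
    exact hb.2 (mem_biUnion (Finset.mem_coe.2 (Finset.mem_range.2 (by omega))) ⟨hb.1, hcon⟩)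
  choose f hf1 hf2 using hne
  let c : ℕ → ℕ := fun k => Nat.rec (motive := fun _ => ℕ) (f 0 0) (fun j v => f (j + 1) v) k
  have hc1 : ∀ k, c (k + 1) = f (k + 1) (c k) := fun k => rfl
  have hmono : StrictMono c := strictMono_nat_of_lt_succ (fun k => by rw [hc1]; exact hf1 _ _)
  have hcB : ∀ k, ∀ i ≤ k, c k ∈ B i := by
    intro k
    cases k with
    | zero => exact hf2 0 0
    | succ k => rw [hc1]; exact hf2 _ _
  refine ⟨range c, infinite_range_of_injective hmono.injective, fun n => ?_⟩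
  apply ((finite_lt_nat n).image c).subset
  rintro _ ⟨⟨k, rfl⟩, hk⟩
  refine ⟨k, ?_, rfl⟩
  by_contra hcon
  exact hk (hcB k n (not_lt.1 hcon))

theorem Cond.exists_lower (p : ℕ → Cond) (hp : ∀ n, (p (n + 1)).le (p n)) :
    ∃ q : Cond, ∀ n, q.le (p n) := by
  have hle : ∀ m n, m ≤ n → (p n).le (p m) := by
    intro m n hmn
    induction n, hmn using Nat.le_induction with
    | base => exact Cond.le_refl _
    | succ n _ ih => exact Cond.le_trans _ _ _ (hp n) ih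
  obtain ⟨C, hC, hCB⟩ := exists_pseudo (fun n => (p n).hB) (fun n => (hp n).1)
  refine ⟨⟨C, ⋃ n, (p n).A, hC, countable_iUnion (fun n => (p n).hA), ?_⟩, fun n => ?_⟩
  · intro x hx
    obtain ⟨n, hn⟩ := mem_iUnion.1 hx
    exact (p n).hAi x hn
  · refine ⟨hCB n, subset_iUnion (fun n => (p n).A) n, fun x hx hxn => ?_⟩
    obtain ⟨m, hm⟩ := mem_iUnion.1 hx
    rcases le_total m n with h | h
    · exact absurd ((hle m n h).2.1 hm) hxn
    · exact (hle n m h).2.2 x hm hxn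

/-- the open set coded by a set of finite sequences -/
def opn (S : Set (List Bool)) : Set (ℕ → Bool) := {x | ∃ l ∈ S, x ∈ CylB l}

theorem isOpen_opn (S : Set (List Bool)) : IsOpen (opn S) := by
  have : opn S = ⋃ l ∈ S, CylB l := by
    ext x
    simp [opn]
  rw [this]
  exact isOpen_biUnion fun l _ => isOpen_CylB l

theorem opn_of_isOpen {O : Set (ℕ → Bool)} (hO : IsOpen O) : opn {l | CylB l ⊆ O} = O := by
  ext x
  constructor
  · rintro ⟨l, hl, hx⟩
    exact hl hx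
  · intro hx
    obtain ⟨n, _, hn⟩ := exists_agree hO hx 0
    refine ⟨(List.range n).map x, ?_, ?_⟩
    · intro y hy
      apply hn
      intro i hi
      have h1 := hy i (by simpa using hi)
      rw [h1]
      simp [List.getD_eq_getElem?_getD, hi]
    · intro i hi
      have hi' : i < n := by simpa using hi
      simp [List.getD_eq_getElem?_getD, hi']

/-- tasks -/
abbrev Task := (ℕ → ℕ) × (ℕ → Set (List Bool)) × (Finset ℕ → Finset ℕ → ℕ) × ℕ

/-- solutions of a task for the set `X` of points -/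
def Sol (t : Task) (X : Set (ℕ → Bool)) (G : ℕ → Finset ℕ) : Prop :=
  (∀ k, (G k).Nonempty) ∧ (∀ i j, i < j → ∀ m ∈ G i, ∀ n ∈ G j, m < n) ∧
  (∃ col, ∀ I J : Finset ℕ, I.Nonempty → J.Nonempty → (∀ i ∈ I, ∀ j ∈ J, i < j) →
    t.2.2.1 (I.biUnion G) (J.biUnion G) % (t.2.2.2 + 1) = col) ∧
  (∀ x ∈ X, {k | ∃ n ∈ G k, x ∈ opn (t.2.1 n)}.Infinite) ∧
  ∀ I J : Finset ℕ, I.Nonempty → J.Nonempty → (∀ i ∈ I, ∀ j ∈ J, i < j) →
    ∃ x ∈ X, (∀ n ∈ I.biUnion G, x ∉ opn (t.2.1 n)) ∧ ∃ n ∈ J.biUnion G, x ∈ opn (t.2.1 n)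

/-- the requirement -/
def Req (t : Task) (p : Cond) : Prop :=
  (∃ x ∈ p.A, ∀ n, cnt (t.1 n) x ≤ n) ∧
  ((∃ x ∈ p.A, {n | x ∈ opn (t.2.1 n)}.Finite) ∨
    (∃ G, Sol t p.A G ∧ ∀ x, Infi x → Alm x p.B →
      {k | ∃ n ∈ G k, x ∈ opn (t.2.1 n)}.Infinite) ∨
    ∀ q : Cond, q.le p → ∃ E : Finset ℕ, ∀ x ∈ q.A, ∃ n ∈ E, x ∈ opn (t.2.1 n))

theorem exists_sparse {B : Set ℕ} (hB : B.Infinite) (g : ℕ → ℕ) :
    ∃ x : ℕ → Bool, Infi x ∧ (∀ b, x b = true → b ∈ B) ∧ ∀ n, cnt (g n) x ≤ n := by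
  classical
  have hne : ∀ M, ∃ b, M < b ∧ b ∈ B := by
    intro M
    obtain ⟨b, hb, hMb⟩ := hB.exists_gt M
    exact ⟨b, hMb, hb⟩
  choose f hf1 hf2 using hne
  let c : ℕ → ℕ := fun k => Nat.rec (motive := fun _ => ℕ) (f (g 0))
    (fun j v => f (max v ((Finset.range (j + 2)).sup g))) k
  have hc1 : ∀ k, c (k + 1) = f (max (c k) ((Finset.range (k + 2)).sup g)) := fun k => rfl
  have hmono : StrictMono c := by
    apply strictMono_nat_of_lt_succ
    intro k
    rw [hc1]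
    exact lt_of_le_of_lt (le_max_left _ _) (hf1 _)
  have hcB : ∀ k, c k ∈ B := by
    intro k
    cases k with
    | zero => exact hf2 _
    | succ k => rw [hc1]; exact hf2 _
  have hcg : ∀ k, ∀ i ≤ k, g i < c k := by
    intro k
    cases k with
    | zero =>
      intro i hi
      have : i = 0 := by omega
      rw [this]
      exact hf1 _
    | succ k =>
      intro i hi
      rw [hc1]
      refine lt_of_le_of_lt (le_trans ?_ (le_max_right _ _)) (hf1 _)
      exact Finset.le_sup (f := g) (Finset.mem_range.2 (by omega))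
  refine ⟨fun i => decide (i ∈ range c), ?_, ?_, ?_⟩
  · have : {i | decide (i ∈ range c) = true} = range c := by
      ext i
      simp
    unfold Infi
    rw [this]
    exact infinite_range_of_injective hmono.injective
  · intro b hb
    rw [decide_eq_true_eq] at hb
    obtain ⟨k, rfl⟩ := hb
    exact hcB k
  · intro n
    unfold cnt
    rw [← Finset.card_filter]
    have : (Finset.range (g n)).filter (fun i => decide (i ∈ range c) = true) ⊆
        (Finset.range n).image c := by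
      intro i hi
      obtain ⟨h1, h2⟩ := Finset.mem_filter.1 hi
      rw [decide_eq_true_eq] at h2
      obtain ⟨k, rfl⟩ := h2
      refine Finset.mem_image.2 ⟨k, Finset.mem_range.2 ?_, rfl⟩
      by_contra hcon
      have h3 := hcg k n (not_lt.1 hcon)
      have h4 := Finset.mem_range.1 h1
      omega
    calc _ ≤ _ := Finset.card_le_card this
      _ ≤ _ := Finset.card_image_le
      _ = n := Finset.card_range n

theorem Cond.add_point (p : Cond) {x : ℕ → Bool} (hx : Infi x) (hxB : Alm x p.B) :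
    ∃ q : Cond, q.le p ∧ q.B = p.B ∧ x ∈ q.A := by
  refine ⟨⟨p.B, insert x p.A, p.hB, p.hA.insert x, ?_⟩, ⟨by simp, subset_insert _ _, ?_⟩, rfl,
    mem_insert _ _⟩
  · rintro y (rfl | hy)
    · exact hx
    · exact p.hAi y hy
  · rintro y (rfl | hy) hyA
    · exact hxB
    · exact absurd hy hyA

theorem exists_req (t : Task) (p : Cond) : ∃ q : Cond, q.le p ∧ Req t q := by
  classical
  obtain ⟨x0, hx0, hx0B, hx0g⟩ := exists_sparse p.hB t.1
  obtain ⟨q1, hq1, hq1B, hq1A⟩ := p.add_point hx0 ⟨0, fun b _ h => hx0B b h⟩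
  by_cases h3 : ∀ q : Cond, q.le q1 → ∃ E : Finset ℕ, ∀ x ∈ q.A, ∃ n ∈ E, x ∈ opn (t.2.1 n)
  · exact ⟨q1, hq1, ⟨x0, hq1A, hx0g⟩, Or.inr (Or.inr h3)⟩
  · push Not at h3
    obtain ⟨q2, hq2, hE⟩ := h3
    by_cases h1 : ∃ x ∈ q2.A, {n | x ∈ opn (t.2.1 n)}.Finite
    · exact ⟨q2, Cond.le_trans _ _ _ hq2 hq1, ⟨x0, hq2.2.1 hq1A, hx0g⟩, Or.inl h1⟩
    · by_cases h2 : ∃ x, Infi x ∧ Alm x q2.B ∧ {n | x ∈ opn (t.2.1 n)}.Finite
      · obtain ⟨x, hx1, hx2, hx3⟩ := h2
        obtain ⟨q3, hq3, _, hq3A⟩ := q2.add_point hx1 hx2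
        exact ⟨q3, Cond.le_trans _ _ _ hq3 (Cond.le_trans _ _ _ hq2 hq1),
          ⟨x0, hq3.2.1 (hq2.2.1 hq1A), hx0g⟩, Or.inl ⟨x, hq3A, hx3⟩⟩
      · push Not at h1 h2
        obtain ⟨a, ha⟩ := q2.hA.exists_eq_range ⟨x0, hq2.2.1 hq1A⟩
        have haA : ∀ i, a i ∈ q2.A := fun i => by rw [ha]; exact mem_range_self i
        obtain ⟨B', G, hB'B, hB', hG1, hG2, ⟨col, hcol⟩, hG3, hG4, hG5⟩ :=
          exists_mono (κ := Fin (t.2.2.2 + 1)) q2.hB (fun n => isOpen_opn (t.2.1 n))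
            (fun x hx hxB => h2 x hx hxB) a (fun i => h1 _ (haA i)) (by
              intro E
              obtain ⟨x, hx, hxE⟩ := hE E
              rw [ha] at hx
              obtain ⟨i, rfl⟩ := hx
              exact ⟨i, hxE⟩) (fun I J => ⟨t.2.2.1 I J % (t.2.2.2 + 1), Nat.mod_lt _ (Nat.succ_pos _)⟩)
        refine ⟨⟨B', q2.A, hB', q2.hA, q2.hAi⟩, Cond.le_trans _ q2 _
          ⟨?_, subset_rfl, fun _ h h' => absurd h h'⟩ (Cond.le_trans _ _ _ hq2 hq1),
          ⟨x0, hq2.2.1 hq1A, hx0g⟩, Or.inr (Or.inl ⟨G, ⟨hG1, hG2, ⟨col.1, ?_⟩, ?_, ?_⟩, ?_⟩)⟩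
        · have : B' \ q2.B = ∅ := sdiff_eq_empty.2 hB'B
          change (B' \ q2.B).Finite
          rw [this]
          exact finite_empty
        · intro I J hI hJ hIJ
          have := congrArg Fin.val (hcol I J hI hJ hIJ)
          exact this
        · intro x hx
          change x ∈ q2.A at hx
          rw [ha] at hx
          obtain ⟨i, rfl⟩ := hx
          exact hG3 i
        · intro I J hI hJ hIJ
          obtain ⟨i, hi1, hi2⟩ := hG5 I J hI hJ hIJ
          exact ⟨a i, haA i, hi1, hi2⟩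
        · exact hG4

theorem not_countable_omega1 : ¬ (Set.univ : Set (ℵ₁ : Cardinal.{0}).ord.ToType).Countable := by
  intro h
  have h1 : #((ℵ₁ : Cardinal.{0}).ord.ToType) = ℵ₁ := Cardinal.mk_ord_toType _
  have h2 : #((ℵ₁ : Cardinal.{0}).ord.ToType) ≤ ℵ₀ := by
    rw [Cardinal.mk_le_aleph0_iff]
    exact Set.countable_univ_iff.1 h
  rw [h1] at h2
  exact absurd h2 (not_le.2 Cardinal.aleph0_lt_aleph_one)

theorem exists_bound_omega1 {J : Type} [Countable J] (s : J → (ℵ₁ : Cardinal.{0}).ord.ToType) :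
    ∃ a, ∀ j, s j ≤ a := by
  by_contra hcon
  push Not at hcon
  apply not_countable_omega1
  have : (Set.univ : Set (ℵ₁ : Cardinal.{0}).ord.ToType) ⊆ ⋃ j, Set.Iio (s j) := by
    intro a _
    obtain ⟨j, hj⟩ := hcon a
    exact mem_iUnion.2 ⟨j, hj⟩
  exact (countable_iUnion (fun j => countable_Iio_omega1 (s j))).mono this

/-- The set of points. -/
theorem exists_set (CH : (ℵ₁ : Cardinal.{0}) = 𝔠) :
    ∃ X : Set (ℕ → Bool), (∀ x ∈ X, Infi x) ∧ (∀ g : ℕ → ℕ, ∃ x ∈ X, ∀ n, cnt (g n) x ≤ n) ∧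
      ∀ t : Task, (∃ x ∈ X, {n | x ∈ opn (t.2.1 n)}.Finite) ∨
        (∃ E : Finset ℕ, ∀ x ∈ X, ∃ n ∈ E, x ∈ opn (t.2.1 n)) ∨ ∃ G, Sol t X G := by
  have hcard : #Task ≤ 𝔠 := by
    have h1 : #(ℕ → ℕ) = 𝔠 := by simp
    have h2 : #(ℕ → Set (List Bool)) = 𝔠 := by
      have h3 : #(List Bool) = ℵ₀ := by simp
      rw [← Cardinal.power_def, Cardinal.mk_set, h3]
      simp
    have h4 : #(Finset ℕ → Finset ℕ → ℕ) = 𝔠 := by
      have h5 : #(Finset ℕ) = ℵ₀ := by simp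
      rw [← Cardinal.power_def, ← Cardinal.power_def, h5]
      simp
    have h6 : #Task = #(ℕ → ℕ) * (#(ℕ → Set (List Bool)) * (#(Finset ℕ → Finset ℕ → ℕ) * #ℕ)) := by
      simp only [Task, Cardinal.mk_prod, Cardinal.lift_id]
    rw [h6, h1, h2, h4]
    simp
  obtain ⟨τ, hτ⟩ := exists_surjection_omega1 CH hcard
  have hne : Nonempty Cond := ⟨⟨Set.univ, ∅, Set.infinite_univ, countable_empty,
    fun _ h => absurd h (notMem_empty _)⟩⟩
  obtain ⟨F, hF1, hF2⟩ := sigma_closed_recursion (ι := (ℵ₁ : Cardinal.{0}).ord.ToType)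
    countable_Iio_omega1 Cond.le Cond.le_refl Cond.le_trans Cond.exists_lower
    (fun a p => Req (τ a) p) (fun a p => exists_req (τ a) p)
  have hmono : ∀ a b, a ≤ b → (F a).A ⊆ (F b).A := fun a b h => (hF1 a b h).2.1
  refine ⟨⋃ a, (F a).A, ?_, ?_, ?_⟩
  · intro x hx
    obtain ⟨a, ha⟩ := mem_iUnion.1 hx
    exact (F a).hAi x ha
  · intro g
    obtain ⟨a, ha⟩ := hτ (g, fun _ => ∅, fun _ _ => 0, 0)
    obtain ⟨x, hx, hxg⟩ := (hF2 a).1
    rw [ha] at hxg
    exact ⟨x, mem_iUnion.2 ⟨a, hx⟩, hxg⟩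
  · intro t
    obtain ⟨a, rfl⟩ := hτ t
    rcases (hF2 a).2 with h | h | h
    · obtain ⟨x, hx, hxf⟩ := h
      exact Or.inl ⟨x, mem_iUnion.2 ⟨a, hx⟩, hxf⟩
    · obtain ⟨G, ⟨h1, h2, h3, h4, h5⟩, h6⟩ := h
      refine Or.inr (Or.inr ⟨G, h1, h2, h3, ?_, ?_⟩)
      · intro x hx
        by_cases hxa : x ∈ (F a).A
        · exact h4 x hxa
        · obtain ⟨b, hb⟩ := mem_iUnion.1 hx
          rcases le_total b a with hba | hab
          · exact absurd (hmono b a hba hb) hxa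
          · exact h6 x ((F b).hAi x hb) ((hF1 a b hab).2.2 x hb hxa)
      · intro I J hI hJ hIJ
        obtain ⟨x, hx, hx2⟩ := h5 I J hI hJ hIJ
        exact ⟨x, mem_iUnion.2 ⟨a, hx⟩, hx2⟩
    · right; left
      by_contra hcon
      push Not at hcon
      choose x hx hxE using hcon
      have hs : ∀ E, ∃ b, x E ∈ (F b).A := fun E => mem_iUnion.1 (hx E)
      choose s hs using hs
      obtain ⟨b, hb⟩ := exists_bound_omega1 (fun o : Option (Finset ℕ) => o.elim a s)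
      have hab : a ≤ b := hb none
      obtain ⟨E, hE⟩ := h (F b) (hF1 a b hab)
      have hsb : s E ≤ b := hb (some E)
      obtain ⟨n, hn, hxn⟩ := hE (x E) (hmono _ _ hsb (hs E))
      exact hxE E n hn hxn

end Pool.Agent.H752R3.Mono
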