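import Pool.Agent.H328R3.SFin

/-!
The block tower is not bounded.
-/

set_option autoImplicit false
set_option linter.all false

namespace Pool.Agent.H752R3.Pairs

open Set Filter Topology Pool.Agent.Helper185.Silver Pool.Agent.Helper185.Sel
  Pool.Agent.Helper185.Blk Pool.Agent.Helper971.SqR

section

variable {I : Type} [LinearOrder I] [WellFoundedLT I]
variable {B : I → Set ℕ} {O : I → ℕ → Set (Set ℕ)} {p : I → ℕ → Finset ℕ}

/-- no sequence of intervals is met by all points -/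
theorem not_bounded (hp : ∀ i, Req B O i (fun j _ => p j) (p i))
    (hall : ∀ (C : Set ℕ) (W : ℕ → Set (Set ℕ)), (∀ n, Op (W n)) → ∃ i, B i = C ∧ O i = W)
    (a b : ℕ → ℕ) (hab : ∀ k, k ≤ a k) (hmono : StrictMono a)
    (h : ∀ x : XT p, ∃ k0, ∀ k, k0 ≤ k → ∃ n ∈ supp x, a k ≤ n ∧ n ≤ b k) : False := by
  classical
  let W : ℕ → Set (Set ℕ) := fun k => {A | ∃ n ∈ A, a k ≤ n ∧ n ≤ b k}
  have hW : ∀ n, Op (W n) := by
    rintro k A ⟨n, hn, h1, h2⟩
    exact ⟨n + 1, fun B hB => ⟨n, (hB n (Nat.lt_succ_self n)).2 hn, h1, h2⟩⟩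
  have hA : ∀ A : Set ℕ, (∃ j, EqS A (UU (p j) univ)) → ∃ k0, ∀ k, k0 ≤ k → A ∈ W k := by
    rintro A ⟨j, hj⟩
    obtain ⟨k0, hk0⟩ := h ⟨ch A, ch_mem p j hj⟩
    refine ⟨k0, fun k hk => ?_⟩
    have h1 := hk0 k hk
    change ∃ n ∈ supp (ch A), _ at h1
    rw [supp_ch] at h1
    exact h1
  obtain ⟨i, -, hi⟩ := hall ∅ W hW
  rcases (hp i).2.2.2 with ⟨F, hF, hFX, N, hN⟩ | ⟨m, hm1, -, hm3⟩
  · have h1 : ∀ A ∈ F, ∃ k0, ∀ k, k0 ≤ k → A ∈ W k := by
      intro A hAF
      apply hA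
      rcases hFX hAF with ⟨j, _, h2⟩ | h2
      · exact ⟨j, h2⟩
      · exact ⟨i, h2⟩
    choose! k0 hk0 using h1
    obtain ⟨M, hM⟩ := (hF.image k0).bddAbove
    apply hN (max N M) (le_max_left _ _)
    intro A hAF
    rw [hi]
    exact hk0 A hAF _ ((hM (mem_image_of_mem _ hAF)).trans (le_max_right _ _))
  · let M : ℕ → ℕ := m false
    have hM : StrictMono M := by
      apply strictMono_nat_of_lt_succ
      intro k
      have h1 := hm1 k
      change m false k < m false (k + 1)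
      omega
    have haM : StrictMono (fun k => a (M k)) := hmono.comp hM
    have hbl := (hp i).1
    choose c hc using hbl.ne
    have hcinj : StrictMono c := strictMono_nat_of_lt_succ fun k =>
      hbl.lt k _ (hc k) _ (hc (k + 1))
    obtain ⟨j, hj, -⟩ := hall (range c) (fun _ => univ) (fun n A _ => ⟨0, fun _ _ => trivial⟩)
    have hinf := (hp j).2.2.1 (by rw [hj]; exact infinite_range_of_injective hcinj.injective)
    rw [hj] at hinf
    have hij : i ≤ j := by
      by_contra hcon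
      obtain ⟨N, hN⟩ := UU_univ_sub (hp i).1 (hp j).1 (tower_le hp (not_le.1 hcon).le)
      apply hinf
      apply (finite_lt_nat N).subset
      rintro _ ⟨⟨k, rfl⟩, h2⟩
      by_contra h3
      exact h2 (hN _ (le_of_not_gt (fun h' => h3 h')) ⟨k, trivial, hc k⟩)
    obtain ⟨J', hJ'inf, N, hN⟩ := (tower_le hp hij).exists_index (hp j).1 (hp i).1 infinite_univ
    have hS : ∀ T, ∃ k, T ≤ k ∧ k ∉ J' := by
      intro T
      obtain ⟨n, ⟨⟨k, rfl⟩, hn2⟩, hn3⟩ := hinf.exists_gt (max N (c T))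
      refine ⟨k, ?_, fun hk => ?_⟩
      · have h1 := lt_of_le_of_lt (le_max_right _ _) hn3
        exact (hcinj.lt_iff_lt.1 h1).le
      · apply hn2
        rw [hN _ ((le_max_left _ _).trans hn3.le)]
        exact ⟨k, hk, hc k⟩
    obtain ⟨k1, hk1⟩ := hA (UU (p j) univ) ⟨j, EqS.refl _⟩
    have hstep : ∀ T : ℕ, ∃ q : ℕ × ℕ × ℕ, q.1 ∉ J' ∧ T ≤ q.1 ∧ q.2.1 ∈ J' ∧ T ≤ q.2.1 ∧
        (∃ n ∈ p i q.2.1, a (M q.1) ≤ n ∧ n ≤ b (M q.1)) ∧ T ≤ q.2.2 ∧
        ∀ n ∈ p i q.2.1, n < a (M q.2.2) := by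
      intro T
      obtain ⟨Bd, hBd⟩ := Pool.Agent.Helper185.Blk.exists_bound (p i) T
      obtain ⟨s, hs1, hs2⟩ := hS (max (max T k1) (max Bd N))
      have h1 : T ≤ s := (le_max_left _ _).trans ((le_max_left _ _).trans hs1)
      have h2 : k1 ≤ s := (le_max_right _ _).trans ((le_max_left _ _).trans hs1)
      have h3 : Bd ≤ s := (le_max_left _ _).trans ((le_max_right _ _).trans hs1)
      have h4 : N ≤ s := (le_max_right _ _).trans ((le_max_right _ _).trans hs1)
      have h5 : s ≤ M s := hM.le_apply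
      obtain ⟨n, hn, hn1, hn2⟩ := hk1 (M s) (h2.trans h5)
      have h6 : s ≤ n := h5.trans ((hab _).trans hn1)
      rw [hN n (h4.trans h6)] at hn
      obtain ⟨κ, hκ, hnκ⟩ := hn
      have h7 : T ≤ κ := by
        by_contra hcon
        have h8 := hBd κ (not_le.1 hcon) n hnκ
        omega
      obtain ⟨Bd2, hBd2⟩ := Pool.Agent.Helper185.Blk.exists_bound (p i) (κ + 1)
      refine ⟨(s, κ, max T Bd2), hs2, h1, hκ, h7, ⟨n, hnκ, hn1, hn2⟩, le_max_left _ _, ?_⟩
      intro n' hn'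
      have h8 := hBd2 κ (Nat.lt_succ_self κ) n' hn'
      have h9 : Bd2 ≤ M (max T Bd2) := (le_max_right T Bd2).trans hM.le_apply
      exact h8.trans_le (h9.trans (hab _))
    choose q hq1 hq2 hq3 hq4 hq5 hq6 hq7 using hstep
    let T : ℕ → ℕ := fun l => Nat.rec (motive := fun _ => ℕ) 0
      (fun _ T => T + (q T).1 + (q T).2.1 + (q T).2.2 + b (M (q T).2.2) + 1) l
    have hT : ∀ l, T (l + 1) = T l + (q (T l)).1 + (q (T l)).2.1 + (q (T l)).2.2 +
        b (M (q (T l)).2.2) + 1 := fun l => rfl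
    have hTm : StrictMono T := strictMono_nat_of_lt_succ fun l => by rw [hT]; omega
    let J2 : Set ℕ := range (fun l => (q (T l)).2.1)
    have hJ2 : J2.Infinite := by
      apply infinite_of_not_bddAbove
      rintro ⟨M', hM'⟩
      have h1 := hM' (mem_range_self (M' + 1))
      have h2 := hq4 (T (M' + 1))
      have h3 := hTm.le_apply (x := M' + 1)
      change (q (T (M' + 1))).2.1 ≤ M' at h1
      omega
    rcases hm3 false J2 hJ2 _ (EqS.refl _) with ⟨i0, hi0⟩ | ⟨i0, hi0⟩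
    · let l := i0
      have h1 : i0 ≤ (q (T l)).2.2 := (hTm.le_apply (x := l)).trans (hq6 (T l))
      have h2 := hi0 _ h1
      rw [hi] at h2
      obtain ⟨n, ⟨_, ⟨l', rfl⟩, hn⟩, hn1, hn2⟩ := h2
      change a (M (q (T l)).2.2) ≤ n at hn1
      change n ≤ b (M (q (T l)).2.2) at hn2
      rcases lt_trichotomy l' l with hll | hll | hll
      · have h3 := hq7 (T l') n hn
        have h4 : (q (T l')).2.2 ≤ (q (T l)).2.2 := by
          have h5 := hTm.monotone (Nat.succ_le_of_lt hll)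
          have h6 := hT l'
          have h7 := hq6 (T l)
          have h8 : T (l' + 1) ≤ T l := h5
          omega
        have h5 : a (M (q (T l')).2.2) ≤ a (M (q (T l)).2.2) := haM.monotone h4
        exact absurd (h3.trans_le (h5.trans hn1)) (lt_irrefl _)
      · rw [hll] at hn
        have h3 := hq7 (T l) n hn
        exact absurd (h3.trans_le hn1) (lt_irrefl _)
      · have h3 := hq4 (T l')
        have h4 := hbl.le _ n hn
        have h5 : T (l + 1) ≤ T l' := hTm.monotone (Nat.succ_le_of_lt hll)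
        have h6 := hT l
        change (q (T l')).2.1 ≤ n at h4
        omega
    · have h1 : i0 ≤ (q (T i0)).1 := (hTm.le_apply (x := i0)).trans (hq2 (T i0))
      have h2 := (hi0 _ h1).1 (by
        rw [hi]
        obtain ⟨n, hn, hn1, hn2⟩ := hq5 (T i0)
        exact ⟨n, ⟨_, mem_range_self i0, hn⟩, hn1, hn2⟩)
      obtain ⟨l, hl⟩ := h2
      apply hq1 (T i0)
      rw [← hl]
      exact hq3 (T l)

end

end Pool.Agent.H752R3.Pairs
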