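import Pool.Agent.Helper185.SierpPow
import Pool.Agent.Helper185.SelHur

/-!
A Sierpinski set with `S₁(T, Γ)`, not Rothberger, and without `S_fin(Ω, Ω)`.
-/

set_option autoImplicit false
set_option linter.all false

namespace Pool.Agent.H752R3.Pairs

open Set Filter Topology MeasureTheory Pool.Agent.Helper185.Sel Pool.Agent.Helper185.Sierp

/-- Under the continuum hypothesis there is a set of reals satisfying `S₁(T, Γ)` whose square
fails `S_fin(Γ, O)`. -/
theorem exists_sierp (hCH : Cardinal.aleph 1 = Cardinal.continuum.{0}) :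
    ∃ X : Set ℝ, X.Nonempty ∧ Sp X ∧ S1 (TauOf (OpenFam X)) (GammaOf (OpenFam X)) ∧
      ¬ Sfin (GammaOf (OpenFam (Fin 2 → X))) (CovOf (OpenFam (Fin 2 → X))) := by
  classical
  let J : Type := {z : ℕ → Bool // ∀ N, ∃ n, N ≤ n ∧ z n = true}
  have hJ : Cardinal.mk J ≤ Cardinal.continuum.{0} := by
    refine (Cardinal.mk_subtype_le _).trans ?_
    simp
  let g : J → ℝ := fun z => code z.1
  have hg : ∀ j, 10 ≤ g j ∧ g j ≤ 11 := fun j => code_bounds j.1
  obtain ⟨x, hx, hd, hSp⟩ := exists_pairs hCH hJ g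
  let X : Set ℝ := range x ∪ range (fun j => x j + g j)
  obtain ⟨z0, hz0, _⟩ := exists_sparse (fun _ => 0)
  have hne : X.Nonempty := ⟨x ⟨z0, hz0⟩, Or.inl (mem_range_self _)⟩
  have hfin : volume X ≠ ⊤ := volume_ne_top hg hx
  refine ⟨X, hne, hSp, s1_tau_gamma_open hfin hSp hne, ?_⟩
  intro h
  let K : ℕ → ℕ → Set (ℕ → Bool) := fun k m => {z | cz z m ≤ k}
  have hK : ∀ k m, IsClosed (K k m) := fun k m =>
    (isClosed_discrete {c | c ≤ k}).preimage (continuous_cz m)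
  let V : ℕ → ℕ → Set (Fin 2 → X) := fun k m => {p | ((p 1 : X) : ℝ) - (p 0 : X) ∉ code '' K k m}
  have hV : ∀ k m, IsOpen (V k m) := by
    intro k m
    have h1 : Continuous (fun p : Fin 2 → X => ((p 1 : X) : ℝ) - (p 0 : X)) :=
      (continuous_subtype_val.comp (continuous_apply 1)).sub
        (continuous_subtype_val.comp (continuous_apply 0))
    exact (isClosed_image (hK k m)).isOpen_compl.preimage h1
  let pt : J → (Fin 2 → X) := fun j =>
    ![⟨x j, Or.inl (mem_range_self j)⟩, ⟨x j + g j, Or.inr ⟨j, rfl⟩⟩]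
  have hpt : ∀ j k m, cz j.1 m ≤ k → pt j ∉ V k m := by
    intro j k m hm hcon
    apply hcon
    have h0 : ((pt j 0 : X) : ℝ) = x j := rfl
    have h1 : ((pt j 1 : X) : ℝ) = x j + g j := rfl
    rw [h0, h1]
    refine ⟨j.1, hm, ?_⟩
    simp [g]
  have hne' : ∀ k m, V k m ≠ univ := by
    intro k m hcon
    obtain ⟨z, hz, hzm⟩ := exists_sparse (fun _ => m)
    apply hpt ⟨z, hz⟩ k m ((hzm 0).trans (Nat.zero_le k))
    rw [hcon]
    trivial
  have hgam : ∀ k, range (V k) ∈ GammaOf (OpenFam (Fin 2 → X)) := by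
    intro k
    refine range_gamma (adm_open _) (U := fun _ => range (V k)) ?_ ?_
      (fun m => mem_range_self m) ?_
    · rintro _ _ ⟨m, rfl⟩
      exact hV k m
    · rintro _ ⟨m, hm⟩
      exact hne' k m hm
    · intro p
      by_cases hp : ((p 1 : X) : ℝ) - (p 0 : X) ∈ range code
      · obtain ⟨j, h0, h1⟩ := pair_of_diff hg hx hd (p 0).2 (p 1).2 hp
        obtain ⟨M, hM⟩ := cz_unbounded j.2 k
        apply (finite_lt_nat M).subset
        intro m hm
        by_contra hmM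
        have h2 := hM m (le_of_not_gt (fun h => hmM h))
        apply hm
        rintro ⟨z, hz, hzc⟩
        have h3 : code z = code j.1 := by
          rw [hzc, h0, h1]
          simp [g]
        have h4 := code_injective h3
        subst h4
        have h5 : cz j.1 m ≤ k := hz
        omega
      · apply finite_empty.subset
        intro m hm
        apply hm
        rintro ⟨z, _, hz⟩
        exact hp ⟨z, hz⟩
  obtain ⟨F, hF, hFc⟩ := h (fun k => range (V k)) hgam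
  have hbd : ∀ k, ∃ G : ℕ, ∀ v ∈ F k, ∃ m, m ≤ G ∧ v = V k m := by
    intro k
    have h1 : ∀ v : Set (Fin 2 → X), ∃ m, v ∈ F k → v = V k m := by
      intro v
      by_cases hv : v ∈ F k
      · obtain ⟨m, hm⟩ := (hF k).2 hv
        exact ⟨m, fun _ => hm.symm⟩
      · exact ⟨0, fun h => absurd h hv⟩
    choose μ hμ using h1
    obtain ⟨G, hG⟩ := ((hF k).1.image μ).bddAbove
    exact ⟨G, fun v hv => ⟨μ v, hG ⟨v, hv, rfl⟩, hμ v hv⟩⟩
  choose G hG using hbd
  obtain ⟨z, hz, hzG⟩ := exists_sparse G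
  have h1 : pt ⟨z, hz⟩ ∈ ⋃₀ (⋃ k, F k) := by rw [hFc.2.1]; trivial
  obtain ⟨v, hv, hpv⟩ := h1
  obtain ⟨k, hvk⟩ := mem_iUnion.1 hv
  obtain ⟨m, hm, rfl⟩ := hG k v hvk
  exact hpt ⟨z, hz⟩ k m ((cz_mono z hm).trans (hzG k)) hpv



/-- A countable space satisfies `S_fin(Γ, O)` -/
theorem sfin_of_countable {Y : Type*} [TopologicalSpace Y] [Countable Y] [Nonempty Y] :
    Sfin (GammaOf (OpenFam Y)) (CovOf (OpenFam Y)) := by
  intro U hU
  obtain ⟨y, hy⟩ := exists_surjective_nat Y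
  have h1 : ∀ n, ∃ u ∈ U n, y n ∈ u := by
    intro n
    have h2 : y n ∈ ⋃₀ (U n) := by rw [(hU n).2.1.1]; trivial
    obtain ⟨u, hu, hyu⟩ := h2
    exact ⟨u, hu, hyu⟩
  choose u hu hyu using h1
  refine ⟨fun n => {u n}, fun n => ⟨finite_singleton _, singleton_subset_iff.2 (hu n)⟩, ?_, ?_, ?_⟩
  · rintro v hv
    obtain ⟨n, hn⟩ := mem_iUnion.1 hv
    rw [mem_singleton_iff] at hn
    rw [hn]
    exact (hU n).1 _ (hu n)
  · rw [eq_univ_iff_forall]
    intro z
    obtain ⟨n, rfl⟩ := hy z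
    exact ⟨u n, mem_iUnion.2 ⟨n, rfl⟩, hyu n⟩
  · intro hcon
    obtain ⟨n, hn⟩ := mem_iUnion.1 hcon
    rw [mem_singleton_iff] at hn
    exact (hU n).2.1.2 (hn ▸ hu n)

/-- A Rothberger set of reals with two points has measure zero -/
theorem null_of_rothberger {X : Set ℝ} {x y : ℝ} (hx : x ∈ X) (hy : y ∈ X) (hxy : x < y)
    (h : S1 (CovOf (OpenFam X)) (CovOf (OpenFam X))) : volume X = 0 := by
  by_contra hpos
  let ε : ENNReal := min (volume X) (ENNReal.ofReal (y - x))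
  have hε : ε ≠ 0 := by
    have h1 : 0 < ε := lt_min (pos_iff_ne_zero.2 hpos) (ENNReal.ofReal_pos.2 (by linarith))
    exact h1.ne'
  obtain ⟨r, hr0, hr⟩ := ENNReal.exists_pos_sum_of_countable hε ℕ
  have hrn : ∀ n, (r n : ℝ) < y - x := by
    intro n
    have h1 : (r n : ENNReal) < ENNReal.ofReal (y - x) :=
      (ENNReal.le_tsum n).trans_lt (hr.trans_le (min_le_right _ _))
    rw [← ENNReal.ofReal_coe_nnreal] at h1
    exact (ENNReal.ofReal_lt_ofReal_iff_of_nonneg (r n).2).1 h1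
  let U : ℕ → Set (Set X) := fun n =>
    range (fun c : ℝ => (Subtype.val ⁻¹' (Ioo (c - r n / 2) (c + r n / 2)) : Set X))
  have hU : ∀ n, U n ∈ CovOf (OpenFam X) := by
    intro n
    have hr0' : (0 : ℝ) < r n := hr0 n
    refine ⟨?_, ?_, ?_⟩
    · rintro _ ⟨c, rfl⟩
      exact isOpen_Ioo.preimage continuous_subtype_val
    · rw [eq_univ_iff_forall]
      intro z
      refine ⟨_, ⟨z, rfl⟩, ?_, ?_⟩
      · change (z : ℝ) - r n / 2 < z
        linarith
      · change (z : ℝ) < z + r n / 2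
        linarith
    · rintro ⟨c, hc⟩
      have h1 : (⟨x, hx⟩ : X) ∈ (univ : Set X) := trivial
      have h2 : (⟨y, hy⟩ : X) ∈ (univ : Set X) := trivial
      rw [← hc] at h1 h2
      have h3 : c - r n / 2 < x := h1.1
      have h4 : y < c + r n / 2 := h2.2
      have h5 := hrn n
      linarith
  obtain ⟨V, hV, hVc⟩ := h U hU
  choose c hc using hV
  have h1 : X ⊆ ⋃ n, Ioo (c n - r n / 2) (c n + r n / 2) := by
    intro z hz
    have h2 : (⟨z, hz⟩ : X) ∈ ⋃₀ (range V) := by rw [hVc.2.1]; trivial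
    obtain ⟨_, ⟨n, rfl⟩, hn⟩ := h2
    rw [← hc n] at hn
    exact mem_iUnion.2 ⟨n, hn⟩
  have h2 : volume X ≤ ∑' n, (r n : ENNReal) := by
    refine (measure_mono h1).trans ((measure_iUnion_le _).trans (ENNReal.tsum_le_tsum fun n => ?_))
    rw [Real.volume_Ioo]
    have h3 : c n + (r n : ℝ) / 2 - (c n - r n / 2) = r n := by ring
    rw [h3, ENNReal.ofReal_coe_nnreal]
  exact absurd (h2.trans_lt (hr.trans_le (min_le_left _ _))) (lt_irrefl _)

/-- `S_fin(Ω, Ω)` implies that the square satisfies `S_fin(Γ, O)` -/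
theorem sfin_square {X : Type*} [TopologicalSpace X] [Nonempty X]
    (h : Sfin (OmegaOf (OpenFam X)) (OmegaOf (OpenFam X))) :
    Sfin (GammaOf (OpenFam (Fin 2 → X))) (CovOf (OpenFam (Fin 2 → X))) := by
  intro W hW
  let P : ℕ → Set (Set X) := fun n => {V | IsOpen V ∧ ∃ u ∈ W n, ∀ g : Fin 2 → X,
    (∀ i, g i ∈ V) → g ∈ u}
  have hP : ∀ n, P n ∈ OmegaOf (OpenFam X) := by
    intro n
    have hfin : ∀ F : Set X, F.Finite → ∃ V ∈ P n, F ⊆ V := by
      intro F hF
      have hfin : {f : Fin 2 → X | ∀ i, f i ∈ F}.Finite :=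
        Set.Finite.pi' (ι := Fin 2) (t := fun _ => F) (fun _ => hF)
      have h1 : {u | u ∈ W n ∧ ∃ f ∈ {f : Fin 2 → X | ∀ i, f i ∈ F}, f ∉ u}.Finite := by
        apply (hfin.biUnion (t := fun f => {u | u ∈ W n ∧ f ∉ u})
          (fun f _ => (hW n).2.2.2 f)).subset
        rintro u ⟨hu, f, hf, hfu⟩
        exact mem_biUnion hf ⟨hu, hfu⟩
      obtain ⟨u, hu, hu2⟩ := ((hW n).2.2.1.sdiff h1).nonempty
      have hFu : {f : Fin 2 → X | ∀ i, f i ∈ F} ⊆ u := by
        intro f hf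
        by_contra hcon
        exact hu2 ⟨hu, f, hf, hcon⟩
      obtain ⟨V, hV, hFV, hVu⟩ := exists_open_pow hF ((hW n).1 u hu) (fun f hf => hFu hf)
      exact ⟨V, ⟨hV, u, hu, hVu⟩, hFV⟩
    refine ⟨fun V hV => hV.1, ⟨?_, ?_⟩, hfin⟩
    · rw [eq_univ_iff_forall]
      intro x
      obtain ⟨V, hV, hx⟩ := hfin {x} (finite_singleton x)
      exact ⟨V, hV, hx rfl⟩
    · rintro ⟨_, u, hu, huniv⟩
      apply (hW n).2.1.2
      have : u = univ := by
        rw [eq_univ_iff_forall]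
        intro g
        exact huniv g (fun _ => trivial)
      exact this ▸ hu
  obtain ⟨F, hF, hFΩ⟩ := h P hP
  have hch : ∀ n, ∀ V : Set X, ∃ u : Set (Fin 2 → X), V ∈ F n → u ∈ W n ∧
      ∀ g : Fin 2 → X, (∀ i, g i ∈ V) → g ∈ u := by
    intro n V
    by_cases hV : V ∈ F n
    · obtain ⟨-, u, hu, huV⟩ := (hF n).2 hV
      exact ⟨u, fun _ => ⟨hu, huV⟩⟩
    · exact ⟨∅, fun h => absurd h hV⟩
  choose u hu using hch
  refine ⟨fun n => u n '' F n, fun n => ⟨(hF n).1.image _, ?_⟩, ?_, ?_, ?_⟩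
  · rintro _ ⟨V, hV, rfl⟩
    exact (hu n V hV).1
  · rintro v hv
    obtain ⟨n, V, hV, rfl⟩ := mem_iUnion.1 hv
    exact (hW n).1 _ (hu n V hV).1
  · rw [eq_univ_iff_forall]
    intro g
    obtain ⟨V, hV, hgV⟩ := hFΩ.2.2 (range g) (finite_range g)
    obtain ⟨n, hn⟩ := mem_iUnion.1 hV
    exact ⟨u n V, mem_iUnion.2 ⟨n, V, hn, rfl⟩, (hu n V hn).2 g fun i => hgV (mem_range_self i)⟩
  · intro hcon
    obtain ⟨n, V, hV, hVu⟩ := mem_iUnion.1 hcon
    exact (hW n).2.1.2 (hVu ▸ (hu n V hV).1)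

/-- The Sierpinski example. -/
theorem sierp_example (hCH : Cardinal.aleph 1 = Cardinal.continuum.{0}) :
    ∃ X : Set ℝ, X.Nonempty ∧ S1 (TauOf (OpenFam X)) (GammaOf (OpenFam X)) ∧
      ¬ S1 (CovOf (OpenFam X)) (CovOf (OpenFam X)) ∧
      ¬ Sfin (OmegaOf (OpenFam X)) (OmegaOf (OpenFam X)) := by
  obtain ⟨X, hne, hSp, h1, h2⟩ := exists_sierp hCH
  have hN : Nonempty X := hne.to_subtype
  refine ⟨X, hne, h1, fun h => h2 ?_, fun h => h2 (sfin_square h)⟩
  have hc : X.Countable := by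
    by_cases hs : ∃ x ∈ X, ∃ y ∈ X, x < y
    · obtain ⟨x, hx, y, hy, hxy⟩ := hs
      have h3 := hSp X (null_of_rothberger hx hy hxy h)
      rwa [inter_self] at h3
    · push Not at hs
      apply Set.Subsingleton.countable
      intro x hx y hy
      exact le_antisymm (hs y hy x hx) (hs x hx y hy)
  have : Countable X := hc.to_subtype
  exact sfin_of_countable

end Pool.Agent.H752R3.Pairs
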