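import Pool.Agent.H752R3.PairsBlk
import Pool.Agent.H752R3.PairsSierp

/-!
The 22 properties and the block tower example.
-/

set_option autoImplicit false
set_option linter.all false

namespace Pool.Agent.H752R3.Pairs

open Set Filter Topology Pool.Agent.Helper185.Sel

/-- The selection principle `U_fin(A, B)`. -/
def Ufin {X : Type*} (A B : Set (Set (Set X))) : Prop :=
  ∀ U : ℕ → Set (Set X), (∀ n, U n ∈ A) →
    (∀ n, ¬ ∃ F ⊆ U n, F.Finite ∧ ⋃₀ F = univ) →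
    ∃ F : ℕ → Set (Set X), (∀ n, (F n).Finite ∧ F n ⊆ U n) ∧ range (fun n => ⋃₀ (F n)) ∈ B

/-- open covers -/
abbrev OO (X : Type*) [TopologicalSpace X] : Set (Set (Set X)) := CovOf (OpenFam X)

/-- open omega-covers -/
abbrev Om (X : Type*) [TopologicalSpace X] : Set (Set (Set X)) := OmegaOf (OpenFam X)

/-- open tau-covers -/
abbrev Ta (X : Type*) [TopologicalSpace X] : Set (Set (Set X)) := TauOf (OpenFam X)

/-- open gamma-covers -/
abbrev Ga (X : Type*) [TopologicalSpace X] : Set (Set (Set X)) := GammaOf (OpenFam X)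

/-- The properties numbered 0, ..., 21. -/
def Prp (X : Type) [TopologicalSpace X] : ℕ → Prop
  | 0 => S1 (Ga X) (Ga X)
  | 1 => S1 (Ga X) (Ta X)
  | 2 => S1 (Ga X) (Om X)
  | 3 => S1 (Ga X) (OO X)
  | 4 => S1 (Ta X) (Ga X)
  | 5 => S1 (Ta X) (Ta X)
  | 6 => S1 (Ta X) (Om X)
  | 7 => S1 (Ta X) (OO X)
  | 8 => S1 (Om X) (Ga X)
  | 9 => S1 (Om X) (Ta X)
  | 10 => S1 (Om X) (Om X)
  | 11 => S1 (OO X) (OO X)
  | 12 => Sfin (Ga X) (Ta X)
  | 13 => Sfin (Ga X) (Om X)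
  | 14 => Sfin (Ta X) (Ta X)
  | 15 => Sfin (Ta X) (Om X)
  | 16 => Sfin (Om X) (Ta X)
  | 17 => Sfin (Om X) (Om X)
  | 18 => Ufin (Ga X) (Ga X)
  | 19 => Ufin (Ga X) (Ta X)
  | 20 => Ufin (Ga X) (Om X)
  | 21 => Ufin (Ga X) (OO X)
  | _ => True

theorem ufin_of_s1 {X : Type*} {A B : Set (Set (Set X))} (h : S1 A B) : Ufin A B := by
  intro U hU _
  obtain ⟨V, hV, hVB⟩ := h U hU
  refine ⟨fun n => {V n}, fun n => ⟨finite_singleton _, singleton_subset_iff.2 (hV n)⟩, ?_⟩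
  have h1 : (fun n => ⋃₀ ({V n} : Set (Set X))) = V := by
    funext n
    exact sUnion_singleton _
  rw [h1]
  exact hVB

theorem sfin_of_s1' {X : Type*} {A B : Set (Set (Set X))} (h : S1 A B) : Sfin A B := by
  intro U hU
  obtain ⟨V, hV, hVB⟩ := h U hU
  refine ⟨fun n => {V n}, fun n => ⟨finite_singleton _, singleton_subset_iff.2 (hV n)⟩, ?_⟩
  rw [iUnion_singleton_eq_range]
  exact hVB

/-- The consequence of `U_fin(Γ, Γ)` that is used. -/
theorem ufin_bound {Y : Type*} [TopologicalSpace Y] (φ : Y → ℕ → Bool) (hφ : Continuous φ)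
    (hinf : ∀ y n, ∃ k, n ≤ k ∧ φ y k = true)
    (hgap : ∀ n m, ∃ y, ∀ k, n ≤ k → k ≤ m → φ y k = false)
    (h : Ufin (Ga Y) (Ga Y)) :
    ∃ a b : ℕ → ℕ, StrictMono a ∧ ∀ y, ∃ k0, ∀ k, k0 ≤ k → ∃ n, φ y n = true ∧ a k ≤ n ∧ n ≤ b k := by
  classical
  let V : ℕ → ℕ → Set Y := fun n m => {y | ∃ k, (n ≤ k ∧ k ≤ m) ∧ φ y k = true}
  have hVmono : ∀ n m m', m ≤ m' → V n m ⊆ V n m' := by
    rintro n m m' hmm y ⟨k, ⟨h1, h2⟩, h3⟩
    exact ⟨k, ⟨h1, h2.trans hmm⟩, h3⟩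
  have hVo : ∀ n m, IsOpen (V n m) := by
    intro n m
    have h1 : V n m = ⋃ k ∈ {k | n ≤ k ∧ k ≤ m}, (fun y => φ y k) ⁻¹' {true} := by
      ext y
      simp only [V, mem_ofPred_eq, mem_iUnion, mem_preimage, mem_singleton_iff, exists_prop]
    rw [h1]
    exact isOpen_biUnion fun k _ => (isOpen_discrete _).preimage ((continuous_apply k).comp hφ)
  have hVne : ∀ n m, V n m ≠ univ := by
    intro n m hcon
    obtain ⟨y, hy⟩ := hgap n m
    have h1 : y ∈ V n m := by rw [hcon]; trivial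
    obtain ⟨k, ⟨h2, h3⟩, h4⟩ := h1
    rw [hy k h2 h3] at h4
    cases h4
  have hgam : ∀ n, range (V n) ∈ Ga Y := by
    intro n
    refine range_gamma (adm_open _) (U := fun _ => range (V n)) ?_ ?_ (fun m => mem_range_self m) ?_
    · rintro _ _ ⟨m, rfl⟩
      exact hVo n m
    · rintro _ ⟨m, hm⟩
      exact hVne n m hm
    · intro y
      obtain ⟨k, hk1, hk2⟩ := hinf y n
      apply (finite_lt_nat k).subset
      intro m hm
      by_contra hcon
      exact hm ⟨k, ⟨hk1, le_of_not_gt (fun h' => hcon h')⟩, hk2⟩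
  have hbd : ∀ n, ∀ F : Set (Set Y), F.Finite → F ⊆ range (V n) → ∃ G, ⋃₀ F ⊆ V n G := by
    intro n F hF hFV
    have h1 : ∀ v : Set Y, ∃ m, v ∈ F → v = V n m := by
      intro v
      by_cases hv : v ∈ F
      · obtain ⟨m, hm⟩ := hFV hv
        exact ⟨m, fun _ => hm.symm⟩
      · exact ⟨0, fun h => absurd h hv⟩
    choose μ hμ using h1
    obtain ⟨G, hG⟩ := (hF.image μ).bddAbove
    refine ⟨G, ?_⟩
    rintro y ⟨v, hv, hyv⟩
    rw [hμ v hv] at hyv
    exact hVmono _ _ _ (hG ⟨v, hv, rfl⟩) hyv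
  obtain ⟨F, hF, hFG⟩ := h (fun n => range (V n)) hgam (by
    rintro n ⟨F, hF, hFf, hFu⟩
    obtain ⟨G, hG⟩ := hbd n F hFf hF
    rw [hFu, univ_subset_iff] at hG
    exact hVne n G hG)
  choose G hG using fun n => hbd n (F n) (hF n).1 (hF n).2
  let s : ℕ → Set Y := fun n => ⋃₀ (F n)
  have hsinf : (range s).Infinite := hFG.2.2.1
  let A : Set ℕ := {n | ∀ i, i < n → s i ≠ s n}
  have hAs : s '' A = range s := by
    apply Subset.antisymm (image_subset_range _ _)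
    rintro _ ⟨n, rfl⟩
    have hex : ∃ m, s m = s n := ⟨n, rfl⟩
    refine ⟨Nat.find hex, ?_, Nat.find_spec hex⟩
    intro i hi hcon
    exact Nat.find_min hex hi (hcon.trans (Nat.find_spec hex))
  have hAinf : A.Infinite := by
    intro hfin
    apply hsinf
    rw [← hAs]
    exact hfin.image s
  have hAinj : InjOn s A := by
    intro i hi j hj hij
    rcases lt_trichotomy i j with h1 | h1 | h1
    · exact absurd hij (hj i h1)
    · exact h1
    · exact absurd hij.symm (hi j h1)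
  refine ⟨Nat.nth (· ∈ A), fun k => G (Nat.nth (· ∈ A) k), Nat.nth_strictMono hAinf, ?_⟩
  intro y
  have h1 : {n | n ∈ A ∧ y ∉ s n}.Finite := by
    have h2 : (s '' {n | n ∈ A ∧ y ∉ s n}).Finite := by
      apply (hFG.2.2.2 y).subset
      rintro _ ⟨n, ⟨_, hn⟩, rfl⟩
      exact ⟨mem_range_self n, hn⟩
    exact h2.of_finite_image (hAinj.mono fun n hn => hn.1)
  obtain ⟨M, hM⟩ := h1.bddAbove
  refine ⟨M + 1, fun k hk => ?_⟩
  have h3 : Nat.nth (· ∈ A) k ∈ A := Nat.nth_mem_of_infinite hAinf k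
  have h4 : k ≤ Nat.nth (· ∈ A) k := (Nat.nth_strictMono hAinf).le_apply
  have h5 : y ∈ s (Nat.nth (· ∈ A) k) := by
    by_contra hcon
    have h6 := hM ⟨h3, hcon⟩
    omega
  obtain ⟨n, ⟨hn1, hn2⟩, hn3⟩ := hG _ h5
  exact ⟨n, hn3, hn1, hn2⟩

open Pool.Agent.Helper185.Silver Pool.Agent.Helper185.Blk Pool.Agent.Helper971.SqR in
/-- The block tower example. -/
theorem blk_example (hCH : Cardinal.aleph 1 = Cardinal.continuum.{0}) :
    ∃ X : Set ℝ, X.Nonempty ∧ Sfin (Om X) (Ta X) ∧ ¬ Choose (Ta X) (Ga X) ∧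
      ¬ Ufin (Ga X) (Ga X) := by
  obtain ⟨I, _, _, hI, B, O, hO, hBO⟩ := Pool.Agent.Helper185.Blk.exists_enumeration hCH
  obtain ⟨p, hp⟩ := Pool.Agent.Helper185.Blk.exists_tower hI B O hO
  have hU : ∀ n : ℕ, Op ((fun _ => univ : ℕ → Set (Set ℕ)) n) := fun n A _ => ⟨0, fun _ _ => trivial⟩
  have hIne : Nonempty I := by
    obtain ⟨i, -⟩ := hBO ∅ (fun _ => univ) hU
    exact ⟨i⟩
  have h1 : Sfin (OmegaOf (OpenFam (XT p))) (TauOf (OpenFam (XT p))) :=
    Pool.Agent.H328R3.SF.sfin_XT hI hp hBO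
  have h2 : ¬ Choose (TauOf (OpenFam (XT p))) (GammaOf (OpenFam (XT p))) :=
    not_choose_XT hp (fun C => by
      obtain ⟨i, hi, _⟩ := hBO C (fun _ => univ) hU
      exact ⟨i, hi⟩)
  obtain ⟨g, hg⟩ := exists_embedding_Z
  obtain ⟨eX⟩ := homeo_image hg (XT p)
  obtain ⟨i0⟩ := hIne
  let x0 : XT p := ⟨ch (UU (p i0) univ), ch_mem p i0 (EqS.refl _)⟩
  refine ⟨g '' XT p, ⟨g x0, x0, x0.2, rfl⟩, ?_, fun h => h2 ?_, fun h => ?_⟩
  · exact Pool.Agent.H328R3.SF.sfin_transport eX (fun U hU => pull_omega eX hU)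
      (fun U hU => pull_tau eX.symm hU) h1
  · exact choose_transport eX.symm (fun U hU => pull_tau eX.symm hU)
      (fun U hU => pull_gamma eX hU) h
  · obtain ⟨a, b, ha, hab⟩ := ufin_bound (Y := (g '' XT p : Set ℝ))
      (fun y => ((eX.symm y : XT p) : Z))
      (continuous_subtype_val.comp eX.symm.continuous) (by
        intro y n
        obtain ⟨i, hi⟩ := (eX.symm y).2
        obtain ⟨N, hN⟩ := hi
        obtain ⟨k, hk1, hk2⟩ := (UU_infinite (hp i).1 infinite_univ).exists_gt (max n N)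
        refine ⟨k, ((le_max_left _ _).trans_lt hk2).le, ?_⟩
        exact (hN k ((le_max_right _ _).trans_lt hk2).le).2 hk1) (by
        intro n m
        refine ⟨eX ⟨ch (UU (p i0) univ \ {k | k ≤ m}), ch_mem p i0 ⟨m + 1, ?_⟩⟩, ?_⟩
        · intro k hk
          constructor
          · intro h3
            exact h3.1
          · intro h3
            refine ⟨h3, ?_⟩
            intro h4
            have h5 : k ≤ m := h4
            omega
        · intro k _ hk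
          simp [ch, hk]) h
    refine not_bounded hp hBO a b (fun k => ha.le_apply) ha ?_
    intro x
    obtain ⟨k0, hk0⟩ := hab (eX x)
    refine ⟨k0, fun k hk => ?_⟩
    obtain ⟨n, hn1, hn2, hn3⟩ := hk0 k hk
    simp only [Homeomorph.symm_apply_apply] at hn1
    exact ⟨n, hn1, hn2, hn3⟩

end Pool.Agent.H752R3.Pairs
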