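import Pool.Agent.H752R3.ScaleBasics

/-!
Menger and Hurewicz spaces; a sufficient condition for a subset of the Cantor square to be
productively Hurewicz in the class of all topological spaces.
-/

namespace Pool.Agent.H752R3

open Set Filter Cardinal

/-- The Menger property. -/
def MengerSp (Z : Type*) [TopologicalSpace Z] : Prop :=
  ∀ U : ℕ → Set (Set Z), (∀ n, (∀ u ∈ U n, IsOpen u) ∧ ⋃₀ U n = Set.univ) →
    ∃ F : ℕ → Set (Set Z), (∀ n, F n ⊆ U n ∧ (F n).Finite) ∧ (⋃ n, ⋃₀ F n) = Set.univ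

/-- The Hurewicz property. -/
def HurewiczSp (Z : Type*) [TopologicalSpace Z] : Prop :=
  ∀ U : ℕ → Set (Set Z), (∀ n, (∀ u ∈ U n, IsOpen u) ∧ ⋃₀ U n = Set.univ) →
    ∃ F : ℕ → Set (Set Z), (∀ n, F n ⊆ U n ∧ (F n).Finite) ∧
      ∀ z, ∀ᶠ n in atTop, z ∈ ⋃₀ F n

theorem MengerSp.frequently {Z : Type*} [TopologicalSpace Z] (h : MengerSp Z)
    (U : ℕ → Set (Set Z)) (hU : ∀ n, (∀ u ∈ U n, IsOpen u) ∧ ⋃₀ U n = Set.univ) :
    ∃ F : ℕ → Set (Set Z), (∀ n, F n ⊆ U n ∧ (F n).Finite) ∧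
      ∀ z, ∃ᶠ n in atTop, z ∈ ⋃₀ F n := by
  have h1 : ∀ m, ∃ F : ℕ → Set (Set Z), (∀ n, F n ⊆ U (m + n) ∧ (F n).Finite) ∧
      (⋃ n, ⋃₀ F n) = Set.univ := fun m => h (fun n => U (m + n)) (fun n => hU (m + n))
  choose F hF1 hF2 using h1
  refine ⟨fun N => ⋃ m ∈ Finset.range (N + 1), F m (N - m), fun N => ⟨?_, ?_⟩, ?_⟩
  · apply iUnion₂_subset
    intro m hm
    have hm' : m ≤ N := Nat.lt_succ_iff.1 (Finset.mem_range.1 hm)
    have := (hF1 m (N - m)).1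
    rwa [Nat.add_sub_cancel' hm'] at this
  · apply Set.Finite.biUnion (Finset.finite_toSet _)
    intro m _
    exact (hF1 m (N - m)).2
  · intro z
    rw [frequently_atTop]
    intro m
    have : z ∈ ⋃ n, ⋃₀ F m n := by rw [hF2 m]; trivial
    obtain ⟨n, hn⟩ := mem_iUnion.1 this
    obtain ⟨u, hu, hzu⟩ := hn
    refine ⟨m + n, Nat.le_add_right _ _, u, ?_, hzu⟩
    refine mem_iUnion₂.2 ⟨m, Finset.mem_range.2 (by omega), ?_⟩
    have : m + n - m = n := by omega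
    rw [this]
    exact hu

/-- The Cantor square. -/
abbrev C2 := (ℕ → Bool) × (ℕ → Bool)

/-- `x` misses the interval `[k, l)`. -/
def Misses (x : C2) (k l : ℕ) : Prop := ∀ m, k ≤ m → m < l → x.1 m = false ∧ x.2 m = false

/-- Finitely supported elements. -/
def FinSupp (z : ℕ → Bool) : Prop := ∃ k, ∀ m, k ≤ m → z m = false

/-- Extension by `false`. -/
def extB (k : ℕ) (s : Fin k → Bool) : ℕ → Bool := fun m => if h : m < k then s ⟨m, h⟩ else false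

theorem finSupp_extB (k : ℕ) (s : Fin k → Bool) : FinSupp (extB k s) :=
  ⟨k, fun m hm => by simp [extB, not_lt.2 hm]⟩

theorem exists_agree_C2 {D : Set C2} (hD : IsOpen D) {x : C2} (hx : x ∈ D) :
    ∃ L, ∀ y : C2, (∀ n < L, y.1 n = x.1 n ∧ y.2 n = x.2 n) → y ∈ D := by
  obtain ⟨A, B, hA, hB, hxA, hxB, hsub⟩ := isOpen_prod_iff.1 hD x.1 x.2 hx
  have aux : ∀ (A : Set (ℕ → Bool)) (a : ℕ → Bool), IsOpen A → a ∈ A →
      ∃ L, ∀ y : ℕ → Bool, (∀ n < L, y n = a n) → y ∈ A := by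
    intro A a hA ha
    rw [isOpen_pi_iff] at hA
    obtain ⟨I, u, hu, hsub⟩ := hA a ha
    refine ⟨I.sup id + 1, fun y hy => hsub ?_⟩
    intro i hi
    have : i < I.sup id + 1 := Nat.lt_succ_of_le (Finset.le_sup (f := id) hi)
    rw [hy i this]
    exact (hu i hi).2
  obtain ⟨L1, hL1⟩ := aux A x.1 hA hxA
  obtain ⟨L2, hL2⟩ := aux B x.2 hB hxB
  refine ⟨max L1 L2, fun y hy => hsub ⟨?_, ?_⟩⟩
  · exact hL1 y.1 fun n hn => (hy n (lt_of_lt_of_le hn (le_max_left _ _))).1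
  · exact hL2 y.2 fun n hn => (hy n (lt_of_lt_of_le hn (le_max_right _ _))).2

/-- **Productively Hurewicz criterion.**  A subset `X` of the Cantor square which contains all
pairs of finite sets, and such that for every increasing `b` there are block indices
`[N i, M i]`, `N i ≥ i`, for which all but countably many `x ∈ X` miss, for all large `i`, some
interval `[b j, b (j + 1))` with `j ∈ [N i, M i]`, is productively Hurewicz. -/
theorem productively_hurewicz (X : Set C2)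
    (hfin : ∀ z : C2, FinSupp z.1 → FinSupp z.2 → z ∈ X)
    (hX : ∀ b : ℕ → ℕ, StrictMono b → ∃ N M : ℕ → ℕ, (∀ i, i ≤ N i) ∧
      {x : C2 | x ∈ X ∧ ¬ ∀ᶠ i in atTop, ∃ j, N i ≤ j ∧ j ≤ M i ∧
        Misses x (b j) (b (j + 1))}.Countable)
    (Y : Type*) [TopologicalSpace Y] (hY : HurewiczSp Y) : HurewiczSp (X × Y) := by
  classical
  intro U hU
  -- the derived covers of `Y`
  let W : ℕ → Set (Set Y) := fun k => {V | IsOpen V ∧ ∃ l > k, ∀ i ≤ k, ∃ G ⊆ U i, G.Finite ∧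
    ∀ w : X, Misses w.1 k l → ∀ y ∈ V, (w, y) ∈ ⋃₀ G}
  have hW : ∀ k, (∀ V ∈ W k, IsOpen V) ∧ ⋃₀ W k = Set.univ := by
    intro k
    refine ⟨fun V hV => hV.1, ?_⟩
    rw [eq_univ_iff_forall]
    intro y
    let z : ((Fin k → Bool) × (Fin k → Bool)) → X := fun s =>
      ⟨(extB k s.1, extB k s.2), hfin _ (finSupp_extB _ _) (finSupp_extB _ _)⟩
    have h1 : ∀ t : ((Fin k → Bool) × (Fin k → Bool)) × Fin (k + 1), ∃ (L : ℕ) (V : Set Y)
        (u : Set (X × Y)), u ∈ U t.2 ∧ IsOpen V ∧ y ∈ V ∧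
        ∀ w : X, (∀ n < L, w.1.1 n = (z t.1).1.1 n ∧ w.1.2 n = (z t.1).1.2 n) →
          ∀ y' ∈ V, (w, y') ∈ u := by
      intro t
      have hmem : (z t.1, y) ∈ ⋃₀ U t.2 := by rw [(hU t.2).2]; trivial
      obtain ⟨u, hu, hzu⟩ := hmem
      have huo := (hU t.2).1 u hu
      obtain ⟨A, V, hA, hV, hzA, hyV, hsub⟩ := isOpen_prod_iff.1 huo _ _ hzu
      obtain ⟨A', hA', rfl⟩ := isOpen_induced_iff.1 hA
      obtain ⟨L, hL⟩ := exists_agree_C2 hA' hzA
      exact ⟨L, V, u, hu, hV, hyV, fun w hw y' hy' => hsub ⟨hL w.1 hw, hy'⟩⟩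
    choose L V u hu hV hyV hLV using h1
    refine ⟨⋂ t, V t, ⟨isOpen_iInter_of_finite hV, max (Finset.univ.sup L) (k + 1),
      lt_of_lt_of_le (Nat.lt_succ_self k) (le_max_right _ _), fun i hi => ?_⟩,
      mem_iInter.2 hyV⟩
    refine ⟨range fun s => u (s, ⟨i, Nat.lt_succ_of_le hi⟩), ?_, Set.finite_range _, ?_⟩
    · rintro _ ⟨s, rfl⟩
      exact hu (s, ⟨i, Nat.lt_succ_of_le hi⟩)
    · intro w hw y' hy'
      let s : (Fin k → Bool) × (Fin k → Bool) := (fun m => w.1.1 m, fun m => w.1.2 m)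
      refine ⟨u (s, ⟨i, Nat.lt_succ_of_le hi⟩), ⟨s, rfl⟩, ?_⟩
      apply hLV (s, ⟨i, Nat.lt_succ_of_le hi⟩) w ?_ y' (mem_iInter.1 hy' _)
      intro n hn
      have hn' : n < max (Finset.univ.sup L) (k + 1) :=
        lt_of_lt_of_le hn ((Finset.le_sup (f := L) (Finset.mem_univ _)).trans (le_max_left _ _))
      by_cases hnk : n < k
      · simp [z, s, extB, hnk]
      · have := hw n (not_lt.1 hnk) hn'
        simp [z, extB, hnk, this.1, this.2]
  obtain ⟨G, hG1, hG2⟩ := hY W hW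
  -- for each `k`, a length `l k` and finite families
  have h2 : ∀ k, ∃ l > k, ∀ i ≤ k, ∃ E ⊆ U i, E.Finite ∧
      ∀ w : X, Misses w.1 k l → ∀ y ∈ ⋃₀ G k, (w, y) ∈ ⋃₀ E := by
    intro k
    have h3 : ∀ V : G k, ∃ l > k, ∀ i ≤ k, ∃ E ⊆ U i, E.Finite ∧
      ∀ w : X, Misses w.1 k l → ∀ y ∈ (V : Set Y), (w, y) ∈ ⋃₀ E := fun V => ((hG1 k).1 V.2).2
    choose l hl E hE1 hE2 hE3 using h3
    have : Finite (G k) := (hG1 k).2.to_subtype
    have := Fintype.ofFinite (G k)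
    refine ⟨max (Finset.univ.sup l) (k + 1),
      lt_of_lt_of_le (Nat.lt_succ_self k) (le_max_right _ _), fun i hi =>
      ⟨⋃ V, E V i hi, iUnion_subset fun V => hE1 V i hi, Set.finite_iUnion fun V => hE2 V i hi,
        fun w hw y hy => ?_⟩⟩
    obtain ⟨V, hV, hyV⟩ := hy
    have := hE3 ⟨V, hV⟩ i hi w (fun m hm hm' => hw m hm (lt_of_lt_of_le hm'
      ((Finset.le_sup (f := l) (Finset.mem_univ _)).trans (le_max_left _ _)))) y hyV
    obtain ⟨v, hv, hv'⟩ := this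
    exact ⟨v, mem_iUnion.2 ⟨⟨V, hV⟩, hv⟩, hv'⟩
  choose l hl E hE1 hE2 hE3 using h2
  let b : ℕ → ℕ := fun j => Nat.rec 0 (fun _ x => l x) j
  have hbs : ∀ j, b (j + 1) = l (b j) := fun j => rfl
  have hb : StrictMono b := strictMono_nat_of_lt_succ fun j => by rw [hbs]; exact hl _
  obtain ⟨N, M, hN, hcount⟩ := hX b hb
  have hbid : ∀ j, j ≤ b j := fun j => hb.le_apply
  -- main selections
  have hmain : ∀ i, ∃ H ⊆ U i, H.Finite ∧ ∀ j, N i ≤ j → j ≤ M i → ∀ w : X,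
      Misses w.1 (b j) (b (j + 1)) → ∀ y ∈ ⋃₀ G (b j), (w, y) ∈ ⋃₀ H := by
    intro i
    have hij : ∀ j, N i ≤ j → i ≤ b j := fun j hj => ((hN i).trans hj).trans (hbid j)
    refine ⟨⋃ j ∈ Finset.Icc (N i) (M i), ⋃ h : i ≤ b j, E (b j) i h, ?_, ?_, ?_⟩
    · apply iUnion₂_subset
      intro j _
      exact iUnion_subset fun h => hE1 _ _ _
    · apply Set.Finite.biUnion (Finset.finite_toSet _)
      intro j _
      exact Set.finite_iUnion fun h => hE2 _ _ _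
    · intro j hj1 hj2 w hw y hy
      obtain ⟨v, hv, hv'⟩ := hE3 (b j) i (hij j hj1) w hw y hy
      exact ⟨v, mem_iUnion₂.2 ⟨j, Finset.mem_Icc.2 ⟨hj1, hj2⟩,
        mem_iUnion.2 ⟨hij j hj1, hv⟩⟩, hv'⟩
  choose H hH1 hH2 hH3 using hmain
  -- slices
  have hslice : ∀ x : X, ∃ F : ℕ → Set (Set (X × Y)), (∀ n, F n ⊆ U n ∧ (F n).Finite) ∧
      ∀ y, ∀ᶠ n in atTop, (x, y) ∈ ⋃₀ F n := by
    intro x
    obtain ⟨F, hF1, hF2⟩ := hY (fun n => (fun u : Set (X × Y) => {y | (x, y) ∈ u}) '' U n) (by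
      intro n
      refine ⟨?_, ?_⟩
      · rintro _ ⟨u, hu, rfl⟩
        exact ((hU n).1 u hu).preimage (Continuous.prodMk_right x)
      · rw [eq_univ_iff_forall]
        intro y
        have : (x, y) ∈ ⋃₀ U n := by rw [(hU n).2]; trivial
        obtain ⟨u, hu, hxy⟩ := this
        exact ⟨_, ⟨u, hu, rfl⟩, hxy⟩)
    have h4 : ∀ n, ∃ E ⊆ U n, E.Finite ∧ ∀ y ∈ ⋃₀ F n, (x, y) ∈ ⋃₀ E := by
      intro n
      obtain ⟨E, hE, hE'⟩ := (Set.subset_image_iff.1 (hF1 n).1)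
      -- choose a finite subfamily with the same image
      obtain ⟨E', hE'1, hE'2, hE'3⟩ : ∃ E' ⊆ U n, E'.Finite ∧
          (fun u : Set (X × Y) => {y | (x, y) ∈ u}) '' E' = F n := by
        have := Set.exists_subset_image_finite_and (f := fun u : Set (X × Y) =>
          {y | (x, y) ∈ u}) (s := U n) (p := fun t => t = F n)
        obtain ⟨E', h1, h2, h3⟩ := this.1 ⟨F n, (hF1 n).1, (hF1 n).2, rfl⟩
        exact ⟨E', h1, h2, h3⟩
      refine ⟨E', hE'1, hE'2, fun y hy => ?_⟩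
      rw [← hE'3] at hy
      obtain ⟨_, ⟨u, hu, rfl⟩, hyu⟩ := hy
      exact ⟨u, hu, hyu⟩
    choose E hE1 hE2 hE3 using h4
    refine ⟨E, fun n => ⟨hE1 n, hE2 n⟩, fun y => ?_⟩
    filter_upwards [hF2 y] with n hn
    exact hE3 n y hn
  choose Fs hFs1 hFs2 using hslice
  -- enumerate the exceptional set
  let Exc : Set X := {x | ¬ ∀ᶠ i in atTop, ∃ j, N i ≤ j ∧ j ≤ M i ∧
        Misses x.1 (b j) (b (j + 1))}
  have hExc : Exc.Countable := by
    have : Exc = Subtype.val ⁻¹' {x : C2 | x ∈ X ∧ ¬ ∀ᶠ i in atTop, ∃ j, N i ≤ j ∧ j ≤ M i ∧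
        Misses x (b j) (b (j + 1))} := by
      ext x
      simp [Exc]
    rw [this]
    exact hcount.preimage Subtype.val_injective
  obtain ⟨t, ht⟩ : ∃ t : ℕ → X, ∀ x ∈ Exc, ∃ n, t n = x := by
    rcases Exc.eq_empty_or_nonempty with he | hne
    · refine ⟨fun _ => ⟨(fun _ => false, fun _ => false), hfin _ ⟨0, fun _ _ => rfl⟩
        ⟨0, fun _ _ => rfl⟩⟩, fun x hx => ?_⟩
      rw [he] at hx
      exact absurd hx (notMem_empty x)
    · obtain ⟨t, ht⟩ := hExc.exists_eq_range hne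
      exact ⟨t, fun x hx => by rw [ht] at hx; exact hx⟩
  refine ⟨fun i => H i ∪ ⋃ m ∈ Finset.range (i + 1), Fs (t m) i, fun i => ⟨?_, ?_⟩, ?_⟩
  · apply union_subset (hH1 i)
    apply iUnion₂_subset
    intro m _
    exact (hFs1 _ i).1
  · apply (hH2 i).union
    apply Set.Finite.biUnion (Finset.finite_toSet _)
    intro m _
    exact (hFs1 _ i).2
  · rintro ⟨x, y⟩
    by_cases hx : x ∈ Exc
    · obtain ⟨m, hm⟩ := ht x hx
      have h5 := hFs2 x y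
      filter_upwards [h5, eventually_ge_atTop m] with i hi him
      obtain ⟨v, hv, hv'⟩ := hi
      refine ⟨v, Or.inr (mem_iUnion₂.2 ⟨m, Finset.mem_range.2 (by omega), ?_⟩), hv'⟩
      rw [hm]
      exact hv
    · have hx' : ∀ᶠ i in atTop, ∃ j, N i ≤ j ∧ j ≤ M i ∧ Misses x.1 (b j) (b (j + 1)) := by
        by_contra hcon
        exact hx hcon
      obtain ⟨K, hK⟩ := eventually_atTop.1 (hG2 y)
      filter_upwards [hx', eventually_ge_atTop K] with i hi hiK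
      obtain ⟨j, hj1, hj2, hj3⟩ := hi
      have h6 : K ≤ b j := (hiK.trans ((hN i).trans hj1)).trans (hbid j)
      obtain ⟨v, hv, hv'⟩ := hH3 i j hj1 hj2 x hj3 y (hK (b j) h6)
      exact ⟨v, Or.inl hv, hv'⟩

end Pool.Agent.H752R3
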