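import Pool.Agent.H752R3.Bits

/-!
Sierpiński sets: the Hurewicz property, and the basic step of the product construction.
-/

namespace Pool.Agent.H752R3

open Set Filter MeasureTheory Topology
open scoped ENNReal Pointwise

/-- A Sierpiński set of reals. -/
def SierpinskiSet (S : Set ℝ) : Prop :=
  ¬ S.Countable ∧ ∀ N : Set ℝ, volume N = 0 → (S ∩ N).Countable

/-- It is enough to select for all points outside a countable set. -/
theorem hurewicz_of_mod_countable {Z : Type*} [TopologicalSpace Z]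
    (h : ∀ U : ℕ → Set (Set Z), (∀ n, (∀ u ∈ U n, IsOpen u) ∧ ⋃₀ U n = Set.univ) →
      ∃ F : ℕ → Set (Set Z), (∀ n, F n ⊆ U n ∧ (F n).Finite) ∧
        {z | ¬ ∀ᶠ n in atTop, z ∈ ⋃₀ F n}.Countable) : HurewiczSp Z := by
  intro U hU
  obtain ⟨F, hF1, hF2⟩ := h U hU
  rcases {z | ¬ ∀ᶠ n in atTop, z ∈ ⋃₀ F n}.eq_empty_or_nonempty with he | hne
  · refine ⟨F, hF1, fun z => ?_⟩
    by_contra hcon
    have : z ∈ {z | ¬ ∀ᶠ n in atTop, z ∈ ⋃₀ F n} := hcon
    rw [he] at this
    exact this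
  · obtain ⟨t, ht⟩ := hF2.exists_eq_range hne
    have h1 : ∀ m n, ∃ u ∈ U n, t m ∈ u := by
      intro m n
      have : t m ∈ ⋃₀ U n := by rw [(hU n).2]; trivial
      exact this
    choose u hu htu using h1
    refine ⟨fun n => F n ∪ (fun m => u m n) '' (Finset.range (n + 1) : Set ℕ), fun n => ⟨?_, ?_⟩,
      fun z => ?_⟩
    · apply union_subset (hF1 n).1
      rintro _ ⟨m, _, rfl⟩
      exact hu m n
    · exact (hF1 n).2.union ((Finset.finite_toSet _).image _)
    · by_cases hz : ∀ᶠ n in atTop, z ∈ ⋃₀ F n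
      · filter_upwards [hz] with n hn
        obtain ⟨v, hv, hzv⟩ := hn
        exact ⟨v, Or.inl hv, hzv⟩
      · have : z ∈ {z | ¬ ∀ᶠ n in atTop, z ∈ ⋃₀ F n} := hz
        rw [ht] at this
        obtain ⟨m, rfl⟩ := this
        filter_upwards [eventually_ge_atTop m] with n hn
        exact ⟨u m n, Or.inr ⟨m, by simpa using Nat.lt_succ_of_le hn, rfl⟩, htu m n⟩

/-- Every set of reals whose intersection with every null set is countable is Hurewicz. -/
theorem hurewicz_of_null_countable {Y : Set ℝ}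
    (hY : ∀ N : Set ℝ, volume N = 0 → (Y ∩ N).Countable) : HurewiczSp Y := by
  classical
  apply hurewicz_of_mod_countable
  intro U hU
  -- countable subcovers by traces of open sets of reals
  have h1 : ∀ n, ∃ V : ℕ → Set ℝ, (∀ j, IsOpen (V j)) ∧ Y ⊆ ⋃ j, V j ∧
      ∀ j, ∃ u ∈ insert ∅ (U n), Subtype.val ⁻¹' V j ⊆ u := by
    intro n
    let 𝒱 : Set (Set ℝ) := {V | IsOpen V ∧ ∃ u ∈ U n, Subtype.val ⁻¹' V ⊆ u}
    obtain ⟨T, hT1, hT2, hT3⟩ := TopologicalSpace.isOpen_sUnion_countable 𝒱 (fun V hV => hV.1)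
    have hYT : Y ⊆ ⋃₀ T := by
      rw [hT3]
      intro y hy
      have : (⟨y, hy⟩ : Y) ∈ ⋃₀ U n := by rw [(hU n).2]; trivial
      obtain ⟨u, hu, hyu⟩ := this
      obtain ⟨V, hV, hVu⟩ := isOpen_induced_iff.1 ((hU n).1 u hu)
      refine ⟨V, ⟨hV, u, hu, hVu.subset⟩, ?_⟩
      have : (⟨y, hy⟩ : Y) ∈ Subtype.val ⁻¹' V := by rw [hVu]; exact hyu
      exact this
    rcases T.eq_empty_or_nonempty with he | hne
    · refine ⟨fun _ => ∅, fun _ => isOpen_empty, ?_, fun _ => ⟨∅, mem_insert _ _, by simp⟩⟩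
      rw [he] at hYT
      simpa using hYT
    · obtain ⟨V, hV⟩ := hT1.exists_eq_range hne
      refine ⟨V, fun j => (hT2 (by rw [hV]; exact ⟨j, rfl⟩)).1, ?_, fun j => ?_⟩
      · rw [hV, sUnion_range] at hYT
        exact hYT
      · obtain ⟨-, u, hu, hsub⟩ := hT2 (show V j ∈ T by rw [hV]; exact ⟨j, rfl⟩)
        exact ⟨u, mem_insert_of_mem _ hu, hsub⟩
  choose V hVo hYV u hu hVu using h1
  -- increasing unions
  let W : ℕ → ℕ → Set ℝ := fun n k => ⋃ j ∈ Finset.range k, V n j
  have hWo : ∀ n k, IsOpen (W n k) := fun n k =>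
    isOpen_biUnion fun j _ => hVo n j
  let G : ℕ → Set ℝ := fun n => ⋃ j, V n j
  have hGo : ∀ n, IsOpen (G n) := fun n => isOpen_iUnion (hVo n)
  have hsmall : ∀ n : ℕ, ∃ k, volume ((Icc (-(n : ℝ)) n ∩ G n) \ W n k) ≤ (2⁻¹ : ℝ≥0∞) ^ n := by
    intro n
    have hanti : Antitone fun k => (Icc (-(n : ℝ)) n ∩ G n) \ W n k := by
      intro k l hkl
      apply sdiff_subset_sdiff_right
      exact biUnion_subset_biUnion_left (Finset.range_mono hkl)
    have hmeas : ∀ k, NullMeasurableSet ((Icc (-(n : ℝ)) n ∩ G n) \ W n k) volume := fun k =>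
      ((measurableSet_Icc.inter (hGo n).measurableSet).diff (hWo n k).measurableSet).nullMeasurableSet
    have hfin : ∃ k, volume ((Icc (-(n : ℝ)) n ∩ G n) \ W n k) ≠ ⊤ := by
      refine ⟨0, ?_⟩
      apply ne_top_of_le_ne_top (b := volume (Icc (-(n : ℝ)) n))
      · simp
      · exact measure_mono (sdiff_subset.trans inter_subset_left)
    have hlim := tendsto_measure_iInter_atTop hmeas hanti hfin
    have hempty : (⋂ k, (Icc (-(n : ℝ)) n ∩ G n) \ W n k) = ∅ := by
      rw [eq_empty_iff_forall_notMem]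
      intro x hx
      rw [mem_iInter] at hx
      obtain ⟨j, hj⟩ := mem_iUnion.1 (hx 0).1.2
      exact (hx (j + 1)).2 (mem_iUnion₂.2 ⟨j, by simp, hj⟩)
    rw [hempty, measure_empty] at hlim
    have hpos : (0 : ℝ≥0∞) < (2⁻¹ : ℝ≥0∞) ^ n := by
      apply ENNReal.pow_pos
      simp
    exact ((hlim.eventually_lt_const hpos).exists).imp fun k hk => hk.le
  choose k hk using hsmall
  let B : Set ℝ := limsup (fun n : ℕ => (Icc (-(n : ℝ)) n ∩ G n) \ W n (k n)) atTop
  have hB : volume B = 0 := by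
    apply measure_limsup_atTop_eq_zero
    apply ne_top_of_le_ne_top (b := ∑' n : ℕ, (2⁻¹ : ℝ≥0∞) ^ n)
    · rw [ENNReal.tsum_geometric]
      norm_num
    · exact ENNReal.tsum_le_tsum hk
  refine ⟨fun n => ((fun j => u n j) '' (Finset.range (k n) : Set ℕ)) ∩ U n, fun n =>
    ⟨inter_subset_right, ((Finset.finite_toSet _).image _).subset inter_subset_left⟩, ?_⟩
  have hcount : (Subtype.val ⁻¹' (Y ∩ B) : Set Y).Countable :=
    (hY B hB).preimage Subtype.val_injective
  refine hcount.mono ?_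
  intro y hy
  refine ⟨y.2, ?_⟩
  by_contra hcon
  apply hy
  have h2 : ∀ᶠ n : ℕ in atTop, (y : ℝ) ∉ (Icc (-(n : ℝ)) n ∩ G n) \ W n (k n) := by
    have : (y : ℝ) ∉ limsup (fun n : ℕ => (Icc (-(n : ℝ)) n ∩ G n) \ W n (k n)) atTop := hcon
    rw [Filter.limsup_eq_iInf_iSup_of_nat] at this
    simp only [iInf_eq_iInter, iSup_eq_iUnion, mem_iInter, mem_iUnion, not_forall] at this
    obtain ⟨n, hn⟩ := this
    filter_upwards [eventually_ge_atTop n] with m hm hmem
    exact hn ⟨m, hm, hmem⟩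
  obtain ⟨m, hm⟩ := exists_nat_ge |(y : ℝ)|
  filter_upwards [h2, eventually_ge_atTop m] with n hn hmn
  have hyI : (y : ℝ) ∈ Icc (-(n : ℝ)) n := by
    have : |(y : ℝ)| ≤ n := hm.trans (by exact_mod_cast hmn)
    exact abs_le.1 this
  have hyW : (y : ℝ) ∈ W n (k n) := by
    by_contra hcon2
    exact hn ⟨⟨hyI, hYV n y.2⟩, hcon2⟩
  obtain ⟨j, hj, hyj⟩ := mem_iUnion₂.1 hyW
  refine ⟨u n j, ⟨⟨j, by simpa using hj, rfl⟩, ?_⟩, hVu n j hyj⟩
  rcases hu n j with h3 | h3
  · have : y ∈ u n j := hVu n j hyj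
    rw [h3] at this
    exact absurd this (notMem_empty y)
  · exact h3

theorem volume_cantor : volume cantorSet = 0 := by
  have h1 : (fun x : ℝ => x / 3) '' cantorSet = (3⁻¹ : ℝ) • cantorSet := by
    rw [← image_smul]
    congr 1
    funext x
    rw [smul_eq_mul]
    ring
  have h2 : (fun x : ℝ => (2 + x) / 3) '' cantorSet =
      (fun y : ℝ => 2 / 3 + y) '' ((3⁻¹ : ℝ) • cantorSet) := by
    rw [← image_smul, image_image]
    congr 1
    funext x
    rw [smul_eq_mul]
    ring
  have h3 : volume ((3⁻¹ : ℝ) • cantorSet) = ENNReal.ofReal (3⁻¹) * volume cantorSet := by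
    rw [Measure.addHaar_smul]
    simp
  have h4 : volume ((fun y : ℝ => 2 / 3 + y) '' ((3⁻¹ : ℝ) • cantorSet)) =
      ENNReal.ofReal (3⁻¹) * volume cantorSet := by
    rw [image_add_left, measure_preimage_add, h3]
  have h5 : volume cantorSet ≤ ENNReal.ofReal (3⁻¹) * volume cantorSet +
      ENNReal.ofReal (3⁻¹) * volume cantorSet := by
    conv_lhs => rw [cantorSet_eq_union_halves]
    refine (measure_union_le _ _).trans ?_
    rw [h1, h2, h3, h4]
  have h6 : volume cantorSet ≠ ⊤ := by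
    apply ne_top_of_le_ne_top _ (measure_mono cantorSet_subset_unitInterval)
    simp
  rw [← add_mul, ← ENNReal.ofReal_add (by norm_num) (by norm_num)] at h5
  by_contra h0
  have h7 : ENNReal.ofReal (3⁻¹ + 3⁻¹) * volume cantorSet < 1 * volume cantorSet := by
    apply ENNReal.mul_lt_mul_left h0 h6
    rw [← ENNReal.ofReal_one]
    exact (ENNReal.ofReal_lt_ofReal_iff (by norm_num)).2 (by norm_num)
  rw [one_mul] at h7
  exact absurd h5 (not_le.2 h7)

/-- The embedding of the Cantor space onto the Cantor set. -/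
noncomputable def rho (w : ℕ → Bool) : ℝ := (cantorSetHomeomorphNatToBool.symm w : cantorSet)

theorem continuous_rho : Continuous rho :=
  continuous_subtype_val.comp cantorSetHomeomorphNatToBool.symm.continuous

theorem rho_injective : Function.Injective rho :=
  Subtype.val_injective.comp cantorSetHomeomorphNatToBool.symm.injective

theorem rho_mem (w : ℕ → Bool) : rho w ∈ cantorSet := (cantorSetHomeomorphNatToBool.symm w).2

/-- The basic step. -/
theorem sierpinski_step {S : Set ℝ} (hS : SierpinskiSet S) {N : Set ℝ} (hN : volume N = 0)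
    (hNm : MeasurableSet N) {Q : Set ℝ} (hQ : Q.Countable) (g : ℕ → ℕ) :
    ∃ y, y ∉ N ∧ (∀ s ∈ S, s + y ∉ Q) ∧ ∃ s ∈ S, ∃ f : ℕ → ℕ, (∀ n, g n ≤ f n) ∧
      s + y = rho (chi f) := by
  have hnc : ¬ Countable ℝ := by
    rw [← Cardinal.mk_le_aleph0_iff, not_le, Cardinal.mk_real]
    exact Cardinal.aleph0_lt_continuum
  let e1 : ℝ ≃ᵐ (ℕ → Bool) := PolishSpace.measurableEquivNatBoolOfNotCountable hnc
  let fw : (ℕ → Bool) → ℕ → ℕ := fun w n => g n + (w n).toNat
  have hfw : Continuous fw := by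
    apply continuous_pi
    intro n
    exact continuous_const.add ((continuous_of_discreteTopology (f := Bool.toNat)).comp
      (continuous_apply n : Continuous fun x : ℕ → Bool => x n))
  have hfwi : Function.Injective fw := by
    intro w w' h
    ext n
    have h1 : (w n).toNat = (w' n).toNat := by
      have := congrFun h n
      simp only [fw] at this
      omega
    revert h1
    cases w n <;> cases w' n <;> simp
  let θ : ℝ → ℝ := fun r => rho (chi (fw (e1 r)))
  have hθc : Continuous fun w => rho (chi (fw w)) :=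
    continuous_rho.comp (continuous_chi.comp hfw)
  have hθm : Measurable θ := hθc.measurable.comp e1.measurable
  have hθi : Function.Injective θ := fun x y h =>
    e1.injective (hfwi (chi_injective (rho_injective h)))
  -- Fubini
  let A : Set (ℝ × ℝ) := {p | θ p.2 - p.1 ∈ N}
  have hA : MeasurableSet A := by
    have : Measurable fun p : ℝ × ℝ => θ p.2 - p.1 :=
      (hθm.comp measurable_snd).sub measurable_fst
    exact this hNm
  have hA0 : (volume.prod volume) A = 0 := by
    rw [Measure.prod_apply_symm hA]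
    have h0 : ∀ r : ℝ, volume ((fun s : ℝ => (s, r)) ⁻¹' A) = 0 := by
      intro r
      have h1 : (fun s : ℝ => (s, r)) ⁻¹' A = (fun s => θ r - s) ⁻¹' N := rfl
      rw [h1]
      have hmp : MeasurePreserving (fun s : ℝ => θ r - s) volume volume :=
        Measure.measurePreserving_sub_left volume (θ r)
      rw [hmp.measure_preimage hNm.nullMeasurableSet]
      exact hN
    simp [h0]
  have hae := (Measure.measure_prod_null hA).1 hA0
  -- choose `s`
  have hE : volume {s : ℝ | ¬ volume (Prod.mk s ⁻¹' A) = 0} = 0 := hae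
  obtain ⟨s, hsS, hs⟩ : ∃ s ∈ S, volume (Prod.mk s ⁻¹' A) = 0 := by
    by_contra hcon
    push Not at hcon
    apply hS.1
    refine (hS.2 _ hE).mono ?_
    intro s hs
    exact ⟨hs, hcon s hs⟩
  -- bad parameters
  let C : Set ℝ := ⋃ q ∈ Q, {z : ℝ | z ∈ cantorSet ∧ s + q - z ∈ S}
  have hC : C.Countable := by
    apply hQ.biUnion
    intro q _
    have h1 : volume ((fun z => s + q - z) ⁻¹' cantorSet) = 0 := by
      have hmp : MeasurePreserving (fun z : ℝ => s + q - z) volume volume :=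
        Measure.measurePreserving_sub_left volume (s + q)
      rw [hmp.measure_preimage isClosed_cantorSet.measurableSet.nullMeasurableSet]
      exact volume_cantor
    have h2 := hS.2 _ h1
    have h3 : {z : ℝ | z ∈ cantorSet ∧ s + q - z ∈ S} ⊆
        (fun x => s + q - x) '' (S ∩ (fun z => s + q - z) ⁻¹' cantorSet) := by
      rintro z ⟨hz1, hz2⟩
      exact ⟨s + q - z, ⟨hz2, by simpa using hz1⟩, by ring⟩
    exact (h2.image _).mono h3
  have hbad : volume (Prod.mk s ⁻¹' A ∪ θ ⁻¹' C) = 0 := by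
    apply measure_union_null hs
    exact (hC.preimage hθi).measure_zero _
  obtain ⟨r, hr⟩ : ∃ r, r ∉ Prod.mk s ⁻¹' A ∪ θ ⁻¹' C := by
    by_contra hcon
    push Not at hcon
    have : Prod.mk s ⁻¹' A ∪ θ ⁻¹' C = Set.univ := eq_univ_of_forall hcon
    rw [this] at hbad
    simp at hbad
  have hr1 : θ r - s ∉ N := fun h => hr (Or.inl h)
  have hr2 : θ r ∉ C := fun h => hr (Or.inr h)
  refine ⟨θ r - s, hr1, ?_, s, hsS, fw (e1 r), fun n => Nat.le_add_right _ _, by ring⟩
  intro s' hs' hq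
  apply hr2
  refine mem_iUnion₂.2 ⟨_, hq, rho_mem _, ?_⟩
  have : s + (s' + (θ r - s)) - θ r = s' := by ring
  rw [this]
  exact hs'

end Pool.Agent.H752R3
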