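import Pool.Agent.H752R3.SierpBasics

/-!
Michael-type refinements of `(S + ℚ) ∪ (S + r)` for a Sierpiński set `S`.
-/

set_option autoImplicit false

namespace Pool.Agent.H752R3

open Set Filter MeasureTheory Topology
open scoped ENNReal Pointwise Cardinal

/-- `Z ∪ X` with the Euclidean topology refined by isolating the points of `X`. -/
def Mich (Z X : Set ℝ) : Type := {y : ℝ // y ∈ Z ∪ X}

instance (Z X : Set ℝ) : TopologicalSpace (Mich Z X) where
  IsOpen V := ∀ y ∈ V, y.1 ∈ X ∨ ∃ U : Set ℝ, IsOpen U ∧ y.1 ∈ U ∧ ∀ w : Mich Z X, w.1 ∈ U → w ∈ V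
  isOpen_univ := fun y _ => Or.inr ⟨univ, isOpen_univ, trivial, fun _ _ => trivial⟩
  isOpen_inter := fun V V' hV hV' y hy => by
    rcases hV y hy.1 with h | ⟨U, h1, h2, h3⟩
    · exact Or.inl h
    · rcases hV' y hy.2 with h | ⟨U', h1', h2', h3'⟩
      · exact Or.inl h
      · exact Or.inr ⟨U ∩ U', h1.inter h1', ⟨h2, h2'⟩, fun w hw => ⟨h3 w hw.1, h3' w hw.2⟩⟩
  isOpen_sUnion := fun 𝒱 h𝒱 y hy => by
    obtain ⟨V, hV, hyV⟩ := hy
    rcases h𝒱 V hV y hyV with h | ⟨U, h1, h2, h3⟩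
    · exact Or.inl h
    · exact Or.inr ⟨U, h1, h2, fun w hw => ⟨V, hV, h3 w hw⟩⟩

theorem Mich.isOpen_iff {Z X : Set ℝ} {V : Set (Mich Z X)} : IsOpen V ↔
    ∀ y ∈ V, y.1 ∈ X ∨ ∃ U : Set ℝ, IsOpen U ∧ y.1 ∈ U ∧ ∀ w : Mich Z X, w.1 ∈ U → w ∈ V :=
  Iff.rfl

theorem Mich.continuous_val (Z X : Set ℝ) : Continuous (fun y : Mich Z X => y.1) := by
  refine ⟨fun U hU => ?_⟩
  intro y hy
  exact Or.inr ⟨U, hU, hy, fun w hw => hw⟩

theorem Mich.isOpen_singleton {Z X : Set ℝ} {y : Mich Z X} (hy : y.1 ∈ X) :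
    IsOpen ({y} : Set (Mich Z X)) := by
  intro w hw
  rw [mem_singleton_iff.1 hw]
  exact Or.inl hy

instance (Z X : Set ℝ) : T2Space (Mich Z X) :=
  T2Space.of_injective_continuous (f := fun y : Mich Z X => y.1) Subtype.val_injective
    (Mich.continuous_val Z X)

instance (Z X : Set ℝ) : CompletelyRegularSpace (Mich Z X) where
  completely_regular := by
    classical
    intro x K hK hx
    rcases Mich.isOpen_iff.1 hK.isOpen_compl x hx with h | ⟨U, h1, h2, h3⟩
    · refine ⟨fun y => if y = x then 0 else 1, ?_, by simp, ?_⟩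
      · have hopen : IsOpen ({x} : Set (Mich Z X)) := Mich.isOpen_singleton h
        refine continuous_def.2 fun O _ => ?_
        by_cases h0 : (0 : unitInterval) ∈ O
        · by_cases h1 : (1 : unitInterval) ∈ O
          · have : (fun y : Mich Z X => if y = x then (0 : unitInterval) else 1) ⁻¹' O = univ := by
              rw [eq_univ_iff_forall]
              intro y
              by_cases hy : y = x
              · simpa [hy] using h0
              · simpa [hy] using h1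
            rw [this]
            exact isOpen_univ
          · have : (fun y : Mich Z X => if y = x then (0 : unitInterval) else 1) ⁻¹' O = {x} := by
              ext y
              by_cases hy : y = x
              · simpa [hy] using h0
              · simpa [hy] using h1
            rw [this]
            exact hopen
        · by_cases h1 : (1 : unitInterval) ∈ O
          · have : (fun y : Mich Z X => if y = x then (0 : unitInterval) else 1) ⁻¹' O = {x}ᶜ := by
              ext y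
              by_cases hy : y = x
              · simpa [hy] using h0
              · simpa [hy] using h1
            rw [this]
            exact isOpen_compl_singleton
          · have : (fun y : Mich Z X => if y = x then (0 : unitInterval) else 1) ⁻¹' O = ∅ := by
              rw [eq_empty_iff_forall_notMem]
              intro y
              by_cases hy : y = x
              · simpa [hy] using h0
              · simpa [hy] using h1
            rw [this]
            exact isOpen_empty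
      · intro y hy
        have : y ≠ x := by
          rintro rfl
          exact hx hy
        simp [this]
    · obtain ⟨g, hg1, hg2, hg3⟩ := CompletelyRegularSpace.completely_regular x.1 Uᶜ
        h1.isClosed_compl (fun h => h h2)
      refine ⟨fun y => g y.1, hg1.comp (Mich.continuous_val Z X), hg2, ?_⟩
      intro y hy
      exact hg3 (fun hyU => h3 y hyU hy)

instance (Z X : Set ℝ) : T35Space (Mich Z X) where

/-- The key measure-theoretic lemma. -/
theorem countable_translate_diff {S : Set ℝ} (hS : ∀ N : Set ℝ, volume N = 0 → (S ∩ N).Countable)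
    {G : Set ℝ} (hG : MeasurableSet G) (hSG : ∀ s ∈ S, ∀ q : ℚ, s + q ∈ G) (r : ℝ) :
    {s | s ∈ S ∧ s + r ∉ G}.Countable := by
  classical
  let B : Set ℝ := toMeasurable volume S
  have hBm : MeasurableSet B := measurableSet_toMeasurable _ _
  have hSB : S ⊆ B := subset_toMeasurable _ _
  have hmeas : ∀ a : ℝ, MeasurableSet {x : ℝ | x + a ∈ Gᶜ} := fun a =>
    measurableSet_preimage (measurable_id.add_const a) hG.compl
  have hmeasB : ∀ a : ℝ, MeasurableSet {x : ℝ | x + a ∈ B} := fun a =>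
    measurableSet_preimage (measurable_id.add_const a) hBm
  have h0 : ∀ q : ℚ, volume {x : ℝ | x ∈ B ∧ x + q ∈ Gᶜ} = 0 := by
    intro q
    have h1 : {x : ℝ | x ∈ B ∧ x + q ∈ Gᶜ} = toMeasurable volume S ∩ {x : ℝ | x + q ∈ Gᶜ} := rfl
    rw [h1, Measure.measure_toMeasurable_inter_of_sFinite (hmeas q)]
    have h2 : S ∩ {x : ℝ | x + q ∈ Gᶜ} = ∅ := by
      rw [eq_empty_iff_forall_notMem]
      rintro s ⟨hs, hs2⟩
      exact hs2 (hSG s hs q)
    rw [h2, measure_empty]
  let P : Set ℝ := {x | x ∈ B ∧ x + r ∈ Gᶜ}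
  have hPm : MeasurableSet P := hBm.inter (hmeas r)
  by_cases hP : volume P = 0
  · refine (hS P hP).mono ?_
    rintro s ⟨hs, hs2⟩
    exact ⟨hs, hSB hs, hs2⟩
  exfalso
  let R : Set ℝ := ⋃ q : ℚ, {x | x + (r - q) ∈ B ∧ x + r ∈ Gᶜ}
  have hRm : MeasurableSet R := MeasurableSet.iUnion fun q => (hmeasB (r - q)).inter (hmeas r)
  have hR : volume R = 0 := by
    rw [measure_iUnion_null_iff]
    intro q
    have h1 : {x : ℝ | x + (r - q) ∈ B ∧ x + r ∈ Gᶜ} =
        (fun x => x + (r - q)) ⁻¹' {x : ℝ | x ∈ B ∧ x + q ∈ Gᶜ} := by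
      ext x
      simp only [mem_preimage, mem_ofPred_eq]
      have : x + (r - q) + q = x + r := by ring
      rw [this]
    rw [h1, measure_preimage_add_right]
    exact h0 q
  have hP' : 0 < volume (P \ R) := by
    rw [measure_sdiff_null hR]
    exact pos_iff_ne_zero.2 hP
  have hst := MeasureTheory.Measure.sub_mem_nhds_zero_of_addHaar_pos volume (P \ R)
    (hPm.diff hRm) hP'
  obtain ⟨ε, hε, hball⟩ := Metric.mem_nhds_iff.1 hst
  obtain ⟨q, hq1, hq2⟩ := exists_rat_btwn (show r - ε < r by linarith)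
  have hmem : r - q ∈ P \ R - P \ R := by
    apply hball
    rw [Metric.mem_ball, Real.dist_eq, abs_lt]
    constructor <;> linarith
  obtain ⟨x, hx, x', hx', hxx⟩ := hmem
  apply hx'.2
  refine mem_iUnion.2 ⟨q, ?_, hx'.1.2⟩
  have h3 : x' + (r - q) = x := by
    have h4 : x - x' = r - q := hxx
    linarith
  rw [h3]
  exact hx.1.1

/-- The refined space is Hurewicz. -/
theorem hurewicz_mich {Z X : Set ℝ} (hZX : Disjoint Z X)
    (hY : ∀ N : Set ℝ, volume N = 0 → ((Z ∪ X) ∩ N).Countable)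
    (hZ : ∀ G : Set ℝ, MeasurableSet G → Z ⊆ G → (X \ G).Countable) : HurewiczSp (Mich Z X) := by
  classical
  apply hurewicz_of_mod_countable
  intro U hU
  -- countable subcovers by traces of open sets of reals
  have h1 : ∀ n, ∃ V : ℕ → Set ℝ, (∀ j, IsOpen (V j)) ∧ Z ⊆ ⋃ j, V j ∧
      ∀ j, ∃ u ∈ insert ∅ (U n), (fun y : Mich Z X => y.1) ⁻¹' V j ⊆ u := by
    intro n
    let 𝒱 : Set (Set ℝ) := {V | IsOpen V ∧ ∃ u ∈ U n, (fun y : Mich Z X => y.1) ⁻¹' V ⊆ u}
    obtain ⟨T, hT1, hT2, hT3⟩ := TopologicalSpace.isOpen_sUnion_countable 𝒱 (fun V hV => hV.1)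
    have hYT : Z ⊆ ⋃₀ T := by
      rw [hT3]
      intro y hy
      have : (⟨y, Or.inl hy⟩ : Mich Z X) ∈ ⋃₀ U n := by rw [(hU n).2]; trivial
      obtain ⟨u, hu, hyu⟩ := this
      rcases Mich.isOpen_iff.1 ((hU n).1 u hu) _ hyu with h | ⟨V, hV1, hV2, hV3⟩
      · exact absurd h (disjoint_left.1 hZX hy)
      · exact ⟨V, ⟨hV1, u, hu, hV3⟩, hV2⟩
    rcases T.eq_empty_or_nonempty with he | hne
    · refine ⟨fun _ => ∅, fun _ => isOpen_empty, ?_, fun _ => ⟨∅, mem_insert _ _, by simp⟩⟩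
      rw [he] at hYT
      simpa using hYT
    · obtain ⟨V, hV⟩ := hT1.exists_eq_range hne
      refine ⟨V, fun j => (hT2 (by rw [hV]; exact ⟨j, rfl⟩)).1, ?_, fun j => ?_⟩
      · rw [hV, sUnion_range] at hYT
        exact hYT
      · obtain ⟨-, u, hu, hsub⟩ := hT2 (show V j ∈ T by rw [hV]; exact ⟨j, rfl⟩)
        exact ⟨u, mem_insert_of_mem _ hu, hsub⟩
  choose V hVo hYV u hu hVu using h1
  -- increasing unions
  let W : ℕ → ℕ → Set ℝ := fun n k => ⋃ j ∈ Finset.range k, V n j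
  have hWo : ∀ n k, IsOpen (W n k) := fun n k =>
    isOpen_biUnion fun j _ => hVo n j
  let G : ℕ → Set ℝ := fun n => ⋃ j, V n j
  have hGo : ∀ n, IsOpen (G n) := fun n => isOpen_iUnion (hVo n)
  have hsmall : ∀ n : ℕ, ∃ k, volume ((Icc (-(n : ℝ)) n ∩ G n) \ W n k) ≤ (2⁻¹ : ℝ≥0∞) ^ n := by
    intro n
    have hanti : Antitone fun k => (Icc (-(n : ℝ)) n ∩ G n) \ W n k := by
      intro k l hkl
      apply sdiff_subset_sdiff_right
      exact biUnion_subset_biUnion_left (Finset.range_mono hkl)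
    have hmeas : ∀ k, NullMeasurableSet ((Icc (-(n : ℝ)) n ∩ G n) \ W n k) volume := fun k =>
      ((measurableSet_Icc.inter (hGo n).measurableSet).diff (hWo n k).measurableSet).nullMeasurableSet
    have hfin : ∃ k, volume ((Icc (-(n : ℝ)) n ∩ G n) \ W n k) ≠ ⊤ := by
      refine ⟨0, ?_⟩
      apply ne_top_of_le_ne_top (b := volume (Icc (-(n : ℝ)) n))
      · simp
      · exact measure_mono (sdiff_subset.trans inter_subset_left)
    have hlim := tendsto_measure_iInter_atTop hmeas hanti hfin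
    have hempty : (⋂ k, (Icc (-(n : ℝ)) n ∩ G n) \ W n k) = ∅ := by
      rw [eq_empty_iff_forall_notMem]
      intro x hx
      rw [mem_iInter] at hx
      obtain ⟨j, hj⟩ := mem_iUnion.1 (hx 0).1.2
      exact (hx (j + 1)).2 (mem_iUnion₂.2 ⟨j, by simp, hj⟩)
    rw [hempty, measure_empty] at hlim
    have hpos : (0 : ℝ≥0∞) < (2⁻¹ : ℝ≥0∞) ^ n := by
      apply ENNReal.pow_pos
      simp
    exact ((hlim.eventually_lt_const hpos).exists).imp fun k hk => hk.le
  choose k hk using hsmall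
  let B : Set ℝ := limsup (fun n : ℕ => (Icc (-(n : ℝ)) n ∩ G n) \ W n (k n)) atTop
  have hB : volume B = 0 := by
    apply measure_limsup_atTop_eq_zero
    apply ne_top_of_le_ne_top (b := ∑' n : ℕ, (2⁻¹ : ℝ≥0∞) ^ n)
    · rw [ENNReal.tsum_geometric]
      norm_num
    · exact ENNReal.tsum_le_tsum hk
  have hXG : (X \ ⋂ n, G n).Countable := by
    apply hZ _ (MeasurableSet.iInter fun n => (hGo n).measurableSet)
    exact subset_iInter fun n => hYV n
  refine ⟨fun n => ((fun j => u n j) '' (Finset.range (k n) : Set ℕ)) ∩ U n, fun n =>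
    ⟨inter_subset_right, ((Finset.finite_toSet _).image _).subset inter_subset_left⟩, ?_⟩
  have hcount : ((fun y : Mich Z X => y.1) ⁻¹' (((Z ∪ X) ∩ B) ∪ (X \ ⋂ n, G n))).Countable :=
    ((hY B hB).union hXG).preimage Subtype.val_injective
  refine hcount.mono ?_
  intro y hy
  by_contra hcon
  rw [mem_preimage, mem_union, not_or] at hcon
  have hyB : y.1 ∉ B := fun h => hcon.1 ⟨y.2, h⟩
  have hyG : ∀ n, y.1 ∈ G n := by
    intro n
    rcases y.2 with h | h
    · exact hYV n h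
    · by_contra h2
      exact hcon.2 ⟨h, fun h3 => h2 (mem_iInter.1 h3 n)⟩
  apply hy
  have h2 : ∀ᶠ n : ℕ in atTop, y.1 ∉ (Icc (-(n : ℝ)) n ∩ G n) \ W n (k n) := by
    have : y.1 ∉ limsup (fun n : ℕ => (Icc (-(n : ℝ)) n ∩ G n) \ W n (k n)) atTop := hyB
    rw [Filter.limsup_eq_iInf_iSup_of_nat] at this
    simp only [iInf_eq_iInter, iSup_eq_iUnion, mem_iInter, mem_iUnion, not_forall] at this
    obtain ⟨n, hn⟩ := this
    filter_upwards [eventually_ge_atTop n] with m hm hmem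
    exact hn ⟨m, hm, hmem⟩
  obtain ⟨m, hm⟩ := exists_nat_ge |y.1|
  filter_upwards [h2, eventually_ge_atTop m] with n hn hmn
  have hyI : y.1 ∈ Icc (-(n : ℝ)) n := by
    have : |y.1| ≤ n := hm.trans (by exact_mod_cast hmn)
    exact abs_le.1 this
  have hyW : y.1 ∈ W n (k n) := by
    by_contra hcon2
    exact hn ⟨⟨hyI, hyG n⟩, hcon2⟩
  obtain ⟨j, hj, hyj⟩ := mem_iUnion₂.1 hyW
  refine ⟨u n j, ⟨⟨j, by simpa using hj, rfl⟩, ?_⟩, hVu n j hyj⟩
  rcases hu n j with h3 | h3
  · have : y ∈ u n j := hVu n j hyj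
    rw [h3] at this
    exact absurd this (notMem_empty y)
  · exact h3

/-- A Menger space is Lindelöf. -/
theorem MengerSp.lindelof {W : Type*} [TopologicalSpace W] (h : MengerSp W) {𝒰 : Set (Set W)}
    (h𝒰 : ∀ u ∈ 𝒰, IsOpen u) (hc : ⋃₀ 𝒰 = univ) : ∃ 𝒱 ⊆ 𝒰, 𝒱.Countable ∧ ⋃₀ 𝒱 = univ := by
  obtain ⟨F, hF1, hF2⟩ := h (fun _ => 𝒰) (fun _ => ⟨h𝒰, hc⟩)
  refine ⟨⋃ n, F n, iUnion_subset fun n => (hF1 n).1, countable_iUnion fun n =>
    (hF1 n).2.countable, ?_⟩
  rw [sUnion_iUnion]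
  exact hF2

theorem HurewiczSp.toMenger {W : Type*} [TopologicalSpace W] (h : HurewiczSp W) : MengerSp W := by
  intro U hU
  obtain ⟨F, hF1, hF2⟩ := h U hU
  refine ⟨F, hF1, ?_⟩
  rw [eq_univ_iff_forall]
  intro z
  obtain ⟨n, hn⟩ := (hF2 z).exists
  exact mem_iUnion.2 ⟨n, hn⟩

/-- For every Sierpiński set `S` of cardinality less than the continuum there is a Tychonoff
Hurewicz space `Y` such that `S × Y` is not Lindelöf. -/
theorem exists_bad_factor {S : Set ℝ} (hS : SierpinskiSet S) (hc : #S < 𝔠) :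
    ∃ (Y : Type) (_ : TopologicalSpace Y), T35Space Y ∧ HurewiczSp Y ∧
      ∃ 𝒰 : Set (Set (S × Y)), (∀ u ∈ 𝒰, IsOpen u) ∧ ⋃₀ 𝒰 = univ ∧
        ∀ 𝒱 ⊆ 𝒰, 𝒱.Countable → ⋃₀ 𝒱 ≠ univ := by
  classical
  -- the translation
  obtain ⟨r, hr⟩ : ∃ r : ℝ, ∀ s ∈ S, ∀ t ∈ S, ∀ q : ℚ, s + q ≠ t + r := by
    by_contra hcon
    push Not at hcon
    have h1 : Function.Surjective (fun p : (S × S) × ℚ => (p.1.1 : ℝ) - p.1.2 + p.2) := by
      intro r
      obtain ⟨s, hs, t, ht, q, h⟩ := hcon r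
      refine ⟨⟨⟨⟨s, hs⟩, ⟨t, ht⟩⟩, q⟩, ?_⟩
      simp only
      linarith
    have h2 := Cardinal.mk_le_of_surjective h1
    simp only [Cardinal.mk_real, Cardinal.mk_prod, Cardinal.lift_id, Cardinal.mkRat] at h2
    have hinf : ℵ₀ ≤ #S := by
      rw [Cardinal.aleph0_le_mk_iff, Set.infinite_coe_iff]
      exact fun hf => hS.1 hf.countable
    rw [Cardinal.mul_eq_self hinf, Cardinal.mul_eq_left hinf hinf Cardinal.aleph0_ne_zero] at h2
    exact absurd h2 (not_le.2 hc)
  let Z : Set ℝ := {y | ∃ s ∈ S, ∃ q : ℚ, y = s + q}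
  let X : Set ℝ := {y | ∃ s ∈ S, y = s + r}
  have hZX : Disjoint Z X := by
    rw [disjoint_left]
    rintro y ⟨s, hs, q, rfl⟩ ⟨t, ht, h⟩
    exact hr s hs t ht q h
  have htr : ∀ a : ℝ, ∀ N : Set ℝ, volume N = 0 → {s | s ∈ S ∧ s + a ∈ N}.Countable := by
    intro a N hN
    have h1 : volume ((fun x => x + a) ⁻¹' N) = 0 := by
      rw [measure_preimage_add_right]
      exact hN
    exact hS.2 _ h1
  have hY : ∀ N : Set ℝ, volume N = 0 → ((Z ∪ X) ∩ N).Countable := by
    intro N hN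
    have h1 : (Z ∪ X) ∩ N ⊆ (⋃ q : ℚ, (fun s => s + (q : ℝ)) '' {s | s ∈ S ∧ s + q ∈ N}) ∪
        (fun s => s + r) '' {s | s ∈ S ∧ s + r ∈ N} := by
      rintro y ⟨⟨s, hs, q, rfl⟩ | ⟨s, hs, rfl⟩, hyN⟩
      · exact Or.inl (mem_iUnion.2 ⟨q, s, ⟨hs, hyN⟩, rfl⟩)
      · exact Or.inr ⟨s, ⟨hs, hyN⟩, rfl⟩
    exact ((countable_iUnion fun q : ℚ => (htr q N hN).image _).union
      ((htr r N hN).image _)).mono h1
  have hZ : ∀ G : Set ℝ, MeasurableSet G → Z ⊆ G → (X \ G).Countable := by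
    intro G hG hZG
    have h1 := countable_translate_diff hS.2 hG (fun s hs q => hZG ⟨s, hs, q, rfl⟩) r
    refine (h1.image (fun s => s + r)).mono ?_
    rintro y ⟨⟨s, hs, rfl⟩, hyG⟩
    exact ⟨s, ⟨hs, hyG⟩, rfl⟩
  refine ⟨Mich Z X, inferInstance, inferInstance, hurewicz_mich hZX hY hZ, ?_⟩
  let pt : S → Mich Z X := fun s => ⟨s.1 + r, Or.inr ⟨s.1, s.2, rfl⟩⟩
  let O : S → Set (S × Mich Z X) := fun s => {p | p.2 = pt s}
  have hO : ∀ s, IsOpen (O s) := fun s =>
    (Mich.isOpen_singleton (y := pt s) ⟨s.1, s.2, rfl⟩).preimage continuous_snd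
  let C : Set (S × Mich Z X) := {p | p.2.1 ≠ p.1.1 + r}
  have hC : IsOpen C := by
    have : IsClosed {p : S × Mich Z X | p.2.1 = p.1.1 + r} :=
      isClosed_eq ((Mich.continuous_val Z X).comp continuous_snd)
        ((continuous_subtype_val.comp continuous_fst).add continuous_const)
    exact this.isOpen_compl
  refine ⟨insert C (range O), ?_, ?_, ?_⟩
  · rintro u (rfl | ⟨s, rfl⟩)
    · exact hC
    · exact hO s
  · rw [eq_univ_iff_forall]
    rintro ⟨s, y⟩
    by_cases h : y.1 = s.1 + r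
    · refine ⟨O s, Or.inr ⟨s, rfl⟩, ?_⟩
      exact Subtype.ext h
    · exact ⟨C, Or.inl rfl, h⟩
  · intro 𝒱 h𝒱 hcount hcov
    apply hS.1
    have h1 : (O ⁻¹' 𝒱).Countable := by
      apply hcount.preimage_of_injOn
      intro s _ t _ hst
      have h2 : ((s, pt s) : S × Mich Z X) ∈ O s := rfl
      rw [hst] at h2
      have h3 : pt s = pt t := h2
      have h4 : s.1 + r = t.1 + r := congrArg (fun y : Mich Z X => y.1) h3
      exact Subtype.ext (by linarith)
    have h5 : S ⊆ (fun s : S => s.1) '' (O ⁻¹' 𝒱) := by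
      intro s hs
      have h6 : ((⟨s, hs⟩, pt ⟨s, hs⟩) : S × Mich Z X) ∈ ⋃₀ 𝒱 := by rw [hcov]; trivial
      obtain ⟨v, hv, hsv⟩ := h6
      rcases h𝒱 hv with rfl | ⟨t, rfl⟩
      · exact absurd rfl hsv
      · have h7 : pt ⟨s, hs⟩ = pt t := hsv
        have h8 : s + r = t.1 + r := congrArg (fun y : Mich Z X => y.1) h7
        refine ⟨t, hv, ?_⟩
        simp only
        linarith
    exact (h1.image _).mono h5

end Pool.Agent.H752R3
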