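import Mathlib

/-!
Star-Hurewicz Isbell-Mrowka spaces.
-/

set_option autoImplicit false
set_option linter.all false

namespace Pool.Agent.H752R3.StarHur

open Set
open scoped Cardinal

/-- Almost disjoint families of infinite sets of natural numbers. -/
structure IsAD (𝒜 : Set (Set ℕ)) : Prop where
  inf : ∀ A ∈ 𝒜, A.Infinite
  ad : ∀ A ∈ 𝒜, ∀ B ∈ 𝒜, A ≠ B → (A ∩ B).Finite

/-- The Isbell-Mrowka space of `𝒜`: its points are the natural numbers and the members of `𝒜`. -/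
def Psi (𝒜 : Set (Set ℕ)) : Type := ℕ ⊕ 𝒜

/-- The topology: natural numbers are isolated, and neighbourhoods of `A` contain almost all
elements of `A`. -/
instance (𝒜 : Set (Set ℕ)) : TopologicalSpace (Psi 𝒜) where
  IsOpen U := ∀ A : 𝒜, (Sum.inr A : ℕ ⊕ 𝒜) ∈ U →
    ∃ F : Set ℕ, F.Finite ∧ ∀ n ∈ A.1, n ∉ F → (Sum.inl n : ℕ ⊕ 𝒜) ∈ U
  isOpen_univ := fun _ _ => ⟨∅, finite_empty, fun _ _ _ => trivial⟩
  isOpen_inter := by
    intro U V hU hV A hA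
    obtain ⟨F, hF, h1⟩ := hU A hA.1
    obtain ⟨G, hG, h2⟩ := hV A hA.2
    exact ⟨F ∪ G, hF.union hG, fun n hn hnF => ⟨h1 n hn fun h => hnF (Or.inl h),
      h2 n hn fun h => hnF (Or.inr h)⟩⟩
  isOpen_sUnion := by
    intro S hS A hA
    obtain ⟨U, hU, hAU⟩ := hA
    obtain ⟨F, hF, h1⟩ := hS U hU A hAU
    exact ⟨F, hF, fun n hn hnF => ⟨U, hU, h1 n hn hnF⟩⟩

/-- The star of `S` with respect to `U`. -/
def st {X : Type*} (S : Set X) (U : Set (Set X)) : Set X := ⋃₀ {V | V ∈ U ∧ (V ∩ S).Nonempty}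

/-- The star-Hurewicz property. -/
def StarHurewicz (X : Type*) [TopologicalSpace X] : Prop :=
  ∀ U : ℕ → Set (Set X), (∀ n, (∀ V ∈ U n, IsOpen V) ∧ ⋃₀ (U n) = univ) →
    ∃ F : ℕ → Set (Set X), (∀ n, (F n).Finite ∧ F n ⊆ U n) ∧
      ∀ x, ∃ N, ∀ n, N ≤ n → x ∈ st (⋃₀ (F n)) (U n)

/-- unbounded families of functions -/
def Unbounded (G : Set (ℕ → ℕ)) : Prop := ∀ g : ℕ → ℕ, ∃ f ∈ G, ∀ N, ∃ n, N ≤ n ∧ g n < f n

/-- The unbounding number. -/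
noncomputable def bNumber : Cardinal.{0} := sInf {κ | ∃ G : Set (ℕ → ℕ), #G = κ ∧ Unbounded G}

theorem exists_b : ∃ G : Set (ℕ → ℕ), #G = bNumber ∧ Unbounded G := by
  have h : {κ | ∃ G : Set (ℕ → ℕ), #G = κ ∧ Unbounded G}.Nonempty :=
    ⟨_, univ, rfl, fun g => ⟨fun n => g n + 1, trivial, fun N => ⟨N, le_rfl, Nat.lt_succ_self _⟩⟩⟩
  exact csInf_mem h

theorem not_countable_unbounded {G : Set (ℕ → ℕ)} (hG : Unbounded G) : ¬ G.Countable := by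
  intro hc
  have hne : G.Nonempty := by
    obtain ⟨f, hf, -⟩ := hG (fun _ => 0)
    exact ⟨f, hf⟩
  obtain ⟨e, he⟩ := hc.exists_eq_range hne
  obtain ⟨f, hf, h1⟩ := hG (fun n => ∑ i ∈ Finset.range (n + 1), e i n)
  rw [he] at hf
  obtain ⟨i, rfl⟩ := hf
  obtain ⟨n, hn, h2⟩ := h1 i
  have h3 : e i n ≤ ∑ i ∈ Finset.range (n + 1), e i n :=
    Finset.single_le_sum (f := fun i => e i n) (fun _ _ => Nat.zero_le _)
      (Finset.mem_range.2 (by omega))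
  omega

theorem aleph0_lt_b : ℵ₀ < bNumber := by
  obtain ⟨G, hG, hU⟩ := exists_b
  rw [← hG]
  by_contra h
  rw [not_lt, Cardinal.mk_le_aleph0_iff] at h
  exact not_countable_unbounded hU h

/-- a family of countable sets cofinal in all countable subsets -/
def HasCof (α : Type) : Prop :=
  ∃ 𝒞 : Set (Set α), #𝒞 ≤ #α ∧ (∀ C ∈ 𝒞, C.Countable) ∧
    ∀ D : Set α, D.Countable → ∃ C ∈ 𝒞, D ⊆ C

theorem main {𝒜 : Set (Set ℕ)} (hA : IsAD 𝒜) (hb : bNumber ≤ #𝒜) (hc : HasCof 𝒜) :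
    ¬ StarHurewicz (Psi 𝒜) := by
  classical
  intro hH
  obtain ⟨𝒞, hC1, hC2, hC3⟩ := hc
  obtain ⟨G, hG, hGU⟩ := exists_b
  have hunc : ℵ₀ < #𝒜 := aleph0_lt_b.trans_le hb
  have hinf : ℵ₀ ≤ #𝒜 := hunc.le
  obtain ⟨ι⟩ : Nonempty (((𝒞 × G) × 𝒜) ↪ 𝒜) := by
    rw [← Cardinal.le_def]
    rw [Cardinal.mk_prod, Cardinal.mk_prod]
    simp only [Cardinal.lift_id]
    calc #𝒞 * #G * #𝒜 ≤ #𝒜 * #𝒜 * #𝒜 := by
          gcongr
          rw [hG]
          exact hb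
      _ = #𝒜 := by rw [Cardinal.mul_eq_self hinf, Cardinal.mul_eq_self hinf]
  have hpick : ∀ j : 𝒞 × G, ∃ a : 𝒜, ι (j, a) ∉ (j.1 : Set 𝒜) := by
    intro j
    by_contra hcon
    push Not at hcon
    have h1 : (range fun a : 𝒜 => ι (j, a)).Countable :=
      (hC2 _ j.1.2).mono (by rintro _ ⟨a, rfl⟩; exact hcon a)
    have h2 : Function.Injective fun a : 𝒜 => ι (j, a) := fun a b hab =>
      (Prod.ext_iff.1 (ι.injective hab)).2
    have h3 : Countable (range fun a : 𝒜 => ι (j, a)) := h1.to_subtype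
    have h4 : Countable 𝒜 := (Equiv.ofInjective _ h2).countable_iff.mpr h3
    rw [← Cardinal.mk_le_aleph0_iff] at h4
    exact absurd h4 (not_le.2 hunc)
  choose pk hpk using hpick
  let Bj : 𝒞 × G → 𝒜 := fun j => ι (j, pk j)
  have hBinj : Function.Injective Bj := fun j j' h => (Prod.ext_iff.1 (ι.injective h)).1
  have hidx : ∀ C : 𝒞, ∃ f : 𝒜 → ℕ, InjOn f (C : Set 𝒜) := fun C =>
    Set.countable_iff_exists_injOn.1 (hC2 _ C.2)
  choose ix hix using hidx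
  have hbd : ∀ (j : 𝒞 × G) (n : ℕ), ∃ m : ℕ, ∀ k ∈ (Bj j).1,
      (k < j.2.1 n ∨ ∃ A ∈ (j.1 : Set 𝒜), ix j.1 A < j.2.1 n ∧ k ∈ A.1) → k < m := by
    intro j n
    have h1 : {A | A ∈ (j.1 : Set 𝒜) ∧ ix j.1 A < j.2.1 n}.Finite := by
      apply Set.Finite.of_finite_image (f := ix j.1)
      · apply (finite_lt_nat (j.2.1 n)).subset
        rintro _ ⟨A, hA, rfl⟩
        exact hA.2
      · exact (hix j.1).mono fun A hA => hA.1
    have h2 : ({k | k < j.2.1 n} ∪ ⋃ A ∈ {A | A ∈ (j.1 : Set 𝒜) ∧ ix j.1 A < j.2.1 n},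
        (Bj j).1 ∩ A.1).Finite := by
      apply (finite_lt_nat _).union
      apply h1.biUnion
      intro A hA'
      apply hA.ad _ (Bj j).2 _ A.2
      intro h
      have h3 : Bj j = A := Subtype.ext h
      apply hpk j
      change Bj j ∈ _
      rw [h3]
      exact hA'.1
    obtain ⟨M, hM⟩ := h2.bddAbove
    refine ⟨M + 1, fun k hk h => ?_⟩
    have h3 : k ≤ M := by
      apply hM
      rcases h with h | ⟨A, hA1, hA2, hkA⟩
      · exact Or.inl h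
      · exact Or.inr (mem_biUnion (show A ∈ {A | A ∈ (j.1 : Set 𝒜) ∧ ix j.1 A < j.2.1 n} from
          ⟨hA1, hA2⟩) ⟨hk, hkA⟩)
    omega
  choose m hm using hbd
  let f : 𝒜 → ℕ → ℕ := fun A n => if h : ∃ j, Bj j = A then m h.choose n else 0
  have hf : ∀ j n, f (Bj j) n = m j n := by
    intro j n
    have h : ∃ j', Bj j' = Bj j := ⟨j, rfl⟩
    simp only [f, dif_pos h]
    rw [hBinj h.choose_spec]
  let W : 𝒜 → ℕ → Set (Psi 𝒜) := fun A n =>
    {y | y = (Sum.inr A : ℕ ⊕ 𝒜) ∨ ∃ k ∈ A.1, f A n ≤ k ∧ y = (Sum.inl k : ℕ ⊕ 𝒜)}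
  let P : ℕ → Set (Psi 𝒜) := fun k => {(Sum.inl k : ℕ ⊕ 𝒜)}
  let U : ℕ → Set (Set (Psi 𝒜)) := fun n => range P ∪ range fun A => W A n
  have hWA : ∀ A n, (Sum.inr A : ℕ ⊕ 𝒜) ∈ W A n := fun A n => Or.inl rfl
  have hWr : ∀ A B n, (Sum.inr B : ℕ ⊕ 𝒜) ∈ W A n → A = B := by
    rintro A B n (h | ⟨k, _, _, h⟩)
    · exact (Sum.inr_injective h).symm
    · cases h
  have hWl : ∀ A k n, (Sum.inl k : ℕ ⊕ 𝒜) ∈ W A n → k ∈ A.1 ∧ f A n ≤ k := by
    rintro A k n (h | ⟨k', h1, h2, h⟩)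
    · cases h
    · have := Sum.inl_injective h
      subst this
      exact ⟨h1, h2⟩
  have hU : ∀ n, (∀ V ∈ U n, IsOpen V) ∧ ⋃₀ (U n) = univ := by
    intro n
    constructor
    · rintro V (⟨k, rfl⟩ | ⟨A, rfl⟩)
      · intro B hB
        have h1 : (Sum.inr B : ℕ ⊕ 𝒜) = Sum.inl k := hB
        cases h1
      · intro B hB
        have h1 : A = B := hWr A B n hB
        subst h1
        refine ⟨{k | k < f A n}, finite_lt_nat _, fun k hk hkF => Or.inr ⟨k, hk, ?_, rfl⟩⟩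
        exact not_lt.1 hkF
    · rw [eq_univ_iff_forall]
      rintro (k | A)
      · exact ⟨P k, Or.inl (mem_range_self k), rfl⟩
      · exact ⟨W A n, Or.inr (mem_range_self A), hWA A n⟩
  obtain ⟨F, hF, hx⟩ := hH U hU
  have hfinA : ∀ n, {A | W A n ∈ F n}.Finite := by
    intro n
    apply Set.Finite.of_finite_image (f := fun A => W A n)
    · apply (hF n).1.subset
      rintro _ ⟨A, hA, rfl⟩
      exact hA
    · intro A _ B _ h
      have h1 : (Sum.inr A : ℕ ⊕ 𝒜) ∈ W B n := by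
        have h2 : W A n = W B n := h
        rw [← h2]
        exact hWA A n
      exact (hWr B A n h1).symm
  have hfinK : ∀ n, {k | P k ∈ F n}.Finite := by
    intro n
    apply Set.Finite.of_finite_image (f := P)
    · apply (hF n).1.subset
      rintro _ ⟨A, hA, rfl⟩
      exact hA
    · intro k _ l _ h
      have h1 : (Sum.inl k : ℕ ⊕ 𝒜) ∈ P l := by
        rw [← h]
        exact rfl
      exact Sum.inl_injective h1
  obtain ⟨C, hC, hDC⟩ := hC3 (⋃ n, {A | W A n ∈ F n})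
    (countable_iUnion fun n => (hfinA n).countable)
  have hg0 : ∀ n, ∃ g, (∀ k, P k ∈ F n → k < g) ∧ ∀ A, W A n ∈ F n → ix ⟨C, hC⟩ A < g := by
    intro n
    obtain ⟨M1, hM1⟩ := (hfinK n).bddAbove
    obtain ⟨M2, hM2⟩ := ((hfinA n).image (ix ⟨C, hC⟩)).bddAbove
    refine ⟨M1 + M2 + 1, fun k hk => ?_, fun A hA => ?_⟩
    · have := hM1 (show k ∈ {k | P k ∈ F n} from hk)
      omega
    · have := hM2 (mem_image_of_mem _ (show A ∈ {A | W A n ∈ F n} from hA))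
      omega
  choose g0 hgk hgA using hg0
  obtain ⟨g, hgG, hgg⟩ := hGU g0
  let j : 𝒞 × G := (⟨C, hC⟩, ⟨g, hgG⟩)
  obtain ⟨N, hN⟩ := hx (Sum.inr (Bj j) : ℕ ⊕ 𝒜)
  obtain ⟨n, hn, hlt⟩ := hgg N
  obtain ⟨V, ⟨hV, ⟨y, hyV, V', hV', hyV'⟩⟩, hBV⟩ := hN n hn
  have hVW : V = W (Bj j) n := by
    rcases hV with ⟨k, rfl⟩ | ⟨A, rfl⟩
    · have h1 : (Sum.inr (Bj j) : ℕ ⊕ 𝒜) = Sum.inl k := hBV
      cases h1
    · have h1 := hWr A (Bj j) n hBV
      rw [h1]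
  rw [hVW] at hyV
  have hnotC : Bj j ∉ C := hpk j
  have hV'U := (hF n).2 hV'
  rcases y with k | B
  · obtain ⟨hkB, hkf⟩ := hWl _ _ _ hyV
    rw [hf j n] at hkf
    have h1 : k < m j n := by
      apply hm j n k hkB
      rcases hV'U with ⟨k', rfl⟩ | ⟨A, rfl⟩
      · have h2 : k = k' := Sum.inl_injective hyV'
        subst h2
        exact Or.inl ((hgk n k hV').trans hlt)
      · exact Or.inr ⟨A, hDC (mem_iUnion.2 ⟨n, hV'⟩), (hgA n A hV').trans hlt,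
          (hWl A k n hyV').1⟩
    omega
  · have h1 : Bj j = B := hWr _ _ _ hyV
    rcases hV'U with ⟨k', rfl⟩ | ⟨A, rfl⟩
    · have h2 : (Sum.inr B : ℕ ⊕ 𝒜) = Sum.inl k' := hyV'
      cases h2
    · have h2 : A = B := hWr A B n hyV'
      apply hnotC
      rw [h1, ← h2]
      exact hDC (mem_iUnion.2 ⟨n, hV'⟩)

end Pool.Agent.H752R3.StarHur
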