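import Pool.Agent.H752R3.TowMain

/-!
The final example.
-/

set_option autoImplicit false
set_option linter.all false

namespace Pool.Agent.H752R3.Tow

open Set Filter Topology Pool.Agent.Helper185.Sel Pool.Agent.H752R3.Pairs
open scoped Cardinal

theorem mk_tk : #Tk ≤ 𝔠 := by
  have h1 : #(Set (List L)) = 𝔠 := by
    rw [Cardinal.mk_set]
    have : #(List L) = ℵ₀ := Cardinal.mk_eq_aleph0 (List L)
    rw [this]
    exact Cardinal.two_power_aleph0
  have h2 : #L = ℵ₀ := Cardinal.mk_eq_aleph0 L
  rw [Cardinal.mk_prod, Cardinal.mk_prod]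
  simp only [Cardinal.lift_id]
  have e1 : #(ℕ → ℕ → Set (List L)) = 𝔠 := by
    rw [← Cardinal.power_def, ← Cardinal.power_def, h1, Cardinal.mk_nat,
      Cardinal.continuum_power_aleph0, Cardinal.continuum_power_aleph0]
  have e2 : #(ℕ → ℕ) = 𝔠 := by
    rw [← Cardinal.power_def, Cardinal.mk_nat, Cardinal.aleph0_power_aleph0]
  have e3 : #(ℕ → L) = 𝔠 := by
    rw [← Cardinal.power_def, Cardinal.mk_nat, h2, Cardinal.aleph0_power_aleph0]
  rw [e1, e2, e3, Cardinal.continuum_mul_self, Cardinal.continuum_mul_self]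

instance : Encodable Lt := inferInstanceAs (Encodable (List Bool))

/-- coding of points by 0-1-sequences -/
noncomputable def cd (x : ℕ → Lt) : ℕ → Bool := fun n =>
  decide (Encodable.encode (x n.unpair.1) = n.unpair.2)

theorem cd_cont : Continuous cd := by
  apply continuous_pi
  intro n
  have h1 : Continuous (fun a : Lt => decide (Encodable.encode a = n.unpair.2)) :=
    continuous_of_discreteTopology
  exact h1.comp (continuous_apply n.unpair.1)

theorem cd_key (k : ℕ) (a : Lt) : {x : ℕ → Lt | x k = a} =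
    cd ⁻¹' {z | z (Nat.pair k (Encodable.encode a)) = true} := by
  ext x
  simp only [cd, mem_preimage, mem_ofPred_eq, Nat.unpair_pair, decide_eq_true_eq]
  constructor
  · intro h
    rw [h]
  · intro h
    exact Encodable.encode_injective h

theorem cd_emb : Topology.IsEmbedding cd := by
  refine ⟨⟨le_antisymm (continuous_iff_le_induced.1 cd_cont) ?_⟩, ?_⟩
  · refine le_iInf fun k => ?_
    rw [← continuous_iff_le_induced]
    letI : TopologicalSpace (ℕ → Lt) := TopologicalSpace.induced cd inferInstance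
    refine (continuous_discrete_rng).2 fun a => ?_
    refine isOpen_induced_iff.2 ⟨{z | z (Nat.pair k (Encodable.encode a)) = true}, ?_, ?_⟩
    · exact (isOpen_discrete {true}).preimage
        (continuous_apply (A := fun _ : ℕ => Bool) (Nat.pair k (Encodable.encode a)))
    · rw [← cd_key]
      rfl
  · intro x y h
    funext k
    have h1 : x ∈ cd ⁻¹' {z | z (Nat.pair k (Encodable.encode (y k))) = true} := by
      rw [mem_preimage, h, ← mem_preimage, ← cd_key]
      exact rfl
    rw [← cd_key] at h1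
    exact h1

/-- Under the continuum hypothesis there is a nonempty set of reals satisfying `S₁(Γ, Γ)` but
neither `S₁(T, O)` nor `S_fin(T, Ω)`. -/
theorem tower_example (hCH : Cardinal.aleph 1 = Cardinal.continuum.{0}) :
    ∃ X : Set ℝ, X.Nonempty ∧ S1 (Ga X) (Ga X) ∧ ¬ S1 (Ta X) (OO X) ∧ ¬ Sfin (Ta X) (Om X) := by
  obtain ⟨r, hr, hfull⟩ := exists_r
  have : Nonempty Tk := ⟨(fun _ _ => ∅, fun _ => 0, fun _ => [])⟩
  obtain ⟨T, hT⟩ := exists_surjection_omega1 hCH mk_tk
  obtain ⟨D, hD⟩ := exists_tower (r := r) hr ⟨_, hfull⟩ (fun i => countable_Iio_omega1 i) T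
  obtain ⟨g0, hg0⟩ := Pool.Agent.Helper185.Silver.exists_embedding_Z
  have hg : Topology.IsEmbedding (g0 ∘ cd) := hg0.comp cd_emb
  have hgX : Topology.IsEmbedding (fun x : XX D => (g0 ∘ cd) x) :=
    hg.comp Topology.IsEmbedding.subtypeVal
  let Y : Set ℝ := range (fun x : XX D => (g0 ∘ cd) x)
  let e : XX D ≃ₜ Y := hgX.toHomeomorph
  obtain ⟨i0, -⟩ := hT (fun _ _ => ∅, fun _ => 0, fun _ => [])
  let x0 : XX D := ⟨(D i0).x, i0, Or.inl rfl⟩
  refine ⟨Y, ⟨_, mem_range_self x0⟩, ?_, fun h => not_s1 hD hT ?_, fun h => not_sfin hD hT ?_⟩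
  · exact s1_transport e (fun U hU => pull_gamma e hU) (fun U hU => pull_gamma e.symm hU)
      (s1_gg hD hT)
  · exact s1_transport e.symm (fun U hU => pull_tau e.symm hU)
      (fun U hU => ⟨pull_openFam e hU.1, pull_isCov e hU.2⟩) h
  · exact Pool.Agent.H328R3.SF.sfin_transport e.symm (fun U hU => pull_tau e.symm hU)
      (fun U hU => pull_omega e hU) h

end Pool.Agent.H752R3.Tow
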