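import Pool.Agent.H752R3.TowTower
import Pool.Agent.H752R3.PairsDefs
import Pool.Agent.H752R3.Recursion

/-!
The set given by the tower.
-/

set_option autoImplicit false
set_option linter.all false

namespace Pool.Agent.H752R3.Tow

open Set Filter Topology Pool.Agent.Helper185.Sel Pool.Agent.H752R3.Pairs

/-- letters with the discrete topology -/
def Lt : Type := List Bool

instance : TopologicalSpace Lt := ⊥
instance : DiscreteTopology Lt := ⟨rfl⟩

section

variable {I : Type} [LinearOrder I] [WellFoundedLT I] {r : ℕ → ℕ} {T : I → Tk} {D : I → Dt}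

/-- points of stage `i` -/
def stg (D : I → Dt) (i : I) (y : ℕ → L) : Prop := y = (D i).x ∨ y = (D i).x' ∨ y = (D i).z

/-- the set of points -/
def XX (D : I → Dt) : Set (ℕ → Lt) := {y | ∃ i, stg D i y}

theorem mono_F (hD : ∀ i, Req r T i (fun j _ => D j) (D i)) {i j : I} (h : i ≤ j) :
    ∃ k0, ∀ k, k0 ≤ k → (D j).F k ⊆ (D i).F k := by
  rcases h.eq_or_lt with rfl | h
  · exact ⟨0, fun _ _ => Subset.rfl⟩
  · exact (hD j).2.1 i h

theorem after (hD : ∀ i, Req r T i (fun j _ => D j) (D i)) {i j : I} (h : i ≤ j) {y : ℕ → L}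
    (hy : stg D j y) : y ∈ ZQ r ∧ ∃ k0, ∀ k, k0 ≤ k → y k ∈ (D i).F k := by
  obtain ⟨-, -, -, -, hQ, ⟨k1, hk1⟩, -⟩ := hD j
  obtain ⟨k0, hk0⟩ := mono_F hD h
  rcases hy with rfl | rfl | rfl
  · exact ⟨hQ.1, max k0 k1, fun k hk => hk0 k ((le_max_left _ _).trans hk)
      (hk1 k ((le_max_right _ _).trans hk)).1⟩
  · exact ⟨hQ.2.1, max k0 k1, fun k hk => hk0 k ((le_max_left _ _).trans hk)
      (hk1 k ((le_max_right _ _).trans hk)).2.1⟩
  · exact ⟨hQ.2.2, max k0 k1, fun k hk => hk0 k ((le_max_left _ _).trans hk)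
      (hk1 k ((le_max_right _ _).trans hk)).2.2⟩

theorem root (hD : ∀ i, Req r T i (fun j _ => D j) (D i)) {j : I} {y : ℕ → L}
    (hy : stg D j y) (n : ℕ) : ∃ k0, ∀ k, k0 ≤ k → k.unpair.1 = n → y k = (D j).t k := by
  obtain ⟨-, -, -, -, -, -, hR, -⟩ := hD j
  obtain ⟨k0, hk0⟩ := hR n
  rcases hy with rfl | rfl | rfl
  · exact ⟨k0, fun k hk hn => (hk0 k hk hn).1⟩
  · exact ⟨k0, fun k hk hn => (hk0 k hk hn).2.1⟩
  · exact ⟨k0, fun k hk hn => (hk0 k hk hn).2.2⟩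

/-- the order -/
def Pr (n : ℕ) (y y' : ℕ → L) : Prop := ∃ k0, ∀ k, k0 ≤ k → k.unpair.1 = n → y k <+: y' k

theorem Pr.refl (n : ℕ) (y : ℕ → L) : Pr n y y := ⟨0, fun _ _ _ => List.prefix_rfl⟩

theorem Pr.trans {n : ℕ} {x y z : ℕ → L} (h : Pr n x y) (h' : Pr n y z) : Pr n x z := by
  obtain ⟨a, ha⟩ := h
  obtain ⟨b, hb⟩ := h'
  exact ⟨max a b, fun k hk hn => (ha k ((le_max_left _ _).trans hk) hn).trans
    (hb k ((le_max_right _ _).trans hk) hn)⟩

theorem linP (hD : ∀ i, Req r T i (fun j _ => D j) (D i)) {i j : I} (h : i ≤ j) {y y' : ℕ → L}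
    (hy : stg D i y) (hy' : stg D j y') (n : ℕ) : Pr n y y' := by
  obtain ⟨a, ha⟩ := root hD hy n
  obtain ⟨b, hb⟩ := root hD hy' n
  obtain ⟨c, hc⟩ := mono_F hD h
  refine ⟨max a (max b c), fun k hk hn => ?_⟩
  rw [ha k ((le_max_left _ _).trans hk) hn,
    hb k ((le_max_left _ _).trans ((le_max_right _ _).trans hk)) hn]
  exact (hD i).2.2.1 k _ (hc k ((le_max_right _ _).trans ((le_max_right _ _).trans hk))
    ((hD j).2.2.2.1 k))

theorem totP (hD : ∀ i, Req r T i (fun j _ => D j) (D i)) (y y' : XX D) (n : ℕ) :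
    Pr n (y.1 : ℕ → Lt) (y'.1 : ℕ → Lt) ∨ Pr n (y'.1 : ℕ → Lt) (y.1 : ℕ → Lt) := by
  obtain ⟨i, hi⟩ := y.2
  obtain ⟨j, hj⟩ := y'.2
  rcases le_total i j with h | h
  · exact Or.inl (linP hD h hi hj n)
  · exact Or.inr (linP hD h hj hi n)

/-- basic sets -/
def bs (D : I → Dt) (k : ℕ) (l : L) : Set (XX D) := {y | ((y.1 : ℕ → Lt) k : List Bool) <+: l}

/-- the tau-covers -/
def UT (r : ℕ → ℕ) (D : I → Dt) (n : ℕ) : Set (Set (XX D)) :=
  {u | ∃ k, ∃ l : L, k.unpair.1 = n ∧ l.length = r k ∧ u = bs D k l}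

theorem bs_open (D : I → Dt) (k : ℕ) (l : L) : IsOpen (bs D k l) := by
  have h1 : Continuous (fun y : XX D => (y.1 : ℕ → Lt) k) :=
    (continuous_apply k).comp continuous_subtype_val
  exact (isOpen_discrete {a : Lt | (a : List Bool) <+: l}).preimage h1

theorem exists_top (hD : ∀ i, Req r T i (fun j _ => D j) (D i)) (n : ℕ) {F : Set (XX D)}
    (hF : F.Finite) : F.Nonempty → ∃ y1 ∈ F, ∀ y ∈ F, Pr n (y.1 : ℕ → Lt) (y1.1 : ℕ → Lt) := by
  induction F, hF using Set.Finite.induction_on with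
  | empty => intro h; exact absurd h not_nonempty_empty
  | @insert a F haF hF ih =>
    intro _
    rcases F.eq_empty_or_nonempty with h0 | h0
    · refine ⟨a, mem_insert _ _, ?_⟩
      intro y hy
      rw [h0] at hy
      simp only [insert_empty_eq, mem_singleton_iff] at hy
      rw [hy]
      exact Pr.refl n _
    · obtain ⟨y1, hy1, hy⟩ := ih h0
      rcases totP hD a y1 n with h | h
      · refine ⟨y1, mem_insert_of_mem _ hy1, ?_⟩
        rintro y (rfl | hyF)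
        · exact h
        · exact hy y hyF
      · refine ⟨a, mem_insert _ _, ?_⟩
        rintro y (rfl | hyF)
        · exact Pr.refl n _
        · exact (hy y hyF).trans h

theorem zq (hD : ∀ i, Req r T i (fun j _ => D j) (D i)) (y : XX D) :
    ((y.1 : ℕ → Lt) : ℕ → L) ∈ ZQ r := by
  obtain ⟨i, hi⟩ := y.2
  exact (after hD le_rfl hi).1

theorem UT_omega (hD : ∀ i, Req r T i (fun j _ => D j) (D i)) (n : ℕ) (F : Set (XX D))
    (hF : F.Finite) : ∃ u ∈ UT r D n, F ⊆ u := by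
  rcases F.eq_empty_or_nonempty with h0 | h0
  · refine ⟨_, ⟨Nat.pair n 0, List.replicate (r (Nat.pair n 0)) false, by simp, by simp, rfl⟩, ?_⟩
    rw [h0]
    exact empty_subset _
  · obtain ⟨y1, hy1, hy⟩ := exists_top hD n hF h0
    choose! k0 hk0 using hy
    obtain ⟨K, hK⟩ := (hF.image k0).bddAbove
    let k := Nat.pair n K
    have hkK : K ≤ k := Nat.right_le_pair n K
    let w : L := (y1.1 : ℕ → Lt) k
    have hlen : w.length < r k := zq hD y1 k
    refine ⟨_, ⟨k, w ++ List.replicate (r k - w.length) false, by simp [k], ?_, rfl⟩, ?_⟩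
    · rw [List.length_append, List.length_replicate]
      omega
    · intro y hyF
      have h1 := hk0 y hyF k ((hK (mem_image_of_mem _ hyF)).trans hkK) (by simp [k])
      exact h1.trans (List.prefix_append _ _)

theorem UT_mem (hD : ∀ i, Req r T i (fun j _ => D j) (D i)) (hall : ∀ τ : Tk, ∃ i, T i = τ)
    (n : ℕ) : UT r D n ∈ TauOf (OpenFam (XX D)) := by
  have hne : univ ∉ UT r D n := by
    rintro ⟨k, l, hk, hl, hu⟩
    obtain ⟨i, hi⟩ := hall (fun _ _ => ∅, fun _ => k, fun _ => l)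
    have h1 := (hD i).2.2.2.2.2.2.2.1 k (by rw [hi])
    rw [hi] at h1
    have h2 : (⟨(D i).x, i, Or.inl rfl⟩ : XX D) ∈ bs D k l := by rw [← hu]; trivial
    exact h1.2.2 h2
  apply tau_of_lin _ hne
  · refine ⟨fun x => ?_, fun x y => ?_⟩
    · exact Pool.Agent.Helper185.Sierp.omega_large hne (UT_omega hD n) x
    · have key : ∀ x y : XX D, Pr n (y.1 : ℕ → Lt) (x.1 : ℕ → Lt) → Le (UT r D n) x y := by
        rintro x y ⟨k0, hk0⟩
        have hfin : (⋃ k ∈ {k | k < k0}, (fun l : L => bs D k l) '' {l : L | l.length = r k}).Finite :=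
          (finite_lt_nat k0).biUnion fun k _ => (List.finite_length_eq Bool (r k)).image _
        apply hfin.subset
        rintro u ⟨⟨k, l, hk, hl, rfl⟩, hx, hy⟩
        refine mem_biUnion (show k ∈ {k | k < k0} from ?_) ⟨l, hl, rfl⟩
        by_contra hcon
        exact hy ((hk0 k (not_lt.1 hcon) hk).trans hx)
      rcases totP hD x y n with h | h
      · exact Or.inr (key y x h)
      · exact Or.inl (key x y h)
  · rintro _ ⟨k, l, hk, hl, rfl⟩
    exact bs_open D k l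

theorem not_s1 (hD : ∀ i, Req r T i (fun j _ => D j) (D i)) (hall : ∀ τ : Tk, ∃ i, T i = τ) :
    ¬ S1 (TauOf (OpenFam (XX D))) (CovOf (OpenFam (XX D))) := by
  intro h
  obtain ⟨V, hV, hVc⟩ := h (fun n => UT r D n) (fun n => UT_mem hD hall n)
  choose k l hk hl hVe using hV
  obtain ⟨i, hi⟩ := hall (fun _ _ => ∅, k, fun k' => l k'.unpair.1)
  have h1 : (⟨(D i).x, i, Or.inl rfl⟩ : XX D) ∈ ⋃₀ (range V) := by rw [hVc.2.1]; trivial
  obtain ⟨_, ⟨n, rfl⟩, hn⟩ := h1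
  rw [hVe n] at hn
  have h2 := (hD i).2.2.2.2.2.2.2.1 (k n) (by rw [hi, hk n])
  rw [hi] at h2
  have h3 := h2.2.2
  change ¬ (D i).x (k n) <+: l (k n).unpair.1 at h3
  rw [hk n] at h3
  exact h3 hn

theorem not_sfin (hD : ∀ i, Req r T i (fun j _ => D j) (D i)) (hall : ∀ τ : Tk, ∃ i, T i = τ) :
    ¬ Sfin (TauOf (OpenFam (XX D))) (OmegaOf (OpenFam (XX D))) := by
  classical
  intro h
  obtain ⟨F, hF, hFΩ⟩ := h (fun n => UT r D n) (fun n => UT_mem hD hall n)
  have h1 : ∀ n, ∀ u : Set (XX D), ∃ k, ∃ l : L, u ∈ F n → k.unpair.1 = n ∧ u = bs D k l := by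
    intro n u
    by_cases hu : u ∈ F n
    · obtain ⟨k, l, hk, hl, hul⟩ := (hF n).2 hu
      exact ⟨k, l, fun _ => ⟨hk, hul⟩⟩
    · exact ⟨0, [], fun h => absurd h hu⟩
  choose k l hkl using h1
  have h2 : ∀ n, ∃ H, ∀ u ∈ F n, k n u ≤ H := by
    intro n
    obtain ⟨H, hH⟩ := ((hF n).1.image (k n)).bddAbove
    exact ⟨H, fun u hu => hH (mem_image_of_mem _ hu)⟩
  choose H hH using h2
  obtain ⟨i, hi⟩ := hall (fun _ _ => ∅, H, fun _ => [])
  let x : XX D := ⟨(D i).x, i, Or.inl rfl⟩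
  let x' : XX D := ⟨(D i).x', i, Or.inr (Or.inl rfl)⟩
  obtain ⟨u, hu, hxu⟩ := hFΩ.2.2 {x, x'} (Set.toFinite _)
  obtain ⟨n, hn⟩ := mem_iUnion.1 hu
  obtain ⟨h3, h4⟩ := hkl n u hn
  have h5 : x ∈ bs D (k n u) (l n u) := by rw [← h4]; exact hxu (by simp)
  have h6 : x' ∈ bs D (k n u) (l n u) := by rw [← h4]; exact hxu (by simp)
  have h7 := (hD i).2.2.2.2.2.2.2.1 (k n u) (by rw [hi, h3]; exact hH n u hn)
  have h8 : (D i).x (k n u) <+: l n u := h5
  have h9 : (D i).x' (k n u) <+: l n u := h6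
  rcases le_total ((D i).x (k n u)).length ((D i).x' (k n u)).length with h | h
  · exact h7.1 (List.prefix_of_prefix_length_le h8 h9 h)
  · exact h7.2.1 (List.prefix_of_prefix_length_le h9 h8 h)

theorem opZ_of_open {W : Set (ℕ → Lt)} (hW : IsOpen W) : OpZ (W : Set (ℕ → L)) := by
  intro x hx
  obtain ⟨J, u, hu, huW⟩ := isOpen_pi_iff.1 hW x hx
  refine ⟨J.sup id + 1, fun y hy => huW ?_⟩
  intro k hk
  have h1 : k ≤ J.sup id := Finset.le_sup (f := id) hk
  have h2 : y k = x k := hy k (by omega)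
  change (y k : Lt) ∈ u k
  rw [h2]
  exact (hu k hk).2

theorem s1_gg (hD : ∀ i, Req r T i (fun j _ => D j) (D i)) (hall : ∀ τ : Tk, ∃ i, T i = τ) :
    S1 (GammaOf (OpenFam (XX D))) (GammaOf (OpenFam (XX D))) := by
  classical
  apply s1_gamma_gamma_of_good (adm_open _)
  intro U hU
  have hemb : ∀ n, ∃ v : ℕ → Set (XX D), Function.Injective v ∧ ∀ k, v k ∈ U n := by
    intro n
    refine ⟨fun k => (((hU n).2.2.1.natEmbedding (U n) k : U n) : Set (XX D)), ?_, ?_⟩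
    · intro a b hab
      exact ((hU n).2.2.1.natEmbedding (U n)).injective (Subtype.ext hab)
    · intro k
      exact ((hU n).2.2.1.natEmbedding (U n) k).2
  choose v hvinj hvU using hemb
  have hcof : ∀ (x : XX D) n, ∃ M : ℕ, ∀ k, M ≤ k → x ∈ v n k := by
    intro x n
    have h2 : {k | x ∉ v n k}.Finite := by
      have h3 : Set.InjOn (v n) (v n ⁻¹' {u | u ∈ U n ∧ x ∉ u}) := (hvinj n).injOn
      apply (((hU n).2.2.2 x).preimage h3).subset
      intro k hk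
      exact ⟨hvU n k, hk⟩
    obtain ⟨M, hM⟩ := h2.bddAbove
    refine ⟨M + 1, fun k hk => ?_⟩
    by_contra hx
    have := hM (show k ∈ {k | x ∉ v n k} from hx)
    omega
  have hext : ∀ n m, ∃ W : Set (ℕ → Lt), IsOpen W ∧ Subtype.val ⁻¹' W = v n m := fun n m =>
    isOpen_induced_iff.1 ((hU n).1 _ (hvU n m))
  choose W hW hWv using hext
  choose S hS using fun n m => exists_code (opZ_of_open (hW n m))
  have hmem : ∀ (x : XX D) n m, ((x.1 : ℕ → Lt) : ℕ → L) ∈ opn (S n m) ↔ x ∈ v n m := by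
    intro x n m
    rw [hS n m, ← hWv n m]
    exact Iff.rfl
  obtain ⟨i, hi⟩ := hall (S, fun _ => 0, fun _ => [])
  obtain ⟨-, -, -, -, -, -, -, -, hC⟩ := hD i
  rw [hi] at hC
  have hbef : ∀ y ∈ before i (fun j (_ : j < i) => D j), ∃ j, stg D j y := by
    rintro y ⟨j, _, hy⟩
    exact ⟨j, hy⟩
  rcases hC (by
    intro y hy n
    obtain ⟨j, hj⟩ := hbef y hy
    obtain ⟨M, hM⟩ := hcof ⟨y, j, hj⟩ n
    exact ⟨M, fun m hm => (hmem ⟨y, j, hj⟩ n m).2 (hM m hm)⟩) with ⟨n, hn⟩ | ⟨m, hm⟩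
  · exfalso
    let z : XX D := ⟨(D i).z, i, Or.inr (Or.inr rfl)⟩
    obtain ⟨M, hM⟩ := hcof z n
    obtain ⟨m, hm, hzm⟩ := hn M
    exact hzm ((hmem z n m).2 (hM m hm))
  · refine ⟨fun n => v n (m n), fun n => hvU n (m n), fun x _ => ?_⟩
    obtain ⟨n0, hn0⟩ := hm (x.1 : ℕ → Lt) (by
      obtain ⟨j, hj⟩ := x.2
      rcases lt_or_ge j i with h | h
      · exact Or.inl ⟨j, h, hj⟩
      · exact Or.inr (after hD h hj))
    apply (finite_lt_nat n0).subset
    intro n hn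
    by_contra hcon
    exact hn ((hmem x n (m n)).1 (hn0 n (not_lt.1 hcon)))

end

end Pool.Agent.H752R3.Tow
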