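import Mathlib

/-!
A norm on sets of nodes of the binary tree, and conditions built from it.
-/

set_option autoImplicit false
set_option linter.all false

namespace Pool.Agent.H752R3.Tow

open Set Filter

abbrev L := List Bool

/-- the members of `F` above `v` -/
def cone (v : L) (F : Set L) : Set L := {y | y ∈ F ∧ v <+: y}

theorem cone_mono {v : L} {F G : Set L} (h : F ⊆ G) : cone v F ⊆ cone v G :=
  fun _ hy => ⟨h hy.1, hy.2⟩

/-- the norm is at least `s` -/
def Nm : ℕ → Set L → Prop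
  | 0, _ => True
  | s + 1, F => ∃ t ∈ F, ∃ v, t <+: v ∧ Nm s (cone (v ++ [false]) F) ∧ Nm s (cone (v ++ [true]) F)

theorem Nm.mono {s : ℕ} : ∀ {F G : Set L}, F ⊆ G → Nm s F → Nm s G := by
  induction s with
  | zero => intro F G _ _; trivial
  | succ s ih =>
    rintro F G h ⟨t, ht, v, hv, h1, h2⟩
    exact ⟨t, h ht, v, hv, ih (cone_mono h) h1, ih (cone_mono h) h2⟩

theorem Nm.pred {s : ℕ} : ∀ {F : Set L}, Nm (s + 1) F → Nm s F := by
  induction s with
  | zero => intro F _; trivial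
  | succ s ih =>
    rintro F ⟨t, ht, v, hv, h1, h2⟩
    exact ⟨t, ht, v, hv, ih h1, ih h2⟩

theorem Nm.anti {s s' : ℕ} (h : s ≤ s') {F : Set L} (hF : Nm s' F) : Nm s F := by
  induction s', h using Nat.le_induction with
  | base => exact hF
  | succ n _ ih => exact ih hF.pred

theorem Nm.big : ∀ (n a b : ℕ), a + b = n → ∀ {F F0 F1 : Set L}, F ⊆ F0 ∪ F1 → Nm (a + b) F →
    Nm a F0 ∨ Nm b F1 := by
  intro n
  induction n with
  | zero =>
    intro a b hab F F0 F1 _ _
    left
    have : a = 0 := by omega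
    subst this
    trivial
  | succ n ih =>
    intro a b hab F F0 F1 hF h
    rcases a with _ | a
    · left; trivial
    rcases b with _ | b
    · right; trivial
    have e1 : a + 1 + (b + 1) = (a + (b + 1)) + 1 := by omega
    rw [e1] at h
    obtain ⟨t, ht, v, hv, h1, h2⟩ := h
    have hsub : ∀ w, cone w F ⊆ cone w F0 ∪ cone w F1 := by
      rintro w y ⟨hy, hw⟩
      rcases hF hy with h3 | h3
      · exact Or.inl ⟨h3, hw⟩
      · exact Or.inr ⟨h3, hw⟩
    rcases hF ht with ht0 | ht1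
    · rcases ih a (b + 1) (by omega) (hsub _) h1 with k1 | k1
      · rcases ih a (b + 1) (by omega) (hsub _) h2 with k2 | k2
        · exact Or.inl ⟨t, ht0, v, hv, k1, k2⟩
        · exact Or.inr (k2.mono fun y hy => hy.1)
      · exact Or.inr (k1.mono fun y hy => hy.1)
    · have e2 : a + (b + 1) = (a + 1) + b := by omega
      rw [e2] at h1 h2
      rcases ih (a + 1) b (by omega) (hsub _) h1 with k1 | k1
      · exact Or.inl (k1.mono fun y hy => hy.1)
      · rcases ih (a + 1) b (by omega) (hsub _) h2 with k2 | k2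
        · exact Or.inl (k2.mono fun y hy => hy.1)
        · exact Or.inr ⟨t, ht1, v, hv, k1, k2⟩

theorem Nm.full (s : ℕ) : ∀ v : L, Nm s {y | v <+: y ∧ y.length < v.length + s} := by
  induction s with
  | zero => intro v; trivial
  | succ s ih =>
    intro v
    refine ⟨v, ⟨List.prefix_rfl, by omega⟩, v, List.prefix_rfl, ?_, ?_⟩
    · refine Nm.mono ?_ (ih (v ++ [false]))
      rintro y ⟨h1, h2⟩
      rw [List.length_append, List.length_singleton] at h2
      exact ⟨⟨(List.prefix_append v [false]).trans h1, by omega⟩, h1⟩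
    · refine Nm.mono ?_ (ih (v ++ [true]))
      rintro y ⟨h1, h2⟩
      rw [List.length_append, List.length_singleton] at h2
      exact ⟨⟨(List.prefix_append v [true]).trans h1, by omega⟩, h1⟩

theorem Nm.nonempty {F : Set L} {a : ℕ} (h : Nm (2 ^ a) F) : F.Nonempty := by
  have h1 : Nm 1 F := h.anti (Nat.one_le_two_pow)
  obtain ⟨t, ht, -⟩ := h1
  exact ⟨t, ht⟩

/-- homogeneous subsets for finitely many colourings -/
theorem homog {ι : Type*} [DecidableEq ι] (S : Finset ι) (χ : ι → L → Prop) : ∀ (a : ℕ) (F : Set L),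
    Nm (2 ^ (a + S.card)) F → ∃ F' ⊆ F, Nm (2 ^ a) F' ∧
      ∀ i ∈ S, (∀ y ∈ F', χ i y) ∨ ∀ y ∈ F', ¬ χ i y := by
  induction S using Finset.induction_on with
  | empty => intro a F h; exact ⟨F, Subset.rfl, by simpa using h, by simp⟩
  | insert i S hi ih =>
    intro a F h
    rw [Finset.card_insert_of_notMem hi, ← add_assoc, pow_succ, mul_two] at h
    have h1 : F ⊆ {y | y ∈ F ∧ χ i y} ∪ {y | y ∈ F ∧ ¬ χ i y} := by
      intro y hy
      by_cases h : χ i y
      · exact Or.inl ⟨hy, h⟩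
      · exact Or.inr ⟨hy, h⟩
    rcases Nm.big _ _ _ rfl h1 h with h2 | h2
    · obtain ⟨F', hF', h3, h4⟩ := ih a _ h2
      refine ⟨F', fun y hy => (hF' hy).1, h3, ?_⟩
      intro j hj
      rcases Finset.mem_insert.1 hj with rfl | hj
      · exact Or.inl fun y hy => (hF' hy).2
      · exact h4 j hj
    · obtain ⟨F', hF', h3, h4⟩ := ih a _ h2
      refine ⟨F', fun y hy => (hF' hy).1, h3, ?_⟩
      intro j hj
      rcases Finset.mem_insert.1 hj with rfl | hj
      · exact Or.inr fun y hy => (hF' hy).2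
      · exact h4 j hj

/-- letters at block `k` -/
def Q (r : ℕ → ℕ) (k : ℕ) : Set L := {y | y.length < r k}

theorem Q_finite (r : ℕ → ℕ) (k : ℕ) : (Q r k).Finite := List.finite_length_lt Bool (r k)

/-- points with all letters allowed -/
def ZQ (r : ℕ → ℕ) : Set (ℕ → L) := {x | ∀ k, x k ∈ Q r k}

/-- prefixes of length `k` -/
def Pre (r : ℕ → ℕ) (k : ℕ) : Set (ℕ → L) := {u | (∀ j < k, u j ∈ Q r j) ∧ ∀ j, k ≤ j → u j = []}

theorem Pre_finite (r : ℕ → ℕ) (k : ℕ) : (Pre r k).Finite := by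
  have h1 : ((fun u : ℕ → L => fun j : Fin k => u j) '' Pre r k).Finite := by
    have h2 : {f : Fin k → L | ∀ j : Fin k, f j ∈ Q r (j : ℕ)}.Finite :=
      Set.Finite.pi' (ι := Fin k) (t := fun j => Q r (j : ℕ)) fun j => Q_finite r j
    apply h2.subset
    rintro _ ⟨u, hu, rfl⟩ ⟨j, hj⟩
    exact hu.1 j hj
  apply h1.of_finite_image
  intro u hu w hw h
  funext j
  by_cases hj : j < k
  · exact congrFun h ⟨j, hj⟩
  · rw [hu.2 j (not_lt.1 hj), hw.2 j (not_lt.1 hj)]

/-- number of prefixes -/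
noncomputable def c (r : ℕ → ℕ) (k : ℕ) : ℕ := (Pre_finite r k).toFinset.card

/-- truncation -/
def tr (k : ℕ) (x : ℕ → L) : ℕ → L := fun j => if j < k then x j else []

theorem tr_mem {r : ℕ → ℕ} {k : ℕ} {x : ℕ → L} (h : ∀ j < k, x j ∈ Q r j) : tr k x ∈ Pre r k := by
  refine ⟨fun j hj => ?_, fun j hj => ?_⟩
  · simp only [tr, if_pos hj]
    exact h j hj
  · simp only [tr, if_neg (not_lt.2 hj)]

variable {r : ℕ → ℕ}

/-- finite homogenisation -/
theorem lemA (V : Set (ℕ → L)) (N : ℕ) (hV : ∀ x y : ℕ → L, (∀ i < N, x i = y i) → (x ∈ V ↔ y ∈ V))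
    (F : ℕ → Set L) (hFQ : ∀ k, F k ⊆ Q r k) (a : ℕ → ℕ) : ∀ (d j : ℕ), j + d = N →
    (∀ k, j ≤ k → k < N → Nm (2 ^ (a k + c r k)) (F k)) →
    ∃ F' : ℕ → Set L, (∀ k, F' k ⊆ F k) ∧ (∀ k, ¬ (j ≤ k ∧ k < N) → F' k = F k) ∧
      (∀ k, j ≤ k → k < N → Nm (2 ^ (a k)) (F' k)) ∧
      ∀ x y : ℕ → L, (∀ i < j, x i = y i) → (∀ i < j, x i ∈ Q r i) →
        (∀ i, j ≤ i → i < N → x i ∈ F' i ∧ y i ∈ F' i) → (x ∈ V ↔ y ∈ V) := by
  classical
  intro d
  induction d with
  | zero =>
    intro j hj _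
    refine ⟨F, fun _ => Subset.rfl, fun _ _ => rfl, fun k h1 h2 => by omega, ?_⟩
    intro x y h _ _
    exact hV x y fun i hi => h i (by omega)
  | succ d ih =>
    intro j hj hF
    obtain ⟨F1, h1, h2, h3, h4⟩ := ih (j + 1) (by omega) (fun k hk hk2 => hF k (by omega) hk2)
    have hne : ∀ i, ∃ t, j + 1 ≤ i → i < N → t ∈ F1 i := by
      intro i
      by_cases hi : j + 1 ≤ i ∧ i < N
      · obtain ⟨t, ht⟩ := (h3 i hi.1 hi.2).nonempty
        exact ⟨t, fun _ _ => ht⟩
      · exact ⟨[], fun h h' => absurd ⟨h, h'⟩ hi⟩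
    choose t ht using hne
    let e : (ℕ → L) → L → ℕ → L := fun u y i => if i < j then u i else if i = j then y else t i
    obtain ⟨G, hGF, hG1, hG2⟩ := homog (Pre_finite r j).toFinset (fun u y => e u y ∈ V) (a j) (F j)
      (hF j le_rfl (by omega))
    have hF1j : F1 j = F j := h2 j (by omega)
    refine ⟨fun k => if k = j then G else F1 k, ?_, ?_, ?_, ?_⟩
    · intro k
      by_cases hk : k = j
      · subst hk
        simp only [if_true]
        exact hGF
      · simp only [if_neg hk]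
        exact h1 k
    · intro k hk
      have hkj : k ≠ j := by
        rintro rfl
        exact hk ⟨le_rfl, by omega⟩
      simp only [if_neg hkj]
      apply h2
      rintro ⟨h5, h6⟩
      exact hk ⟨by omega, h6⟩
    · intro k hk1 hk2
      by_cases hk : k = j
      · subst hk
        simp only [if_true]
        exact hG1
      · simp only [if_neg hk]
        exact h3 k (by omega) hk2
    · intro x y hxy hxQ hF'
      have hxj : x j ∈ G := by
        have := (hF' j le_rfl (by omega)).1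
        simpa using this
      have hyj : y j ∈ G := by
        have := (hF' j le_rfl (by omega)).2
        simpa using this
      have key : ∀ w : ℕ → L, (∀ i < j, w i = x i) → w j ∈ G →
          (∀ i, j + 1 ≤ i → i < N → w i ∈ F1 i) → (w ∈ V ↔ e (tr j x) (w j) ∈ V) := by
        intro w hw hwj hwF
        apply h4
        · intro i hi
          by_cases hij : i < j
          · simp only [e, if_pos hij, tr]
            exact hw i hij
          · have : i = j := by omega
            subst this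
            simp [e]
        · intro i hi
          by_cases hij : i < j
          · rw [hw i hij]
            exact hxQ i hij
          · have : i = j := by omega
            subst this
            exact hFQ _ (hGF hwj)
        · intro i hi hi2
          refine ⟨hwF i hi hi2, ?_⟩
          have e1 : ¬ i < j := by omega
          have e2 : ¬ i = j := by omega
          simp only [e, if_neg e1, if_neg e2]
          exact ht i hi hi2
      have hF1 : ∀ i, j + 1 ≤ i → i < N → x i ∈ F1 i ∧ y i ∈ F1 i := by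
        intro i hi hi2
        have h5 := hF' i (by omega) hi2
        have e2 : ¬ i = j := by omega
        simpa only [if_neg e2] using h5
      rw [key x (fun _ _ => rfl) hxj (fun i hi hi2 => (hF1 i hi hi2).1),
        key y (fun i hi => (hxy i hi).symm) hyj (fun i hi hi2 => (hF1 i hi hi2).2)]
      have hu : tr j x ∈ (Pre_finite r j).toFinset := by
        rw [Set.Finite.mem_toFinset]
        exact tr_mem hxQ
      rcases hG2 _ hu with h5 | h5
      · exact ⟨fun _ => h5 _ hyj, fun _ => h5 _ hxj⟩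
      · exact ⟨fun h6 => absurd h6 (h5 _ hxj), fun h6 => absurd h6 (h5 _ hyj)⟩

/-- points through the prefix of `s` -/
def KK (r : ℕ → ℕ) (s : ℕ → L) (j : ℕ) (F : ℕ → Set L) : Set (ℕ → L) :=
  {x | x ∈ ZQ r ∧ (∀ i < j, x i = s i) ∧ ∀ i, j ≤ i → x i ∈ F i}

/-- limits along an ultrafilter of sequences in finite sets -/
theorem exists_lim {α : Type*} (U : Ultrafilter ℕ) {T : Set α} (hT : T.Finite) (f : ℕ → α)
    (hf : ∀ᶠ n in (U : Filter ℕ), f n ∈ T) : ∃ t ∈ T, ∀ᶠ n in (U : Filter ℕ), f n = t := by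
  have h1 : (⋃ t ∈ T, {n | f n = t}) ∈ U := by
    filter_upwards [hf] with n hn
    exact mem_biUnion hn rfl
  obtain ⟨t, ht, h2⟩ := (Ultrafilter.finite_biUnion_mem_iff hT).1 h1
  exact ⟨t, ht, h2⟩

/-- the decision for one prefix -/
theorem lemB (W : Set (ℕ → L)) (F : ℕ → Set L) (hFQ : ∀ k, F k ⊆ Q r k) (a : ℕ → ℕ) (j : ℕ)
    (s : ℕ → L) (hs : ∀ i < j, s i ∈ Q r i)
    (hW : ∀ x ∈ KK r s j F, x ∈ W → ∃ N, ∀ y ∈ KK r s j F, (∀ i < N, y i = x i) → y ∈ W)
    (hF : ∀ k, j ≤ k → Nm (2 ^ (a k + c r k)) (F k)) :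
    ∃ F' : ℕ → Set L, (∀ k, F' k ⊆ F k) ∧ (∀ k < j, F' k = F k) ∧
      (∀ k, j ≤ k → Nm (2 ^ (a k)) (F' k)) ∧
      ((∀ x ∈ KK r s j F', x ∈ W) ∨ ∀ x ∈ KK r s j F', x ∉ W) := by
  classical
  let V : ℕ → Set (ℕ → L) := fun N => {x | ∀ y ∈ KK r s j F, (∀ i < N, y i = x i) → y ∈ W}
  have hVdet : ∀ N, ∀ x y : ℕ → L, (∀ i < N, x i = y i) → (x ∈ V N ↔ y ∈ V N) := by
    intro N x y h
    constructor
    · intro hx z hz hzy
      exact hx z hz fun i hi => (hzy i hi).trans (h i hi).symm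
    · intro hy z hz hzx
      exact hy z hz fun i hi => (hzx i hi).trans (h i hi)
  have hA := fun N (hN : j ≤ N) => lemA (V N) N (hVdet N) F hFQ a (N - j) j (by omega)
    (fun k hk _ => hF k hk)
  have hA' : ∀ N, ∃ F' : ℕ → Set L, j ≤ N → (∀ k, F' k ⊆ F k) ∧
      (∀ k, ¬ (j ≤ k ∧ k < N) → F' k = F k) ∧ (∀ k, j ≤ k → k < N → Nm (2 ^ (a k)) (F' k)) ∧
      ∀ x y : ℕ → L, (∀ i < j, x i = y i) → (∀ i < j, x i ∈ Q r i) →
        (∀ i, j ≤ i → i < N → x i ∈ F' i ∧ y i ∈ F' i) → (x ∈ V N ↔ y ∈ V N) := by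
    intro N
    by_cases hN : j ≤ N
    · obtain ⟨F', h⟩ := hA N hN
      exact ⟨F', fun _ => h⟩
    · exact ⟨F, fun h => absurd h hN⟩
  choose FL hFL using hA'
  by_cases hcase : ∃ N, j ≤ N ∧ ∃ x ∈ KK r s j (FL N), x ∈ V N
  · obtain ⟨N, hN, x, hx, hxV⟩ := hcase
    obtain ⟨h1, h2, h3, h4⟩ := hFL N hN
    refine ⟨FL N, h1, fun k hk => h2 k (by omega), ?_, Or.inl ?_⟩
    · intro k hk
      by_cases hkN : k < N
      · exact h3 k hk hkN
      · rw [h2 k (by omega)]
        exact (hF k hk).anti (Nat.pow_le_pow_right (by norm_num) (Nat.le_add_right _ _))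
    · intro y hy
      have h5 : y ∈ V N := (h4 x y (fun i hi => (hx.2.1 i hi).trans (hy.2.1 i hi).symm)
        (fun i hi => hx.1 i) (fun i hi _ => ⟨hx.2.2 i hi, hy.2.2 i hi⟩)).1 hxV
      exact h5 y ⟨hy.1, hy.2.1, fun i hi => h1 i (hy.2.2 i hi)⟩ fun _ _ => rfl
  · push Not at hcase
    let U : Ultrafilter ℕ := hyperfilter ℕ
    have hU : ∀ n : ℕ, ∀ᶠ N in (U : Filter ℕ), n ≤ N := by
      intro n
      have h1 : (U : Filter ℕ) ≤ atTop := Nat.hyperfilter_le_atTop
      exact h1 (eventually_ge_atTop n)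
    have hG : ∀ k, ∃ G ⊆ F k, ∀ᶠ N in (U : Filter ℕ), FL N k = G := by
      intro k
      have hfin : (𝒫 (F k)).Finite := ((Q_finite r k).subset (hFQ k)).finite_subsets
      obtain ⟨G, hG1, hG2⟩ := exists_lim U hfin (fun N => FL N k) (by
        filter_upwards [hU j] with N hN
        exact (hFL N hN).1 k)
      exact ⟨G, hG1, hG2⟩
    choose G hG1 hG2 using hG
    refine ⟨G, hG1, ?_, ?_, Or.inr ?_⟩
    · intro k hk
      obtain ⟨N, hN1, hN2⟩ := ((hG2 k).and (hU j)).exists
      rw [← hN1]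
      exact (hFL N hN2).2.1 k (by omega)
    · intro k hk
      obtain ⟨N, hN1, hN2⟩ := ((hG2 k).and (hU (max j (k + 1)))).exists
      rw [← hN1]
      exact (hFL N ((le_max_left _ _).trans hN2)).2.2.1 k hk
        (lt_of_lt_of_le (Nat.lt_succ_self k) ((le_max_right _ _).trans hN2))
    · intro x hx hxW
      have hxK : x ∈ KK r s j F := ⟨hx.1, hx.2.1, fun i hi => hG1 i (hx.2.2 i hi)⟩
      obtain ⟨N1, hN1⟩ := hW x hxK hxW
      have h5 : ∀ᶠ N in (U : Filter ℕ), ∀ k < N1, FL N k = G k := by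
        have h6 := (finite_lt_nat N1).eventually_all (l := (U : Filter ℕ))
          (p := fun k N => FL N k = G k)
        exact h6.2 fun k _ => hG2 k
      obtain ⟨N, hNG, hN⟩ := (h5.and (hU (max j N1))).exists
      have hjN : j ≤ N := (le_max_left _ _).trans hN
      have hN1N : N1 ≤ N := (le_max_right _ _).trans hN
      obtain ⟨k1, k2, k3, k4⟩ := hFL N hjN
      have hne : ∀ i, ∃ t, j ≤ i → t ∈ FL N i := by
        intro i
        by_cases hi : j ≤ i
        · by_cases hiN : i < N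
          · obtain ⟨t, ht⟩ := (k3 i hi hiN).nonempty
            exact ⟨t, fun _ => ht⟩
          · rw [k2 i (by omega)]
            obtain ⟨t, ht⟩ := (hF i hi).nonempty
            exact ⟨t, fun _ => ht⟩
        · exact ⟨[], fun h => absurd h hi⟩
      choose t ht using hne
      let x' : ℕ → L := fun i => if i < j then x i else if i < N1 then x i else t i
      have hx'K : x' ∈ KK r s j (FL N) := by
        have h7 : ∀ i, j ≤ i → x' i ∈ FL N i := by
          intro i hi
          have e1 : ¬ i < j := by omega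
          by_cases hi2 : i < N1
          · simp only [x', if_neg e1, if_pos hi2]
            rw [hNG i hi2]
            exact hx.2.2 i hi
          · simp only [x', if_neg e1, if_neg hi2]
            exact ht i hi
        refine ⟨?_, ?_, h7⟩
        · intro i
          by_cases hi : i < j
          · simp only [x', if_pos hi]
            exact hx.1 i
          · exact hFQ i (k1 i (h7 i (not_lt.1 hi)))
        · intro i hi
          simp only [x', if_pos hi]
          exact hx.2.1 i hi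
      apply hcase N hjN x' hx'K
      intro y hy hyx
      apply hN1 y hy
      intro i hi
      rw [hyx i (by omega)]
      by_cases hij : i < j
      · simp only [x', if_pos hij]
      · simp only [x', if_neg hij, if_pos hi]

/-- relatively open sets -/
def RO (r : ℕ → ℕ) (W : Set (ℕ → L)) (F : ℕ → Set L) : Prop :=
  ∀ j, ∀ x ∈ ZQ r, x ∈ W → (∀ i, j ≤ i → x i ∈ F i) →
    ∃ N, ∀ y ∈ ZQ r, (∀ i, j ≤ i → y i ∈ F i) → (∀ i < N, y i = x i) → y ∈ W

/-- decided at level `j` -/
def Dec (r : ℕ → ℕ) (W : Set (ℕ → L)) (F : ℕ → Set L) (j : ℕ) : Prop :=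
  ∀ x ∈ ZQ r, ∀ y ∈ ZQ r, (∀ i < j, x i = y i) → (∀ i, j ≤ i → x i ∈ F i) →
    (∀ i, j ≤ i → y i ∈ F i) → (x ∈ W ↔ y ∈ W)

theorem RO.mono {W : Set (ℕ → L)} {F G : ℕ → Set L} (h : RO r W F) (hG : ∀ k, G k ⊆ F k) :
    RO r W G := by
  intro j x hx hxW hxG
  obtain ⟨N, hN⟩ := h j x hx hxW fun i hi => hG i (hxG i hi)
  exact ⟨N, fun y hy hyG hyx => hN y hy (fun i hi => hG i (hyG i hi)) hyx⟩

theorem Dec.mono {W : Set (ℕ → L)} {F G : ℕ → Set L} {j : ℕ} (h : Dec r W F j)
    (hG : ∀ k, G k ⊆ F k) : Dec r W G j :=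
  fun x hx y hy hxy h1 h2 => h x hx y hy hxy (fun i hi => hG i (h1 i hi)) fun i hi => hG i (h2 i hi)

theorem lemC (W : Set (ℕ → L)) (j : ℕ) : ∀ (S : Finset (ℕ → L)), (∀ s ∈ S, ∀ i < j, s i ∈ Q r i) →
    ∀ (F : ℕ → Set L), (∀ k, F k ⊆ Q r k) → RO r W F → ∀ (a : ℕ → ℕ),
    (∀ k, j ≤ k → Nm (2 ^ (a k + S.card * c r k)) (F k)) →
    ∃ F' : ℕ → Set L, (∀ k, F' k ⊆ F k) ∧ (∀ k < j, F' k = F k) ∧
      (∀ k, j ≤ k → Nm (2 ^ (a k)) (F' k)) ∧
      ∀ s ∈ S, (∀ x ∈ KK r s j F', x ∈ W) ∨ ∀ x ∈ KK r s j F', x ∉ W := by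
  classical
  intro S
  induction S using Finset.induction_on with
  | empty =>
    intro _ F hFQ _ a hF
    exact ⟨F, fun _ => Subset.rfl, fun _ _ => rfl, fun k hk => by simpa using hF k hk, by simp⟩
  | insert s S hs ih =>
    intro hS F hFQ hRO a hF
    obtain ⟨F1, h1, h2, h3, h4⟩ := ih (fun s hs => hS s (Finset.mem_insert_of_mem hs)) F hFQ hRO
      (fun k => a k + c r k) (by
        intro k hk
        have h5 := hF k hk
        rw [Finset.card_insert_of_notMem hs, Nat.succ_mul] at h5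
        have e : a k + c r k + S.card * c r k = a k + (S.card * c r k + c r k) := by ring
        rw [e]
        exact h5)
    obtain ⟨F2, k1, k2, k3, k4⟩ := lemB W F1 (fun k => (h1 k).trans (hFQ k)) a j s
      (hS s (Finset.mem_insert_self s S)) (by
        intro x hx hxW
        obtain ⟨N, hN⟩ := (hRO.mono h1) j x hx.1 hxW hx.2.2
        exact ⟨N, fun y hy hyx => hN y hy.1 hy.2.2 hyx⟩) h3
    refine ⟨F2, fun k => (k1 k).trans (h1 k), fun k hk => (k2 k hk).trans (h2 k hk), k3, ?_⟩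
    intro s' hs'
    rcases Finset.mem_insert.1 hs' with rfl | hs'
    · exact k4
    · rcases h4 s' hs' with h5 | h5
      · exact Or.inl fun x hx => h5 x ⟨hx.1, hx.2.1, fun i hi => k1 i (hx.2.2 i hi)⟩
      · exact Or.inr fun x hx => h5 x ⟨hx.1, hx.2.1, fun i hi => k1 i (hx.2.2 i hi)⟩

/-- the unit at block `k` -/
noncomputable def U (r : ℕ → ℕ) (k : ℕ) : ℕ := c r k * c r k + 1

theorem c_mono {j k : ℕ} (hr : ∀ k, 0 < r k) (hjk : j ≤ k) : c r j ≤ c r k := by
  apply Finset.card_le_card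
  intro u hu
  rw [Set.Finite.mem_toFinset] at hu ⊢
  refine ⟨fun i hi => ?_, fun i hi => hu.2 i (hjk.trans hi)⟩
  by_cases h : i < j
  · exact hu.1 i h
  · rw [hu.2 i (not_lt.1 h)]
    exact hr i

/-- the decision at level `j` -/
theorem decide1 (hr : ∀ k, 0 < r k) (W : Set (ℕ → L)) (j : ℕ) (F : ℕ → Set L)
    (hFQ : ∀ k, F k ⊆ Q r k) (hRO : RO r W F) (a : ℕ → ℕ)
    (hF : ∀ k, j ≤ k → Nm (2 ^ (a k + U r k)) (F k)) :
    ∃ F' : ℕ → Set L, (∀ k, F' k ⊆ F k) ∧ (∀ k < j, F' k = F k) ∧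
      (∀ k, j ≤ k → Nm (2 ^ (a k)) (F' k)) ∧ Dec r W F' j := by
  obtain ⟨F', h1, h2, h3, h4⟩ := lemC W j (Pre_finite r j).toFinset (fun s hs => by
    rw [Set.Finite.mem_toFinset] at hs
    exact hs.1) F hFQ hRO a (by
      intro k hk
      apply (hF k hk).anti
      apply Nat.pow_le_pow_right (by norm_num)
      have h5 : (Pre_finite r j).toFinset.card * c r k ≤ c r k * c r k :=
        Nat.mul_le_mul_right _ (c_mono hr hk)
      unfold U
      omega)
  refine ⟨F', h1, h2, h3, ?_⟩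
  intro x hx y hy hxy hxF hyF
  have hu : tr j x ∈ (Pre_finite r j).toFinset := by
    rw [Set.Finite.mem_toFinset]
    exact tr_mem fun i _ => hx i
  have hxK : x ∈ KK r (tr j x) j F' := ⟨hx, fun i hi => by simp only [tr, if_pos hi], hxF⟩
  have hyK : y ∈ KK r (tr j x) j F' := ⟨hy, fun i hi => by
    simp only [tr, if_pos hi]
    exact (hxy i hi).symm, hyF⟩
  rcases h4 _ hu with h5 | h5
  · exact ⟨fun _ => h5 y hyK, fun _ => h5 x hxK⟩
  · exact ⟨fun h => absurd h (h5 x hxK), fun h => absurd h (h5 y hyK)⟩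

end Pool.Agent.H752R3.Tow
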