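import Pool.Agent.H752R3.TowNorm

/-!
Fusion, the stage lemma and lower bounds.
-/

set_option autoImplicit false
set_option linter.all false

namespace Pool.Agent.H752R3.Tow

open Set Filter

variable {r : ℕ → ℕ}

/-- conditions -/
structure Cnd (r : ℕ → ℕ) (F : ℕ → Set L) (a : ℕ → ℕ) : Prop where
  sub : ∀ k, F k ⊆ Q r k
  nm : ∀ k, Nm (2 ^ a k) (F k)
  fat : ∀ i, ∃ k0, ∀ k, k0 ≤ k → i * U r k ≤ a k

theorem fusion (hr : ∀ k, 0 < r k) {F : ℕ → Set L} {a : ℕ → ℕ} (h : Cnd r F a)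
    (W : ℕ → Set (ℕ → L)) (hW : ∀ i, RO r (W i) F) :
    ∃ F' a', Cnd r F' a' ∧ (∀ k, F' k ⊆ F k) ∧ ∀ i N, ∃ l, N ≤ l ∧ Dec r (W i) F' l := by
  classical
  obtain ⟨j, hj, hjP⟩ := extraction_forall_of_eventually
    (P := fun n k => n < k ∧ ∀ k', k ≤ k' → 2 * (n + 1) * U r k' ≤ a k') (by
    intro n
    obtain ⟨k0, hk0⟩ := h.fat (2 * (n + 1))
    filter_upwards [eventually_gt_atTop n, eventually_ge_atTop k0] with k h1 h2
    exact ⟨h1, fun k' hk' => hk0 k' (h2.trans hk')⟩)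
  let good : ℕ → (ℕ → Set L) → (ℕ → Set L) → Prop := fun t G G' =>
    (∀ k, G' k ⊆ G k) ∧ (∀ k < j t, G' k = G k) ∧
      (∀ k, j t ≤ k → Nm (2 ^ (a k - (t + 1) * U r k)) (G' k)) ∧
      Dec r (W t.unpair.1) G' (j t)
  let inv : ℕ → (ℕ → Set L) → Prop := fun t G => (∀ k, G k ⊆ F k) ∧
    (∀ k, Nm (2 ^ (a k - t * U r k)) (G k)) ∧ ∀ k, Nm (2 ^ (a k / 2)) (G k)
  have hstep : ∀ t G, inv t G → ∃ G', good t G G' := by
    intro t G hG
    apply decide1 hr (W _) (j t) G (fun k => (hG.1 k).trans (h.sub k)) ((hW _).mono hG.1)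
      (fun k => a k - (t + 1) * U r k)
    intro k hk
    have h1 := (hjP t).2 k hk
    apply (hG.2.1 k).anti
    apply Nat.pow_le_pow_right (by norm_num)
    have h2 : (t + 1) * U r k = t * U r k + U r k := by ring
    have h3 : 2 * (t + 1) * U r k = 2 * (t * U r k) + 2 * U r k := by ring
    change a k - (t + 1) * U r k + U r k ≤ a k - t * U r k
    rw [h3] at h1
    rw [h2]
    omega
  let Gs : ℕ → ℕ → Set L := fun t => Nat.rec (motive := fun _ => ℕ → Set L) F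
    (fun t G => if h : ∃ G', good t G G' then h.choose else G) t
  have hgood : ∀ t, inv t (Gs t) → good t (Gs t) (Gs (t + 1)) := by
    intro t ht
    have h1 := hstep t (Gs t) ht
    have h2 : Gs (t + 1) = h1.choose := dif_pos h1
    rw [h2]
    exact h1.choose_spec
  have hinv : ∀ t, inv t (Gs t) := by
    intro t
    induction t with
    | zero =>
      refine ⟨fun k => Subset.rfl, fun k => ?_, fun k => ?_⟩
      · change Nm (2 ^ (a k - 0 * U r k)) (F k)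
        rw [Nat.zero_mul, Nat.sub_zero]
        exact h.nm k
      · exact (h.nm k).anti (Nat.pow_le_pow_right (by norm_num) (Nat.div_le_self _ _))
    | succ t ih =>
      obtain ⟨g1, g2, g3, g4⟩ := hgood t ih
      refine ⟨fun k => (g1 k).trans (ih.1 k), fun k => ?_, fun k => ?_⟩
      · by_cases hk : k < j t
        · rw [g2 k hk]
          refine (ih.2.1 k).anti (Nat.pow_le_pow_right (by norm_num) ?_)
          have h2 : (t + 1) * U r k = t * U r k + U r k := by ring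
          omega
        · exact g3 k (not_lt.1 hk)
      · by_cases hk : k < j t
        · rw [g2 k hk]
          exact ih.2.2 k
        · refine (g3 k (not_lt.1 hk)).anti (Nat.pow_le_pow_right (by norm_num) ?_)
          have h1 := (hjP t).2 k (not_lt.1 hk)
          have h3 : 2 * (t + 1) * U r k = 2 * ((t + 1) * U r k) := by ring
          omega
  have hdecr : ∀ t t', t ≤ t' → ∀ k, Gs t' k ⊆ Gs t k := by
    intro t t' htt
    induction t', htt using Nat.le_induction with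
    | base => intro k; exact Subset.rfl
    | succ n _ ih => intro k; exact ((hgood n (hinv n)).1 k).trans (ih k)
  have hstab : ∀ k t, k ≤ t → Gs t k = Gs k k := by
    intro k t hkt
    induction t, hkt using Nat.le_induction with
    | base => rfl
    | succ n hn ih =>
      rw [(hgood n (hinv n)).2.1 k (lt_of_le_of_lt hn (hjP n).1)]
      exact ih
  have hlim : ∀ t k, Gs k k ⊆ Gs t k := by
    intro t k
    rcases le_total t k with h1 | h1
    · exact hdecr t k h1 k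
    · rw [hstab k t h1]
  refine ⟨fun k => Gs k k, fun k => a k / 2, ⟨?_, ?_, ?_⟩, ?_, ?_⟩
  · intro k
    exact ((hinv k).1 k).trans (h.sub k)
  · intro k
    exact (hinv k).2.2 k
  · intro i
    obtain ⟨k0, hk0⟩ := h.fat (2 * i)
    refine ⟨k0, fun k hk => ?_⟩
    have h1 := hk0 k hk
    have h2 : 2 * i * U r k = 2 * (i * U r k) := by ring
    change i * U r k ≤ a k / 2
    omega
  · intro k
    exact (hinv k).1 k
  · intro i N
    refine ⟨j (Nat.pair i N), ?_, ?_⟩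
    · exact (Nat.right_le_pair i N).trans (hjP _).1.le
    · have h1 := (hgood _ (hinv (Nat.pair i N))).2.2.2
      rw [Nat.unpair_pair] at h1
      exact h1.mono (hlim (Nat.pair i N + 1))

/-- open sets of points -/
def OpZ (W : Set (ℕ → L)) : Prop := ∀ x ∈ W, ∃ N, ∀ y : ℕ → L, (∀ i < N, y i = x i) → y ∈ W

/-- decided at arbitrarily large levels -/
def DecI (r : ℕ → ℕ) (W : Set (ℕ → L)) (F : ℕ → Set L) : Prop := ∀ N, ∃ l, N ≤ l ∧ Dec r W F l

theorem DecI.ro {W : Set (ℕ → L)} {F : ℕ → Set L} (h : DecI r W F) : RO r W F := by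
  intro j x hx hxW hxF
  obtain ⟨l, hl, hd⟩ := h j
  exact ⟨l, fun y hy hyF hyx => (hd x hx y hy (fun i hi => (hyx i hi).symm)
    (fun i hi => hxF i (hl.trans hi)) (fun i hi => hyF i (hl.trans hi))).1 hxW⟩

theorem DecI.compl {W : Set (ℕ → L)} {F : ℕ → Set L} (h : DecI r W F) : DecI r Wᶜ F := by
  intro N
  obtain ⟨l, hl, hd⟩ := h N
  exact ⟨l, hl, fun x hx y hy hxy h1 h2 => not_congr (hd x hx y hy hxy h1 h2)⟩

theorem DecI.mono {W : Set (ℕ → L)} {F G : ℕ → Set L} (h : DecI r W F) (hG : ∀ k, G k ⊆ F k) :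
    DecI r W G := by
  intro N
  obtain ⟨l, hl, hd⟩ := h N
  exact ⟨l, hl, hd.mono hG⟩

/-- the stage lemma -/
theorem stageL (hr : ∀ k, 0 < r k) {F : ℕ → Set L} {a : ℕ → ℕ} (h : Cnd r F a)
    {X0 : Set (ℕ → L)} (hX0 : X0.Countable) (O : ℕ → ℕ → Set (ℕ → L)) (hO : ∀ n m, OpZ (O n m))
    (hX : ∀ x ∈ X0, ∀ n, ∃ M, ∀ m, M ≤ m → x ∈ O n m) :
    ∃ F' a', Cnd r F' a' ∧ (∀ k, F' k ⊆ F k) ∧
      ((∃ l, ∃ s ∈ ZQ r, ∀ x ∈ ZQ r, (∀ i < l, x i = s i) → (∀ i, l ≤ i → x i ∈ F' i) →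
          ∃ n, ∀ M, ∃ m, M ≤ m ∧ x ∉ O n m) ∨
        (∃ m : ℕ → ℕ, ∀ x, (x ∈ X0 ∨ (x ∈ ZQ r ∧ ∃ k0, ∀ i, k0 ≤ i → x i ∈ F' i)) →
          ∃ n0, ∀ n, n0 ≤ n → x ∈ O n (m n))) := by
  classical
  obtain ⟨F1, a1, h1, s1, d1⟩ := fusion hr h (fun i => O i.unpair.1 i.unpair.2) (by
    intro i j x _ hxW _
    obtain ⟨N, hN⟩ := hO _ _ x hxW
    exact ⟨N, fun y _ _ hyx => hN y hyx⟩)
  have D1 : ∀ n m, DecI r (O n m) F1 := by
    intro n m
    have := d1 (Nat.pair n m)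
    simp only [Nat.unpair_pair] at this
    exact this
  let V : ℕ → ℕ → Set (ℕ → L) := fun n M => {x | ∃ m, M ≤ m ∧ x ∉ O n m}
  have hVRO : ∀ n M, RO r (V n M) F1 := by
    rintro n M j x hx ⟨m, hm, hxm⟩ hxF
    obtain ⟨N, hN⟩ := (D1 n m).compl.ro j x hx hxm hxF
    exact ⟨N, fun y hy hyF hyx => ⟨m, hm, hN y hy hyF hyx⟩⟩
  obtain ⟨F2, a2, h2, s2, d2⟩ := fusion hr h1 (fun i => V i.unpair.1 i.unpair.2)
    (fun i => hVRO _ _)
  have D2 : ∀ n M, DecI r (V n M) F2 := by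
    intro n M
    have := d2 (Nat.pair n M)
    simp only [Nat.unpair_pair] at this
    exact this
  let B : ℕ → Set (ℕ → L) := fun n => {x | ∀ M, x ∈ V n M}
  have hBRO : ∀ n, RO r (B n)ᶜ F2 := by
    intro n j x hx hxB hxF
    have hxB' : ∃ M, x ∉ V n M := by
      by_contra hcon
      push Not at hcon
      exact hxB hcon
    obtain ⟨M, hM⟩ := hxB'
    obtain ⟨N, hN⟩ := (D2 n M).compl.ro j x hx hM hxF
    exact ⟨N, fun y hy hyF hyx hyB => hN y hy hyF hyx (hyB M)⟩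
  obtain ⟨F3, a3, h3, s3, d3⟩ := fusion hr h2 (fun n => (B n)ᶜ) hBRO
  refine ⟨F3, a3, h3, fun k => ((s3 k).trans (s2 k)).trans (s1 k), ?_⟩
  by_cases hB : ∃ n, ∃ x ∈ ZQ r, (∃ k0, ∀ i, k0 ≤ i → x i ∈ F3 i) ∧ x ∈ B n
  · left
    obtain ⟨n, x, hx, ⟨k0, hk0⟩, hxB⟩ := hB
    obtain ⟨l, hl, hd⟩ := d3 n k0
    refine ⟨l, x, hx, ?_⟩
    intro y hy hyx hyF
    have h4 := hd x hx y hy (fun i hi => (hyx i hi).symm) (fun i hi => hk0 i (hl.trans hi)) hyF
    have h5 : y ∈ B n := by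
      by_contra hcon
      exact (h4.2 hcon) hxB
    exact ⟨n, h5⟩
  · right
    have hM : ∀ n, ∃ M, ∀ x ∈ ZQ r, (∀ i, n ≤ i → x i ∈ F3 i) → ∀ m, M ≤ m → x ∈ O n m := by
      intro n
      by_contra hcon
      push Not at hcon
      choose x hx hxF m hm hxm using hcon
      let U : Ultrafilter ℕ := hyperfilter ℕ
      have hU : ∀ n : ℕ, ∀ᶠ N in (U : Filter ℕ), n ≤ N := by
        intro n
        have h1 : (U : Filter ℕ) ≤ atTop := Nat.hyperfilter_le_atTop
        exact h1 (eventually_ge_atTop n)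
      have hlim : ∀ k, ∃ t ∈ Q r k, ∀ᶠ M in (U : Filter ℕ), x M k = t := fun k =>
        exists_lim U (Q_finite r k) (fun M => x M k) (Eventually.of_forall fun M => hx M k)
      choose y hyQ hy using hlim
      have hyF : ∀ i, n ≤ i → y i ∈ F3 i := by
        intro i hi
        obtain ⟨M, hM⟩ := (hy i).exists
        rw [← hM]
        exact hxF M i hi
      have hyB : ∃ M, y ∉ V n M := by
        by_contra hcon
        push Not at hcon
        exact hB ⟨n, y, hyQ, ⟨n, hyF⟩, hcon⟩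
      obtain ⟨M0, hM0⟩ := hyB
      obtain ⟨l, hl, hd⟩ := ((D2 n M0).mono s3) n
      have h5 : ∀ᶠ M in (U : Filter ℕ), ∀ i < l, x M i = y i := by
        have h6 := (finite_lt_nat l).eventually_all (l := (U : Filter ℕ))
          (p := fun i M => x M i = y i)
        exact h6.2 fun i _ => hy i
      obtain ⟨M, hMx, hMM⟩ := (h5.and (hU M0)).exists
      apply hM0
      rw [← hd (x M) (hx M) y hyQ hMx (fun i hi => hxF M i (hl.trans hi))
        (fun i hi => hyF i (hl.trans hi))]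
      exact ⟨m M, hMM.trans (hm M), hxm M⟩
    choose M hM using hM
    obtain ⟨f, hf⟩ : ∃ f : ℕ → ℕ → L, X0 ⊆ range f := by
      rcases X0.eq_empty_or_nonempty with h0 | h0
      · exact ⟨fun _ _ => [], by rw [h0]; exact empty_subset _⟩
      · obtain ⟨f, hf⟩ := hX0.exists_eq_range h0
        exact ⟨f, hf.subset⟩
    have hT : ∀ x n, ∃ T, x ∈ X0 → ∀ m, T ≤ m → x ∈ O n m := by
      intro x n
      by_cases hx : x ∈ X0
      · obtain ⟨T, hT⟩ := hX x hx n
        exact ⟨T, fun _ => hT⟩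
      · exact ⟨0, fun h => absurd h hx⟩
    choose T hT using hT
    refine ⟨fun n => M n + ∑ i ∈ Finset.range (n + 1), T (f i) n, ?_⟩
    rintro x (hx | ⟨hx, k0, hk0⟩)
    · obtain ⟨i, rfl⟩ := hf hx
      refine ⟨i, fun n hn => hT _ _ hx _ ?_⟩
      have h6 : T (f i) n ≤ ∑ i ∈ Finset.range (n + 1), T (f i) n :=
        Finset.single_le_sum (f := fun i => T (f i) n) (fun _ _ => Nat.zero_le _)
          (Finset.mem_range.2 (by omega))
      exact h6.trans (Nat.le_add_left _ _)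
    · exact ⟨k0, fun n hn => hM n x hx (fun i hi => hk0 i (hn.trans hi)) _ (Nat.le_add_right _ _)⟩

/-- lower bounds of sequences -/
theorem lower_seq (F : ℕ → ℕ → Set L) (a : ℕ → ℕ → ℕ) (h : ∀ n, Cnd r (F n) (a n))
    (hch : ∀ m n, m ≤ n → ∃ k0, ∀ k, k0 ≤ k → F n k ⊆ F m k) :
    ∃ G b, Cnd r G b ∧ ∀ n, ∃ k0, ∀ k, k0 ≤ k → G k ⊆ F n k := by
  classical
  choose kc hkc using hch
  obtain ⟨kk, hkk, hP⟩ := extraction_forall_of_eventually
    (P := fun n k => ∀ k', k ≤ k' → (∀ m, ∀ h : m ≤ n, F n k' ⊆ F m k') ∧ n * U r k' ≤ a n k') (by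
    intro n
    obtain ⟨k0, hk0⟩ := (h n).fat n
    have h1 : ∀ᶠ k in atTop, ∀ m ∈ {m | m ≤ n}, ∀ h : m ≤ n, kc m n h ≤ k := by
      rw [(finite_le_nat n).eventually_all]
      intro m hm
      filter_upwards [eventually_ge_atTop (kc m n hm)] with k hk h
      exact hk
    filter_upwards [h1, eventually_ge_atTop k0] with k h2 h3 k' hk'
    exact ⟨fun m hm => hkc m n hm k' ((h2 m hm hm).trans hk'), hk0 k' (h3.trans hk')⟩)
  let nn : ℕ → ℕ := fun k => Nat.findGreatest (fun n => kk n ≤ k) k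
  have hnn : ∀ n k, kk n ≤ k → n ≤ nn k ∧ kk (nn k) ≤ k := by
    intro n k hk
    have h1 : n ≤ k := hkk.le_apply.trans hk
    exact ⟨Nat.le_findGreatest h1 hk, Nat.findGreatest_spec (P := fun n => kk n ≤ k) h1 hk⟩
  refine ⟨fun k => F (nn k) k, fun k => a (nn k) k, ⟨fun k => (h _).sub k, fun k => (h _).nm k, ?_⟩, ?_⟩
  · intro i
    refine ⟨kk i, fun k hk => ?_⟩
    obtain ⟨h1, h2⟩ := hnn i k hk
    exact (Nat.mul_le_mul_right _ h1).trans (hP (nn k) k h2).2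
  · intro n
    refine ⟨kk n, fun k hk => ?_⟩
    obtain ⟨h1, h2⟩ := hnn n k hk
    exact (hP (nn k) k h2).1 n h1

/-- roots -/
theorem exists_root {F : ℕ → Set L} {a : ℕ → ℕ} (h : Cnd r F a) :
    ∃ F' : ℕ → Set L, ∃ t : ℕ → L, Cnd r F' a ∧ (∀ k, F' k ⊆ F k) ∧ (∀ k, t k ∈ F' k) ∧
      ∀ k, ∀ y ∈ F' k, t k <+: y := by
  have h1 : ∀ k, ∃ t ∈ F k, Nm (2 ^ a k) {y | y ∈ F k ∧ t <+: y} := by
    intro k
    have h2 := h.nm k
    obtain ⟨s, hs⟩ : ∃ s, 2 ^ a k = s + 1 := ⟨2 ^ a k - 1, by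
      have := Nat.one_le_two_pow (n := a k); omega⟩
    rw [hs] at h2 ⊢
    obtain ⟨t, ht, v, hv, h3, h4⟩ := h2
    refine ⟨t, ht, t, ⟨ht, List.prefix_rfl⟩, v, hv, ?_, ?_⟩
    · refine Nm.mono ?_ h3
      rintro y ⟨hy, hvy⟩
      exact ⟨⟨hy, hv.trans ((List.prefix_append v [false]).trans hvy)⟩, hvy⟩
    · refine Nm.mono ?_ h4
      rintro y ⟨hy, hvy⟩
      exact ⟨⟨hy, hv.trans ((List.prefix_append v [true]).trans hvy)⟩, hvy⟩
  choose t ht hnm using h1
  exact ⟨fun k => {y | y ∈ F k ∧ t k <+: y}, t,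
    ⟨fun k y hy => h.sub k hy.1, hnm, h.fat⟩, fun k y hy => hy.1,
    fun k => ⟨ht k, List.prefix_rfl⟩, fun k y hy => hy.2⟩

/-- incomparable members -/
theorem exists_pair {F : Set L} (h : Nm 2 F) (l : L) :
    ∃ y ∈ F, ∃ y' ∈ F, ¬ y <+: y' ∧ ¬ y' <+: y ∧ ¬ y <+: l := by
  obtain ⟨t, ht, v, hv, ⟨y0, hy0, -⟩, ⟨y1, hy1, -⟩⟩ := h
  have key : ∀ w : L, v ++ [false] <+: w → ¬ v ++ [true] <+: w := by
    intro w h1 h2
    have h3 := List.prefix_of_prefix_length_le h1 h2 (by simp)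
    have h4 := h3.eq_of_length (by simp)
    have h5 := List.append_cancel_left h4
    simp at h5
  have hinc1 : ¬ y0 <+: y1 := fun h => key y1 (hy0.2.trans h) hy1.2
  have hinc2 : ¬ y1 <+: y0 := fun h => key y0 hy0.2 (hy1.2.trans h)
  by_cases hl : y0 <+: l
  · have hl1 : ¬ y1 <+: l := fun h => key l (hy0.2.trans hl) (hy1.2.trans h)
    exact ⟨y1, hy1.1, y0, hy0.1, hinc2, hinc1, hl1⟩
  · exact ⟨y0, hy0.1, y1, hy1.1, hinc1, hinc2, hl⟩

theorem c_eq (r : ℕ → ℕ) (k : ℕ) : c r k = (Pre r k).ncard := by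
  unfold c
  rw [Set.ncard_eq_toFinset_card _ (Pre_finite r k)]

theorem U_congr {r r' : ℕ → ℕ} {k : ℕ} (h : ∀ j < k, r j = r' j) : U r k = U r' k := by
  have h1 : Pre r k = Pre r' k := by
    ext u
    constructor
    · rintro ⟨h2, h3⟩
      exact ⟨fun j hj => by have := h2 j hj; unfold Q at this ⊢; rw [← h j hj]; exact this, h3⟩
    · rintro ⟨h2, h3⟩
      exact ⟨fun j hj => by have := h2 j hj; unfold Q at this ⊢; rw [h j hj]; exact this, h3⟩
  unfold U
  rw [c_eq, c_eq, h1]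

/-- the growth of the blocks -/
theorem exists_r : ∃ r : ℕ → ℕ, (∀ k, 2 ≤ r k) ∧ Cnd r (Q r) (fun k => k * U r k) := by
  let R : ℕ → ℕ → ℕ := fun k => Nat.rec (motive := fun _ => ℕ → ℕ) (fun _ => 0)
    (fun k s i => if i = k then 2 ^ (k * U s k) + 2 else s i) k
  have hR : ∀ k i, R (k + 1) i = if i = k then 2 ^ (k * U (R k) k) + 2 else R k i := fun k i => rfl
  let r : ℕ → ℕ := fun k => R (k + 1) k
  have hr : ∀ k, r k = 2 ^ (k * U (R k) k) + 2 := by
    intro k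
    change R (k + 1) k = _
    rw [hR, if_pos rfl]
  have hRr : ∀ k, ∀ j < k, R k j = r j := by
    intro k
    induction k with
    | zero => intro j hj; omega
    | succ k ih =>
      intro j hj
      rw [hR]
      by_cases h : j = k
      · subst h
        rw [if_pos rfl, hr]
      · rw [if_neg h]
        exact ih j (by omega)
  have hUr : ∀ k, U (R k) k = U r k := fun k => U_congr (hRr k)
  refine ⟨r, fun k => by rw [hr]; exact Nat.le_add_left _ _, ⟨fun k => Subset.rfl, fun k => ?_, fun i => ⟨i, fun k hk => ?_⟩⟩⟩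
  · have h1 := Nm.full (r k) []
    have h2 : Nm (r k) (Q r k) := Nm.mono (by
      rintro y ⟨_, hy⟩
      change y.length < r k
      simpa using hy) h1
    apply h2.anti
    rw [hr, hUr]
    omega
  · exact Nat.mul_le_mul_right _ hk

end Pool.Agent.H752R3.Tow
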