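import Pool.Agent.H752R3.TowStage

/-!
The tower.
-/

set_option autoImplicit false
set_option linter.all false

namespace Pool.Agent.H752R3.Tow

open Set Filter

variable {r : ℕ → ℕ}

/-- the data of a stage -/
structure Dt where
  F : ℕ → Set L
  a : ℕ → ℕ
  t : ℕ → L
  x : ℕ → L
  x' : ℕ → L
  z : ℕ → L

/-- tasks -/
abbrev Tk : Type := (ℕ → ℕ → Set (List L)) × (ℕ → ℕ) × (ℕ → L)

/-- the open set coded by `S` -/
def opn (S : Set (List L)) : Set (ℕ → L) := {x | ∃ l ∈ S, (List.range l.length).map x = l}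

theorem opn_op (S : Set (List L)) : OpZ (opn S) := by
  rintro x ⟨l, hl, hx⟩
  refine ⟨l.length, fun y hy => ⟨l, hl, ?_⟩⟩
  rw [← hx]
  have e : ((List.range l.length).map x).length = l.length := by rw [hx]
  rw [e]
  apply List.map_congr_left
  intro i hi
  exact hy i (List.mem_range.1 hi)

theorem exists_code {W : Set (ℕ → L)} (hW : OpZ W) : ∃ S, opn S = W := by
  refine ⟨{l | ∀ y : ℕ → L, (List.range l.length).map y = l → y ∈ W}, ?_⟩
  ext x
  constructor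
  · rintro ⟨l, hl, hx⟩
    exact hl x hx
  · intro hx
    obtain ⟨N, hN⟩ := hW x hx
    refine ⟨(List.range N).map x, ?_, ?_⟩
    · intro y hy
      apply hN
      intro i hi
      have e : ((List.range N).map x).length = N := by simp
      rw [e] at hy
      exact List.map_inj_left.1 hy i (List.mem_range.2 hi)
    · simp

section Rec

variable {I : Type} [LinearOrder I] [WellFoundedLT I]

/-- the points constructed before stage `i` -/
def before (i : I) (prev : (j : I) → j < i → Dt) : Set (ℕ → L) :=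
  {y | ∃ (j : I) (h : j < i), y = (prev j h).x ∨ y = (prev j h).x' ∨ y = (prev j h).z}

theorem countable_before {i : I} (hI : (Iio i).Countable) (prev : (j : I) → j < i → Dt) :
    (before i prev).Countable := by
  have : Countable (Iio i) := hI.to_subtype
  have h1 : before i prev ⊆ ⋃ j : Iio i, {(prev j.1 j.2).x, (prev j.1 j.2).x', (prev j.1 j.2).z} := by
    rintro z ⟨j, h, hz⟩
    refine mem_iUnion.2 ⟨⟨j, h⟩, ?_⟩
    simpa using hz
  exact (countable_iUnion (fun j => (Set.toFinite _).countable)).mono h1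

/-- the requirement -/
def Req (r : ℕ → ℕ) (T : I → Tk) (i : I) (prev : (j : I) → j < i → Dt) (D : Dt) : Prop :=
  Cnd r D.F D.a ∧ (∀ (j : I) (h : j < i), ∃ k0, ∀ k, k0 ≤ k → D.F k ⊆ (prev j h).F k) ∧
  (∀ k, ∀ y ∈ D.F k, D.t k <+: y) ∧ (∀ k, D.t k ∈ D.F k) ∧
  (D.x ∈ ZQ r ∧ D.x' ∈ ZQ r ∧ D.z ∈ ZQ r) ∧
  (∃ k0, ∀ k, k0 ≤ k → D.x k ∈ D.F k ∧ D.x' k ∈ D.F k ∧ D.z k ∈ D.F k) ∧
  (∀ n, ∃ k0, ∀ k, k0 ≤ k → k.unpair.1 = n → D.x k = D.t k ∧ D.x' k = D.t k ∧ D.z k = D.t k) ∧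
  (∀ k, k ≤ (T i).2.1 k.unpair.1 →
    ¬ D.x k <+: D.x' k ∧ ¬ D.x' k <+: D.x k ∧ ¬ D.x k <+: (T i).2.2 k) ∧
  ((∀ y ∈ before i prev, ∀ n, ∃ M, ∀ m, M ≤ m → y ∈ opn ((T i).1 n m)) →
    (∃ n, ∀ M, ∃ m, M ≤ m ∧ D.z ∉ opn ((T i).1 n m)) ∨
    ∃ m : ℕ → ℕ, ∀ y, (y ∈ before i prev ∨ (y ∈ ZQ r ∧ ∃ k0, ∀ k, k0 ≤ k → y k ∈ D.F k)) →
      ∃ n0, ∀ n, n0 ≤ n → y ∈ opn ((T i).1 n (m n)))

theorem exists_req (hr : ∀ k, 2 ≤ r k) (T : I → Tk) (i : I) (prev : (j : I) → j < i → Dt)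
    (hI : (Iio i).Countable) {G : ℕ → Set L} {b : ℕ → ℕ} (hG : Cnd r G b)
    (hGp : ∀ (j : I) (h : j < i), ∃ k0, ∀ k, k0 ≤ k → G k ⊆ (prev j h).F k) :
    ∃ D, Req r T i prev D := by
  classical
  have hr0 : ∀ k, 0 < r k := fun k => lt_of_lt_of_le (by norm_num) (hr k)
  obtain ⟨F1, a1, h1, s1, alt⟩ : ∃ F1 a1, Cnd r F1 a1 ∧ (∀ k, F1 k ⊆ G k) ∧
      ((∀ y ∈ before i prev, ∀ n, ∃ M, ∀ m, M ≤ m → y ∈ opn ((T i).1 n m)) →
        ((∃ l, ∃ s ∈ ZQ r, ∀ x ∈ ZQ r, (∀ i < l, x i = s i) → (∀ i, l ≤ i → x i ∈ F1 i) →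
          ∃ n, ∀ M, ∃ m, M ≤ m ∧ x ∉ opn ((T i).1 n m)) ∨
        (∃ m : ℕ → ℕ, ∀ x, (x ∈ before i prev ∨ (x ∈ ZQ r ∧ ∃ k0, ∀ i, k0 ≤ i → x i ∈ F1 i)) →
          ∃ n0, ∀ n, n0 ≤ n → x ∈ opn ((T i).1 n (m n))))) := by
    by_cases H : ∀ y ∈ before i prev, ∀ n, ∃ M, ∀ m, M ≤ m → y ∈ opn ((T i).1 n m)
    · obtain ⟨F', a', k1, k2, k3⟩ := stageL hr0 hG (countable_before hI prev)
        (fun n m => opn ((T i).1 n m)) (fun n m => opn_op _) H
      exact ⟨F', a', k1, k2, fun _ => k3⟩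
    · exact ⟨G, b, hG, fun k => Subset.rfl, fun h => absurd h H⟩
  obtain ⟨F2, t, h2, s2, ht, htr⟩ := exists_root h1
  obtain ⟨k1, hk1⟩ := h1.fat 1
  let E : ℕ → Set L := fun k => if k1 ≤ k then F2 k else Q r k
  have hE : ∀ k, Nm 2 (E k) := by
    intro k
    by_cases hk : k1 ≤ k
    · simp only [E, if_pos hk]
      apply (h2.nm k).anti
      have h3 := hk1 k hk
      have h4 : 1 ≤ U r k := by unfold U; omega
      have h5 : 1 ≤ a1 k := by omega
      calc 2 = 2 ^ 1 := rfl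
        _ ≤ 2 ^ a1 k := Nat.pow_le_pow_right (by norm_num) h5
    · simp only [E, if_neg hk]
      refine Nm.mono ?_ (Nm.full 2 [])
      rintro y ⟨_, hy⟩
      have h3 := hr k
      change y.length < r k
      have h4 : y.length < 2 := by simpa using hy
      omega
  have hEQ : ∀ k, E k ⊆ Q r k := by
    intro k
    by_cases hk : k1 ≤ k
    · simp only [E, if_pos hk]
      exact h2.sub k
    · simp only [E, if_neg hk]
      exact Subset.rfl
  have hp := fun k => exists_pair (hE k) ((T i).2.2 k)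
  choose p hpE p' hpE' hp1 hp2 hp3 using hp
  obtain ⟨l, s, hs, hz⟩ : ∃ l, ∃ s ∈ ZQ r,
      ((∀ y ∈ before i prev, ∀ n, ∃ M, ∀ m, M ≤ m → y ∈ opn ((T i).1 n m)) →
        ((∀ x ∈ ZQ r, (∀ i < l, x i = s i) → (∀ i, l ≤ i → x i ∈ F1 i) →
          ∃ n, ∀ M, ∃ m, M ≤ m ∧ x ∉ opn ((T i).1 n m)) ∨
        (∃ m : ℕ → ℕ, ∀ x, (x ∈ before i prev ∨ (x ∈ ZQ r ∧ ∃ k0, ∀ i, k0 ≤ i → x i ∈ F1 i)) →
          ∃ n0, ∀ n, n0 ≤ n → x ∈ opn ((T i).1 n (m n))))) := by
    have htQ : t ∈ ZQ r := fun k => h2.sub k (ht k)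
    by_cases H : ∀ y ∈ before i prev, ∀ n, ∃ M, ∀ m, M ≤ m → y ∈ opn ((T i).1 n m)
    · rcases alt H with ⟨l, s, hs, hl⟩ | hB
      · exact ⟨l, s, hs, fun _ => Or.inl hl⟩
      · exact ⟨0, t, htQ, fun _ => Or.inr hB⟩
    · exact ⟨0, t, htQ, fun h => absurd h H⟩
  let h : ℕ → ℕ := (T i).2.1
  let x : ℕ → L := fun k => if k ≤ h k.unpair.1 then p k else t k
  let x' : ℕ → L := fun k => if k ≤ h k.unpair.1 then p' k else t k
  let z : ℕ → L := fun k => if k < l then s k else t k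
  have hxE : ∀ k, k1 ≤ k → x k ∈ F2 k ∧ x' k ∈ F2 k := by
    intro k hk
    have e1 := hpE k
    have e2 := hpE' k
    simp only [E, if_pos hk] at e1 e2
    by_cases hkh : k ≤ h k.unpair.1
    · simp only [x, x', if_pos hkh]
      exact ⟨e1, e2⟩
    · simp only [x, x', if_neg hkh]
      exact ⟨ht k, ht k⟩
  have hxQ : x ∈ ZQ r ∧ x' ∈ ZQ r := by
    constructor
    · intro k
      by_cases hkh : k ≤ h k.unpair.1
      · simp only [x, if_pos hkh]
        exact hEQ k (hpE k)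
      · simp only [x, if_neg hkh]
        exact h2.sub k (ht k)
    · intro k
      by_cases hkh : k ≤ h k.unpair.1
      · simp only [x', if_pos hkh]
        exact hEQ k (hpE' k)
      · simp only [x', if_neg hkh]
        exact h2.sub k (ht k)
  have hzt : ∀ k, l ≤ k → z k = t k := fun k hk => if_neg (not_lt.2 hk)
  have hzs : ∀ k, k < l → z k = s k := fun k hk => if_pos hk
  have hzQ : z ∈ ZQ r := by
    intro k
    by_cases hk : k < l
    · rw [hzs k hk]; exact hs k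
    · rw [hzt k (not_lt.1 hk)]; exact h2.sub k (ht k)
  refine ⟨⟨F2, a1, t, x, x', z⟩, h2, ?_, htr, ht, ⟨hxQ.1, hxQ.2, hzQ⟩, ?_, ?_, ?_, ?_⟩
  · intro j hj
    obtain ⟨k0, hk0⟩ := hGp j hj
    exact ⟨k0, fun k hk => ((s2 k).trans (s1 k)).trans (hk0 k hk)⟩
  · refine ⟨max k1 l, fun k hk => ?_⟩
    have hk1' := (le_max_left _ _).trans hk
    have hkl := (le_max_right _ _).trans hk
    refine ⟨(hxE k hk1').1, (hxE k hk1').2, ?_⟩
    change z k ∈ F2 k
    rw [hzt k hkl]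
    exact ht k
  · intro n
    refine ⟨max (h n + 1) l, fun k hk hkn => ?_⟩
    have hk1' := (le_max_left _ _).trans hk
    have hkl := (le_max_right _ _).trans hk
    have hkh : ¬ k ≤ h k.unpair.1 := by rw [hkn]; omega
    refine ⟨?_, ?_, hzt k hkl⟩
    · simp only [x, if_neg hkh]
    · simp only [x', if_neg hkh]
  · intro k hk
    have hkh : k ≤ h k.unpair.1 := hk
    have e1 : x k = p k := if_pos hkh
    have e2 : x' k = p' k := if_pos hkh
    change ¬ x k <+: x' k ∧ ¬ x' k <+: x k ∧ ¬ x k <+: (T i).2.2 k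
    rw [e1, e2]
    exact ⟨hp1 k, hp2 k, hp3 k⟩
  · intro H
    rcases hz H with hA | ⟨m, hm⟩
    · left
      apply hA z hzQ (fun k hk => hzs k hk)
      intro k hk
      rw [hzt k hk]
      exact s2 k (ht k)
    · right
      refine ⟨m, fun y hy => hm y ?_⟩
      rcases hy with hy | ⟨hyQ, k0, hk0⟩
      · exact Or.inl hy
      · exact Or.inr ⟨hyQ, k0, fun k hk => s2 k (hk0 k hk)⟩

theorem exists_lower {i : I} (hI : (Iio i).Countable) (hfull : ∃ b, Cnd r (Q r) b)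
    (prev : (j : I) → j < i → Dt) (hc : ∀ j h, Cnd r (prev j h).F (prev j h).a)
    (hch : ∀ j k (hj : j < i) (hk : k < i), j ≤ k →
      ∃ k0, ∀ m, k0 ≤ m → (prev k hk).F m ⊆ (prev j hj).F m) :
    ∃ G b, Cnd r G b ∧ ∀ (j : I) (h : j < i), ∃ k0, ∀ k, k0 ≤ k → G k ⊆ (prev j h).F k := by
  classical
  rcases isEmpty_or_nonempty (Iio i) with he | hne
  · obtain ⟨b, hb⟩ := hfull
    exact ⟨Q r, b, hb, fun j h => (he.false ⟨j, h⟩).elim⟩
  · have : Countable (Iio i) := hI.to_subtype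
    obtain ⟨e, he⟩ := exists_surjective_nat (Iio i)
    obtain ⟨G, b, hG, hGn⟩ := lower_seq
      (fun n => (prev (partialSups e n).1 (partialSups e n).2).F)
      (fun n => (prev (partialSups e n).1 (partialSups e n).2).a)
      (fun n => hc _ _) (fun m n hmn => hch _ _ _ _ ((partialSups e).monotone hmn))
    refine ⟨G, b, hG, fun j h => ?_⟩
    obtain ⟨n, hn⟩ := he ⟨j, h⟩
    obtain ⟨k0, hk0⟩ := hGn n
    have h1 : j ≤ (partialSups e n).1 := by
      have h2 := le_partialSups e n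
      rw [hn] at h2
      exact h2
    obtain ⟨k1, hk1⟩ := hch j _ h (partialSups e n).2 h1
    exact ⟨max k0 k1, fun k hk => (hk0 k ((le_max_left _ _).trans hk)).trans
      (hk1 k ((le_max_right _ _).trans hk))⟩

theorem exists_tower (hr : ∀ k, 2 ≤ r k) (hfull : ∃ b, Cnd r (Q r) b)
    (hI : ∀ i : I, (Iio i).Countable) (T : I → Tk) :
    ∃ D : I → Dt, ∀ i, Req r T i (fun j _ => D j) (D i) := by
  classical
  let d0 : Dt := ⟨fun _ => ∅, fun _ => 0, fun _ => [], fun _ => [], fun _ => [], fun _ => []⟩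
  let step : (i : I) → ((j : I) → j < i → Dt) → Dt := fun i prev =>
    if h : ∃ D, Req r T i prev D then h.choose else d0
  let D : I → Dt := WellFounded.fix (wellFounded_lt (α := I)) step
  have hD : ∀ i, D i = step i (fun j _ => D j) := fun i =>
    WellFounded.fix_eq (wellFounded_lt (α := I)) step i
  refine ⟨D, ?_⟩
  intro i
  induction i using WellFoundedLT.induction with
  | ind i ih =>
    have hex : ∃ D', Req r T i (fun j _ => D j) D' := by
      obtain ⟨G, b, hG, hGp⟩ := exists_lower (r := r) (hI i) hfull (fun j _ => D j)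
        (fun j h => (ih j h).1) (fun j k hj hk hjk => by
          rcases hjk.eq_or_lt with rfl | hlt
          · exact ⟨0, fun _ _ => Subset.rfl⟩
          · exact (ih k hk).2.1 j hlt)
      exact exists_req hr T i (fun j _ => D j) (hI i) hG hGp
    rw [hD i]
    simp only [step]
    rw [dif_pos hex]
    exact hex.choose_spec

end Rec

end Pool.Agent.H752R3.Tow
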